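import Pool.Agent.P.MP_e517ea_lc.Z.Int

/-!
Powers, division, logarithm, factorial in the natural numbers of the model. The names follow the
names in the namespace `Nat`.
-/

set_option synthInstance.maxSize 16384

namespace Pool.Agent.P.MP_e517ea_lc.Z

variable [ZU] {W : Type} [Coded W]

namespace Nn

variable {a b c d k m n : Nn}

protected theorem mul_le_mul (h : a ≤ c) (h' : b ≤ d) : a * b ≤ c * d := mul_le_mul' h h'
protected theorem mul_le_mul_left (k : Nn) (h : m ≤ n) : k * m ≤ k * n := by gcongr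
protected theorem mul_le_mul_right (k : Nn) (h : m ≤ n) : m * k ≤ n * k := by gcongr
protected theorem le_of_mul_le_mul_left (h : a * b ≤ a * c) (ha : 0 < a) : b ≤ c :=
  le_of_mul_le_mul_left h ha
protected theorem le_of_mul_le_mul_right (h : a * c ≤ b * c) (hc : 0 < c) : a ≤ b :=
  le_of_mul_le_mul_right h hc
protected theorem lt_of_mul_lt_mul_right (h : b * a < c * a) : b < c :=
  lt_of_mul_lt_mul_right h zero_le
protected theorem mul_lt_mul_of_le_of_lt (h : a ≤ c) (h' : b < d) (hc : 0 < c) : a * b < c * d :=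
  (Nn.mul_le_mul_right b h).trans_lt (mul_lt_mul_of_pos_left h' hc)
protected theorem le_mul_of_pos_left (m : Nn) (h : 0 < n) : m ≤ n * m :=
  le_mul_of_one_le_left zero_le (pos_iff_one_le.1 h)
protected theorem le_mul_of_pos_right (m : Nn) (h : 0 < n) : m ≤ m * n :=
  le_mul_of_one_le_right zero_le (pos_iff_one_le.1 h)
protected theorem le_add_left (n m : Nn) : n ≤ m + n := le_add_self
protected theorem le_add_right (n m : Nn) : n ≤ n + m := le_self_add
protected theorem add_le_add_left (h : m ≤ n) (k : Nn) : k + m ≤ k + n := by gcongr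
protected theorem add_le_add_right (h : m ≤ n) (k : Nn) : m + k ≤ n + k := by gcongr
protected theorem sub_add_cancel (h : m ≤ n) : n - m + m = n := tsub_add_cancel_of_le h
protected theorem add_sub_cancel_left (m n : Nn) : m + n - m = n := add_tsub_cancel_left m n
protected theorem add_sub_cancel (m n : Nn) : m + n - n = m := add_tsub_cancel_right m n
theorem succ_pos (n : Nn) : 0 < n + 1 := lt_succ_iff.2 zero_le
theorem lt_succ_of_le (h : m ≤ n) : m < n + 1 := lt_succ_iff.2 h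

theorem le_of_dvd (h : 0 < n) (h' : m ∣ n) : m ≤ n := by
  obtain ⟨k, rfl⟩ := h'
  exact Nn.le_mul_of_pos_right _ (pos_iff_ne_zero.2 fun e => by simp [e] at h)

protected theorem dvd_add_right (h : a ∣ b) : a ∣ b + c ↔ a ∣ c := by
  refine ⟨fun ⟨k, hk⟩ => ?_, dvd_add h⟩
  obtain ⟨j, rfl⟩ := h
  exact ⟨k - j, by rw [mul_tsub, ← hk, add_tsub_cancel_left]⟩

noncomputable instance : Pow Nn Nn := ⟨fun a n => recN 1 (fun _ x => x * a) n⟩

@[fun_prop] theorem defF_pow {f g : W → Nn} (hf : DefF f) (hg : DefF g) :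
    DefF (fun w => f w ^ g w) :=
  DefF.recN (a := fun _ => 1) (s := fun w _ x => x * f w) (by fun_prop) (by fun_prop) hg

@[simp] protected theorem pow_zero (a : Nn) : a ^ (0 : Nn) = 1 := recN_zero 1 (by fun_prop)

protected theorem pow_succ (a n : Nn) : a ^ (n + 1) = a ^ n * a := recN_succ 1 (by fun_prop) n

@[simp] protected theorem pow_one (a : Nn) : a ^ (1 : Nn) = a := by
  rw [← zero_add (1 : Nn), Nn.pow_succ, Nn.pow_zero, one_mul]

protected theorem pow_add (a m n : Nn) : a ^ (m + n) = a ^ m * a ^ n :=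
  induction (p := fun n => a ^ (m + n) = a ^ m * a ^ n) (by fun_prop) (by simp)
    (fun n ih => by rw [← add_assoc, Nn.pow_succ, Nn.pow_succ, ih, mul_assoc]) n

protected theorem mul_pow (a b n : Nn) : (a * b) ^ n = a ^ n * b ^ n :=
  induction (p := fun n => (a * b) ^ n = a ^ n * b ^ n) (by fun_prop) (by simp)
    (fun n ih => by rw [Nn.pow_succ, Nn.pow_succ, Nn.pow_succ, ih]; ring) n

protected theorem pow_mul (a m n : Nn) : a ^ (m * n) = (a ^ m) ^ n :=
  induction (p := fun n => a ^ (m * n) = (a ^ m) ^ n) (by fun_prop) (by simp)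
    (fun n ih => by rw [mul_add, mul_one, Nn.pow_add, Nn.pow_succ, ih]) n

@[simp] protected theorem one_pow (n : Nn) : (1 : Nn) ^ n = 1 :=
  induction (p := fun n => (1 : Nn) ^ n = 1) (by fun_prop) (by simp)
    (fun n ih => by rw [Nn.pow_succ, ih, mul_one]) n

protected theorem zero_pow (h : 0 < n) : (0 : Nn) ^ n = 0 := by
  obtain ⟨m, rfl⟩ := exists_eq_succ_of_pos h
  rw [Nn.pow_succ, mul_zero]

theorem pow_natCast (a : Nn) (k : ℕ) : a ^ (k : Nn) = a ^ k := by
  induction k with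
  | zero => simp
  | succ k ih => rw [Nat.cast_succ, Nn.pow_succ, ih, pow_succ]

theorem pow_ofNat (a : Nn) (k : ℕ) [k.AtLeastTwo] : a ^ (ofNat(k) : Nn) = a ^ (ofNat(k) : ℕ) :=
  pow_natCast a k

protected theorem pow_pos (h : 0 < a) : 0 < a ^ n :=
  induction (p := fun n => 0 < a ^ n) (by fun_prop) (by simp)
    (fun n ih => by rw [Nn.pow_succ]; exact mul_pos ih h) n

theorem two_pow_pos (n : Nn) : 0 < (2 : Nn) ^ n := Nn.pow_pos two_pos

protected theorem pow_le_pow_left (h : a ≤ b) (n : Nn) : a ^ n ≤ b ^ n :=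
  induction (p := fun n => a ^ n ≤ b ^ n) (by fun_prop) (by simp)
    (fun n ih => by rw [Nn.pow_succ, Nn.pow_succ]; exact Nn.mul_le_mul ih h) n

protected theorem pow_le_pow_right (ha : 0 < a) (h : m ≤ n) : a ^ m ≤ a ^ n := by
  obtain ⟨k, rfl⟩ := h
  rw [Nn.pow_add]
  exact Nn.le_mul_of_pos_right _ (Nn.pow_pos ha)

protected theorem pow_lt_pow_left (h : a < b) (hn : n ≠ 0) : a ^ n < b ^ n := by
  obtain ⟨m, rfl⟩ := exists_eq_succ_of_pos (pos_iff_ne_zero.2 hn)
  rw [Nn.pow_succ, Nn.pow_succ]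
  exact Nn.mul_lt_mul_of_le_of_lt (Nn.pow_le_pow_left h.le m) h (Nn.pow_pos (zero_le.trans_lt h))

protected theorem pow_lt_pow_right (ha : 1 < a) (h : m < n) : a ^ m < a ^ n := by
  refine lt_of_lt_of_le ?_ (Nn.pow_le_pow_right (zero_lt_one.trans ha) (lt_iff_add_one_le.1 h))
  rw [Nn.pow_succ]
  exact lt_mul_of_one_lt_right (Nn.pow_pos (zero_lt_one.trans ha)) ha

protected theorem pow_le_pow_iff_right (ha : 1 < a) : a ^ m ≤ a ^ n ↔ m ≤ n :=
  ⟨fun h => not_lt.1 fun h' => absurd h (not_le.2 (Nn.pow_lt_pow_right ha h')),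
    Nn.pow_le_pow_right (zero_lt_one.trans ha)⟩

protected theorem pow_le_pow_iff_left (hn : n ≠ 0) : a ^ n ≤ b ^ n ↔ a ≤ b :=
  ⟨fun h => not_lt.1 fun h' => absurd h (not_le.2 (Nn.pow_lt_pow_left h' hn)),
    fun h => Nn.pow_le_pow_left h n⟩

protected theorem one_le_pow (n a : Nn) (ha : 0 < a) : 1 ≤ a ^ n := pos_iff_one_le.1 (Nn.pow_pos ha)

protected theorem le_self_pow (hn : n ≠ 0) (a : Nn) : a ≤ a ^ n := by
  rcases eq_zero_or_pos a with rfl | ha
  · exact zero_le
  · simpa using Nn.pow_le_pow_right ha (one_le_iff_ne_zero.2 hn)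

theorem lt_two_pow_self : n < 2 ^ n :=
  induction (p := fun n => n < 2 ^ n) (by fun_prop) (by simp)
    (fun n ih => by rw [Nn.pow_succ]; zify at ih ⊢; grind) n

theorem one_lt_two_pow (hn : n ≠ 0) : 1 < (2 : Nn) ^ n := by
  simpa using Nn.pow_lt_pow_right one_lt_two (pos_iff_ne_zero.2 hn)

noncomputable instance : Div Nn := ⟨fun a b => uq 0 fun q => b * q ≤ a ∧ a < b * q + b⟩

@[fun_prop] theorem defF_div {f g : W → Nn} (hf : DefF f) (hg : DefF g) :
    DefF (fun w => f w / g w) :=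
  DefF.uq (x₀ := fun _ => (0 : Nn)) (R := fun w q => g w * q ≤ f w ∧ f w < g w * q + g w)
    (by fun_prop) (by fun_prop)

theorem div_unique {q q' : Nn} (h : b * q ≤ a ∧ a < b * q + b) (h' : b * q' ≤ a ∧ a < b * q' + b) :
    q' = q := by
  have key : ∀ {q q' : Nn}, b * q ≤ a → a < b * q' + b → q ≤ q' := fun h h' =>
    lt_succ_iff.1 (lt_of_mul_lt_mul_left (by rw [mul_add, mul_one]; exact h.trans_lt h') zero_le)
  exact (key h'.1 h.2).antisymm (key h.1 h'.2)

theorem div_spec (a : Nn) (hb : 0 < b) : b * (a / b) ≤ a ∧ a < b * (a / b) + b := by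
  obtain ⟨q, h1, h2⟩ := exists_max (p := fun q => b * q ≤ a) (by fun_prop) ⟨0, by simp⟩ (b := a)
    fun q h => (Nn.le_mul_of_pos_left q hb).trans h
  have h3 : b * q ≤ a ∧ a < b * q + b := ⟨h1, not_le.1 fun h =>
    absurd (h2 (q + 1) (by rwa [mul_add, mul_one])) (not_le.2 (lt_add_one q))⟩
  exact uq_spec 0 (p := fun q => b * q ≤ a ∧ a < b * q + b) ⟨q, h3, fun _ => div_unique h3⟩

protected theorem div_zero (a : Nn) : a / 0 = 0 := dif_neg fun ⟨_, h, _⟩ => by simp at h

protected theorem div_mul_le_self (a b : Nn) : a / b * b ≤ a := by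
  rcases eq_zero_or_pos b with rfl | hb
  · simp
  · exact mul_comm b _ ▸ (div_spec a hb).1

protected theorem lt_div_mul_add (hb : 0 < b) : a < a / b * b + b := mul_comm b _ ▸ (div_spec a hb).2

protected theorem div_le_self (a b : Nn) : a / b ≤ a := by
  rcases eq_zero_or_pos b with rfl | hb
  · rw [Nn.div_zero]; exact zero_le
  · exact (Nn.le_mul_of_pos_left _ hb).trans (div_spec a hb).1

protected theorem le_div_iff_mul_le (hb : 0 < b) : c ≤ a / b ↔ c * b ≤ a := by
  refine ⟨fun h => (Nn.mul_le_mul_right b h).trans (Nn.div_mul_le_self a b), fun h => ?_⟩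
  refine lt_succ_iff.1 (Nn.lt_of_mul_lt_mul_right (a := b) ?_)
  rw [add_mul, one_mul]
  exact h.trans_lt (Nn.lt_div_mul_add hb)

/-- The binary logarithm. -/
noncomputable def log2 (n : Nn) : Nn := uq 0 fun k => 2 ^ k ≤ n ∧ n < 2 ^ (k + 1)

theorem log2_spec (hn : n ≠ 0) : 2 ^ log2 n ≤ n ∧ n < 2 ^ (log2 n + 1) := by
  obtain ⟨q, h1, h2⟩ := exists_max (p := fun q => 2 ^ q ≤ n) (by fun_prop)
    ⟨0, by simpa using one_le_iff_ne_zero.2 hn⟩ (b := n) fun q h => lt_two_pow_self.le.trans h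
  have h3 : 2 ^ q ≤ n ∧ n < 2 ^ (q + 1) := ⟨h1, not_le.1 fun h =>
    absurd (h2 (q + 1) h) (not_le.2 (lt_add_one q))⟩
  have key : ∀ {q q' : Nn}, 2 ^ q ≤ n → n < 2 ^ (q' + 1) → q ≤ q' := fun h h' =>
    lt_succ_iff.1 (not_le.1 fun k =>
      absurd ((Nn.pow_le_pow_right two_pos k).trans h) (not_le.2 h'))
  exact uq_spec 0 (p := fun k => 2 ^ k ≤ n ∧ n < 2 ^ (k + 1))
    ⟨q, h3, fun _ h => (key h.1 h3.2).antisymm (key h3.1 h.2)⟩

theorem le_log2 (h : 2 ^ k ≤ n) : k ≤ log2 n :=
  lt_succ_iff.1 (not_le.1 fun h' => absurd ((Nn.pow_le_pow_right two_pos h').trans h)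
    (not_le.2 (log2_spec ((two_pow_pos k).trans_le h).ne').2))

/-- The factorial. -/
noncomputable def fact (n : Nn) : Nn := recN 1 (fun k x => (k + 1) * x) n

@[fun_prop] theorem defF_fact : DefF fact :=
  DefF.recN (a := fun _ => 1) (s := fun _ k x => (k + 1) * x) (by fun_prop) (by fun_prop) DefF.id

@[simp] theorem fact_zero : fact 0 = 1 := recN_zero 1 (by fun_prop)

theorem fact_succ (n : Nn) : fact (n + 1) = (n + 1) * fact n := recN_succ 1 (by fun_prop) n

end Nn

/-- The number of injective finite sequences from an `n`-element set. -/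
noncomputable def nseq (n : Nn) : Nn := recN 1 (fun k x => (k + 1) * x + 1) n

@[fun_prop] theorem defF_nseq : DefF nseq :=
  DefF.recN (a := fun _ => 1) (s := fun _ k x => (k + 1) * x + 1) (by fun_prop) (by fun_prop)
    DefF.id

@[simp] theorem nseq_zero : nseq 0 = 1 := recN_zero 1 (by fun_prop)

theorem nseq_succ (n : Nn) : nseq (n + 1) = (n + 1) * nseq n + 1 := recN_succ 1 (by fun_prop) n

end Pool.Agent.P.MP_e517ea_lc.Z
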