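import Pool.Agent.P.MP_e517ea_lc.Z.OS

/-!
Back and forth over a countable model: a definable back-and-forth system is the family of finite
pieces of an (external) permutation group.
-/

set_option synthInstance.maxSize 16384

noncomputable section

namespace Pool.Agent.P.MP_e517ea_lc.Z

open DSet

variable [ZU] {A : Type} [Coded A]

/-- A definable back-and-forth system. -/
structure BF (F : DSet (A × A) → Prop) : Prop where
  defn : DefF F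
  fin : ∀ {p}, F p → p.Finite
  fn : ∀ {p}, F p → ∀ {a b c}, (a, b) ∈ p → (a, c) ∈ p → b = c
  sub : ∀ {p q}, F p → q ≤ p → F q
  inv : ∀ {p}, F p → F p.inv
  comp : ∀ {p q}, F p → F q → F (p.comp q)
  idm : ∀ {K : DSet A}, K.Finite → F K.idm
  ext : ∀ {p}, F p → ∀ a, ∃ b, F (insert (a, b) p)

variable {F : DSet (A × A) → Prop}

theorem BF.ext_set (h : BF F) {p : DSet (A × A)} (hp : F p) {K : DSet A} (hK : K.Finite) :
    ∃ q, F q ∧ p ≤ q ∧ K ≤ q.dom := by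
  have d := h.defn
  refine hK.induction_on (p := fun K => ∃ q, F q ∧ p ≤ q ∧ K ≤ q.dom) (by fun_prop)
    ⟨p, hp, le_rfl, bot_le⟩ fun a K _ _ ⟨q, k1, k2, k3⟩ => ?_
  obtain ⟨b, hb⟩ := h.ext k1 a
  exact ⟨_, hb, k2.trans (le_insert _ _), insert_le_iff.2 ⟨⟨b, Or.inl rfl⟩,
    k3.trans (dom_mono (le_insert _ _))⟩⟩

/-- The permutations that are locally in the system. -/
def BF.grp (h : BF F) : Subgroup (Equiv.Perm A) where
  carrier := {g | ∀ K : DSet A, K.Finite →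
    ∃ p, F p ∧ K ≤ p.dom ∧ K ≤ p.ran ∧ ∀ z ∈ p, g z.1 = z.2}
  one_mem' K hK := ⟨_, h.idm hK, fun x hx => ⟨x, hx, rfl⟩, fun x hx => ⟨x, hx, rfl⟩, fun _ k => k.2⟩
  mul_mem' {g f} hg hf K hK := by
    obtain ⟨p0, a1, -, a2, a3⟩ := hg K hK
    obtain ⟨p, b1, b2, b3, b4⟩ := hf _ (hK.sup (h.fin a1).dom)
    obtain ⟨q, c1, c2, -, c3⟩ := hg _ (h.fin b1).ran
    refine ⟨_, h.comp b1 c1, fun x hx => ?_, fun y hy => ?_, fun z ⟨y, k1, k2⟩ => ?_⟩
    · obtain ⟨y, k1⟩ := b2 (Or.inl hx)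
      obtain ⟨z, k2⟩ := c2 ⟨x, k1⟩
      exact ⟨z, y, k1, k2⟩
    · obtain ⟨x, k1⟩ := a2 hy
      obtain ⟨w, k2⟩ := b3 (Or.inr ⟨y, k1⟩)
      obtain ⟨z, k3⟩ := c2 ⟨w, k2⟩
      obtain rfl : z = y := (c3 _ k3).symm.trans (a3 _ k1)
      exact ⟨w, x, k2, k3⟩
    · exact (congrArg g (b4 _ k1)).trans (c3 _ k2)
  inv_mem' {g} hg K hK := by
    obtain ⟨p, a1, a2, a3, a4⟩ := hg K hK
    exact ⟨_, h.inv a1, a3, a2, fun z k => g.symm_apply_eq.2 (a4 _ k).symm⟩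

theorem BF.exists_perm [Countable UM] (h : BF F) {p : DSet (A × A)} (hp : F p) :
    ∃ g ∈ h.grp, ∀ z ∈ p, g z.1 = z.2 := by
  have := countable_coded (DSet A)
  obtain ⟨en, hen⟩ := exists_surjective_nat (DSet A)
  have step : ∀ (n : ℕ) (q : {q // F q}), ∃ r : {q // F q}, q.1 ≤ r.1 ∧
      ((en n).Finite → en n ≤ r.1.dom ∧ en n ≤ r.1.ran) := fun n q => by
    by_cases hf : (en n).Finite
    · obtain ⟨r, k1, k2, k3⟩ := h.ext_set q.2 hf
      obtain ⟨r', m1, m2, m3⟩ := h.ext_set (h.inv k1) hf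
      exact ⟨⟨_, h.inv m1⟩, k2.trans (inv_mono m2), fun _ =>
        ⟨k3.trans (dom_mono (inv_mono m2)), m3⟩⟩
    · exact ⟨q, le_rfl, fun k => (hf k).elim⟩
  choose nx n1 n2 using step
  let L : ℕ → {q // F q} := fun n => Nat.rec ⟨p, hp⟩ nx n
  have mono : Monotone fun n => (L n).1 := monotone_nat_of_le_succ fun n => n1 n _
  have cov : ∀ K : DSet A, K.Finite → ∃ n, K ≤ (L n).1.dom ∧ K ≤ (L n).1.ran := fun K hK => by
    obtain ⟨n, rfl⟩ := hen K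
    exact ⟨n + 1, n2 n _ hK⟩
  have fn : ∀ {m n a b c}, (a, b) ∈ (L m).1 → (a, c) ∈ (L n).1 → b = c := fun {m n _ _ _} k k' =>
    h.fn (L (max m n)).2 (mono (le_max_left _ _) k) (mono (le_max_right _ _) k')
  have fn' : ∀ {m n a b c}, (b, a) ∈ (L m).1 → (c, a) ∈ (L n).1 → b = c := fun {m n _ _ _} k k' =>
    h.fn (h.inv (L (max m n)).2) (mono (le_max_left _ _) k) (mono (le_max_right _ _) k')
  choose f hf using fun a : A => show ∃ b n, (a, b) ∈ (L n).1 from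
    (cov {a} (finite_singleton a)).elim fun n k => (k.1 rfl).imp fun _ k => ⟨n, k⟩
  have key : ∀ n, ∀ z ∈ (L n).1, f z.1 = z.2 := fun n z k => (hf z.1).elim fun _ k' => fn k' k
  refine ⟨Equiv.ofBijective f ⟨fun a b e => ?_, fun b => ?_⟩, fun K hK => ?_, key 0⟩
  · obtain ⟨m, k⟩ := hf a
    obtain ⟨n, k'⟩ := hf b
    exact fn' k (e ▸ k')
  · obtain ⟨n, -, k⟩ := cov {b} (finite_singleton b)
    obtain ⟨a, k⟩ := k rfl
    exact ⟨a, key n _ k⟩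
  · obtain ⟨n, k1, k2⟩ := cov K hK
    exact ⟨_, (L n).2, k1, k2, key n⟩

theorem BF.tr_iff [Countable UM] (h : BF F) {p : DSet (A × A)} :
    Tr (⊤ : Subgroup h.grp) p ↔ F p := by
  refine ⟨fun ⟨k1, g, _, k2⟩ => ?_, fun hp => ?_⟩
  · obtain ⟨q, m1, m2, -, m3⟩ := g.2 _ k1.dom
    refine h.sub m1 fun z hz => ?_
    obtain ⟨y, hy⟩ := m2 ⟨_, hz⟩
    rwa [show y = z.2 from (m3 _ hy).symm.trans (k2 z hz)] at hy
  · obtain ⟨g, k1, k2⟩ := h.exists_perm hp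
    exact ⟨h.fin hp, ⟨g, k1⟩, trivial, k2⟩

theorem BF.gs [Countable UM] (h : BF F) : GS h.grp A where
  res g K hK := by
    obtain ⟨p, -, k1, -, k2⟩ := g.2 K hK
    refine (p.restr K).defF_mem.congr_iff fun z => ⟨fun k => ⟨k.2, k2 z k.1⟩, fun k => ⟨?_, k.1⟩⟩
    obtain ⟨y, hy⟩ := k1 k.1
    rwa [show y = z.2 from (k2 _ hy).symm.trans k.2] at hy
  top := h.defn.congr_iff fun _ => h.tr_iff.symm

end Pool.Agent.P.MP_e517ea_lc.Z
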