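import Pool.Agent.P.MP_e517ea_lc.Z.OS

/-!
Invariant finitary partitions of a set with a group action: basic counting lemmas.
-/

set_option synthInstance.maxSize 16384

noncomputable section

namespace Pool.Agent.P.MP_e517ea_lc.Z

open DSet IEq

variable [ZU]
variable {G A W : Type} [Group G] [MulAction G A] [Coded A] [Coded W] [GS G A]

/-- `P` is invariant under `V`. -/
def Pres (V : OS G A) (P : IEq A) : Prop := ∀ g ∈ V, ∀ a b, P a b → P (g • a) (g • b)

@[fun_prop] theorem DefF.pres {V : W → OS G A} {P : W → IEq A} (hV : DefF V) (hP : DefF P) :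
    DefF (fun w => Pres (V w) (P w)) := by
  have h : DefF fun w => All fun a => All fun b => ∀ g ∈ V w, Imp (P w a b) (P w (g • a) (g • b)) :=
    DefF.all (DefF.all (DefF.all2 (W := (W × A) × A) (U := fun z => V z.1.1) (by fun_prop)
      (a := fun z => z.1.2) (by fun_prop) DefF.snd
      (fun z x y => Imp (P z.1.1 z.1.2 z.2) (P z.1.1 x y)) (by fun_prop)))
  exact h.congr_iff fun w => ⟨fun h g hg a b => h a b g hg, fun h a b g hg => h g hg a b⟩

/-- Partitions of `A` with finite blocks, invariant under `V`, trivial outside `X`. -/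
def Inv (V : OS G A) (X : DSet A) : DSet (IEq A) :=
  ⟨fun P => P.Fin ∧ Pres V P ∧ ∀ a b, P a b → a = b ∨ (a ∈ X ∧ b ∈ X), by
    simp only [all_eq, imp_eq]; fun_prop⟩

theorem mem_Inv {V : OS G A} {X : DSet A} {P : IEq A} : P ∈ Inv V X ↔
    P.Fin ∧ Pres V P ∧ ∀ a b, P a b → a = b ∨ (a ∈ X ∧ b ∈ X) := Iff.rfl

@[fun_prop] theorem DefF.invS {V : W → OS G A} {X : W → DSet A} (hV : DefF V) (hX : DefF X) :
    DefF (fun w => Inv (V w) (X w)) :=
  DefF.of_mem (by simp only [mem_Inv, all_eq, imp_eq]; fun_prop)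

/-- The number of such partitions. -/
def nn (V : OS G A) (X : DSet A) : Nn := (Inv V X).card

@[fun_prop] theorem DefF.nn {V : W → OS G A} {X : W → DSet A} (hV : DefF V) (hX : DefF X) :
    DefF (fun w => nn (V w) (X w)) := by
  unfold Z.nn; fun_prop

/-- `X` is invariant under `V`. -/
def Stab (V : OS G A) (X : DSet A) : Prop := ∀ g ∈ V, ∀ a ∈ X, g • a ∈ X

/-- Only finitely many `V`-invariant finitary partitions. -/
def FinG (V : OS G A) : Prop := (Inv V ⊤).Finite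

variable {V V' : OS G A} {X X' : DSet A}

omit [GS G A] in
theorem Stab.iff (h : Stab V X) {g : G} (hg : g ∈ V) {a : A} : g • a ∈ X ↔ a ∈ X :=
  ⟨fun H => by simpa using h g⁻¹ (V.inv_mem hg) _ H, h g hg a⟩

omit [GS G A] in
theorem Stab.mono (h : Stab V X) (hV : V' ≤ V) : Stab V' X := fun g hg => h g (hV hg)

omit [GS G A] in
theorem Stab.union (h : Stab V X) (h' : Stab V X') : Stab V (X ⊔ X') :=
  fun g hg a ha => ha.imp (h g hg a) (h' g hg a)

omit [GS G A] in
theorem Stab.inter (h : Stab V X) (h' : Stab V X') : Stab V (X ⊓ X') :=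
  fun g hg a ha => ⟨h g hg a ha.1, h' g hg a ha.2⟩

omit [GS G A] in
theorem Stab.compl (h : Stab V X) : Stab V Xᶜ :=
  fun _ hg _ ha H => ha ((h.iff hg).1 H)

omit [GS G A] in
theorem Stab.diff (h : Stab V X) (h' : Stab V X') : Stab V (X \ X') := h.inter h'.compl

omit [GS G A] in
theorem stab_bot : Stab V ⊥ := fun _ _ _ h => h.elim

omit [GS G A] in
theorem stab_biUnion {ι : Type} [Coded ι] {s : DSet ι} {T : ι → DSet A} {hT : DefF T}
    (h : ∀ i ∈ s, Stab V (T i)) : Stab V (s.biUnion T hT) :=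
  fun g hg a ⟨i, hi, ha⟩ => ⟨i, hi, h i hi g hg a ha⟩

theorem Inv.iff {P : IEq A} (h : P ∈ Inv V X) {g : G} (hg : g ∈ V) {a b : A} :
    P (g • a) (g • b) ↔ P a b :=
  ⟨fun H => by simpa using h.2.1 g⁻¹ (V.inv_mem hg) _ _ H, h.2.1 g hg a b⟩

theorem Inv_mono (h : X ≤ X') : Inv V X ≤ Inv V X' := fun _ hP =>
  ⟨hP.1, hP.2.1, fun a b hab => (hP.2.2 a b hab).imp_right fun H => ⟨h H.1, h H.2⟩⟩

theorem Inv_anti (h : V' ≤ V) : Inv V X ≤ Inv V' X := fun _ hP =>
  ⟨hP.1, fun g hg => hP.2.1 g (h hg), hP.2.2⟩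

theorem FinG.fin (h : FinG V) (X : DSet A) : (Inv V X).Finite := h.subset (Inv_mono le_top)

theorem bot_mem_Inv : (⊥ : IEq A) ∈ Inv V X :=
  ⟨fun a => (finite_singleton a).subset fun _ (h : a = _) => h.symm,
    fun _ _ _ _ (h : _ = _) => show _ = _ by rw [h], fun _ _ h => Or.inl h⟩

theorem nn_pos (h : FinG V) (X : DSet A) : 0 < nn V X :=
  (card_pos (h.fin X)).2 ⟨_, bot_mem_Inv⟩

theorem nn_mono (h : FinG V) (hX : X ≤ X') : nn V X ≤ nn V X' :=
  card_le_card (Inv_mono hX) (h.fin _)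

theorem nn_anti (h : FinG V') (hV : V' ≤ V) : nn V X ≤ nn V' X :=
  card_le_card (Inv_anti hV) (h.fin _)

theorem nn_empty : nn V (⊥ : DSet A) = 1 := by
  have : Inv V ⊥ = {⊥} := DSet.ext fun P => ⟨fun hP => IEq.ext fun a b =>
    ⟨fun h => (hP.2.2 a b h).resolve_right fun H => H.1, fun (H : a = b) => H ▸ P.refl a⟩,
    fun (h : P = ⊥) => h ▸ bot_mem_Inv⟩
  rw [nn, this, card_singleton]

theorem res_mem {P : IEq A} {Y : DSet A} (hP : P ∈ Inv V Y) (hX : Stab V X) :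
    P.res X ∈ Inv V X :=
  ⟨fun a => (hP.1 a).subset fun _ h => res_le h, fun g hg a b h => h.imp (fun h => by rw [h])
    fun h => ⟨hX g hg a h.1, hX g hg b h.2.1, hP.2.1 g hg a b h.2.2⟩,
    fun _ _ h => h.imp_right fun h => ⟨h.1, h.2.1⟩⟩

theorem blk_mem (hX : X.Finite) (hs : Stab V X) : (⊤ : IEq A).res X ∈ Inv V X :=
  ⟨fin_res_top hX,
    fun g hg a b h => h.imp (fun h => by rw [h]) fun h => ⟨hs g hg a h.1, hs g hg b h.2.1, trivial⟩,
    fun _ _ h => h.imp_right fun h => ⟨h.1, h.2.1⟩⟩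

/-- `X'` meets every `V`-orbit of pairs related by an invariant partition supported on `X`. -/
def Detects (V : OS G A) (X X' : DSet A) : Prop :=
  ∀ P ∈ Inv V X, ∀ a b, P a b → a ≠ b → ∃ g ∈ V, g • a ∈ X' ∧ g • b ∈ X'

theorem Detects.injOn (h : Detects V X X') : Set.InjOn (fun P : IEq A => P.res X') (Inv V X) := by
  have key : ∀ P ∈ Inv V X, ∀ Q ∈ Inv V X, P.res X' = Q.res X' → ∀ a b, P a b → Q a b := by
    intro P hP Q hQ e a b hab
    by_cases h0 : a = b
    · exact h0 ▸ Q.refl a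
    obtain ⟨g, hg, h1, h2⟩ := h P hP a b hab h0
    have h3 : P.res X' (g • a) (g • b) := (res_iff' h1 h2).2 (hP.2.1 g hg a b hab)
    rw [e] at h3
    exact (Inv.iff hQ hg).1 (res_le h3)
  intro P hP Q hQ e
  ext a b
  exact ⟨key P hP Q hQ e a b, key Q hQ P hP e.symm a b⟩

theorem Detects.le (h : Detects V X X') (hV : V' ≤ V) (hf : FinG V') (hX : Stab V' X') :
    nn V X ≤ nn V' X' :=
  card_le_card_of_injOn _ (by fun_prop) (fun _ hP => res_mem (Inv_anti hV hP) hX) h.injOn (hf.fin _)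

/-- Adjoin a compatible relation. -/
def mrg (P : IEq A) (Q : A → A → Prop) (hd : DefF fun z : A × A => Q z.1 z.2)
    (hs : ∀ a b, Q a b → Q b a) (ht : ∀ a b c, Q a b → Q b c → Q a c)
    (hc : ∀ a b c, P a b → Q b c → Q a c) : IEq A where
  rel a b := P a b ∨ Q a b
  defn := by fun_prop
  refl a := Or.inl (P.refl a)
  symm h := h.imp P.symm (hs _ _)
  trans := by
    rintro a b c (h | h) (h' | h')
    · exact Or.inl (P.trans h h')
    · exact Or.inr (hc _ _ _ h h')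
    · exact Or.inr (hs _ _ (hc _ _ _ (P.symm h') (hs _ _ h)))
    · exact Or.inr (ht _ _ _ h h')

theorem mrg_iff {P : IEq A} {Q : A → A → Prop} {hd hs ht hc} {a b : A} :
    mrg P Q hd hs ht hc a b ↔ P a b ∨ Q a b := Iff.rfl

theorem mrg_mem {P : IEq A} {Q : A → A → Prop} {hd hs ht hc} (hP : P ∈ Inv V X)
    (hf : ∀ a, ∃ T : DSet A, T.Finite ∧ ∀ b, Q a b → b ∈ T)
    (hi : ∀ g ∈ V, ∀ a b, Q a b → Q (g • a) (g • b))
    (hX : ∀ a b, Q a b → a = b ∨ (a ∈ X ∧ b ∈ X)) : mrg P Q hd hs ht hc ∈ Inv V X :=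
  ⟨fun a => (hf a).elim fun _ k => ((hP.1 a).sup k.1).subset fun b h => h.imp_right (k.2 b),
    fun g hg a b h => h.imp (hP.2.1 g hg a b) (hi g hg a b),
    fun a b h => h.elim (hP.2.2 a b) (hX a b)⟩

/-- Union of two partitions with disjoint supports. -/
theorem exists_union {P Q : IEq A} (hP : P ∈ Inv V X) (hQ : Q ∈ Inv V X') (hd : Disjoint X X') :
    ∃ R ∈ Inv V (X ⊔ X'), ∀ a b, R a b ↔ P a b ∨ Q a b := by
  refine ⟨⟨fun a b => P a b ∨ Q a b, by fun_prop, fun a => Or.inl (P.refl a),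
    fun h => h.imp P.symm Q.symm, ?_⟩,
    ⟨fun a => ((hP.1 a).sup (hQ.1 a)).subset fun _ h => h,
      fun g hg a b h => h.imp (hP.2.1 g hg a b) (hQ.2.1 g hg a b), fun a b h => ?_⟩,
    fun _ _ => Iff.rfl⟩
  · rintro a b c (h | h) (h' | h')
    · exact Or.inl (P.trans h h')
    · rcases hP.2.2 a b h with rfl | H
      · exact Or.inr h'
      rcases hQ.2.2 b c h' with rfl | H'
      · exact Or.inl h
      · exact (disjoint_left.1 hd H.2 H'.1).elim
    · rcases hQ.2.2 a b h with rfl | H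
      · exact Or.inl h'
      rcases hP.2.2 b c h' with rfl | H'
      · exact Or.inr h
      · exact (disjoint_left.1 hd H'.1 H.2).elim
    · exact Or.inr (Q.trans h h')
  · rcases h with h | h
    · exact (hP.2.2 a b h).imp_right fun H => ⟨Or.inl H.1, Or.inl H.2⟩
    · exact (hQ.2.2 a b h).imp_right fun H => ⟨Or.inr H.1, Or.inr H.2⟩

theorem eq_of_union {P Q P' Q' : IEq A} (hP : P ∈ Inv V X) (hQ' : Q' ∈ Inv V X')
    (hd : Disjoint X X') (h : ∀ a b, P a b ∨ Q a b → P' a b ∨ Q' a b) {a b : A} (hab : P a b) :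
    P' a b := by
  rcases h a b (Or.inl hab) with H | H
  · exact H
  rcases hP.2.2 a b hab with rfl | H1
  · exact P'.refl a
  rcases hQ'.2.2 a b H with rfl | H2
  · exact P'.refl a
  · exact (disjoint_left.1 hd H1.1 H2.1).elim

theorem nn_mul_le (hf : FinG V) (hd : Disjoint X X') : nn V X * nn V X' ≤ nn V (X ⊔ X') := by
  unfold nn
  rw [← card_times (hf.fin _) (hf.fin _)]
  refine (card_le_of_rel (S := (Inv V X).times (Inv V X'))
    (fun (p : IEq A × IEq A) (R : IEq A) => ∀ a b, R a b ↔ p.1 a b ∨ p.2 a b)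
    (by simp only [all_eq]; fun_prop) (fun p hp => exists_union hp.1 hp.2 hd)
    (fun p hp q hq R _ e e' => ?_) (hf.fin _)).2
  have h1 : ∀ a b, p.1 a b ∨ p.2 a b ↔ q.1 a b ∨ q.2 a b := fun a b => (e a b).symm.trans (e' a b)
  refine Prod.ext ?_ ?_
  · ext a b
    exact ⟨eq_of_union hp.1 hq.2 hd fun a b => (h1 a b).1,
      eq_of_union hq.1 hp.2 hd fun a b => (h1 a b).2⟩
  · ext a b
    exact ⟨eq_of_union hp.2 hq.1 hd.symm fun a b h => ((h1 a b).1 h.symm).symm,
      eq_of_union hq.2 hp.1 hd.symm fun a b h => ((h1 a b).2 h.symm).symm⟩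

theorem prod_nn_le (hf : FinG V) {ι : Type} [Coded ι] {s : DSet ι} (hs : s.Finite)
    (Y : ι → DSet A) (hY : DefF Y) (hd : (s : Set ι).PairwiseDisjoint Y) :
    s.prod (fun i => nn V (Y i)) ≤ nn V (s.biUnion Y hY) :=
  hs.induction_on_le (p := fun s => s.prod (fun i => nn V (Y i)) ≤ nn V (s.biUnion Y hY))
    (by fun_prop) (by rw [biUnion_bot, nn_empty, prod_bot]) fun i t hi ht ht' hi' ih => by
      rw [prod_insert (by fun_prop) ht' hi', biUnion_insert]
      exact (Nn.mul_le_mul_left _ ih).trans (nn_mul_le hf (disjoint_biUnion_right.2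
        fun j hj => hd hi (ht hj) fun e => hi' (e ▸ hj)))

/-- `X` is a union of blocks of every invariant finitary partition. -/
def Satur (V : OS G A) (X : DSet A) : Prop :=
  ∀ P ∈ Inv V ⊤, ∀ a b, P a b → a ∈ X → b ∈ X

theorem nn_union_le (hf : FinG V) (hX : Stab V X) (hs : Satur V X) :
    nn V (X ⊔ X') ≤ nn V X * nn V X' := by
  unfold nn
  rw [← card_times (hf.fin _) (hf.fin _)]
  refine card_le_card_of_injOn (fun P => (P.res X, P.res Xᶜ)) (by fun_prop)
    (fun P hP => ⟨res_mem hP hX, ?_⟩) (fun P hP Q hQ e => ?_) ((hf.fin _).times (hf.fin _))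
  · have h := res_mem hP hX.compl
    refine ⟨h.1, h.2.1, fun a b hab => ?_⟩
    rcases hab with rfl | hab
    · exact Or.inl rfl
    · exact (hP.2.2 a b hab.2.2).imp_right fun H =>
        ⟨H.1.resolve_left hab.1, H.2.resolve_left hab.2.1⟩
  · have key : ∀ P ∈ Inv V (X ⊔ X'), ∀ Q : IEq A, P.res X = Q.res X → P.res Xᶜ = Q.res Xᶜ →
        ∀ a b, P a b → Q a b := by
      intro P hP Q e1 e2 a b hab
      have hP' := Inv_mono le_top hP
      by_cases ha : a ∈ X
      · exact res_le (e1 ▸ (res_iff' ha (hs P hP' a b hab ha)).2 hab : Q.res X a b)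
      · exact res_le (e2 ▸ (res_iff' (X := Xᶜ) ha
          (show b ∈ Xᶜ from fun h => ha (hs P hP' b a (P.symm hab) h))).2 hab :
          Q.res Xᶜ a b)
    simp only [Prod.mk.injEq] at e
    ext a b
    exact ⟨key P hP Q e.1 e.2 a b, key Q hQ P e.1.symm e.2.symm a b⟩

theorem nn_union_eq (hf : FinG V) (hX : Stab V X) (hs : Satur V X) (hd : Disjoint X X') :
    nn V (X ⊔ X') = nn V X * nn V X' := (nn_union_le hf hX hs).antisymm (nn_mul_le hf hd)

theorem nn_biUnion_le (hf : FinG V) {ι : Type} [Coded ι] {s : DSet ι} (hs : s.Finite)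
    (Y : ι → DSet A) (hY : DefF Y) (hX : ∀ i ∈ s, Stab V (Y i)) (hs' : ∀ i ∈ s, Satur V (Y i)) :
    nn V (s.biUnion Y hY) ≤ s.prod (fun i => nn V (Y i)) :=
  hs.induction_on_le (p := fun s => nn V (s.biUnion Y hY) ≤ s.prod (fun i => nn V (Y i)))
    (by fun_prop) (by rw [biUnion_bot, nn_empty, prod_bot]) fun i t hi _ ht' hi' ih => by
      rw [prod_insert (by fun_prop) ht' hi', biUnion_insert]
      exact (nn_union_le hf (hX i hi) (hs' i hi)).trans (Nn.mul_le_mul_left _ ih)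

/-- Induction of invariant partitions from a block. -/
theorem nn_induce {D : DSet A} (hf : FinG V) (hD : D.Finite) (hs : Stab V' D)
    (hb : ∀ g ∈ V, ∀ a ∈ D, g • a ∈ D → g ∈ V') (hX : ∀ g ∈ V, ∀ a ∈ D, g • a ∈ X) :
    nn V' D ≤ nn V X := by
  refine (card_le_of_rel (fun P R : IEq A => ∀ a ∈ D, ∀ b ∈ D, R a b ↔ P a b)
    (by simp only [all_eq, imp_eq]; fun_prop) (fun P hP => ?_) (fun P hP Q hQ R _ e e' => ?_)
    (hf.fin _)).2
  · have key : ∀ g ∈ V, ∀ h ∈ V, ∀ a b, g • a ∈ D → h • a ∈ D → g • b ∈ D → P (g • a) (g • b) →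
        h • b ∈ D ∧ P (h • a) (h • b) := by
      intro g hg h hh a b h1 h2 h3 h4
      have h5 : h * g⁻¹ ∈ V' := hb _ (V.mul_mem hh (V.inv_mem hg)) _ h1 (by simpa [mul_smul])
      exact ⟨by simpa [mul_smul] using hs _ h5 _ h3, by simpa [mul_smul] using hP.2.1 _ h5 _ _ h4⟩
    refine ⟨⟨fun a b => a = b ∨ ∃ g ∈ V, g • a ∈ D ∧ g • b ∈ D ∧ P (g • a) (g • b),
      DefF.or (by fun_prop) ((DefF.const V).ex2 DefF.fst DefF.snd
        (fun _ x y => x ∈ D ∧ y ∈ D ∧ P x y) (by fun_prop)),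
      fun _ => Or.inl rfl, fun h => h.imp Eq.symm fun ⟨g, h1, h2, h3, h4⟩ =>
        ⟨g, h1, h3, h2, P.symm h4⟩, ?_⟩, ⟨fun a => ?_, ?_, ?_⟩, ?_⟩
    · rintro a b c (rfl | ⟨g, h1, h2, h3, h4⟩) (rfl | ⟨h, k1, k2, k3, k4⟩)
      · exact Or.inl rfl
      · exact Or.inr ⟨h, k1, k2, k3, k4⟩
      · exact Or.inr ⟨g, h1, h2, h3, h4⟩
      · obtain ⟨l1, l2⟩ := key h k1 g h1 b c k2 h3 k3 k4
        exact Or.inr ⟨g, h1, h2, l1, P.trans h4 l2⟩
    · by_cases ha : ∃ g ∈ V, g • a ∈ D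
      · obtain ⟨g, hg, ha⟩ := ha
        refine (fin_of_smul g hD ?_).1
        rintro b (rfl | ⟨h, k1, k2, k3, k4⟩)
        · exact ha
        · exact (key h k1 g hg a b k2 ha k3 k4).1
      · refine (finite_singleton a).subset ?_
        rintro b (rfl | ⟨h, k1, k2, -⟩)
        · rfl
        · exact (ha ⟨h, k1, k2⟩).elim
    · rintro g hg a b (rfl | ⟨h, k1, k2⟩)
      · exact Or.inl rfl
      · exact Or.inr ⟨h * g⁻¹, V.mul_mem k1 (V.inv_mem hg), by simpa [mul_smul] using k2⟩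
    · rintro a b (rfl | ⟨h, k1, k2, k3, -⟩)
      · exact Or.inl rfl
      · exact Or.inr ⟨by simpa using hX _ (V.inv_mem k1) _ k2, by simpa using hX _ (V.inv_mem k1) _ k3⟩
    · intro a ha b hb'
      constructor
      · rintro (rfl | ⟨h, k1, k2, k3, k4⟩)
        · exact P.refl a
        · simpa using (key h k1 1 V.one_mem a b k2 (by simpa) k3 k4).2
      · exact fun h => Or.inr ⟨1, V.one_mem, by simpa, by simpa, by simpa⟩
  · have key : ∀ P ∈ Inv V' D, ∀ Q : IEq A, (∀ a ∈ D, ∀ b ∈ D, R a b ↔ P a b) →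
        (∀ a ∈ D, ∀ b ∈ D, R a b ↔ Q a b) → ∀ a b, P a b → Q a b := by
      intro P hP Q e e' a b hab
      rcases hP.2.2 a b hab with rfl | H
      · exact Q.refl a
      · exact (e' a H.1 b H.2).1 ((e a H.1 b H.2).2 hab)
    ext a b
    exact ⟨key P hP Q e e' a b, key Q hQ P e' e a b⟩

/-- The invariant blocks of `P` that meet `S`. -/
def IB (V : OS G A) (P : IEq A) (S : DSet A) : DSet (DSet A) :=
  ⟨fun β => ∃ a, a ∈ S ∧ β = P.blk a ∧ ∀ g ∈ V, P a (g • a),
    DefF.exists (DefF.and (by fun_prop) (DefF.and (by fun_prop)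
      ((DefF.const V).all1 DefF.snd (fun z x => P z.2 x) (by fun_prop))))⟩

theorem mem_IB {P : IEq A} {S β : DSet A} :
    β ∈ IB V P S ↔ ∃ a ∈ S, β = P.blk a ∧ ∀ g ∈ V, P a (g • a) := Iff.rfl

@[fun_prop] theorem DefF.ib {V : W → OS G A} {P : W → IEq A} {S : W → DSet A} (hV : DefF V)
    (hP : DefF P) (hS : DefF S) : DefF (fun w => IB (V w) (P w) (S w)) :=
  DefF.of_mem (DefF.exists (DefF.and (by fun_prop) (DefF.and (by fun_prop)
    (DefF.all1 (W := (W × DSet A) × A) (U := fun z => V z.1.1) (by fun_prop) DefF.snd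
      (fun z x => P z.1.1 z.2 x) (by fun_prop)))))

theorem IB.finite (P : IEq A) {S : DSet A} (hS : S.Finite) : (IB V P S).Finite :=
  (hS.image P.blk (by fun_prop)).subset fun _ ⟨a, ha, h, _⟩ => ⟨a, ha, h.symm⟩

/-- The number of invariant partitions of `S` that have an invariant block. -/
def mm (V : OS G A) (S : DSet A) : Nn :=
  ((Inv V S).sep (fun P => (IB V P S).Nonempty) (by fun_prop)).card

end Pool.Agent.P.MP_e517ea_lc.Z
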