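import Pool.Agent.P.MP_e517ea_lc.Z.Seq

/-!
Definable equivalence relations.
-/

set_option synthInstance.maxSize 16384

noncomputable section

namespace Pool.Agent.P.MP_e517ea_lc.Z

variable [ZU]
variable {A Y W : Type} [Coded A] [Coded Y] [Coded W]

/-- Definable equivalence relations. -/
structure IEq (A : Type) [Coded A] where
  rel : A → A → Prop
  defn : DefF (fun z : A × A => rel z.1 z.2)
  refl : ∀ a, rel a a
  symm : ∀ {a b}, rel a b → rel b a
  trans : ∀ {a b c}, rel a b → rel b c → rel a c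

namespace IEq

instance : CoeFun (IEq A) (fun _ => A → A → Prop) := ⟨rel⟩

@[ext] theorem ext {P Q : IEq A} (h : ∀ a b, P a b ↔ Q a b) : P = Q := by
  obtain ⟨r, _⟩ := P
  obtain ⟨r', _⟩ := Q
  obtain rfl : r = r' := funext₂ fun a b => propext (h a b)
  rfl

/-- The set of related pairs. -/
def gr (P : IEq A) : DSet (A × A) := ⟨fun z => P z.1 z.2, P.defn⟩

theorem mem_gr {P : IEq A} {z : A × A} : z ∈ P.gr ↔ P z.1 z.2 := Iff.rfl

theorem gr_inj : Function.Injective (gr : IEq A → _) := fun _ _ h =>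
  ext fun a b => SetLike.ext_iff.1 h (a, b)

instance : Coded (IEq A) :=
  Coded.ofInj gr gr_inj <| by
    have h : DefF (fun S : DSet (A × A) => (∀ a, (a, a) ∈ S) ∧ (∀ a b, (a, b) ∈ S → (b, a) ∈ S) ∧
        ∀ a b c, (a, b) ∈ S → (b, c) ∈ S → (a, c) ∈ S) := by
      simp only [all_eq, imp_eq]
      fun_prop
    exact h.congr_iff fun S => ⟨fun ⟨h1, h2, h3⟩ =>
      ⟨⟨fun a b => (a, b) ∈ S, by fun_prop, h1, h2 _ _, h3 _ _ _⟩, rfl⟩,
      fun ⟨P, e⟩ => e ▸ ⟨P.refl, fun _ _ => P.symm, fun _ _ _ => P.trans⟩⟩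

@[fun_prop] theorem defF_gr : DefF (gr : IEq A → _) := defF_of_cd_eq fun _ => rfl

end IEq

@[fun_prop] theorem DefF.ieqRel {P : W → IEq A} {a b : W → A} (hP : DefF P) (ha : DefF a)
    (hb : DefF b) : DefF (fun w => (P w).rel (a w) (b w)) :=
  (by fun_prop : DefF (fun w => (a w, b w) ∈ (P w).gr))

theorem DefF.of_ieq {P : W → IEq A} (h : DefF (fun z : W × A × A => P z.1 z.2.1 z.2.2)) : DefF P :=
  DefF.of_inj IEq.gr_inj IEq.defF_gr (DefF.of_mem h)

namespace IEq

instance : Bot (IEq A) := ⟨⟨Eq, by fun_prop, fun _ => rfl, Eq.symm, Eq.trans⟩⟩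

instance : Top (IEq A) :=
  ⟨⟨fun _ _ => True, by fun_prop, fun _ => trivial, fun _ => trivial, fun _ _ => trivial⟩⟩

instance : Inhabited (IEq A) := ⟨⊥⟩

@[simp] theorem bot_iff {a b : A} : (⊥ : IEq A) a b ↔ a = b := Iff.rfl

@[simp] theorem top_iff {a b : A} : (⊤ : IEq A) a b ↔ True := Iff.rfl

/-- The kernel of a definable function. -/
def ker (f : A → Y) (hf : DefF f) : IEq A :=
  ⟨fun a b => f a = f b, by fun_prop, fun _ => rfl, Eq.symm, Eq.trans⟩

theorem ker_iff {f : A → Y} {hf : DefF f} {a b : A} : ker f hf a b ↔ f a = f b := Iff.rfl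

/-- The block of a point. -/
def blk (P : IEq A) (a : A) : DSet A := ⟨fun b => P a b, by fun_prop⟩

@[simp] theorem mem_blk {P : IEq A} {a b : A} : b ∈ P.blk a ↔ P a b := Iff.rfl

theorem blk_eq {P : IEq A} {a b : A} (h : P a b) : P.blk a = P.blk b :=
  DSet.ext fun _ => ⟨P.trans (P.symm h), P.trans h⟩

/-- All blocks are finite. -/
def Fin (P : IEq A) : Prop := ∀ a, (P.blk a).Finite

/-- Restriction of a partition to a set (singletons elsewhere). -/
def res (P : IEq A) (X : DSet A) : IEq A where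
  rel a b := a = b ∨ (a ∈ X ∧ b ∈ X ∧ P a b)
  defn := by fun_prop
  refl _ := Or.inl rfl
  symm h := h.imp Eq.symm fun h => ⟨h.2.1, h.1, P.symm h.2.2⟩
  trans := by
    rintro a b c (rfl | h) (rfl | h')
    · exact Or.inl rfl
    · exact Or.inr h'
    · exact Or.inr h
    · exact Or.inr ⟨h.1, h'.2.1, P.trans h.2.2 h'.2.2⟩

theorem res_iff {P : IEq A} {X : DSet A} {a b : A} :
    P.res X a b ↔ a = b ∨ (a ∈ X ∧ b ∈ X ∧ P a b) := Iff.rfl

theorem res_iff' {P : IEq A} {X : DSet A} {a b : A} (ha : a ∈ X) (hb : b ∈ X) :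
    P.res X a b ↔ P a b :=
  ⟨fun h => h.elim (fun h => h ▸ P.refl a) fun h => h.2.2, fun h => Or.inr ⟨ha, hb, h⟩⟩

theorem res_le {P : IEq A} {X : DSet A} {a b : A} (h : P.res X a b) : P a b :=
  h.elim (fun h => h ▸ P.refl a) fun h => h.2.2

theorem fin_res_top {X : DSet A} (hX : X.Finite) : ((⊤ : IEq A).res X).Fin := fun a =>
  (hX.insert a).subset fun _ h => h.imp Eq.symm fun h => h.2.1

end IEq

@[fun_prop] theorem DefF.ieqKer {f : W → A → Y} (h0 : ∀ w, DefF (f w))
    (hf : DefF (fun z : W × A => f z.1 z.2)) : DefF (fun w => IEq.ker (f w) (h0 w)) :=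
  DefF.of_ieq (by simp only [IEq.ker_iff]; fun_prop)

@[fun_prop] theorem DefF.ieqBlk {P : W → IEq A} {a : W → A} (hP : DefF P) (ha : DefF a) :
    DefF (fun w => (P w).blk (a w)) :=
  DefF.of_mem (by simp only [IEq.mem_blk]; fun_prop)

@[fun_prop] theorem DefF.ieqFin {P : W → IEq A} (hP : DefF P) : DefF (fun w => (P w).Fin) := by
  simp only [IEq.Fin, all_eq]; fun_prop

@[fun_prop] theorem DefF.ieqRes {P : W → IEq A} {X : W → DSet A} (hP : DefF P) (hX : DefF X) :
    DefF (fun w => (P w).res (X w)) :=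
  DefF.of_ieq (by simp only [IEq.res_iff]; fun_prop)

/-- A definable bijection from the injective finite sequences onto the finitary partitions. -/
structure Bij {X : Type} [Coded X] (E : ISeq X → IEq X) : Prop where
  defn : DefF E
  fin : ∀ s, s.Nodup → (E s).Fin
  inj : ∀ s t, s.Nodup → t.Nodup → E s = E t → s = t
  surj : ∀ P : IEq X, P.Fin → ∃ s, s.Nodup ∧ E s = P

end Pool.Agent.P.MP_e517ea_lc.Z
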