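import Pool.Agent.P.MP_e517ea_lc.Z.WO
import Pool.Agent.P.MP_e517ea_lc.Z.IEq

/-!
The Dedekind infinite case. Let `K` be a well ordering that does not inject into `X` (Hartogs).
The finite subsets of `K × ω` are well ordered colexicographically, and every infinite initial
segment codes, uniformly, its own finite sequences. Diagonalising along this well ordering
gives a definable injection of these finite sets into `X`.
-/

set_option synthInstance.maxSize 16384

noncomputable section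

namespace Pool.Agent.P.MP_e517ea_lc.Z

open DSet

/-- The diagonal partition. -/
def Diag {I X : Type} (D : I → Prop) (e : I → X → X → Prop) (p q : I → X) (x y : X) : Prop :=
  x = y ∨ ∃ i, D i ∧ ¬ e i (p i) (q i) ∧ ((x = p i ∧ y = q i) ∨ (x = q i ∧ y = p i))

theorem diag {I X : Type} (D : I → Prop) (e : I → X → X → Prop) (p q : I → X)
    (hp : ∀ i j, D i → D j → p i = p j → i = j) (hq : ∀ i j, D i → D j → q i = q j → i = j)
    (hpq : ∀ i j, D i → D j → p i ≠ q j) :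
    Equivalence (Diag D e p q) ∧ (∀ a, {b | Diag D e p q a b}.Finite) ∧
      ∀ i, D i → e i ≠ Diag D e p q := by
  have key : ∀ a b c, a ≠ b → a ≠ c → Diag D e p q a b → Diag D e p q a c → b = c := by
    rintro a b c hb hc (h | ⟨i, hi, -, h⟩) (h' | ⟨j, hj, -, h'⟩)
    · exact (hb h).elim
    · exact (hb h).elim
    · exact (hc h').elim
    · rcases h with ⟨rfl, rfl⟩ | ⟨rfl, rfl⟩ <;> rcases h' with ⟨h1, rfl⟩ | ⟨h1, rfl⟩
      · rw [hp i j hi hj h1]
      · exact (hpq i j hi hj h1).elim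
      · exact (hpq j i hj hi h1.symm).elim
      · rw [hq i j hi hj h1]
  have hs : ∀ {a b}, Diag D e p q a b → Diag D e p q b a := by
    rintro a b (h | ⟨i, hi, h1, h⟩)
    · exact Or.inl h.symm
    · exact Or.inr ⟨i, hi, h1, by tauto⟩
  refine ⟨⟨fun _ => Or.inl rfl, hs, fun {a b c} h1 h2 => ?_⟩, fun a => ?_, fun i hi h => ?_⟩
  · by_cases hab : b = a
    · exact hab ▸ h2
    by_cases hbc : b = c
    · exact hbc ▸ h1
    exact Or.inl (key b a c hab hbc (hs h1) h2)
  · have h1 : {b | a ≠ b ∧ Diag D e p q a b}.Subsingleton :=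
      fun b hb c hc => key a b c hb.1 hc.1 hb.2 hc.2
    refine (h1.finite.insert a).subset fun b hb => ?_
    by_cases hab : b = a
    · exact Or.inl hab
    · exact Or.inr ⟨Ne.symm hab, hb⟩
  · by_cases he : e i (p i) (q i)
    · have h1 := he
      rw [h] at h1
      rcases h1 with h1 | ⟨j, hj, h2, ⟨h1, -⟩ | ⟨h1, -⟩⟩
      · exact hpq i i hi hi h1
      · exact h2 (hp i j hi hj h1 ▸ he)
      · exact hpq i j hi hj h1
    · exact he (h ▸ Or.inr ⟨i, hi, he, Or.inl ⟨rfl, rfl⟩⟩)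

variable [ZU] {T X K W : Type} [Coded T] [Coded X] [Coded K] [Coded W]

/-- Initial segments. -/
def WO.seg {r : T → T → Prop} (h : WO r) (t : T) : DSet T :=
  ⟨fun u => r u t, by have := h.defn; fun_prop⟩

/-- Diagonalisation along a well ordering whose initial segments code their own sequences. -/
theorem WO.exists_inj {ι : Nn → X} (hι : DefF ι) (hι' : Function.Injective ι)
    {E : ISeq X → IEq X} (hE : Bij E) {r : T → T → Prop} (h : WO r)
    (c : T → ISeq T → Nn → T) (dc : DefF fun z : T × ISeq T × Nn => c z.1 z.2.1 z.2.2)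
    (hc : ∀ t L n, ¬ (h.seg t).Finite → (∀ u ∈ L.rng, r u t) → r (c t L n) t)
    (hc' : ∀ t L n L' n', c t L n = c t L' n' → L = L' ∧ n = n') :
    ∃ f : T → X, DefF f ∧ Function.Injective f := by
  classical
  have dr := h.defn
  have dE := hE.defn
  have ds : DefF h.seg := by unfold WO.seg; fun_prop
  let P : T → DFun T X → X → X → Prop := fun t F => Diag (fun L : ISeq T => ∀ u ∈ L.rng, r u t)
    (fun L => E (L.map F F.defn)) (fun L => F (c t L 0)) (fun L => F (c t L 1))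
  have dP : DefF fun z : T × DFun T X × X × X => P z.1 z.2.1 z.2.2.1 z.2.2.2 := by
    simp only [P, Diag, all_eq, imp_eq]
    fun_prop
  let Q : T → DFun T X → X → Prop := fun t F y => ∃ s : ISeq X, s.Nodup ∧
    (∀ a b, E s a b ↔ P t F a b) ∧ ∃ i, s.At i y ∧ (¬ ∃ u, r u t ∧ F u = y) ∧
      ∀ j, (∃ y', s.At j y' ∧ ¬ ∃ u, r u t ∧ F u = y') → i ≤ j
  have dQ : DefF fun z : T × DFun T X × X => Q z.1 z.2.1 z.2.2 := by
    simp only [Q, all_eq, imp_eq]
    clear_value P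
    fun_prop
  obtain ⟨f, df, hf⟩ := h.recur (ι 0)
    (fun t F => if (h.seg t).Finite then ι (h.seg t).card else uq (ι 0) (Q t F))
    (by clear_value Q; fun_prop)
  have key : ∀ t u, r u t → f u ≠ f t := by
    refine h.ind (by simp only [all_eq, imp_eq]; fun_prop) fun t ih => ?_
    obtain ⟨F, hF, h1⟩ := hf t
    by_cases ht : (h.seg t).Finite
    · intro u hu he
      obtain ⟨F', -, h2⟩ := hf u
      have k : h.seg u < h.seg t :=
        (lt_iff_exists fun _ k => h.trans k hu).2 ⟨u, hu, h.irrefl u⟩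
      rw [h1, h2, if_pos ht, if_pos (ht.subset k.le)] at he
      exact (card_lt_card k ht).ne (hι' he)
    rw [if_neg ht] at h1
    have hFi : ∀ u v, r u t → r v t → F u = F v → u = v := by
      intro u v hu hv he
      rw [hF u hu, hF v hv] at he
      rcases h.tri u v with k | k | k
      exacts [(ih v hv u k he).elim, k, (ih u hu v k he.symm).elim]
    obtain ⟨h2, h3, h4⟩ := diag (fun L : ISeq T => ∀ u ∈ L.rng, r u t)
      (fun L => E (L.map F F.defn)) (fun L => F (c t L 0)) (fun L => F (c t L 1))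
      (fun L L' hL hL' h => (hc' _ _ _ _ _ (hFi _ _ (hc _ _ _ ht hL) (hc _ _ _ ht hL') h)).1)
      (fun L L' hL hL' h => (hc' _ _ _ _ _ (hFi _ _ (hc _ _ _ ht hL) (hc _ _ _ ht hL') h)).1)
      (fun L L' hL hL' h =>
        zero_ne_one (hc' _ _ _ _ _ (hFi _ _ (hc _ _ _ ht hL) (hc _ _ _ ht hL') h)).2)
    obtain ⟨s, hs, hs'⟩ := hE.surj ⟨P t F, dP.comp (f := fun z : X × X => (t, F, z))
      (by fun_prop), h2.refl, h2.symm, h2.trans⟩ fun a => finite_of_finite (h3 a)
    obtain ⟨i, ⟨y, h6, h7⟩, h8⟩ := Nn.exists_min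
      (p := fun i => ∃ y, s.At i y ∧ ¬ ∃ u, r u t ∧ F u = y) (by fun_prop) (by
        by_contra hcon
        obtain ⟨L, hL⟩ := ISeq.exists_rel (s := s) ⟨fun z : X × T => r z.2 t ∧ F z.2 = z.1, by
          fun_prop⟩ fun y ⟨i, k⟩ => by_contra fun k' => hcon ⟨i, y, k, k'⟩
        refine h4 L (fun u ⟨i, k⟩ => (hL.bwd k).elim fun _ k => k.2.1) ?_
        rw [show L.map F F.defn = s from ISeq.ext' hL.1.symm (by
          rintro i _ ⟨u, k, rfl⟩
          obtain ⟨y, k1, -, k2⟩ := hL.bwd k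
          exact (show F u = y from k2) ▸ k1), hs'])
    have h9 : f t = y := by
      rw [h1]
      refine uq_eq ⟨s, hs, fun a b => by rw [hs'], i, h6, h7, h8⟩ ?_
      rintro y' ⟨s', k1, k2, j, k3, k4, k5⟩
      obtain rfl : s' = s := hE.inj _ _ k1 hs (hs' ▸ IEq.ext k2)
      exact k3.unique ((h8 j ⟨_, k3, k4⟩).antisymm (k5 i ⟨_, h6, h7⟩) ▸ h6)
    exact fun u hu he => h7 ⟨u, hu, by rw [hF u hu, he, h9]⟩
  refine ⟨f, df, fun u v he => ?_⟩
  rcases h.tri u v with k | k | k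
  exacts [(key v u k he).elim, k, (key u v k he.symm).elim]

/-- `β` is the largest first coordinate in `t`. -/
def TopC (r : K → K → Prop) (t : DSet (K × Nn)) (β : K) : Prop :=
  (∃ m, (β, m) ∈ t) ∧ ∀ p, p ∈ t → ¬ r β p.1

open Classical in
/-- The code of the point `q` of the entry number `i`. -/
def ptc (r : K → K → Prop) (z : K) (t : DSet (K × Nn)) (i : Nn) (q : K × Nn) : K × Nn :=
  if TopC r t q.1 then (z, Nn.pair i (Nn.pair q.2 0)) else (q.1, Nn.pair i (Nn.pair q.2 1))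

variable {r : K → K → Prop}

theorem WO.defF_ptc (h : WO r) (z : K) :
    DefF fun w : DSet (K × Nn) × Nn × K × Nn => ptc r z w.1 w.2.1 w.2.2 := by
  have := h.defn
  simp only [ptc, TopC, all_eq, imp_eq]
  fun_prop

/-- The code of a sequence of finite sets and a number. -/
def WO.enc (h : WO r) (z : K) (t : FinS (K × Nn)) (L : ISeq (FinS (K × Nn))) (n : Nn) :
    FinS (K × Nn) :=
  ⟨⟨fun p => p = (z, Nn.pair L.len (Nn.pair n 2)) ∨
    ∃ i A q, L.At i A ∧ q ∈ A.1 ∧ ptc r z t i q = p, by have := h.defF_ptc z; fun_prop⟩, by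
    have := h.defF_ptc z
    exact ((((finite_range L.len).times (L.finite_rng.biUnion DefF.subtypeVal fun A _ => A.2)).image
      (fun w => ptc r z t w.1 w.2) (by fun_prop)).insert _).subset fun p =>
        Or.imp_right fun ⟨i, A, q, k1, k2, k3⟩ => ⟨(i, q), ⟨k1.lt, A, k1.mem, k2⟩, k3⟩⟩

theorem WO.enc_inj (h : WO r) (z : K) (t : FinS (K × Nn)) (L : ISeq (FinS (K × Nn))) (n : Nn)
    (L' : ISeq (FinS (K × Nn))) (n' : Nn) (e : h.enc z t L n = h.enc z t L' n') :
    L = L' ∧ n = n' := by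
  have h1 : ∀ i q j m, ptc r z t i q ≠ (z, Nn.pair j (Nn.pair m 2)) := by
    intro i q j m
    unfold ptc
    split_ifs <;> simp
  have h2 : ∀ i q j q', ptc r z t i q = ptc r z t j q' → i = j ∧ q = q' := by
    intro i q j q'
    unfold ptc
    split_ifs with k1 k2 k2
    · simp only [Prod.mk.injEq, Nn.pair_eq_pair, true_and, and_true]
      rintro ⟨k3, k4⟩
      refine ⟨k3, Prod.ext ?_ k4⟩
      obtain ⟨⟨m, k5⟩, k6⟩ := k1
      obtain ⟨⟨m', k7⟩, k8⟩ := k2
      rcases h.tri q.1 q'.1 with k | k | k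
      exacts [(k6 _ k7 k).elim, k, (k8 _ k5 k).elim]
    · simp
    · simp
    · simp only [Prod.mk.injEq, Nn.pair_eq_pair, and_true]
      rintro ⟨k3, k4, k5⟩
      exact ⟨k4, Prod.ext k3 k5⟩
  obtain h4 | ⟨i, A, q, -, -, h4⟩ : (z, Nn.pair L.len (Nn.pair n 2)) ∈ (h.enc z t L' n').1 :=
    e ▸ Or.inl rfl
  swap
  · exact (h1 _ _ _ _ h4).elim
  simp only [Prod.mk.injEq, Nn.pair_eq_pair, true_and, and_true] at h4
  have h5 : ∀ {L L' n n' i A B}, h.enc z t L n = h.enc z t L' n' → L.At i A → L'.At i B →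
      A.1 ≤ B.1 := fun {L L' n n' i A B} e k k' q hq => by
    obtain h7 | ⟨j, C, q', h7, h8, h9⟩ : ptc r z t i q ∈ (h.enc z t L' n').1 :=
      e ▸ Or.inr ⟨i, A, q, k, hq, rfl⟩
    · exact (h1 _ _ _ _ h7).elim
    · obtain ⟨rfl, rfl⟩ := h2 _ _ _ _ h9
      exact h7.unique k' ▸ h8
  refine ⟨ISeq.ext' h4.1 fun i A k => ?_, h4.2⟩
  obtain ⟨B, k'⟩ := ISeq.lt_len_iff.1 (h4.1 ▸ k.lt)
  rwa [Subtype.ext ((h5 e k k').antisymm (h5 e.symm k' k))]

theorem WO.enc_lt (h : WO r) {z : K} (hz : ∀ β, ¬ r β z) (t : FinS (K × Nn))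
    (L : ISeq (FinS (K × Nn))) (n : Nn) (ht : ¬ (h.lex.col.seg t).Finite)
    (hL : ∀ u ∈ L.rng, Col (Prod.Lex r (· < ·)) u.1 t.1) :
    Col (Prod.Lex r (· < ·)) (h.enc z t L n).1 t.1 := by
  obtain ⟨p₀, hp₀, hp₀'⟩ : ∃ p ∈ t.1, p.1 ≠ z := by
    by_contra! k
    obtain ⟨N, hN⟩ := t.2.exists_bound Prod.snd DefF.snd
    refine ht (((finite_singleton z).times (finite_range (N + 1))).powerset.of_injOn
      DefF.subtypeVal (fun u ⟨a, h1, _, h2⟩ p hp => ?_) Subtype.val_injective.injOn)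
    by_cases j : p ∈ t.1
    · exact ⟨k p j, Nn.lt_succ_iff.2 (hN p j)⟩
    · rcases Prod.lex_def.1 (h2 p hp j) with j | j
      · exact (hz _ (k a h1 ▸ j)).elim
      · exact ⟨j.1.trans (k a h1), Nn.lt_succ_iff.2 (j.2.le.trans (hN a h1))⟩
  obtain ⟨a, ⟨m, ha⟩, ha'⟩ := h.max t.2.dom ⟨p₀.1, p₀.2, hp₀⟩
  have h0 : ∀ p ∈ t.1, ¬ r a p.1 := fun p k => ha' _ ⟨p.2, k⟩
  have h1 : r z a := by
    rcases h.tri z a with k | rfl | k
    · exact k
    · rcases h.tri z p₀.1 with k | k | k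
      exacts [(h0 _ hp₀ k).elim, (hp₀' k.symm).elim, (hz _ k).elim]
    · exact (hz _ k).elim
  have h2 : ∀ p ∈ (h.enc z t L n).1, r p.1 a := by
    rintro p (rfl | ⟨i, A, q, h3, h4, rfl⟩)
    · exact h1
    unfold ptc
    split_ifs with h5
    · exact h1
    rcases h.tri q.1 a with k | rfl | k
    · exact k
    · exact (h5 ⟨⟨m, ha⟩, h0⟩).elim
    · obtain ⟨b, h6, -, h7⟩ := hL A h3.mem
      by_cases hq : q ∈ t.1
      · exact (h0 q hq k).elim
      · rcases Prod.lex_def.1 (h7 q h4 hq) with j | j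
        · exact (h0 b h6 (h.trans k j)).elim
        · exact (h0 b h6 (j.1 ▸ k)).elim
  exact ⟨(a, m), ha, fun k => h.irrefl _ (h2 _ k), fun b hb _ => Prod.lex_def.2 (Or.inl (h2 b hb))⟩

theorem dinf {ι : Nn → X} (hι : DefF ι) (hι' : Function.Injective ι) {E : ISeq X → IEq X}
    (hE : Bij E) : False := by
  obtain ⟨K, _, r, h, H⟩ := hartogs (ι 0)
  rcases (⊤ : DSet K).eq_bot_or_nonempty with k | k
  · exact H (fun _ => ι 0) (by fun_prop) fun a => (eq_bot_iff_forall.1 k a trivial).elim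
  obtain ⟨z, -, hz⟩ := h.min ⊤ k
  obtain ⟨f, df, hf⟩ := h.lex.col.exists_inj hι hι' hE (h.enc z)
    (by have := h.defF_ptc z; unfold WO.enc; fun_prop) (h.enc_lt fun β => hz β trivial) (h.enc_inj z)
  exact H (fun β => f ⟨{(β, 0)}, finite_singleton _⟩) (by fun_prop) fun β γ e =>
    (Prod.ext_iff.1 ((SetLike.ext_iff.1 (Subtype.ext_iff.1 (hf e)) (β, 0)).1 rfl)).1

end Pool.Agent.P.MP_e517ea_lc.Z
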