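import Pool.Agent.P.MP_e517ea_lc.Z.Model
import Pool.Agent.P.MP_e517ea_lc.Z.DInf

/-!
From the notions of the problem in the model to the typed layer; the theorem for countable models.
-/

set_option synthInstance.maxSize 16384

noncomputable section

namespace Pool.Agent.P.MP_e517ea_lc.Z

open DSet

variable [ZU] {X Y : Type} [Coded X] [Coded Y]

theorem maps_iff {f a b : UM} : Maps ME f a b ↔ opair a b ∈ f := by
  simp only [Maps, isOPair_iff, exists_eq_right]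
  rfl

theorem existsUnique_cd {p : UM → Prop} (h : ∀ z, p z → ∃ y : Y, cd y = z) :
    (∃! z, p z) ↔ ∃! y : Y, p (cd y) := by
  refine ⟨fun ⟨z, k, k'⟩ => ?_, fun ⟨y, k, k'⟩ => ⟨_, k, fun z j => ?_⟩⟩
  · obtain ⟨y, rfl⟩ := h z k
    exact ⟨y, k, fun _ j => cd_inj.1 (k' _ j)⟩
  · obtain ⟨y', rfl⟩ := h z j
    rw [k' y' j]

theorem forall_mem_cd {S : DSet X} {p : UM → Prop} : (∀ z, ME z (cd S) → p z) ↔ ∀ x ∈ S, p (cd x) :=
  ⟨fun h _ k => h _ (cd_mem_cd.2 k), fun h _ k => (mem_cd.1 k).elim fun x k => k.2 ▸ h x k.1⟩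

theorem opair_mem_cd {F : DSet (X × Y)} {a b : UM} (h : opair a b ∈ cd F) :
    (∃ x : X, cd x = a) ∧ ∃ y : Y, cd y = b := by
  obtain ⟨z, -, e⟩ := mem_cd.1 h
  exact ⟨⟨_, (opair_inj.1 e).1⟩, _, (opair_inj.1 e).2⟩

theorem isFunc_iff {S : DSet X} {T : DSet Y} {f : UM} : IsFunc ME f (cd S) (cd T) ↔
    ∃ F : DSet (X × Y), cd F = f ∧ F ≤ S.times T ∧ ∀ a ∈ S, ∃! b, (a, b) ∈ F := by
  have key : ∀ (F : DSet (X × Y)) (a : X), (∃! b, opair (cd a) b ∈ cd F) ↔ ∃! b, (a, b) ∈ F :=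
    fun F a => (existsUnique_cd fun _ k => (opair_mem_cd k).2).trans
      (existsUnique_congr fun b => cd_mem_cd (x := (a, b)))
  simp only [IsFunc, maps_iff, isOPair_iff, forall_mem_cd]
  constructor
  · rintro ⟨h1, h2⟩
    have h3 : ∀ w, w ∈ f → ∃ z ∈ S.times T, cd z = w := fun w k => by
      obtain ⟨_, _, k1, k2, rfl⟩ := h1 w k
      obtain ⟨a, j1, rfl⟩ := mem_cd.1 k1
      obtain ⟨b, j2, rfl⟩ := mem_cd.1 k2
      exact ⟨(a, b), ⟨j1, j2⟩, rfl⟩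
    obtain ⟨F, rfl⟩ := exists_cd_eq (X := X × Y) fun w k =>
      mem_car.2 ((h3 w k).imp fun _ k => k.2)
    exact ⟨F, rfl, fun z k => (h3 _ (cd_mem_cd.2 k)).elim fun _ k => cd_inj.1 k.2 ▸ k.1,
      fun a k => (key F a).1 (h2 a k)⟩
  · rintro ⟨F, rfl, h1, h2⟩
    exact ⟨forall_mem_cd.2 fun z k => ⟨_, _, cd_mem_cd.2 (h1 k).1, cd_mem_cd.2 (h1 k).2, rfl⟩,
      fun a k => (key F a).2 (h2 a k)⟩

theorem eqCard_iff {S : DSet X} {T : DSet Y} : EqCard ME (cd S) (cd T) ↔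
    ∃ F : DSet (X × Y), F ≤ S.times T ∧ (∀ a ∈ S, ∃! b, (a, b) ∈ F) ∧ ∀ b ∈ T, ∃! a, (a, b) ∈ F := by
  have key : ∀ (F : DSet (X × Y)) (b : Y), (∃! a, opair a (cd b) ∈ cd F) ↔ ∃! a, (a, b) ∈ F :=
    fun F b => (existsUnique_cd fun _ k => (opair_mem_cd k).1).trans
      (existsUnique_congr fun a => cd_mem_cd (x := (a, b)))
  simp only [EqCard, isFunc_iff, maps_iff, forall_mem_cd]
  exact ⟨fun ⟨_, ⟨F, e, h1, h2⟩, h3⟩ => ⟨F, h1, h2, fun b k => (key F b).1 (e ▸ h3 b k)⟩,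
    fun ⟨F, h1, h2, h3⟩ => ⟨_, ⟨F, rfl, h1, h2⟩, fun b k => (key F b).2 (h3 b k)⟩⟩

theorem exists_isNat {p : UM → Prop} : (∃ n, IsNat ME n ∧ p n) ↔ ∃ n : Nn, p (cd (range n)) := by
  have e : ∀ n : Nn, cd (range n) = cd n := fun n => UM.ext fun _ => mem_cd.trans Nn.mem_cd.symm
  simp only [e, ← mem_omg]
  exact ⟨fun ⟨n, h, k⟩ => ⟨⟨n, h⟩, k⟩, fun ⟨n, k⟩ => ⟨_, n.cd_mem_omg, k⟩⟩

theorem isFinite_iff {S : DSet X} : IsFinite ME (cd S) ↔ S.Finite := by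
  simp only [IsFinite, exists_isNat, eqCard_iff]
  constructor
  · rintro ⟨n, F, h1, h2, h3⟩
    exact (card_le_of_rel (fun x i => (x, i) ∈ F) (by fun_prop)
      (fun x k => (h2 x k).exists.imp fun _ k => ⟨(h1 k).2, k⟩)
      (fun _ _ _ _ i k => (h3 i k).unique) (finite_range n)).1
  · rintro ⟨n, e, h1, h2, h3⟩
    refine ⟨n, ⟨fun z => z.1 ∈ S ∧ e z.1 = z.2, by fun_prop⟩, fun z k => ⟨k.1, k.2 ▸ h1 _ k.1⟩,
      fun a k => ⟨e a, ⟨k, rfl⟩, fun _ k => k.2.symm⟩, fun i k => ?_⟩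
    obtain ⟨a, k1, k2⟩ := h3 i k
    exact ⟨a, ⟨k1, k2⟩, fun b k => h2 _ k.1 _ k1 (k.2.trans k2.symm)⟩

theorem isInjSeq_iff {z : UM} :
    IsInjSeq ME (cd (⊤ : DSet X)) z ↔ ∃ s : ISeq X, s ∈ ISeq.NL ⊤ ∧ cd s = z := by
  have key : ∀ F : DSet (Nn × X), (∀ i j a, opair i a ∈ cd F → opair j a ∈ cd F → i = j) ↔
      ∀ i j a, (i, a) ∈ F → (j, a) ∈ F → i = j := fun F =>
    ⟨fun h i j a k k' => cd_inj.1 (h _ _ _ (cd_mem_cd.2 k) (cd_mem_cd.2 k')), fun h i j a k k' => by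
      obtain ⟨⟨i, rfl⟩, a, rfl⟩ := opair_mem_cd k
      obtain ⟨⟨j, rfl⟩, -⟩ := opair_mem_cd k'
      rw [h i j a (cd_mem_cd.1 k) (cd_mem_cd.1 k')]⟩
  simp only [IsInjSeq, exists_isNat, isFunc_iff, maps_iff]
  constructor
  · rintro ⟨n, ⟨F, rfl, h1, h2⟩, h3⟩
    exact ⟨⟨F, n, fun i => ⟨fun k => (h2 i k).exists, fun ⟨_, k⟩ => (h1 k).1⟩,
      fun i _ _ k => (h2 i (h1 k).1).unique k⟩, ⟨(key F).1 h3, le_top⟩, rfl⟩
  · rintro ⟨s, h, rfl⟩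
    exact ⟨s.len, ⟨s.gr, rfl, fun _ k => ⟨ISeq.At.lt k, trivial⟩, fun i k =>
      existsUnique_of_exists_of_unique ((s.dom i).1 k) (s.uniq i)⟩, (key _).2 h.1⟩

/-- The set of blocks. -/
def IEq.parts (P : IEq X) : DSet (DSet X) := (⊤ : DSet X).image P.blk (by fun_prop)

@[fun_prop] theorem defF_parts : DefF (IEq.parts : IEq X → _) := by
  unfold IEq.parts; fun_prop

theorem IEq.parts_inj : Function.Injective (IEq.parts : IEq X → _) := by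
  have key : ∀ {P Q : IEq X}, P.parts = Q.parts → ∀ a b, P a b → Q a b := fun {P Q} e a b k => by
    obtain ⟨c, -, j⟩ : P.blk a ∈ Q.parts := e ▸ mem_image_of_mem trivial
    exact Q.trans (Q.symm ((SetLike.ext_iff.1 j a).2 (P.refl a))) ((SetLike.ext_iff.1 j b).2 k)
  exact fun P Q e => IEq.ext fun a b => ⟨key e a b, key e.symm a b⟩

theorem isFinPartition_iff {z : UM} :
    IsFinPartition ME (cd (⊤ : DSet X)) z ↔ ∃ P : IEq X, P.Fin ∧ cd P.parts = z := by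
  have key : ∀ (C : DSet (DSet X)) (a : X), (∃! b, ME b (cd C) ∧ ME (cd a) b) ↔
      ∃! B, B ∈ C ∧ a ∈ B := fun C a =>
    (existsUnique_cd fun _ k => (mem_cd.1 k.1).imp fun _ k => k.2).trans
      (existsUnique_congr fun _ => and_congr cd_mem_cd cd_mem_cd)
  constructor
  · rintro ⟨h1, h2⟩
    obtain ⟨C, rfl⟩ := exists_cd_eq (X := DSet X) (z := z) fun w k => mem_car.2
      (exists_cd_eq fun v j => mem_car.2 ((mem_cd.1 ((h1 w k).2.1 v j)).imp fun _ k => k.2))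
    have h3 := fun a => (key C a).1 (h2 _ (cd_mem_cd.2 trivial))
    let P : IEq X :=
      { rel := fun a b => ∃ B, B ∈ C ∧ a ∈ B ∧ b ∈ B
        defn := by fun_prop
        refl := fun a => (h3 a).exists.imp fun _ k => ⟨k.1, k.2, k.2⟩
        symm := fun ⟨B, k⟩ => ⟨B, k.1, k.2.2, k.2.1⟩
        trans := fun ⟨B, k⟩ ⟨_, k'⟩ =>
          ⟨B, k.1, k.2.1, (h3 _).unique ⟨k'.1, k'.2.1⟩ ⟨k.1, k.2.2⟩ ▸ k'.2.2⟩ }
    have h4 : ∀ B ∈ C, ∀ a ∈ B, P.blk a = B := fun B k a k' => ext fun b =>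
      ⟨fun ⟨_, j⟩ => (h3 a).unique ⟨j.1, j.2.1⟩ ⟨k, k'⟩ ▸ j.2.2, fun j => ⟨B, k, k', j⟩⟩
    refine ⟨P, fun a => ?_, congrArg cd (ext fun B => ⟨?_, fun k => ?_⟩)⟩
    · obtain ⟨B, k, k'⟩ := (h3 a).exists
      exact h4 B k a k' ▸ isFinite_iff.1 (h1 _ (cd_mem_cd.2 k)).2.2
    · rintro ⟨a, -, rfl⟩
      obtain ⟨B, k, k'⟩ := (h3 a).exists
      exact h4 B k a k' ▸ k
    · obtain ⟨_, j⟩ := (h1 _ (cd_mem_cd.2 k)).1
      obtain ⟨a, j, -⟩ := mem_cd.1 j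
      exact ⟨a, trivial, h4 B k a j⟩
  · rintro ⟨P, h, rfl⟩
    refine ⟨forall_mem_cd.2 ?_, forall_mem_cd.2 fun a _ => (key _ a).2
      ⟨P.blk a, ⟨mem_image_of_mem trivial, P.refl a⟩, ?_⟩⟩
    · rintro _ ⟨a, -, rfl⟩
      exact ⟨⟨_, cd_mem_cd.2 (P.refl a)⟩, forall_mem_cd.2 fun _ _ => cd_mem_cd.2 trivial,
        isFinite_iff.2 (h a)⟩
    · rintro _ ⟨⟨b, -, rfl⟩, k⟩
      exact IEq.blk_eq k

theorem exists_bij {b s : UM} (hB : ∀ P, ME P b ↔ IsFinPartition ME (cd (⊤ : DSet X)) P)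
    (hS : ∀ z, ME z s ↔ IsInjSeq ME (cd (⊤ : DSet X)) z) (h : EqCard ME b s) :
    ∃ E : ISeq X → IEq X, Bij E := by
  obtain rfl : cd ((⟨IEq.Fin, by fun_prop⟩ : DSet (IEq X)).image _ defF_parts) = b :=
    UM.ext fun z => mem_cd.trans (Iff.trans ⟨fun ⟨_, ⟨P, k, e⟩, e'⟩ => ⟨P, k, e ▸ e'⟩,
      fun ⟨P, k, e⟩ => ⟨_, ⟨P, k, rfl⟩, e⟩⟩ ((hB z).trans isFinPartition_iff).symm)
  obtain rfl : cd (ISeq.NL (⊤ : DSet X)) = s :=
    UM.ext fun z => mem_cd.trans ((hS z).trans isInjSeq_iff).symm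
  obtain ⟨F, h1, h2, h3⟩ := eqCard_iff.1 h
  have h4 : ∀ (s : ISeq X) (P : IEq X), (P.parts, s) ∈ F →
      uq ⊥ (fun P : IEq X => (P.parts, s) ∈ F) = P := fun s P k =>
    uq_eq k fun _ k' => IEq.parts_inj ((h3 s (h1 k).2).unique k' k)
  have h5 : ∀ s : ISeq X, s.Nodup → ∃ P : IEq X, P.Fin ∧ (P.parts, s) ∈ F := fun s k => by
    obtain ⟨C, j⟩ := (h3 s ⟨k, le_top⟩).exists
    obtain ⟨P, k, e⟩ := (h1 j).1
    exact ⟨P, k, (show P.parts = C from e) ▸ j⟩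
  refine ⟨fun s => uq ⊥ fun P : IEq X => (P.parts, s) ∈ F, by fun_prop, fun s k => ?_,
    fun s t k k' e => ?_, fun P k => ?_⟩
  · obtain ⟨P, j, j'⟩ := h5 s k
    rwa [h4 s P j']
  · obtain ⟨P, j, j'⟩ := h5 s k
    obtain ⟨Q, -, i⟩ := h5 t k'
    rw [h4 s P j', h4 t Q i] at e
    exact (h2 _ ⟨P, j, rfl⟩).unique j' (e ▸ i)
  · obtain ⟨s, j⟩ := (h2 _ ⟨P, k, rfl⟩).exists
    exact ⟨s, (h1 j).2.1, h4 s P j⟩

/-- The theorem for countable models. -/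
theorem main_countable [Countable UM] {a b s : UM} (hA : ¬ IsFinite ME a)
    (hB : ∀ P, ME P b ↔ IsFinPartition ME a P) (hS : ∀ z, ME z s ↔ IsInjSeq ME a z) :
    ¬ EqCard ME b s := fun h => by
  have e : cd (⊤ : DSet (El a)) = a :=
    UM.ext fun z => mem_cd.trans ⟨fun ⟨x, _, e⟩ => e ▸ x.2, fun k => ⟨⟨z, k⟩, trivial, rfl⟩⟩
  rw [← e] at hA hB hS
  obtain ⟨E, hE⟩ := exists_bij hB hS h
  obtain ⟨x, -⟩ := (⊤ : DSet (El a)).eq_bot_or_nonempty.resolve_left fun k =>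
    hA (isFinite_iff.2 (k ▸ finite_bot))
  let _ : Sig (El a) := ⟨E, x, hE, fun _ k k' => dinf k k' hE⟩
  exact no_sig (El a)

end Pool.Agent.P.MP_e517ea_lc.Z
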