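import Pool.Agent.P.MP_e517ea_lc.Z.Enc

/-!
Counting lemmas for invariant partitions: gluing invariant blocks.
-/

set_option synthInstance.maxSize 16384
set_option linter.unusedSectionVars false

noncomputable section

namespace Pool.Agent.P.MP_e517ea_lc.Z

open DSet IEq

variable [ZU]
variable {G A : Type} [Group G] [MulAction G A] [Coded A] [GS G A] {V : OS G A}
  {S S' K K' : DSet A}

theorem mem_Inv_of_fix (hK : K.Finite) (hfix : ∀ g ∈ V, ∀ a ∈ K, g • a = a) {P : IEq A}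
    (h : ∀ a b, P a b → a = b ∨ (a ∈ K ∧ b ∈ K)) : P ∈ Inv V K := by
  refine ⟨fun a => (hK.insert a).subset fun b hb => ?_, fun g hg a b hab => ?_, h⟩
  · rcases h a b hb with rfl | H
    · exact Or.inl rfl
    · exact Or.inr H.2
  · rcases h a b hab with rfl | H
    · exact P.refl _
    · rw [hfix g hg a H.1, hfix g hg b H.2]; exact hab

theorem nn_lower (hf : FinG V) (hK : K.Finite) (hfix : ∀ g ∈ V, ∀ a ∈ K, g • a = a) {a : Nn}
    (ha : a ≤ K.card) : a ^ (K.card - a) ≤ nn V K := by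
  obtain ⟨M, hMK, hMf, hM⟩ := exists_le_card_eq ha
  have hc := card_pi_const (d := ⟨fun x => x, DefF.id⟩) (hK.subset (sdiff_le : K \ M ≤ K)) hMf
  rw [card_sdiff hMK hK, hM] at hc
  rw [← hc]
  refine card_le_card_of_injOn (fun f => ker f f.defn) (by fun_prop) (fun f hf' => ?_)
    (fun f hf' g hg h4 => ?_) (hf.fin K)
  · refine mem_Inv_of_fix hK hfix fun x y (hxy : f x = f y) => ?_
    by_cases hx : x ∈ K \ M <;> by_cases hy : y ∈ K \ M
    · exact Or.inr ⟨hx.1, hy.1⟩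
    · rw [hf'.2 y hy] at hxy
      exact Or.inr ⟨hx.1, hMK ((show f x = y from hxy) ▸ hf'.1 x hx)⟩
    · rw [hf'.2 x hx] at hxy
      exact Or.inr ⟨hMK ((show x = f y from hxy) ▸ hf'.1 y hy), hy.1⟩
    · rw [hf'.2 y hy, hf'.2 x hx] at hxy
      exact Or.inl hxy
  · ext x
    by_cases hx : x ∈ K \ M
    · have h5 : f x ∉ K \ M := fun H => H.2 (hf'.1 x hx)
      have h6 : ker f f.defn x (f x) := (hf'.2 _ h5).symm
      have h7 : g x = g (f x) := (SetLike.ext_iff.1 (congrArg gr h4) (x, f x)).1 h6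
      exact (h7.trans (hg.2 _ h5)).symm
    · exact (hf'.2 x hx).trans (hg.2 x hx).symm

theorem IB.sub {P : IEq A} (hP : P ∈ Inv V S) {β : DSet A} (h : β ∈ IB V P S) : β ≤ S := by
  obtain ⟨a, ha, rfl, -⟩ := h
  intro b hb
  rcases hP.2.2 a b hb with rfl | H
  · exact ha
  · exact H.2

theorem IB.rel {P : IEq A} {β : DSet A} (h : β ∈ IB V P S) {a b : A} (ha : a ∈ β) :
    b ∈ β ↔ P a b := by
  obtain ⟨c, -, rfl, -⟩ := h
  exact ⟨fun hb => P.trans (P.symm ha) hb, fun hb => P.trans ha hb⟩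

theorem IB.ne {P : IEq A} {β : DSet A} (h : β ∈ IB V P S) : β.Nonempty := by
  obtain ⟨c, -, rfl, -⟩ := h
  exact ⟨c, P.refl c⟩

theorem IB.eq {P : IEq A} {β γ : DSet A} (h : β ∈ IB V P S) (h' : γ ∈ IB V P S) {a : A}
    (ha : a ∈ β) (ha' : a ∈ γ) : β = γ :=
  DSet.ext fun _ => (IB.rel h ha).trans (IB.rel h' ha').symm

theorem IB.smul {P : IEq A} (hP : P ∈ Inv V S) {β : DSet A} (h : β ∈ IB V P S) {g : G}
    (hg : g ∈ V) {a : A} (ha : a ∈ β) : g • a ∈ β := by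
  obtain ⟨c, -, rfl, hc⟩ := h
  exact P.trans (hc g hg) (hP.2.1 g hg c a ha)

theorem not_rel {P : IEq A} (hP : P ∈ Inv V S) (hd : Disjoint S S') {a b : A} (ha : a ∈ S)
    (hb : b ∈ S') : ¬ P a b := fun h => by
  rcases hP.2.2 a b h with rfl | H
  · exact disjoint_left.1 hd ha hb
  · exact disjoint_left.1 hd H.2 hb

theorem exists_glue (hS : S.Finite) (hS' : S'.Finite) (hd : Disjoint S S') {P Q : IEq A}
    (hP : P ∈ Inv V S) (hQ : Q ∈ Inv V S') (m : Nn) (u v : Nn → DSet A) (du : DefF u) (dv : DefF v)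
    (hu : Set.InjOn u (range m)) (hv : Set.InjOn v (range m)) (hu' : ∀ i, i < m → u i ∈ IB V P S)
    (hv' : ∀ i, i < m → v i ∈ IB V Q S') :
    ∃ R ∈ Inv V (S ⊔ S'), (∀ a ∈ S, ∀ b ∈ S, R a b ↔ P a b) ∧ (∀ a ∈ S', ∀ b ∈ S', R a b ↔ Q a b) ∧
      ∀ a ∈ S, ∀ b ∈ S', R a b ↔ ∃ i, i < m ∧ a ∈ u i ∧ b ∈ v i := by
  obtain ⟨R, hR, hR'⟩ := exists_union hP hQ hd
  have hd' := disjoint_left.1 hd
  have huS : ∀ i, i < m → u i ≤ S := fun i hi => IB.sub hP (hu' i hi)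
  have hvS : ∀ i, i < m → v i ≤ S' := fun i hi => IB.sub hQ (hv' i hi)
  have hdis : ∀ i i' a, i < m → i' < m → a ∈ u i ⊔ v i → a ∈ u i' ⊔ v i' → i = i' := by
    rintro i i' a hi hi' (h | h) (h' | h')
    · exact hu hi hi' (IB.eq (hu' i hi) (hu' i' hi') h h')
    · exact (hd' (huS i hi h) (hvS i' hi' h')).elim
    · exact (hd' (huS i' hi' h') (hvS i hi h)).elim
    · exact hv hi hi' (IB.eq (hv' i hi) (hv' i' hi') h h')
  have hcl : ∀ i a b, i < m → R a b → b ∈ u i ⊔ v i → a ∈ u i ⊔ v i := by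
    rintro i a b hi hab hb
    rcases (hR' a b).1 hab with h | h
    · rcases hb with hb | hb
      · exact Or.inl ((IB.rel (hu' i hi) hb).2 (P.symm h))
      · rcases hP.2.2 a b h with rfl | H
        · exact Or.inr hb
        · exact (hd' H.2 (hvS i hi hb)).elim
    · rcases hb with hb | hb
      · rcases hQ.2.2 a b h with rfl | H
        · exact Or.inl hb
        · exact (hd' (huS i hi hb) H.2).elim
      · exact Or.inr ((IB.rel (hv' i hi) hb).2 (Q.symm h))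
  have hsub : ∀ i, i < m → u i ⊔ v i ≤ S ⊔ S' := fun i hi => sup_le_sup (huS i hi) (hvS i hi)
  refine ⟨mrg R (fun a b => ∃ i, i < m ∧ a ∈ u i ⊔ v i ∧ b ∈ u i ⊔ v i) (by fun_prop)
    (fun a b ⟨i, hi, h1, h2⟩ => ⟨i, hi, h2, h1⟩)
    (fun a b c ⟨i, hi, h1, h2⟩ ⟨i', hi', h3, h4⟩ => ⟨i, hi, h1, hdis i i' b hi hi' h2 h3 ▸ h4⟩)
    (fun a b c h ⟨i, hi, h1, h2⟩ => ⟨i, hi, hcl i a b hi h h1, h2⟩),
    mrg_mem hR (fun a => ⟨_, hS.sup hS', fun b ⟨i, hi, _, h⟩ => hsub i hi h⟩)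
      (fun g hg a b ⟨i, hi, h1, h2⟩ =>
        ⟨i, hi, h1.imp (IB.smul hP (hu' i hi) hg) (IB.smul hQ (hv' i hi) hg),
        h2.imp (IB.smul hP (hu' i hi) hg) (IB.smul hQ (hv' i hi) hg)⟩)
      (fun a b ⟨i, hi, h1, h2⟩ => Or.inr ⟨hsub i hi h1, hsub i hi h2⟩), fun a ha b hb => ?_,
      fun a ha b hb => ?_, fun a ha b hb => ?_⟩
  · rw [mrg_iff, hR']
    refine ⟨?_, fun h => Or.inl (Or.inl h)⟩
    rintro ((h | h) | ⟨i, hi, h1, h2⟩)
    · exact h
    · rcases hQ.2.2 a b h with rfl | H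
      · exact P.refl a
      · exact (hd' ha H.1).elim
    · exact (IB.rel (hu' i hi) (h1.resolve_right fun H => hd' ha (hvS i hi H))).1
        (h2.resolve_right fun H => hd' hb (hvS i hi H))
  · rw [mrg_iff, hR']
    refine ⟨?_, fun h => Or.inl (Or.inr h)⟩
    rintro ((h | h) | ⟨i, hi, h1, h2⟩)
    · rcases hP.2.2 a b h with rfl | H
      · exact Q.refl a
      · exact (hd' H.1 ha).elim
    · exact h
    · exact (IB.rel (hv' i hi) (h1.resolve_left fun H => hd' (huS i hi H) ha)).1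
        (h2.resolve_left fun H => hd' (huS i hi H) hb)
  · rw [mrg_iff, hR']
    refine ⟨?_, fun ⟨i, hi, h1, h2⟩ => Or.inr ⟨i, hi, Or.inl h1, Or.inr h2⟩⟩
    rintro ((h | h) | ⟨i, hi, h1, h2⟩)
    · exact (not_rel hP hd ha hb h).elim
    · exact (not_rel hQ hd.symm hb ha (Q.symm h)).elim
    · exact ⟨i, hi, h1.resolve_right fun H => hd' ha (hvS i hi H),
        h2.resolve_left fun H => hd' (huS i hi H) hb⟩

theorem Inv.ext_on {P P' : IEq A} (hP : P ∈ Inv V S) (hP' : P' ∈ Inv V S)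
    (h : ∀ a ∈ S, ∀ b ∈ S, P a b ↔ P' a b) : P = P' := by
  ext a b
  constructor
  · intro H
    rcases hP.2.2 a b H with rfl | H'
    · exact P'.refl a
    · exact (h a H'.1 b H'.2).1 H
  · intro H
    rcases hP'.2.2 a b H with rfl | H'
    · exact P.refl a
    · exact (h a H'.1 b H'.2).2 H

theorem glue (hf : FinG V) (hS : S.Finite) (hS' : S'.Finite) (hd : Disjoint S S')
    {Ps Qs : DSet (IEq A)} (hP : Ps ≤ Inv V S) (hQ : Qs ≤ Inv V S') {j m t : Nn} (hm : 0 < m)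
    (ht : t + m ≤ j + 1) (hj : ∀ P ∈ Ps, j ≤ (IB V P S).card)
    (hm' : ∀ Q ∈ Qs, m ≤ (IB V Q S').card) :
    nn V S * nn V S' + Ps.card * Qs.card * t ^ m ≤ nn V (S ⊔ S') := by
  have h0 := card_sep_add_card_sep_not (hf.fin (S ⊔ S'))
    (p := fun R => ∃ a ∈ S, ∃ b ∈ S', R a b) (by fun_prop)
  rw [nn, nn, nn, ← h0, add_comm]
  have hPf := (hf.fin S).subset hP
  have hQf := (hf.fin S').subset hQ
  refine add_le_add ((Nn.mul_le_mul_left _ (pow_le_card_injs ht)).trans ?_) ?_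
  · have : Nonempty (DFun Nn (DSet A)) := ⟨⟨fun _ => ⊥, by fun_prop⟩⟩
    obtain ⟨u, du, hu⟩ := hPf.choice (r := fun P (u : DFun Nn (DSet A)) =>
      Set.InjOn u (range j) ∧ ∀ i, i < j → u i ∈ IB V P S)
      (by simp only [all_eq, imp_eq]; fun_prop) fun P h => exists_inj (hj P h)
    obtain ⟨v, dv, hv⟩ := hQf.choice (r := fun Q (v : DFun Nn (DSet A)) =>
      Set.InjOn v (range m) ∧ ∀ i, i < m → v i ∈ IB V Q S')
      (by simp only [all_eq, imp_eq]; fun_prop) fun Q h => exists_inj (hm' Q h)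
    rw [← card_times hPf hQf, ← card_times (hPf.times hQf) (finite_injs m j)]
    have k5 : ∀ p ∈ (Ps.times Qs).times (injs m j), ∀ i, i < m →
        ∃ a ∈ u p.1.1 (p.2 i), ∃ b ∈ v p.1.2 i, a ∈ S ∧ b ∈ S' := fun p hp i hi => by
      have k1 := (hu _ hp.1.1).2 _ (hp.2.1.1 i hi)
      have k2 := (hv _ hp.1.2).2 _ hi
      obtain ⟨a, ha⟩ := IB.ne k1
      obtain ⟨b, hb⟩ := IB.ne k2
      exact ⟨a, ha, b, hb, IB.sub (hP hp.1.1) k1 ha, IB.sub (hQ hp.1.2) k2 hb⟩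
    refine (card_le_of_rel (fun (p : (IEq A × IEq A) × DFun Nn Nn) (R : IEq A) =>
      (∀ a ∈ S, ∀ b ∈ S, R a b ↔ p.1.1 a b) ∧ (∀ a ∈ S', ∀ b ∈ S', R a b ↔ p.1.2 a b) ∧
        ∀ a ∈ S, ∀ b ∈ S', R a b ↔ ∃ i, i < m ∧ a ∈ u p.1.1 (p.2 i) ∧ b ∈ v p.1.2 i)
      (by simp only [all_eq, imp_eq]; fun_prop) (fun p hp => ?_) ?_ (hf.fin _).sep).2
    · obtain ⟨R, k1, k2⟩ := exists_glue hS hS' hd (hP hp.1.1) (hQ hp.1.2) m
        (fun i => u p.1.1 (p.2 i)) (v p.1.2) (by fun_prop) (by fun_prop)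
        (fun i hi k hk e => hp.2.2 hi hk ((hu _ hp.1.1).1 (hp.2.1.1 i hi) (hp.2.1.1 k hk) e))
        (hv _ hp.1.2).1 (fun i hi => (hu _ hp.1.1).2 _ (hp.2.1.1 i hi)) (hv _ hp.1.2).2
      obtain ⟨a, ha, b, hb, ha', hb'⟩ := k5 p hp 0 hm
      exact ⟨R, ⟨k1, a, ha', b, hb', (k2.2.2 a ha' b hb').2 ⟨0, hm, ha, hb⟩⟩, k2⟩
    · rintro ⟨⟨P, Q⟩, e⟩ hp ⟨⟨P', Q'⟩, e'⟩ hq R - h h'
      obtain rfl : P = P' := Inv.ext_on (hP hp.1.1) (hP hq.1.1) fun a ha b hb =>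
        (h.1 a ha b hb).symm.trans (h'.1 a ha b hb)
      obtain rfl : Q = Q' := Inv.ext_on (hQ hp.1.2) (hQ hq.1.2) fun a ha b hb =>
        (h.2.1 a ha b hb).symm.trans (h'.2.1 a ha b hb)
      refine Prod.ext rfl (DFun.ext (funext fun i => ?_))
      by_cases hi : i < m
      swap
      · exact (hp.2.1.2 i hi).trans (hq.2.1.2 i hi).symm
      obtain ⟨a, ha, b, hb, ha', hb'⟩ := k5 _ hp i hi
      obtain ⟨i', hi', l1, l2⟩ := (h'.2.2 a ha' b hb').1 ((h.2.2 a ha' b hb').2 ⟨i, hi, ha, hb⟩)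
      have k1 := hu _ hp.1.1
      have k2 := hv _ hp.1.2
      obtain rfl : i = i' := k2.1 hi hi' (IB.eq (k2.2 i hi) (k2.2 i' hi') hb l2)
      exact k1.1 (hp.2.1.1 i hi) (hq.2.1.1 i hi)
        (IB.eq (k1.2 _ (hp.2.1.1 i hi)) (k1.2 _ (hq.2.1.1 i hi)) ha l1)
  · rw [← card_times (hf.fin S) (hf.fin S')]
    refine (card_le_of_rel (S := (Inv V S).times (Inv V S')) (fun (p : IEq A × IEq A) (R : IEq A) =>
      (∀ a ∈ S, ∀ b ∈ S, R a b ↔ p.1 a b) ∧ ∀ a ∈ S', ∀ b ∈ S', R a b ↔ p.2 a b)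
      (by simp only [all_eq, imp_eq]; fun_prop) (fun p hp => ?_) (fun p hp q hq R _ h h' => ?_)
      (hf.fin _).sep).2
    · obtain ⟨R, k1, k2, k3, k4⟩ := exists_glue hS hS' hd hp.1 hp.2 0 (fun _ => ⊥) (fun _ => ⊥)
        (by fun_prop) (by fun_prop) (fun _ h => absurd (mem_range.1 h) not_lt_zero)
        (fun _ h => absurd (mem_range.1 h) not_lt_zero) (fun _ h => absurd h not_lt_zero)
        (fun _ h => absurd h not_lt_zero)
      exact ⟨R, ⟨k1, fun ⟨a, ha, b, hb, h⟩ => ((k4 a ha b hb).1 h).elim fun _ h => h.2.1⟩, k2, k3⟩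
    · exact Prod.ext (Inv.ext_on hp.1 hq.1 fun a ha b hb => (h.1 a ha b hb).symm.trans (h'.1 a ha b hb))
        (Inv.ext_on hp.2 hq.2 fun a ha b hb => (h.2 a ha b hb).symm.trans (h'.2 a ha b hb))

/-- The invariant partitions with more than `j` invariant blocks. -/
def Many (V : OS G A) (S : DSet A) (j : Nn) : DSet (IEq A) :=
  (Inv V S).sep (fun P => j < (IB V P S).card) (by fun_prop)

theorem av (hf : FinG V) (hS : S.Finite) (hSV : Stab V S) (hKS : K ≤ S)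
    (hfix : ∀ g ∈ V, ∀ a ∈ K, g • a = a) {j : Nn} (hj : 2 * (2 * j) ^ (2 * j) ≤ 2 ^ K.card) :
    nn V S ≤ 2 * (Many V S j).card := by
  have hK : K.Finite := hS.subset hKS
  have hKV : Stab V K := fun g hg a ha => by rw [hfix g hg a ha]; exact ha
  have e : S \ K ⊔ K = S := sdiff_sup_cancel hKS
  have h1 := enc hf (hS.subset (sdiff_le : S \ K ≤ S)) hK (hSV.diff hKV) hfix j
  have h2 := nn_mul_le hf (disjoint_sdiff_self_left : Disjoint (S \ K) K)
  simp only [e] at h1 h2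
  set k := K.card with hk
  have hpos : 0 < (2 * j) ^ (2 * j) := by
    rcases j.eq_zero_or_pos with rfl | h
    · simp
    · exact Nn.pow_pos (mul_pos two_pos h)
  have h3 : 2 * j ≤ k := by
    rcases j.eq_zero_or_pos with rfl | h
    · simp
    · have : (2 : Nn) ^ (2 * j) ≤ 2 ^ k :=
        (Nn.pow_le_pow_left (Nn.le_mul_of_pos_right 2 h) _).trans
          ((Nn.le_mul_of_pos_left _ two_pos).trans hj)
      exact (Nn.pow_le_pow_iff_right one_lt_two).1 this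
  have h4 := nn_lower hf hK hfix h3
  rw [← hk] at h4
  have h5 : 2 * j ^ k ≤ (2 * j) ^ (k - 2 * j) := by
    refine Nn.le_of_mul_le_mul_right ?_ hpos
    rw [← Nn.pow_add, Nn.sub_add_cancel h3, Nn.mul_pow 2 j k]
    calc 2 * j ^ k * (2 * j) ^ (2 * j) = (2 * (2 * j) ^ (2 * j)) * j ^ k := by ring
      _ ≤ 2 ^ k * j ^ k := Nn.mul_le_mul_right _ hj
  have h6 : nn V S ≤ (Many V S j).card +
      ((Inv V S).sep (fun P => (IB V P S).card ≤ j) (by fun_prop)).card := by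
    refine le_trans (card_le_card (fun P hP => ?_) ((hf.fin S).sep.sup (hf.fin S).sep))
      (card_sup_le _ _)
    exact (lt_or_ge j (IB V P S).card).imp (fun h => ⟨hP, h⟩) fun h => ⟨hP, h⟩
  have h7 : 2 * (nn V (S \ K) * j ^ k) ≤ nn V S :=
    calc 2 * (nn V (S \ K) * j ^ k) = nn V (S \ K) * (2 * j ^ k) := by ring
      _ ≤ nn V (S \ K) * nn V K := Nn.mul_le_mul_left _ (h5.trans h4)
      _ ≤ _ := h2
  zify at h1 h6 h7 ⊢
  grind

theorem mm_pos (hf : FinG V) (hS : S.Finite) (hSV : Stab V S) (hne : S.Nonempty) :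
    1 ≤ mm V S := by
  obtain ⟨a, ha⟩ := hne
  exact Nn.pos_iff_one_le.1 ((card_pos (hf.fin S).sep).2 ⟨_, blk_mem hS hSV,
    _, a, ha, rfl, fun g hg => Or.inr ⟨ha, hSV g hg a ha, trivial⟩⟩)

theorem mm_eq {a : A} (ha : a ∈ S) (hfix : ∀ g ∈ V, g • a = a) : mm V S = nn V S :=
  congrArg card (DSet.ext fun P => and_iff_left
    ⟨_, a, ha, rfl, fun g hg => by rw [hfix g hg]; exact P.refl a⟩)

theorem gain (hf : FinG V) (hS : S.Finite) (hS' : S'.Finite) (hd : Disjoint S S') :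
    nn V S * nn V S' + mm V S * mm V S' ≤ nn V (S ⊔ S') := by
  have := glue hf hS hS' hd (Ps := (Inv V S).sep (fun P => (IB V P S).Nonempty) (by fun_prop))
    (Qs := (Inv V S').sep (fun P => (IB V P S').Nonempty) (by fun_prop)) sep_le sep_le
    (j := 1) (m := 1) (t := 1) one_pos le_rfl
    (fun P h => Nn.pos_iff_one_le.1 ((card_pos (IB.finite P hS)).2 h.2))
    fun P h => Nn.pos_iff_one_le.1 ((card_pos (IB.finite P hS')).2 h.2)
  rwa [Nn.one_pow, mul_one] at this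

theorem n1 (hf : FinG V) (hS : S.Finite) (hSV : Stab V S) (hKS : K ≤ S)
    (hfix : ∀ g ∈ V, ∀ a ∈ K, g • a = a) {J : Nn} (hJ : 2 * (4 * J) ^ (4 * J) ≤ 2 ^ K.card)
    {ι : Type} [Coded ι] {s : DSet ι} (hs : s.Finite) (T : ι → DSet A) (dT : DefF T)
    (hT : ∀ i ∈ s, (T i).Finite ∧ (T i).Nonempty ∧ Stab V (T i) ∧ Disjoint S (T i))
    (hd : (s : Set ι).PairwiseDisjoint T) :
    J ^ s.card * nn V S ≤ nn V (S ⊔ s.biUnion T dT) := by
  refine hs.induction_on_le (p := fun s => J ^ s.card * nn V S ≤ nn V (S ⊔ s.biUnion T dT))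
    (by fun_prop) (by simp [biUnion_bot]) fun i r hi hr hr' hi' ih' => ?_
  set S1 := S ⊔ r.biUnion T dT with hS1
  obtain ⟨t1, t2, t3, t4⟩ := hT i hi
  have e : S ⊔ (insert i r).biUnion T dT = S1 ⊔ T i := by
    rw [biUnion_insert, hS1, sup_assoc, sup_comm (T i)]
  have f1 : S1.Finite := hS.sup (hr'.biUnion dT fun j hj => (hT j (hr hj)).1)
  have f2 : Stab V S1 := hSV.union (stab_biUnion fun j hj => (hT j (hr hj)).2.2.1)
  have f3 : Disjoint S1 (T i) := disjoint_sup_left.2 ⟨t4, disjoint_biUnion_left.2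
    fun j hj => hd (hr hj) hi fun e => hi' (e ▸ hj)⟩
  have h1 := av hf f1 f2 (hKS.trans le_sup_left) hfix (j := 2 * J)
    (by rwa [show 2 * (2 * J) = 4 * J by ring])
  have h2 := glue hf f1 t1 f3 (Ps := Many V S1 (2 * J))
    (Qs := (Inv V (T i)).sep (fun P => (IB V P (T i)).Nonempty) (by fun_prop)) sep_le sep_le
    (j := 2 * J) (m := 1) (t := 2 * J) one_pos le_rfl (fun P h => h.2.le)
    fun P h => Nn.pos_iff_one_le.1 ((card_pos (IB.finite P t1)).2 h.2)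
  have h3 := mm_pos hf t1 t3 t2
  rw [Nn.pow_one, ← mm] at h2
  rw [e, card_insert_of_notMem hi' hr', Nn.pow_succ]
  calc J ^ r.card * J * nn V S = J * (J ^ r.card * nn V S) := by ring
    _ ≤ J * (2 * (Many V S1 (2 * J)).card) := Nn.mul_le_mul_left _ (ih'.trans h1)
    _ = (Many V S1 (2 * J)).card * 1 * (2 * J) := by ring
    _ ≤ _ := Nn.mul_le_mul_right _ (Nn.mul_le_mul_left _ h3)
    _ ≤ _ := le_trans (Nn.le_add_left _ _) h2

theorem join (hf : FinG V) (hS : S.Finite) (hS' : S'.Finite) (hSV : Stab V S)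
    (hSV' : Stab V S') (hd : Disjoint S S') (hKS : K ≤ S) (hKS' : K' ≤ S')
    (hfix : ∀ g ∈ V, ∀ a ∈ K, g • a = a) (hfix' : ∀ g ∈ V, ∀ a ∈ K', g • a = a) {m : Nn}
    (hm : 2 * (4 * m) ^ (4 * m) ≤ 2 ^ K.card) (hm' : 2 * (4 * m) ^ (4 * m) ≤ 2 ^ K'.card) :
    m ^ m * (nn V S * nn V S') ≤ 4 * nn V (S ⊔ S') := by
  rcases m.eq_zero_or_pos with rfl | hm0
  · rw [Nn.pow_zero, one_mul]
    exact (nn_mul_le hf hd).trans (Nn.le_mul_of_pos_left _ four_pos)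
  have h1 := av hf hS hSV hKS hfix (j := 2 * m) (by rwa [show 2 * (2 * m) = 4 * m by ring])
  have h1' := av hf hS' hSV' hKS' hfix' (j := 2 * m)
    (by rwa [show 2 * (2 * m) = 4 * m by ring])
  have h2 := glue hf hS hS' hd (Ps := Many V S (2 * m)) (Qs := Many V S' (2 * m)) sep_le sep_le
    (j := 2 * m) (t := m) hm0 (by rw [two_mul]; exact le_self_add) (fun P h => h.2.le)
    fun P h => (Nn.le_mul_of_pos_left m two_pos).trans h.2.le
  calc m ^ m * (nn V S * nn V S')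
      ≤ m ^ m * (2 * (Many V S (2 * m)).card * (2 * (Many V S' (2 * m)).card)) :=
        Nn.mul_le_mul_left _ (Nn.mul_le_mul h1 h1')
    _ = 4 * ((Many V S (2 * m)).card * (Many V S' (2 * m)).card * m ^ m) := by ring
    _ ≤ _ := Nn.mul_le_mul_left _ (le_trans (Nn.le_add_left _ _) h2)

end Pool.Agent.P.MP_e517ea_lc.Z
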