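import Pool.Agent.P.MP_e517ea_lc.Z.Hyp
import Pool.Agent.P.MP_e517ea_lc.Z.Count1

/-!
The budget lemma over an algebraically closed base, minimal classes, and bounds for single orbits.
-/

set_option synthInstance.maxSize 16384
set_option linter.unusedSectionVars false

noncomputable section

namespace Pool.Agent.P.MP_e517ea_lc.Z

open DSet IEq

variable [ZU]
variable {G A Ω : Type} [Group G] [MulAction G A] [Coded A] [Coded Ω] [GS G A]

/-- An algebraically closed base with numerical parameters. -/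
structure Base (U : OS G A) (J w : Nn) : Prop where
  hyp : Hyp G A
  closed : acl U = Fix U
  hJ : 2 * (4 * J) ^ (4 * J) ≤ 2 ^ (Fix U).card
  hw : 2 * (Fix U).card + 1 ≤ w * J
  two : 2 ≤ w
  wJ : w ≤ J

/-- Minimal points. -/
def MinP (U : OS G A) (a : A) : Prop :=
  a ∉ acl U ∧ ∀ x ∈ cl U a, x ∉ acl U → cl U a = cl U x

@[fun_prop] theorem DefF.minP {U : Ω → OS G A} {a : Ω → A} (hU : DefF U) (ha : DefF a) :
    DefF (fun w => MinP (U w) (a w)) := by
  simp only [MinP, all_eq, imp_eq]; fun_prop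

/-- New fixed points of the stabiliser of a class. -/
def F0 (U : OS G A) (a : A) : DSet A := Fix (SS U a) \ Fix U

@[fun_prop] theorem DefF.f0 {U : Ω → OS G A} {a : Ω → A} (hU : DefF U) (ha : DefF a) :
    DefF (fun w => F0 (U w) (a w)) := by
  unfold F0; fun_prop

variable {U U' V W : OS G A} {a b c d : A} {g : G} {X S : DSet A} {J w Y : Nn}

theorem MinP.smul (h : MinP U a) (hg : g ∈ U) : MinP U (g • a) :=
  ⟨stab_acl.compl g hg a h.1, fun x hx hx' => by
    have := h.2 (g⁻¹ • x) ((smul_mem_cl_iff hg).1 (by simpa))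
      (stab_acl.compl _ (U.inv_mem hg) x hx')
    simpa using cl_smul_eq hg this⟩

theorem MinP.congr (h : MinP U a) (e : cl U a = cl U b) : MinP U b :=
  ⟨notMem_acl_of_eq le_rfl e h.1, e ▸ h.2⟩

theorem MinP.of_XO (h : MinP U a) (hb : b ∈ XO U U a) : MinP U b := by
  obtain ⟨g, hg, e⟩ := hb
  exact (h.smul hg).congr e

theorem smul_mem_F0 (hg : g ∈ U) (h : b ∈ F0 U a) : g • b ∈ F0 U (g • a) := by
  refine ⟨fun k hk => ?_, (stab_Fix le_rfl).compl g hg b h.2⟩
  have : g⁻¹ * k * g ∈ SS U a := ⟨U.mul_mem (U.mul_mem (U.inv_mem hg) hk.1) hg, by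
    simpa [mul_smul] using cl_smul_eq (U.inv_mem hg) hk.2⟩
  have h1 := h.1 _ this
  rwa [mul_smul, mul_smul, inv_smul_eq_iff] at h1

theorem card_F0_XO (hb : b ∈ XO U U a) : (F0 U b).card = (F0 U a).card := by
  obtain ⟨g, hg, e⟩ := hb
  rw [card_eq_of_smul (S := F0 U a) (T := F0 U (g • a)) g fun x =>
    ⟨smul_mem_F0 hg, fun h => by simpa using smul_mem_F0 (U.inv_mem hg) h⟩, F0, F0, SS_congr e]

theorem Hyp.exists_min (H : Hyp G A) (ha : a ∉ acl U) : ∃ b ∈ cl U a, MinP U b := by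
  obtain ⟨b, hb, h⟩ := exists_min_image (cl U a \ acl U) (fun x => (cl U x).card) (by fun_prop)
    ⟨a, mem_cl_self U a, ha⟩
  exact ⟨b, hb.1, hb.2, fun x hx hx' => (eq_of_le_of_card_le (cl_subset le_rfl hx)
    (h x ⟨cl_subset le_rfl hb.1 hx, hx'⟩) (H.clf U b)).symm⟩

theorem Hyp.F0_subset (H : Hyp G A) : F0 U a ≤ cl U a := fun _ hx =>
  H.acl_SS U a ▸ Fix_subset_acl hx.1

theorem Hyp.F0f (H : Hyp G A) (U : OS G A) (a : A) : (F0 U a).Finite :=
  (H.clf U a).subset H.F0_subset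

variable (B : Base U J w)
include B

theorem Base.budget (h : W ≤ U) (hc : (Fix W \ Fix U).card ≤ (Fix U).card)
    (hS : Stab W S) (hS' : S ≤ acl W \ Fix U) {ι : Type} [Coded ι] {s : DSet ι} (hs : s.Finite)
    (T : ι → DSet A) (dT : DefF T)
    (hT : ∀ i ∈ s, (T i).Nonempty ∧ Stab W (T i) ∧ T i ≤ acl W \ (Fix U ⊔ S))
    (hd : (s : Set ι).PairwiseDisjoint T) :
    J ^ s.card * nn W S * NN W ≤ (w * J) ^ (Fix W \ Fix U).card * NN U := by
  have H := B.hyp
  have hf := H.fin W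
  have ha := H.aclf W
  have hLW : Fix U ≤ acl W := (Fix_anti h).trans Fix_subset_acl
  have hLS : Fix U ⊔ S ≤ acl W := sup_le hLW fun _ hx => (hS' hx).1
  have k1 := n1 hf (ha.subset hLS) ((stab_Fix (Fix_anti h)).union hS) le_sup_left
    (fun g hg a ha => ha g (h hg)) B.hJ hs T dT (fun i hi =>
      ⟨ha.subset fun _ hx => ((hT i hi).2.2 hx).1,
      (hT i hi).1, (hT i hi).2.1, disjoint_right.2 fun _ hx => ((hT i hi).2.2 hx).2⟩) hd
  have k2 := k1.trans (nn_mono hf (sup_le hLS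
    (biUnion_le fun i hi _ hx => ((hT i hi).2.2 hx).1)))
  have k3 : nn U (Fix U) * nn W S ≤ nn W (Fix U ⊔ S) :=
    (Nn.mul_le_mul_right _ (nn_anti hf h)).trans
      (nn_mul_le hf (disjoint_right.2 fun _ hx => (hS' hx).2))
  have k4 := H.nseq_eq W
  have k5 := H.nseq_eq U
  rw [B.closed] at k5
  have k6 : (Fix W).card = (Fix U).card + (Fix W \ Fix U).card := by
    rw [add_comm, card_sdiff_add_card_of_le (Fix_anti h) (H.fix W)]
  have k7 := nseq_add_le (Fix U).card (Fix W \ Fix U).card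
  rw [← k6, k4, k5] at k7
  have k8 : ((Fix W).card + 1) ^ (Fix W \ Fix U).card ≤ (w * J) ^ (Fix W \ Fix U).card :=
    Nn.pow_le_pow_left (le_trans (by rw [k6, two_mul]; gcongr) B.hw) _
  refine Nn.le_of_mul_le_mul_left ?_ (nn_pos (H.fin U) (Fix U))
  calc _ = J ^ s.card * (nn U (Fix U) * nn W S) * NN W := by ring
    _ ≤ nn W (acl W) * NN W :=
      Nn.mul_le_mul_right _ ((Nn.mul_le_mul_left _ k3).trans k2)
    _ ≤ _ := k7
    _ ≤ _ := Nn.mul_le_mul_right _ k8
    _ = _ := by ring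

theorem Base.w_pos : 0 < w := two_pos.trans_le B.two

theorem Base.J_pos : 0 < J := B.w_pos.trans_le B.wJ

theorem Base.bl' (h : W ≤ U) (hc : (Fix W \ Fix U).card ≤ (Fix U).card)
    (hS : Stab W S) (hS' : S ≤ acl W \ Fix W) :
    nn W S * NN W ≤ w ^ (Fix W \ Fix U).card * NN U := by
  have hF : (Fix W \ Fix U).Finite := (B.hyp.fix W).subset sdiff_le
  have := B.budget h hc hS (fun x hx => ⟨(hS' hx).1, fun h' => (hS' hx).2 (Fix_anti h h')⟩)
    hF (fun x => {x}) (by fun_prop) (fun x hx =>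
      ⟨singleton_nonempty x, stab_Fix (singleton_le_iff.2 hx.1), singleton_le_iff.2
        ⟨Fix_subset_acl hx.1, fun h => h.elim hx.2 fun h => (hS' h).2 hx.1⟩⟩)
    (fun _ _ _ _ h => disjoint_singleton.2 h)
  rw [Nn.mul_pow] at this
  refine Nn.le_of_mul_le_mul_left ?_ (Nn.pow_pos (n := (Fix W \ Fix U).card) B.J_pos)
  calc _ = _ := by ring
    _ ≤ _ := this
    _ = _ := by ring

theorem Base.bl (h : W ≤ U) {n : Nn} (hn : (Fix W \ Fix U).card ≤ n)
    (hc : n ≤ (Fix U).card) : NN W ≤ w ^ n * NN U := by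
  have := B.bl' h (hn.trans hc) stab_bot bot_le
  rw [nn_empty, one_mul] at this
  exact this.trans (Nn.mul_le_mul_right _ (Nn.pow_le_pow_right B.w_pos hn))

theorem Base.acl_SS (a : A) : acl (SS U a) = cl U a := B.hyp.acl_SS U a

theorem Base.F0_cls (h : MinP U a) : F0 U a ≤ cls U a := fun x hx =>
  h.2 x (B.hyp.F0_subset hx) (B.closed ▸ hx.2)

theorem Base.cls_subset (ha : a ∉ acl U) : cls U a ≤ acl (SS U a) \ Fix U := fun _ hx =>
  ⟨B.acl_SS a ▸ cls_subset_cl hx, B.closed ▸ notMem_acl_of_eq le_rfl hx ha⟩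

/-- Bound for a minimal orbit. -/
theorem Base.lt_min (h : MinP U a) (hc : (F0 U a).card ≤ (Fix U).card) :
    nn U (XO U U a) ≤ (2 * (F0 U a).card * w) ^ (F0 U a).card := by
  have H := B.hyp
  have hf := H.fin (SS U a)
  have hN := H.NN_mono (SS_le (U := U) (a := a))
  have hD := H.clsf U a
  have hs : Stab (SS U a) (cls U a \ F0 U a) := stab_cls.diff (stab_Fix sdiff_le)
  have k1 : nn (SS U a) (cls U a \ F0 U a) ≤ w ^ (F0 U a).card :=
    Nn.le_of_mul_le_mul_right ((Nn.mul_le_mul_left _ hN).trans (B.bl' SS_le hc hs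
      fun x hx => ⟨(B.cls_subset h.1 hx.1).1, fun h' => hx.2 ⟨h', (B.cls_subset h.1 hx.1).2⟩⟩))
      (H.NN_pos U)
  have k2 := enc hf (hD.subset sdiff_le) (H.F0f U a) hs (fun g hg a ha => ha.1 g hg)
    (2 * (F0 U a).card)
  simp only [sdiff_sup_cancel (B.F0_cls h)] at k2
  have k3 : ∀ P ∈ Inv (SS U a) (cls U a), (IB (SS U a) P (cls U a)).card ≤ 2 * (F0 U a).card := by
    intro P hP
    have hI := IB.finite (V := SS U a) P hD
    have := B.budget SS_le hc stab_bot bot_le hI (fun β => β) DefF.id (fun β hβ => by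
        obtain ⟨x, hx, rfl, h1⟩ := hβ
        refine ⟨⟨x, P.refl x⟩, fun g hg y hy => P.trans (h1 g hg) (hP.2.1 g hg x y hy),
          fun y hy => ?_⟩
        rw [sup_bot_eq]
        exact B.cls_subset h.1 ((hP.2.2 x y hy).elim (fun e => e ▸ hx) (·.2)))
      (fun β hβ γ hγ hne => disjoint_left.2 fun z h1 h2 => hne (IB.eq hβ hγ h1 h2))
    rw [nn_empty, mul_one] at this
    have k4 := Nn.le_of_mul_le_mul_right ((Nn.mul_le_mul_left _ hN).trans this) (H.NN_pos U)
    refine (Nn.pow_le_pow_iff_right (a := J) (one_lt_two.trans_le (B.two.trans B.wJ))).1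
      (k4.trans ?_)
    rw [Nn.pow_mul, Nn.pow_ofNat, sq]
    exact Nn.pow_le_pow_left (Nn.mul_le_mul_right _ B.wJ) _
  calc _ ≤ _ := nn_XO_le le_rfl SS_le hf stab_cls le_rfl
    _ ≤ _ := le_trans (card_le_card (fun P hP => by exact ⟨hP, k3 P hP⟩) (hf.fin _).sep) k2
    _ ≤ _ := Nn.mul_le_mul_right _ k1
    _ = _ := by rw [← Nn.mul_pow, mul_comm]

/-- Bound for the orbits above a minimal point. -/
theorem Base.lt_above (h : MinP U b) {n : Nn} (hn : (F0 U b).card ≤ n) (hc : n ≤ (Fix U).card)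
    {ι : Type} [Coded ι] {s : DSet ι} (hs : s.Finite) (d : ι → A) (dd : DefF d)
    (h1 : ∀ i ∈ s, d i ∉ cl U b) (h2 : ∀ i ∈ s, b ∈ cl U (d i))
    (hd : (s : Set ι).PairwiseDisjoint fun i => XO U U (d i)) :
    s.prod (fun i => nn U (XO U U (d i))) ≤ w ^ n := by
  have := (B.hyp.sp SS_le hs d dd (fun i hi => B.acl_SS b ▸ h1 i hi)
    (fun i hi => ⟨b, h2 i hi, B.acl_SS b ▸ mem_cl_self U b, h.1⟩) hd).trans (B.bl SS_le hn hc)
  rw [mul_comm] at this
  exact Nn.le_of_mul_le_mul_right this (B.hyp.NN_pos U)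

theorem Base.lt_nonmin (h : MinP U b) {n : Nn} (hn : (F0 U b).card ≤ n) (hc : n ≤ (Fix U).card)
    (h1 : ¬ MinP U a) (h2 : b ∈ cl U a) : nn U (XO U U a) ≤ w ^ n := by
  have := B.lt_above h hn hc (finite_singleton True) (fun _ => a) (by fun_prop)
    (fun _ _ h3 => h1 (h.congr (cl_eq_cl h3 h2))) (fun _ _ => h2)
    fun _ k _ k' hne => (hne (k.trans k'.symm)).elim
  rwa [prod_singleton (by fun_prop)] at this

end Pool.Agent.P.MP_e517ea_lc.Z
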