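import Pool.Agent.P.MP_e517ea_lc.Z.Arith

/-!
Finite sets and cardinalities in the sense of the model.
-/

set_option synthInstance.maxSize 16384

namespace Pool.Agent.P.MP_e517ea_lc.Z

variable [ZU]
variable {X Y W : Type} [Coded X] [Coded Y] [Coded W]

namespace DSet

/-- The numbers below `n`. -/
def range (n : Nn) : DSet Nn := ⟨fun i => i < n, by fun_prop⟩

@[simp] theorem mem_range {n i : Nn} : i ∈ range n ↔ i < n := Iff.rfl

/-- `S` is in definable bijection with the numbers below `n`. -/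
def HasCard (S : DSet X) (n : Nn) : Prop :=
  ∃ e : DFun X Nn, (∀ x ∈ S, e x < n) ∧ (∀ x ∈ S, ∀ y ∈ S, e x = e y → x = y) ∧
    ∀ i, i < n → ∃ x ∈ S, e x = i

/-- Finite in the sense of the model. -/
def Finite (S : DSet X) : Prop := ∃ n, S.HasCard n

/-- The number of elements (`0` for infinite sets). -/
noncomputable def card (S : DSet X) : Nn := uq 0 S.HasCard

end DSet

@[fun_prop] theorem DefF.range {n : W → Nn} (hn : DefF n) : DefF (fun w => DSet.range (n w)) :=
  DefF.of_mem (by simp only [DSet.mem_range]; fun_prop)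

@[fun_prop] theorem DefF.hasCard {S : W → DSet X} {n : W → Nn} (hS : DefF S) (hn : DefF n) :
    DefF (fun w => (S w).HasCard (n w)) := by
  simp only [DSet.HasCard, all_eq, imp_eq]
  fun_prop

@[fun_prop] theorem DefF.finite {S : W → DSet X} (hS : DefF S) : DefF (fun w => (S w).Finite) := by
  unfold DSet.Finite
  fun_prop

@[fun_prop] theorem DefF.card {S : W → DSet X} (hS : DefF S) : DefF (fun w => (S w).card) := by
  unfold DSet.card
  fun_prop

namespace DSet

variable {S T R : DSet X} {a b x : X} {m n : Nn}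

theorem pigeonhole (m : Nn) : ∀ (n : Nn) (f : DFun Nn Nn), (∀ i, i < n → f i < m) →
    (∀ i, i < n → ∀ j, j < n → f i = f j → i = j) → n ≤ m := by
  refine Nn.induction (p := fun m => ∀ (n : Nn) (f : DFun Nn Nn), (∀ i, i < n → f i < m) →
    (∀ i, i < n → ∀ j, j < n → f i = f j → i = j) → n ≤ m)
    (by simp only [all_eq, imp_eq]; fun_prop) (fun n f h _ => ?_) (fun m ih n f h h' => ?_) m
  · exact not_lt.1 fun hn => not_lt_zero (h 0 hn)
  rcases n.eq_zero_or_succ with rfl | ⟨k, rfl⟩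
  · exact zero_le
  have hk : ∀ i, i < k → i < k + 1 := fun i hi => hi.trans (lt_add_one k)
  have hne : ∀ i, i < k → f i ≠ f k := fun i hi e => hi.ne (h' i (hk i hi) k (lt_add_one k) e)
  refine add_le_add_left (ih k ⟨fun i => if f i = m then f k else f i, by fun_prop⟩
    (fun i hi => ?_) fun i hi j hj e => ?_) 1
  · dsimp only
    split_ifs with e
    · exact (Nn.lt_succ_iff.1 (h k (lt_add_one k))).lt_of_ne fun e' => hne i hi (e.trans e'.symm)
    · exact (Nn.lt_succ_iff.1 (h i (hk i hi))).lt_of_ne e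
  · dsimp only at e
    split_ifs at e with e1 e2 e2
    · exact h' i (hk i hi) j (hk j hj) (e1.trans e2.symm)
    · exact (hne j hj e.symm).elim
    · exact (hne i hi e).elim
    · exact h' i (hk i hi) j (hk j hj) e

theorem HasCard.le_of_injOn {T : DSet Y} (hS : S.HasCard n) (hT : T.HasCard m) {f : X → Y}
    (hf : DefF f) (h : ∀ x ∈ S, f x ∈ T) (hi : Set.InjOn f S) : n ≤ m := by
  obtain ⟨e, e1, e2, e3⟩ := hS
  obtain ⟨e', k1, k2, -⟩ := hT
  have key : ∀ x ∈ S, uq 0 (fun j => ∃ y, y ∈ S ∧ e y = e x ∧ e' (f y) = j) = e' (f x) :=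
    fun x hx => uq_eq ⟨x, hx, rfl, rfl⟩ fun _ ⟨y, hy, h1, h2⟩ => by rw [← h2, e2 y hy x hx h1]
  refine pigeonhole m n ⟨fun i => uq 0 fun j => ∃ y, y ∈ S ∧ e y = i ∧ e' (f y) = j, by fun_prop⟩
    (fun i hi => ?_) fun i hi' j hj h' => ?_
  · obtain ⟨x, hx, rfl⟩ := e3 i hi
    exact (key x hx).trans_lt (k1 _ (h x hx))
  · obtain ⟨x, hx, rfl⟩ := e3 i hi'
    obtain ⟨y, hy, rfl⟩ := e3 j hj
    rw [hi hx hy (k2 _ (h x hx) _ (h y hy) ((key x hx).symm.trans (h'.trans (key y hy))))]

theorem HasCard.card_eq (h : S.HasCard n) : S.card = n :=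
  uq_eq h fun _ h' => (h'.le_of_injOn h DefF.id (fun _ h => h) (Set.injOn_id _)).antisymm
    (h.le_of_injOn h' DefF.id (fun _ h => h) (Set.injOn_id _))

theorem Finite.hasCard (h : S.Finite) : S.HasCard S.card := by
  obtain ⟨n, hn⟩ := h
  rwa [hn.card_eq]

theorem card_of_infinite (h : ¬ S.Finite) : S.card = 0 := dif_neg fun ⟨n, hn, _⟩ => h ⟨n, hn⟩

theorem hasCard_bot : (⊥ : DSet X).HasCard 0 :=
  ⟨⟨fun _ => 0, by fun_prop⟩, fun _ h => h.elim, fun _ h => h.elim, fun _ h => absurd h not_lt_zero⟩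

theorem HasCard.insert (h : S.HasCard n) (ha : a ∉ S) : (insert a S).HasCard (n + 1) := by
  classical
  obtain ⟨e, e1, e2, e3⟩ := h
  have hne : ∀ x ∈ S, x ≠ a := fun x hx e => ha (e ▸ hx)
  refine ⟨⟨fun x => if x = a then n else e x, by fun_prop⟩, ?_, ?_, fun i hi => ?_⟩
  · rintro x (rfl | hx)
    · simp
    · simpa [hne x hx] using (e1 x hx).trans (lt_add_one n)
  · rintro x (rfl | hx) y (rfl | hy) h
    · rfl
    · simp only [if_true, hne y hy, if_false] at h
      exact absurd (e1 y hy) (h ▸ lt_irrefl _)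
    · simp only [if_true, hne x hx, if_false] at h
      exact absurd (e1 x hx) (h ▸ lt_irrefl _)
    · simp only [hne x hx, hne y hy, if_false] at h
      exact e2 x hx y hy h
  · rcases Nn.lt_succ_iff_lt_or_eq.1 hi with hi | rfl
    · obtain ⟨x, hx, rfl⟩ := e3 i hi
      exact ⟨x, Or.inr hx, if_neg (hne x hx)⟩
    · exact ⟨a, Or.inl rfl, if_pos rfl⟩

theorem HasCard.eq_bot (h : S.HasCard 0) : S = ⊥ := by
  obtain ⟨e, e1, -⟩ := h
  exact eq_bot_iff_forall.2 fun x hx => not_lt_zero (e1 x hx)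

theorem HasCard.exists_erase (h : S.HasCard (n + 1)) : ∃ a ∈ S, (S \ {a}).HasCard n := by
  obtain ⟨e, e1, e2, e3⟩ := h
  obtain ⟨a, ha, ea⟩ := e3 n (lt_add_one n)
  refine ⟨a, ha, e, fun x hx => ?_, fun x hx y hy => e2 x hx.1 y hy.1, fun i hi => ?_⟩
  · exact (Nn.lt_succ_iff.1 (e1 x hx.1)).lt_of_ne fun e' => hx.2 (e2 x hx.1 a ha (e'.trans ea.symm))
  · obtain ⟨x, hx, rfl⟩ := e3 i (hi.trans (lt_add_one n))
    exact ⟨x, ⟨hx, fun (e' : x = a) => hi.ne (e' ▸ ea)⟩, rfl⟩

theorem hasCard_range (n : Nn) : (range n).HasCard n :=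
  ⟨⟨fun i => i, DefF.id⟩, fun _ h => h, fun _ _ _ _ h => h, fun i h => ⟨i, h, rfl⟩⟩

theorem finite_range (n : Nn) : (range n).Finite := ⟨n, hasCard_range n⟩

@[simp] theorem card_range (n : Nn) : (range n).card = n := (hasCard_range n).card_eq

theorem finite_bot : (⊥ : DSet X).Finite := ⟨0, hasCard_bot⟩

@[simp] theorem card_bot : (⊥ : DSet X).card = 0 := hasCard_bot.card_eq

theorem Finite.insert (a : X) (h : S.Finite) : (insert a S).Finite := by
  by_cases ha : a ∈ S
  · rwa [insert_eq_of_mem ha]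
  · exact ⟨_, h.hasCard.insert ha⟩

theorem card_insert_of_notMem (ha : a ∉ S) (h : S.Finite) : (insert a S).card = S.card + 1 :=
  (h.hasCard.insert ha).card_eq

theorem finite_singleton (a : X) : ({a} : DSet X).Finite := insert_bot a ▸ finite_bot.insert a

@[simp] theorem card_singleton (a : X) : ({a} : DSet X).card = 1 := by
  rw [← insert_bot, card_insert_of_notMem (notMem_bot a) finite_bot, card_bot, zero_add]

/-- Induction over finite sets, for definable predicates. -/
theorem Finite.induction_on {p : DSet X → Prop} (hS : S.Finite) (hp : DefF p) (h0 : p ⊥)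
    (hs : ∀ a T, T.Finite → a ∉ T → p T → p (Insert.insert a T)) : p S := by
  obtain ⟨n, hn⟩ := hS
  refine Nn.induction (p := fun n => ∀ S : DSet X, S.HasCard n → p S)
    (by simp only [all_eq, imp_eq]; fun_prop) (fun S h => h.eq_bot ▸ h0) (fun n ih S h => ?_) n S hn
  obtain ⟨a, ha, h'⟩ := h.exists_erase
  exact insert_sdiff_singleton ha ▸ hs a _ ⟨n, h'⟩ (fun h => h.2 rfl) (ih _ h')

/-- Induction over the subsets of a finite set. -/
theorem Finite.induction_on_le {p : DSet X → Prop} (hS : S.Finite) (hp : DefF p) (h0 : p ⊥)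
    (hs : ∀ a T, a ∈ S → T ≤ S → T.Finite → a ∉ T → p T → p (Insert.insert a T)) : p S :=
  hS.induction_on (p := fun T => Imp (T ≤ S) (p T)) (by fun_prop) (fun _ => h0)
    (fun a T hT ha ih h => hs a T (insert_le_iff.1 h).1 (insert_le_iff.1 h).2 hT ha
      (ih (insert_le_iff.1 h).2)) le_rfl

theorem Finite.of_injOn {T : DSet Y} (hT : T.Finite) {f : X → Y} (hf : DefF f)
    (h : ∀ x ∈ S, f x ∈ T) (hi : Set.InjOn f S) : S.Finite := by
  refine hT.induction_on (p := fun T => ∀ S : DSet X, (∀ x ∈ S, f x ∈ T) → Set.InjOn f S → S.Finite)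
    (by simp only [all_eq, imp_eq]; fun_prop) (fun S h _ => ?_) (fun b T _ _ ih S h hi => ?_) S h hi
  · rw [eq_bot_iff_forall.2 fun x hx => h x hx]; exact finite_bot
  · by_cases hb : ∃ x ∈ S, f x = b
    · obtain ⟨x, hx, rfl⟩ := hb
      rw [← insert_sdiff_singleton hx]
      exact (ih (S \ {x}) (fun y hy => (h y hy.1).resolve_left fun e => hy.2 (hi hy.1 hx e))
        (hi.mono fun _ h => h.1)).insert x
    · exact ih S (fun y hy => (h y hy).resolve_left fun e => hb ⟨y, hy, e⟩) hi

theorem Finite.subset (hT : T.Finite) (h : S ≤ T) : S.Finite :=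
  hT.of_injOn DefF.id h (Set.injOn_id _)

theorem Finite.sup (hS : S.Finite) (hT : T.Finite) : (S ⊔ T).Finite :=
  hS.induction_on (p := fun S => (S ⊔ T).Finite) (by fun_prop) (by rwa [bot_sup_eq])
    fun a S _ _ ih => by rw [insert_eq, sup_assoc]; exact ih.insert a

theorem Finite.sep (hS : S.Finite) {p : X → Prop} {hp : DefF p} : (S.sep p hp).Finite :=
  hS.subset sep_le

theorem Finite.image (hS : S.Finite) (f : X → Y) (hf : DefF f) : (S.image f hf).Finite :=
  hS.induction_on (p := fun S => (S.image f hf).Finite) (by fun_prop)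
    (finite_bot.subset fun _ ⟨_, h, _⟩ => h) fun a S _ _ ih => (ih.insert (f a)).subset (by
      rintro _ ⟨x, rfl | hx, rfl⟩
      exacts [Or.inl rfl, Or.inr ⟨x, hx, rfl⟩])

theorem Finite.biUnion (hS : S.Finite) {f : X → DSet Y} (hf : DefF f)
    (h : ∀ x ∈ S, (f x).Finite) : (S.biUnion f hf).Finite :=
  hS.induction_on_le (p := fun S => (S.biUnion f hf).Finite) (by fun_prop)
    (by rw [biUnion_bot]; exact finite_bot) fun a _ ha _ _ _ ih => by
      rw [biUnion_insert]; exact (h a ha).sup ih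

theorem Finite.times {T : DSet Y} (hS : S.Finite) (hT : T.Finite) : (S.times T).Finite :=
  (hS.biUnion (f := fun x => T.image (fun y => (x, y)) (by fun_prop)) (by fun_prop)
    fun _ _ => hT.image _ _).subset fun z hz => ⟨z.1, hz.1, z.2, hz.2, rfl⟩

/-- An externally finite definable set is finite. -/
theorem finite_of_finite (h : (S : Set X).Finite) : S.Finite := by
  have : ∀ s : Set X, s.Finite → ∀ S : DSet X, (S : Set X) ⊆ s → S.Finite := by
    intro s hs
    induction s, hs using Set.Finite.induction_on with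
    | empty => exact fun S h => finite_bot.subset h
    | @insert a s _ _ ih =>
      exact fun S h => ((ih (S \ {a}) fun x hx => (h hx.1).resolve_left hx.2).insert a).subset
        fun x hx => (em (x = a)).imp_right fun e => ⟨hx, e⟩
  exact this _ h S subset_rfl

theorem card_le_card_of_injOn {T : DSet Y} (f : X → Y) (hf : DefF f) (h : ∀ x ∈ S, f x ∈ T)
    (hi : Set.InjOn f S) (hT : T.Finite) : S.card ≤ T.card :=
  (hT.of_injOn hf h hi).hasCard.le_of_injOn hT.hasCard hf h hi

theorem card_le_card (h : S ≤ T) (hT : T.Finite) : S.card ≤ T.card :=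
  card_le_card_of_injOn _ DefF.id h (Set.injOn_id _) hT

theorem card_eq_zero (hS : S.Finite) : S.card = 0 ↔ S = ⊥ :=
  ⟨fun h => (h ▸ hS.hasCard).eq_bot, fun h => h ▸ card_bot⟩

theorem card_pos (hS : S.Finite) : 0 < S.card ↔ S.Nonempty := by
  rw [pos_iff_ne_zero, nonempty_iff_ne_bot, Ne, card_eq_zero hS]

theorem finite_of_card_pos (h : 0 < S.card) : S.Finite :=
  by_contra fun h' => h.ne' (card_of_infinite h')

theorem nonempty_of_card_pos (h : 0 < S.card) : S.Nonempty := (card_pos (finite_of_card_pos h)).1 h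

theorem card_lt_card (h : S < T) (hT : T.Finite) : S.card < T.card := by
  obtain ⟨x, hx, hx'⟩ := exists_of_lt h
  rw [Nn.lt_iff_add_one_le, ← card_insert_of_notMem hx' (hT.subset h.le)]
  exact card_le_card (insert_le_iff.2 ⟨hx, h.le⟩) hT

theorem eq_of_le_of_card_le (h : S ≤ T) (h' : T.card ≤ S.card) (hT : T.Finite) : S = T :=
  h.eq_or_lt.resolve_right fun k => absurd h' (not_le.2 (card_lt_card k hT))

theorem card_sup_eq (h : Disjoint S T) (hS : S.Finite) (hT : T.Finite) :
    (S ⊔ T).card = S.card + T.card :=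
  hS.induction_on_le (p := fun S => (S ⊔ T).card = S.card + T.card) (by fun_prop) (by simp)
    fun a R ha _ hR haR ih => by
      rw [insert_eq, sup_assoc, ← insert_eq, ← insert_eq, card_insert_of_notMem haR hR,
        card_insert_of_notMem (S := R ⊔ T) (fun k => k.elim haR (disjoint_left.1 h ha)) (hR.sup hT), ih,
        add_right_comm]

theorem card_sdiff_add_card_of_le (h : S ≤ T) (hT : T.Finite) : (T \ S).card + S.card = T.card := by
  rw [← card_sup_eq disjoint_sdiff_self_left (hT.subset sdiff_le) (hT.subset h),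
    sdiff_sup_cancel h]

theorem card_sdiff (h : S ≤ T) (hT : T.Finite) : (T \ S).card = T.card - S.card := by
  rw [← card_sdiff_add_card_of_le h hT, add_tsub_cancel_right]

theorem card_sdiff_singleton_add_one (ha : a ∈ S) (hS : S.Finite) : (S \ {a}).card + 1 = S.card := by
  rw [← card_sdiff_add_card_of_le (singleton_le_iff.2 ha) hS, card_singleton]

theorem card_inf_add_card_sdiff (S T : DSet X) (hS : S.Finite) :
    (S ⊓ T).card + (S \ T).card = S.card := by
  rw [← card_sup_eq disjoint_inf_sdiff (hS.subset inf_le_left) (hS.subset sdiff_le), sup_inf_sdiff]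

theorem card_sep_add_card_sep_not (hS : S.Finite) {p : X → Prop} (hp : DefF p) :
    (S.sep p hp).card + (S.sep (fun x => ¬ p x) hp.not).card = S.card := by
  rw [← card_sup_eq (S := S.sep p hp) (T := S.sep (fun x => ¬ p x) hp.not)
    (disjoint_left.2 fun _ h h' => h'.2 h.2) hS.sep hS.sep]
  congr 1
  ext x
  simp only [mem_sup, mem_sep]
  tauto

theorem card_sup_le (S T : DSet X) : (S ⊔ T).card ≤ S.card + T.card := by
  by_cases h : (S ⊔ T).Finite
  · rw [← sup_sdiff_self_right, card_sup_eq disjoint_sdiff_self_right (h.subset le_sup_left)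
      (h.subset (sdiff_le.trans le_sup_right))]
    exact add_le_add_right (card_le_card sdiff_le (h.subset le_sup_right)) _
  · rw [card_of_infinite h]; exact zero_le

/-- Choice over a finite set. -/
theorem Finite.choice [_root_.Nonempty Y] (hS : S.Finite) {r : X → Y → Prop}
    (hr : DefF (fun z : X × Y => r z.1 z.2)) (h : ∀ x ∈ S, ∃ y, r x y) :
    ∃ f : X → Y, DefF f ∧ ∀ x ∈ S, r x (f x) := by
  classical
  obtain ⟨f, hf⟩ := hS.induction_on_le (p := fun S => ∃ f : DFun X Y, ∀ x ∈ S, r x (f x))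
    (by simp only [all_eq, imp_eq]; fun_prop)
    ⟨⟨fun _ => Classical.arbitrary Y, by fun_prop⟩, fun _ h => h.elim⟩
    fun a T ha _ _ _ ⟨f, hf⟩ => by
      obtain ⟨y, hy⟩ := h a ha
      refine ⟨⟨fun x => if x = a then y else f x, by fun_prop⟩, fun x hx => ?_⟩
      dsimp only
      split_ifs with e
      · rwa [e]
      · exact hf x (hx.resolve_left e)
  exact ⟨f, f.defn, hf⟩

/-- Comparison of cardinalities along a definable total injective relation. -/
theorem card_le_of_rel {T : DSet Y} (r : X → Y → Prop) (hr : DefF (fun z : X × Y => r z.1 z.2))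
    (h : ∀ x ∈ S, ∃ y ∈ T, r x y) (hi : ∀ x ∈ S, ∀ x' ∈ S, ∀ y ∈ T, r x y → r x' y → x = x')
    (hT : T.Finite) : S.Finite ∧ S.card ≤ T.card := by
  rcases S.eq_bot_or_nonempty with rfl | ⟨x0, h0⟩
  · exact ⟨finite_bot, by simp⟩
  have hS : S.Finite := (hT.image (fun y => uq x0 fun x => x ∈ S ∧ r x y) (by fun_prop)).subset
    fun x hx => by
      obtain ⟨y, hy, hxy⟩ := h x hx
      exact ⟨y, hy, uq_eq ⟨hx, hxy⟩ fun x' h' => hi x' h'.1 x hx y hy h'.2 hxy⟩
  have : _root_.Nonempty Y := ⟨(h x0 h0).choose⟩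
  obtain ⟨f, hf, hf'⟩ := hS.choice (r := fun x y => y ∈ T ∧ r x y) (by fun_prop) h
  exact ⟨hS, card_le_card_of_injOn f hf (fun x hx => (hf' x hx).1) (fun x hx x' hx' e =>
    hi x hx x' hx' _ (hf' x hx).1 (hf' x hx).2 (e ▸ (hf' x' hx').2)) hT⟩

theorem card_image_le (hS : S.Finite) (f : X → Y) (hf : DefF f) : (S.image f hf).card ≤ S.card :=
  (card_le_of_rel (fun y x => f x = y) (by fun_prop) (fun _ h => h)
    (fun _ _ _ _ _ _ h h' => h.symm.trans h') hS).2

theorem card_image_of_injOn {f : X → Y} (hf : DefF f) (hi : Set.InjOn f S) :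
    (S.image f hf).card = S.card := by
  by_cases hS : S.Finite
  · exact (card_image_le hS f hf).antisymm
      (card_le_card_of_injOn f hf (fun _ => mem_image_of_mem) hi (hS.image f hf))
  · rw [card_of_infinite hS, card_of_infinite fun h =>
      hS (h.of_injOn hf (fun _ => mem_image_of_mem) hi)]

theorem card_congr {T : DSet Y} (f : X → Y) (hf : DefF f) (h : ∀ x ∈ S, f x ∈ T)
    (hi : Set.InjOn f S) (hs : ∀ y ∈ T, ∃ x ∈ S, f x = y) : S.card = T.card := by
  rw [← card_image_of_injOn hf hi]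
  congr 1
  exact ext fun y => ⟨fun ⟨x, hx, e⟩ => e ▸ h x hx, hs y⟩

/-- An injective definable self-map of a finite set is onto. -/
theorem Finite.surjOn_of_injOn (hS : S.Finite) {f : X → X} (hf : DefF f) (h : ∀ x ∈ S, f x ∈ S)
    (hi : Set.InjOn f S) : ∀ y ∈ S, ∃ x ∈ S, f x = y := fun _ hy =>
  (eq_of_le_of_card_le (S := S.image f hf) (fun _ ⟨x, hx, e⟩ => e ▸ h x hx)
    (card_image_of_injOn hf hi).ge hS).ge hy

theorem card_times {T : DSet Y} (hS : S.Finite) (hT : T.Finite) :
    (S.times T).card = S.card * T.card :=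
  hS.induction_on (p := fun S => (S.times T).card = S.card * T.card) (by fun_prop)
    (by rw [card_bot, zero_mul, eq_bot_iff_forall.2 fun z (h : z ∈ times ⊥ T) => h.1, card_bot])
    fun a S hS ha ih => by
      have e : (Insert.insert a S).times T =
          S.times T ⊔ T.image (fun y => (a, y)) (by fun_prop) := by
        ext ⟨x, y⟩
        simp only [mem_times, mem_insert_iff, mem_sup, mem_image, Prod.mk.injEq]
        exact ⟨fun h => h.1.elim (fun e => Or.inr ⟨y, h.2, e.symm, rfl⟩) fun k => Or.inl ⟨k, h.2⟩,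
          fun h => h.elim (fun k => ⟨Or.inr k.1, k.2⟩) fun ⟨_, k, e, e'⟩ => ⟨Or.inl e.symm, e' ▸ k⟩⟩
      rw [e, card_sup_eq _ (hS.times hT) (hT.image _ _), ih, card_image_of_injOn _
        (fun _ _ _ _ h => (Prod.ext_iff.1 h).2), card_insert_of_notMem ha hS, add_mul, one_mul]
      refine disjoint_right.2 ?_
      rintro _ ⟨y, -, rfl⟩ h
      exact ha h.1

theorem powerset_aux (hS : S.Finite) : S.powerset.Finite ∧ S.powerset.card = 2 ^ S.card :=
  hS.induction_on (p := fun S => S.powerset.Finite ∧ S.powerset.card = 2 ^ S.card) (by fun_prop)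
    (by
      have e : (⊥ : DSet X).powerset = {⊥} := by ext; simp
      rw [e]
      exact ⟨finite_singleton _, by simp⟩)
    fun a S hS ha ⟨h1, h2⟩ => by
      have e : (Insert.insert a S).powerset =
          S.powerset ⊔ S.powerset.image (fun T => Insert.insert a T) (by fun_prop) := by
        ext T
        constructor
        · intro h
          by_cases hT : a ∈ T
          · exact Or.inr ⟨T \ {a}, fun x hx => (h hx.1).resolve_left hx.2,
              insert_sdiff_singleton hT⟩
          · exact Or.inl fun x hx => (h hx).resolve_left fun e => hT (e ▸ hx)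
        · rintro (h | ⟨R, h, rfl⟩)
          · exact le_trans h (le_insert a S)
          · exact fun x hx => hx.imp_right fun k => h k
      have hi : Set.InjOn (fun T => Insert.insert a T) (S.powerset : Set (DSet X)) :=
        fun T hT R hR e => ext fun x => by
          have h : x = a ∨ x ∈ T ↔ x = a ∨ x ∈ R := SetLike.ext_iff.1 e x
          exact ⟨fun k => (h.1 (Or.inr k)).resolve_left fun e => ha (e ▸ hT k),
            fun k => (h.2 (Or.inr k)).resolve_left fun e => ha (e ▸ hR k)⟩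
      refine ⟨e ▸ h1.sup (h1.image _ _), ?_⟩
      rw [e, card_sup_eq _ h1 (h1.image _ _), card_image_of_injOn _ hi, h2,
        card_insert_of_notMem ha hS, Nn.pow_succ, mul_two]
      refine disjoint_right.2 ?_
      rintro _ ⟨T, -, rfl⟩ h
      exact ha (h (mem_insert a T))

theorem Finite.powerset (hS : S.Finite) : S.powerset.Finite := (powerset_aux hS).1

theorem card_powerset (hS : S.Finite) : S.powerset.card = 2 ^ S.card := (powerset_aux hS).2

theorem one_lt_card (hS : S.Finite) : 1 < S.card ↔ ∃ a ∈ S, ∃ b ∈ S, a ≠ b := by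
  constructor
  · intro h
    obtain ⟨a, ha⟩ := (card_pos hS).1 (zero_lt_one.trans h)
    obtain ⟨b, hb⟩ := nonempty_of_card_pos (S := S \ {a}) (by
      have := card_sdiff_singleton_add_one ha hS
      zify at this h ⊢; grind)
    exact ⟨b, hb.1, a, ha, hb.2⟩
  · rintro ⟨a, ha, b, hb, hne⟩
    rw [← card_singleton b]
    exact card_lt_card ((lt_iff_exists (singleton_le_iff.2 hb)).2 ⟨a, ha, hne⟩) hS

theorem card_le_one (hS : S.Finite) : S.card ≤ 1 ↔ ∀ a ∈ S, ∀ b ∈ S, a = b := by
  rw [← not_lt, one_lt_card hS]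
  push Not
  rfl

theorem exists_le_card_eq (h : n ≤ S.card) : ∃ T, T ≤ S ∧ T.Finite ∧ T.card = n := by
  rcases n.eq_zero_or_pos with rfl | hn
  · exact ⟨⊥, bot_le, finite_bot, card_bot⟩
  have hS := finite_of_card_pos (hn.trans_le h)
  obtain ⟨e, e1, e2, e3⟩ := hS.hasCard
  refine ⟨S.sep (fun x => e x < n) (by fun_prop), sep_le, hS.sep, HasCard.card_eq
    ⟨e, fun _ h => h.2, fun x hx y hy => e2 x hx.1 y hy.1, fun i hi => ?_⟩⟩
  obtain ⟨x, hx, rfl⟩ := e3 i (hi.trans_le h)
  exact ⟨x, ⟨hx, hi⟩, rfl⟩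

theorem exists_le_card_eq_of_infinite (h : ¬ S.Finite) (n : Nn) :
    ∃ T, T ≤ S ∧ T.Finite ∧ T.card = n := by
  refine Nn.induction (p := fun n => ∃ T, T ≤ S ∧ T.Finite ∧ T.card = n) (by fun_prop)
    ⟨⊥, bot_le, finite_bot, card_bot⟩ (fun n ⟨T, h1, h2, h3⟩ => ?_) n
  obtain ⟨x, hx, hx'⟩ := exists_of_lt (h1.lt_of_ne fun e => h (e ▸ h2))
  exact ⟨Insert.insert x T, insert_le_iff.2 ⟨hx, h1⟩, h2.insert x,
    by rw [card_insert_of_notMem hx' h2, h3]⟩

/-- An injective enumeration of `j` elements of `S`. -/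
theorem exists_inj [_root_.Nonempty X] {j : Nn} (h : j ≤ S.card) :
    ∃ u : DFun Nn X, Set.InjOn u (range j) ∧ ∀ i, i < j → u i ∈ S := by
  rcases j.eq_zero_or_pos with rfl | hj
  · exact ⟨⟨fun _ => Classical.arbitrary X, by fun_prop⟩,
      fun _ h => absurd (mem_range.1 h) not_lt_zero, fun _ h => absurd h not_lt_zero⟩
  obtain ⟨e, -, -, e3⟩ := (finite_of_card_pos (hj.trans_le h)).hasCard
  obtain ⟨u, hu, hu'⟩ := (finite_range j).choice (r := fun i x => x ∈ S ∧ e x = i) (by fun_prop)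
    fun i hi => e3 i (lt_of_lt_of_le hi h)
  exact ⟨⟨u, hu⟩, fun i hi k hk e' => by
    rw [← (hu' i hi).2, ← (hu' k hk).2]; exact congrArg e e', fun i hi => (hu' i hi).1⟩

theorem exists_min_image (S : DSet X) (f : X → Nn) (hf : DefF f) (h : S.Nonempty) :
    ∃ a ∈ S, ∀ b ∈ S, f a ≤ f b := by
  obtain ⟨x, hx⟩ := h
  obtain ⟨_, ⟨a, ha, rfl⟩, h⟩ := Nn.exists_min (p := fun n => ∃ a, a ∈ S ∧ f a = n) (by fun_prop)
    ⟨_, x, hx, rfl⟩
  exact ⟨a, ha, fun b hb => h _ ⟨b, hb, rfl⟩⟩

theorem Finite.exists_bound (hS : S.Finite) (f : X → Nn) (hf : DefF f) :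
    ∃ n, ∀ a ∈ S, f a ≤ n :=
  hS.induction_on (p := fun S => ∃ n, ∀ a ∈ S, f a ≤ n) (by simp only [all_eq, imp_eq]; fun_prop)
    ⟨0, fun _ h => h.elim⟩ fun a _ _ _ ⟨n, h⟩ => ⟨max (f a) n, fun b hb =>
      hb.elim (fun e => e ▸ le_max_left _ _) fun hb => (h b hb).trans (le_max_right _ _)⟩

theorem Finite.exists_max_image (hS : S.Finite) (f : X → Nn) (hf : DefF f) (h : S.Nonempty) :
    ∃ a ∈ S, ∀ b ∈ S, f b ≤ f a := by
  obtain ⟨x, hx⟩ := h
  obtain ⟨n, hn⟩ := hS.exists_bound f hf
  obtain ⟨_, ⟨a, ha, rfl⟩, h⟩ := Nn.exists_max (p := fun n => ∃ a, a ∈ S ∧ f a = n) (by fun_prop)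
    ⟨_, x, hx, rfl⟩ (b := n) fun _ ⟨a, ha, e⟩ => e ▸ hn a ha
  exact ⟨a, ha, fun b hb => h _ ⟨b, hb, rfl⟩⟩

/-- Strong induction over the subsets of a finite set. -/
theorem Finite.strong_induction_on_le {p : DSet X → Prop} (hS : S.Finite) (hp : DefF p)
    (hs : ∀ T, T ≤ S → (∀ R, R < T → p R) → p T) : p S :=
  Nn.strong_induction (p := fun n => ∀ T, T ≤ S → T.card = n → p T)
    (by simp only [all_eq, imp_eq]; fun_prop) (fun _ ih T hT e => hs T hT fun R hR =>
      ih _ (e ▸ card_lt_card hR (hS.subset hT)) R (hR.le.trans hT) rfl) _ S le_rfl rfl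

theorem card_le_mul_card_of_maps_to {T : DSet Y} {f : X → Y} (hf : DefF f) (hT : T.Finite)
    (h : ∀ x ∈ S, f x ∈ T) (n : Nn)
    (hn : ∀ b ∈ T, (S.sep (fun x => f x = b) (by fun_prop)).card ≤ n) : S.card ≤ n * T.card := by
  have := hT.induction_on_le (p := fun R => (S ⊓ R.preimage f hf).card ≤ n * R.card) (by fun_prop)
    (by rw [eq_bot_iff_forall.2 fun x (h : x ∈ S ⊓ preimage f hf ⊥) => h.2]; simp)
    fun b R hb _ hR hbR ih => by
      have e : S ⊓ (Insert.insert b R).preimage f hf =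
          S ⊓ R.preimage f hf ⊔ S.sep (fun x => f x = b) (by fun_prop) := by
        ext x
        simp only [mem_inf, mem_preimage, mem_insert_iff, mem_sup, mem_sep]
        tauto
      rw [e, card_insert_of_notMem hbR hR, mul_add, mul_one]
      exact (card_sup_le _ _).trans (add_le_add ih (hn b hb))
  rwa [inf_eq_left.2 (show S ≤ T.preimage f hf from h)] at this

theorem card_le_mul_card_image {f : X → Y} (hf : DefF f) (hS : S.Finite) (n : Nn)
    (hn : ∀ b ∈ S.image f hf, (S.sep (fun x => f x = b) (by fun_prop)).card ≤ n) :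
    S.card ≤ n * (S.image f hf).card :=
  card_le_mul_card_of_maps_to hf (hS.image f hf) (fun _ => mem_image_of_mem) n hn

/-- A definable decreasing sequence of subsets of a finite set is eventually constant. -/
theorem exists_stable_anti {f : Nn → DSet X} (hf : DefF f) (h0 : (f 0).Finite)
    (h : ∀ m n, m ≤ n → f n ≤ f m) : ∃ n, ∀ m, n ≤ m → f m = f n := by
  obtain ⟨n, -, hn⟩ := exists_min_image ⊤ (fun n => (f n).card) (by fun_prop) ⟨0, trivial⟩
  exact ⟨n, fun m hm => eq_of_le_of_card_le (h n m hm) (hn m trivial) (h0.subset (h 0 n zero_le))⟩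

/-- A definable increasing sequence of subsets of a finite set is eventually constant. -/
theorem exists_stable_mono {f : Nn → DSet X} (hf : DefF f) (hS : S.Finite) (h0 : ∀ n, f n ≤ S)
    (h : ∀ m n, m ≤ n → f m ≤ f n) : ∃ n, ∀ m, n ≤ m → f m = f n := by
  obtain ⟨n, hn⟩ := exists_stable_anti (f := fun n => S \ f n) (by fun_prop) (hS.subset sdiff_le)
    fun m n hmn => sdiff_le_sdiff_left (h m n hmn)
  refine ⟨n, fun m hm => ?_⟩
  rw [← sdiff_sdiff_eq_self (h0 m), hn m hm, sdiff_sdiff_eq_self (h0 n)]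

theorem finite_top_prop : (⊤ : DSet Prop).Finite := finite_of_finite (Set.toFinite _)

theorem card_top_prop : (⊤ : DSet Prop).card = 2 := by
  have e : (⊤ : DSet Prop) = Insert.insert True {False} := by
    ext p; by_cases h : p <;> simp [h]
  rw [e, card_insert_of_notMem (by simp) (finite_singleton _), card_singleton, one_add_one_eq_two]

end DSet

end Pool.Agent.P.MP_e517ea_lc.Z
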