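import Pool.Agent.P.MP_e517ea_lc.Z.Enc

/-!
Algebraic closure for a group action: finite orbits, closures of points, the lemma of Neumann.
-/

set_option synthInstance.maxSize 16384
set_option linter.unusedSectionVars false

noncomputable section

namespace Pool.Agent.P.MP_e517ea_lc.Z

open DSet IEq

variable [ZU]
variable {G A Ω : Type} [Group G] [MulAction G A] [Coded A] [Coded Ω] [GS G A]

/-- Fixed points. -/
def Fix (U : OS G A) : DSet A :=
  ⟨fun a => ∀ g ∈ U, g • a = a, (DefF.const U).all1 DefF.id (fun a x => x = a) (by fun_prop)⟩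

theorem mem_Fix {U : OS G A} {a : A} : a ∈ Fix U ↔ ∀ g ∈ U, g • a = a := Iff.rfl

@[fun_prop] theorem DefF.fix {U : Ω → OS G A} (hU : DefF U) : DefF (fun w => Fix (U w)) :=
  DefF.of_mem ((hU.comp DefF.fst).all1 DefF.snd (fun z x => x = z.2) (by fun_prop))

/-- Points with finite orbit. -/
def acl (U : OS G A) : DSet A := ⟨fun a => (orb U a).Finite, by fun_prop⟩

theorem mem_acl {U : OS G A} {a : A} : a ∈ acl U ↔ (orb U a).Finite := Iff.rfl

@[fun_prop] theorem DefF.acl {U : Ω → OS G A} (hU : DefF U) : DefF (fun w => acl (U w)) :=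
  DefF.of_mem (by simp only [mem_acl]; fun_prop)

/-- The closure of a point. -/
def cl (U : OS G A) (a : A) : DSet A := acl (U ⊓ pw G {a})

@[fun_prop] theorem DefF.cl {U : Ω → OS G A} {a : Ω → A} (hU : DefF U) (ha : DefF a) :
    DefF (fun w => cl (U w) (a w)) := by
  unfold Z.cl; fun_prop

variable {U U' V W : OS G A} {a b c : A} {g : G} {X Y : DSet A}

theorem stab_orb : Stab U (orb U a) := by
  rintro g hg _ ⟨k, hk, rfl⟩
  exact ⟨g * k, U.mul_mem hg hk, mul_smul _ _ _⟩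

theorem mem_orb_self (U : OS G A) (a : A) : a ∈ orb U a := ⟨1, U.one_mem, one_smul _ _⟩

theorem Fix_subset_acl : Fix U ≤ acl U := fun a ha =>
  (finite_singleton a).subset fun _ ⟨g, hg, h⟩ => h.symm.trans (ha g hg)

theorem Fix_anti (h : U' ≤ U) : Fix U ≤ Fix U' := fun _ ha g hg => ha g (h hg)

theorem acl_anti (h : U' ≤ U) : acl U ≤ acl U' := fun _ ha =>
  Finite.subset ha fun _ ⟨g, hg, h'⟩ => ⟨g, h hg, h'⟩

theorem le_pw_Fix : U ≤ pw G (Fix U) := fun g hg => mem_pw_of fun _ ha => ha g hg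

theorem stab_Fix (h : X ≤ Fix U) : Stab U X := fun g hg a ha => by rwa [h ha g hg]

theorem stab_acl : Stab U (acl U) := fun g hg _ ha =>
  Finite.subset ha fun _ ⟨h, hh, e⟩ => ⟨h * g, U.mul_mem hh hg, by rwa [mul_smul]⟩

theorem subset_acl (hX : X.Finite) (hs : Stab U X) : X ≤ acl U := fun a ha =>
  hX.subset fun _ ⟨g, hg, h⟩ => h ▸ hs g hg a ha

theorem cl_eq_of_mem (ha : a ∈ acl U) : cl U a = acl U := by
  refine le_antisymm (fun x hx => ?_) (acl_anti inf_le_left)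
  have d : DefF fun z : A × A => ∃ g ∈ U, g • a = z.1 ∧ g • x = z.2 :=
    (DefF.const U).ex2 (DefF.const a) (DefF.const x) (fun (z : A × A) s t => s = z.1 ∧ t = z.2)
      (by fun_prop)
  refine (Finite.biUnion ha (f := fun t => ⟨fun y => ∃ g ∈ U, g • a = t ∧ g • x = y,
    d.comp (f := fun y => (t, y)) (by fun_prop)⟩) (DefF.of_mem d) ?_).subset ?_
  · rintro _ ⟨γ, hγ, rfl⟩
    refine (fin_of_smul γ⁻¹ hx ?_).1
    rintro _ ⟨g, hg, e, rfl⟩
    exact ⟨γ⁻¹ * g, ⟨U.mul_mem (U.inv_mem hγ) hg, mem_pw_one.2 (by rw [mul_smul, e, inv_smul_smul])⟩,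
      mul_smul _ _ _⟩
  · rintro _ ⟨g, hg, rfl⟩
    exact ⟨_, ⟨g, hg, rfl⟩, g, hg, rfl, rfl⟩

theorem acl_inf_pw (hX : X.Finite) (h : X ≤ acl U) : acl (U ⊓ pw G X) = acl U :=
  hX.induction_on_le (p := fun X => acl (U ⊓ pw G X) = acl U) (by fun_prop)
    (by congr 1; ext g; simp [mem_pw finite_bot]) fun a s ha _ hs _ h1 => by
      have : U ⊓ pw G (insert a s) = (U ⊓ pw G s) ⊓ pw G {a} := by
        ext g; simp [mem_pw hs, mem_pw (hs.insert a), mem_pw_one]; tauto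
      rw [this, ← h1]
      exact cl_eq_of_mem (h1 ▸ h ha)

theorem mem_cl_self (U : OS G A) (a : A) : a ∈ cl U a :=
  Fix_subset_acl fun _ hg => mem_pw_one.1 hg.2

theorem acl_subset_cl : acl U ≤ cl U a := acl_anti inf_le_left

theorem cl_mono (h : U' ≤ U) : cl U a ≤ cl U' a := acl_anti (inf_le_inf_right _ h)

theorem cl_subset_acl (h : U' ≤ U) (ha : a ∈ acl U') : cl U a ≤ acl U' :=
  cl_eq_of_mem ha ▸ cl_mono h

theorem cl_subset (h : U' ≤ U) (hb : b ∈ cl U' a) : cl U b ≤ cl U' a :=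
  cl_subset_acl (inf_le_left.trans h) hb

theorem cl_eq_cl (h1 : b ∈ cl U a) (h2 : a ∈ cl U b) : cl U a = cl U b :=
  (cl_subset le_rfl h2).antisymm (cl_subset le_rfl h1)

theorem mem_cl_of_eq (h : cl U a = cl U b) : b ∈ cl U a := h ▸ mem_cl_self U b

theorem cl_eq_mono (h : U' ≤ U) (e : cl U a = cl U b) : cl U' a = cl U' b :=
  cl_eq_cl (cl_mono h (mem_cl_of_eq e)) (cl_mono h (mem_cl_of_eq e.symm))

theorem notMem_acl_of_eq (h : U' ≤ U) (e : cl U a = cl U b) (ha : a ∉ acl U') :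
    b ∉ acl U' := fun hb => ha (cl_subset_acl h hb (mem_cl_of_eq e.symm))

theorem smul_mem_cl (hg : g ∈ U) (h : b ∈ cl U a) : g • b ∈ cl U (g • a) := by
  refine (fin_of_smul g⁻¹ h ?_).1
  rintro _ ⟨k, hk, rfl⟩
  refine ⟨g⁻¹ * k * g, ⟨U.mul_mem (U.mul_mem (U.inv_mem hg) hk.1) hg, mem_pw_one.2 ?_⟩,
    by simp [mul_smul]⟩
  rw [mul_smul, mul_smul, mem_pw_one.1 hk.2, inv_smul_smul]

theorem smul_mem_cl_iff (hg : g ∈ U) : g • b ∈ cl U (g • a) ↔ b ∈ cl U a :=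
  ⟨fun h => by simpa using smul_mem_cl (U.inv_mem hg) h, smul_mem_cl hg⟩

theorem cl_smul_eq (hg : g ∈ U) (h : cl U a = cl U b) : cl U (g • a) = cl U (g • b) :=
  cl_eq_cl (smul_mem_cl hg (mem_cl_of_eq h)) (smul_mem_cl hg (mem_cl_of_eq h.symm))

theorem Inv.cl_eq {P : IEq A} (hP : P ∈ Inv U X) (h : P a b) : cl U a = cl U b := by
  have key : ∀ a b, P a b → b ∈ cl U a := fun a b h =>
    (hP.1 a).subset fun _ ⟨g, hg, e⟩ => by
      have := hP.2.1 g hg.1 a b h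
      rwa [mem_pw_one.1 hg.2, e] at this
  exact cl_eq_cl (key a b h) (key b a (P.symm h))

/-- The lemma of Neumann. -/
theorem neumann (hX : X.Finite) (hY : Y.Finite) (h : ∀ a ∈ X, a ∉ acl U) :
    ∃ g ∈ U, ∀ a ∈ X, g • a ∉ Y := by
  have d : DefF fun z : DSet A × DSet A => ∃ g ∈ U, ∀ u ∈ rs g z.1, u.2 ∉ z.2 :=
    (DefF.const U).exS DefF.fst (Ψ := fun z q => ∀ u ∈ q, u.2 ∉ z.2)
      (by simp only [all_eq, imp_eq]; fun_prop)
  have key := hX.induction_on_le (p := fun X => All fun Y : DSet A =>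
    Imp Y.Finite (∃ g ∈ U, ∀ u ∈ rs g X, u.2 ∉ Y)) (DefF.all (DefF.imp (by fun_prop) d))
    (fun _ _ => ⟨1, U.one_mem, fun _ hu => hu.2.1.elim⟩) fun x T hx _ hT _ ih Y hY => by
      obtain ⟨_, ⟨k, hk, rfl⟩, hk'⟩ : ∃ y ∈ orb U x, y ∉ Y :=
        by_contra fun hc => h x hx (Finite.subset hY fun y hy => by_contra fun k => hc ⟨y, hy, k⟩)
      have hY' := Finite.insert (k • x) hY
      obtain ⟨f, df, hf⟩ := (Finite.subset hY (inf_le_left : Y ⊓ orb U x ≤ Y)).choice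
        (r := fun y (R : DSet A) => R.Finite ∧ ∃ g ∈ U,
          (k • x, y) ∈ rs g (insert (k • x) Y) ∧ (rs g (insert (k • x) Y)).ran ≤ R)
        (DefF.and (by fun_prop) ((DefF.const U).exS (DefF.const _)
          (Ψ := fun (z : A × DSet A) q => (k • x, z.1) ∈ q ∧ q.ran ≤ z.2) (by fun_prop))) (by
          rintro _ ⟨-, g, hg, rfl⟩
          exact ⟨_, (finite_rs _ _).ran, g * k⁻¹, U.mul_mem hg (U.inv_mem hk),
            ⟨hY', Or.inl rfl, by simp [mul_smul]⟩, le_rfl⟩)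
      obtain ⟨g, hg, h1⟩ := ih _ (Finite.sup hY ((Finite.subset hY inf_le_left).biUnion df
        fun y hy => (hf y hy).1))
      by_cases h2 : g • x ∈ Y
      · obtain ⟨-, l, hl, h3, h4⟩ := hf _ ⟨h2, g, hg, rfl⟩
        refine ⟨l⁻¹ * g, U.mul_mem (U.inv_mem hl) hg, ?_⟩
        rintro ⟨u, v⟩ ⟨-, (rfl : u = x) | hu, (rfl : _ • u = v)⟩ h5
        · have h6 : l • k • u = g • u := h3.2.2
          exact hk' (by simpa [mul_smul, ← h6] using h5)
        · exact h1 _ (mk_mem_rs g hT hu) (Or.inr ⟨_, ⟨h2, g, hg, rfl⟩,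
            h4 ⟨_, hY', Or.inr h5, by simp [mul_smul]⟩⟩)
      · refine ⟨g, hg, ?_⟩
        rintro ⟨u, v⟩ ⟨-, (rfl : u = x) | hu, (rfl : _ • u = v)⟩ h5
        · exact h2 h5
        · exact h1 _ (mk_mem_rs g hT hu) (Or.inl h5)
  obtain ⟨g, hg, k⟩ := key Y hY
  exact ⟨g, hg, fun a ha => k _ (mk_mem_rs g hX ha)⟩

/-- The class of a point. -/
def cls (U : OS G A) (a : A) : DSet A := ⟨fun b => cl U a = cl U b, by fun_prop⟩

theorem mem_cls : b ∈ cls U a ↔ cl U a = cl U b := Iff.rfl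

@[fun_prop] theorem DefF.cls {U : Ω → OS G A} {a : Ω → A} (hU : DefF U) (ha : DefF a) :
    DefF (fun w => cls (U w) (a w)) :=
  DefF.of_mem (by simp only [mem_cls]; fun_prop)

theorem mem_cls_self (U : OS G A) (a : A) : a ∈ cls U a := rfl

theorem cls_subset_cl : cls U a ≤ cl U a := fun _ h => mem_cl_of_eq h

theorem cls_mono (h : U' ≤ U) : cls U a ≤ cls U' a := fun _ e => cl_eq_mono h e

/-- The stabiliser of a class as a subgroup. -/
def SSsub (U : OS G A) (a : A) : Subgroup G where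
  carrier := {g | g ∈ U ∧ cl U a = cl U (g • a)}
  one_mem' := ⟨U.one_mem, by rw [one_smul]⟩
  mul_mem' := fun {g h} hg hh => ⟨U.mul_mem hg.1 hh.1, by
    rw [mul_smul]; exact hg.2.trans (cl_smul_eq hg.1 hh.2)⟩
  inv_mem' := fun {g} hg => ⟨U.inv_mem hg.1, by
    simpa using (cl_smul_eq (U.inv_mem hg.1) hg.2).symm⟩

theorem defF_tr_SS {U : Ω → OS G A} {a : Ω → A} (hU : DefF U) (ha : DefF a) :
    DefF fun z : Ω × DSet (A × A) => Tr (SSsub (U z.1) (a z.1)) z.2 :=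
  defF_tr_of (H := fun w => SSsub (U w) (a w)) hU.tr (D := fun w => {a w}) (by fun_prop)
    (fun _ => finite_singleton _)
    (R := fun w z _ => Imp (z.1 = a w) (cl (U w) (a w) = cl (U w) z.2)) (by fun_prop)
    (fun _ _ hg => ⟨hg.1, fun _ _ (e : _ = _) => e ▸ hg.2⟩)
    fun _ _ hg h => ⟨hg, h _ _ (Or.inl rfl) (Or.inl rfl) rfl⟩

/-- The stabiliser of a class. -/
def SS (U : OS G A) (a : A) : OS G A where
  sub := SSsub U a
  opn := (U ⊓ pw G {a}).opn.imp fun _ h => ⟨h.1, fun g hg =>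
    ⟨(h.2 g hg).1, by rw [mem_pw_one.1 (h.2 g hg).2]⟩⟩
  defn := (defF_tr_SS (Ω := Prop) (DefF.const U) (DefF.const a)).comp (f := fun p => (True, p))
    (by fun_prop)

@[fun_prop] theorem DefF.ss {U : Ω → OS G A} {a : Ω → A} (hU : DefF U) (ha : DefF a) :
    DefF (fun w => SS (U w) (a w)) := DefF.of_tr (defF_tr_SS hU ha)

theorem mem_SS : g ∈ SS U a ↔ g ∈ U ∧ cl U a = cl U (g • a) := Iff.rfl

theorem SS_le : SS U a ≤ U := fun _ h => h.1

theorem inf_pw_le_SS : U ⊓ pw G {a} ≤ SS U a := fun _ h => ⟨h.1, by rw [mem_pw_one.1 h.2]⟩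

theorem mem_SS_of (hg : g ∈ U) (hb : b ∈ cls U a) (hb' : g • b ∈ cls U a) : g ∈ SS U a :=
  ⟨hg, hb'.trans (cl_smul_eq hg hb).symm⟩

theorem SS_congr (h : cl U a = cl U b) : SS U a = SS U b := by
  ext g
  exact and_congr_right fun hg => by rw [h, cl_smul_eq hg h]

theorem cls_congr (h : cl U a = cl U b) : cls U a = cls U b := by
  ext x; simp only [mem_cls, h]

theorem stab_cls : Stab (SS U a) (cls U a) := fun _ hg _ hb => hg.2.trans (cl_smul_eq hg.1 hb)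

theorem stab_cl : Stab (SS U a) (cl U a) := fun _ hg _ hb => hg.2 ▸ smul_mem_cl hg.1 hb

theorem acl_SS (h : (cl U a).Finite) : acl (SS U a) = cl U a :=
  (acl_anti inf_pw_le_SS).antisymm (subset_acl h stab_cl)

/-- The union of the `W`-translates of the `U`-class of `a`. -/
def XO (U W : OS G A) (a : A) : DSet A :=
  ⟨fun b => ∃ g ∈ W, cl U (g • a) = cl U b,
    (DefF.const W).ex1 (DefF.const a) (fun b x => cl U x = cl U b) (by fun_prop)⟩

@[fun_prop] theorem DefF.xo {U W : Ω → OS G A} {a : Ω → A} (hU : DefF U) (hW : DefF W)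
    (ha : DefF a) : DefF (fun w => XO (U w) (W w) (a w)) :=
  DefF.of_mem ((hW.comp DefF.fst).ex1 (ha.comp DefF.fst)
    (fun z x => Z.cl (U z.1) x = Z.cl (U z.1) z.2) (by fun_prop))

/-- Unions of classes. -/
def CS (U : OS G A) (X : DSet A) : Prop := ∀ a ∈ X, ∀ b, cl U a = cl U b → b ∈ X

theorem CS.sat (h : CS U X) : Satur U X := fun _ hP a b hab ha => h a ha b (Inv.cl_eq hP hab)

theorem CS.compl (h : CS U X) : CS U Xᶜ := fun _ ha b e hb => ha (h b hb _ e.symm)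

theorem CS.union (h : CS U X) (h' : CS U Y) : CS U (X ⊔ Y) :=
  fun a ha b e => ha.imp (h a · b e) (h' a · b e)

theorem CS.inter (h : CS U X) (h' : CS U Y) : CS U (X ⊓ Y) :=
  fun a ha b e => ⟨h a ha.1 b e, h' a ha.2 b e⟩

theorem CS.diff (h : CS U X) (h' : CS U Y) : CS U (X \ Y) := h.inter h'.compl

theorem cs_biUnion {ι : Type} [Coded ι] {s : DSet ι} {T : ι → DSet A} {hT : DefF T}
    (h : ∀ i ∈ s, CS W (T i)) : CS W (s.biUnion T hT) :=
  fun a ⟨i, hi, ha⟩ b e => ⟨i, hi, h i hi a ha b e⟩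

theorem cs_acl (h : U' ≤ U) : CS U (acl U') := fun _ ha _ e =>
  cl_subset_acl h ha (mem_cl_of_eq e)

theorem cs_XO : CS U (XO U W a) := fun _ ⟨g, hg, h⟩ _ e => ⟨g, hg, h.trans e⟩

theorem stab_XO (h : W ≤ U) : Stab W (XO U W a) := fun g hg _ ⟨k, hk, e⟩ =>
  ⟨g * k, W.mul_mem hg hk, by rw [mul_smul]; exact cl_smul_eq (h hg) e⟩

theorem cls_subset_XO : cls U a ≤ XO U W a := fun _ h => ⟨1, W.one_mem, by rwa [one_smul]⟩

theorem mem_XO_self : a ∈ XO U W a := cls_subset_XO (mem_cls_self U a)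

theorem smul_mem_XO (hg : g ∈ W) : g • a ∈ XO U W a := ⟨g, hg, rfl⟩

theorem XO_subset (hX : Stab W X) (hc : CS U X) (ha : a ∈ X) : XO U W a ≤ X :=
  fun _ ⟨g, hg, e⟩ => hc _ (hX g hg a ha) _ e

theorem XO_symm (h : W ≤ U) (hb : b ∈ XO U W a) : a ∈ XO U W b := by
  obtain ⟨g, hg, e⟩ := hb
  exact ⟨g⁻¹, W.inv_mem hg, by simpa using (cl_smul_eq (U.inv_mem (h hg)) e).symm⟩

theorem XO_eq (h : W ≤ U) (hb : b ∈ XO U W a) : XO U W b = XO U W a :=
  (XO_subset (stab_XO h) cs_XO hb).antisymm (XO_subset (stab_XO h) cs_XO (XO_symm h hb))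

theorem XO_disjoint (h : W ≤ U) (hne : XO U W a ≠ XO U W b) : Disjoint (XO U W a) (XO U W b) :=
  disjoint_left.2 fun _ h1 h2 => hne ((XO_eq h h1).symm.trans (XO_eq h h2))

theorem XO_mono (h : V ≤ W) : XO U V a ≤ XO U W a := fun _ ⟨g, hg, e⟩ => ⟨g, h hg, e⟩

theorem XO_subset_compl (h : W ≤ U) (ha : a ∉ acl W) : XO U W a ≤ (acl W)ᶜ :=
  XO_subset stab_acl.compl (cs_acl h).compl ha

/-- Detection through classes. -/
theorem nn_le_of_cls (hV : V ≤ U) (hf : FinG V) (hY : Stab V Y)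
    (h : ∀ a ∈ X, ∃ g ∈ U, cls U (g • a) ≤ Y) : nn U X ≤ nn V Y := by
  refine Detects.le (fun P hP a b hab hne => ?_) hV hf hY
  obtain ⟨g, hg, h1⟩ := h a ((hP.2.2 a b hab).resolve_left hne).1
  exact ⟨g, hg, h1 (mem_cls_self _ _), h1 (cl_smul_eq hg (Inv.cl_eq hP hab))⟩

theorem nn_XO_le (hW : W ≤ U) (hV : V ≤ U) (hf : FinG V) (hY : Stab V Y) (h : cls U a ≤ Y) :
    nn U (XO U W a) ≤ nn V Y :=
  nn_le_of_cls hV hf hY fun b hb => by
    obtain ⟨g, hg, e⟩ := XO_symm hW hb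
    exact ⟨g, hW hg, by rwa [cls_congr e]⟩

/-- Induction from a class. -/
theorem nn_cls_le {D : DSet A} (hW : W ≤ U) (hf : FinG W) (hD : D.Finite) (hDc : D ≤ cls U a)
    (hs : Stab (W ⊓ SS U a) D) (hX : Stab W X) (hDX : D ≤ X) : nn (W ⊓ SS U a) D ≤ nn W X :=
  nn_induce hf hD hs (fun _ hg _ hb hb' => ⟨hg, mem_SS_of (hW hg) (hDc hb) (hDc hb')⟩)
    fun g hg b hb => hX g hg b (hDX hb)

end Pool.Agent.P.MP_e517ea_lc.Z
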