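import Pool.Agent.P.MP_e517ea_lc.Z.Univ

/-!
A typed layer over the model. A type is coded when its elements are given injective codes that
form a set of the model; a function between coded types is definable (`DefF`) when its graph is a
set of the model. Definability goals are closed by `fun_prop`, after universal quantifiers and
implications are rewritten with `all_eq`, `imp_eq`.
-/

set_option synthInstance.maxSize 16384

namespace Pool.Agent.P.MP_e517ea_lc.Z

variable [ZU]

/-- The elements of `X` have codes, and the codes form a set of the model. -/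
class Coded (X : Type) where
  code : X → UM
  inj : Function.Injective code
  mem : ∃ c : UM, ∀ z, z ∈ c ↔ ∃ x, code x = z

/-- The code of an element. -/
abbrev cd {X : Type} [Coded X] (x : X) : UM := Coded.code x

/-- The set of codes. -/
noncomputable def car (X : Type) [Coded X] : UM := (Coded.mem (X := X)).choose

section
variable {X Y Z W : Type} [Coded X] [Coded Y] [Coded Z] [Coded W]

theorem mem_car {z : UM} : z ∈ car X ↔ ∃ x : X, cd x = z := (Coded.mem (X := X)).choose_spec z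

theorem cd_mem_car (x : X) : cd x ∈ car X := mem_car.2 ⟨x, rfl⟩

@[simp] theorem cd_inj {x y : X} : cd x = cd y ↔ x = y := Coded.inj.eq_iff

theorem exists_car {p : UM → Prop} : (∃ z, z ∈ car X ∧ p z) ↔ ∃ x : X, p (cd x) :=
  ⟨fun ⟨_, hz, h⟩ => by obtain ⟨x, rfl⟩ := mem_car.1 hz; exact ⟨x, h⟩,
    fun ⟨x, h⟩ => ⟨_, cd_mem_car x, h⟩⟩

theorem countable_coded [Countable UM] (X : Type) [Coded X] : Countable X :=
  (Coded.inj (X := X)).countable

/-- The codes of the elements that satisfy `p` are the codes lying in a set of the model. -/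
def DefP {X : Type} [Coded X] (p : X → Prop) : Prop := ∃ a : UM, ∀ x, p x ↔ cd x ∈ a

/-- The graph of `f` is a set of the model. -/
@[fun_prop] def DefF {X Y : Type} [Coded X] [Coded Y] (f : X → Y) : Prop :=
  ∃ a : UM, ∀ x y, f x = y ↔ opair (cd x) (cd y) ∈ a

theorem DefP.of_df (R : UM → Prop) [Df (fun e => R (e 0))] {p : X → Prop}
    (h : ∀ x, p x ↔ R (cd x)) : DefP p := by
  obtain ⟨b, hb⟩ := exists_sep R (car X)
  exact ⟨b, fun x => by rw [hb, h]; simp [cd_mem_car]⟩

theorem exists_rel (R : UM → UM → Prop) [h : Df (fun e => R (e 1) (e 0))] :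
    ∃ a : UM, ∀ (x : X) (y : Y), opair (cd x) (cd y) ∈ a ↔ R (cd x) (cd y) := by
  obtain ⟨c, hc⟩ := exists_prod (car X) (car Y)
  obtain ⟨b, hb⟩ := exists_sep (fun z => ∃ u v, z = opair u v ∧ R u v) c
  refine ⟨b, fun x y => ?_⟩
  rw [hb, hc]
  simp [cd_mem_car]

theorem DefF.of_df (R : UM → UM → Prop) [Df (fun e => R (e 1) (e 0))] {f : X → Y}
    (h : ∀ x y, f x = y ↔ R (cd x) (cd y)) : DefF f := by
  obtain ⟨a, H⟩ := exists_rel (X := X) (Y := Y) R
  exact ⟨a, fun x y => (h x y).trans (H x y).symm⟩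

noncomputable instance : Coded (X × Y) where
  code z := opair (cd z.1) (cd z.2)
  inj := fun z w h => Prod.ext (Coded.inj (opair_inj.1 h).1) (Coded.inj (opair_inj.1 h).2)
  mem := by
    obtain ⟨c, hc⟩ := exists_prod (car X) (car Y)
    refine ⟨c, fun z => (hc z).trans ⟨?_, ?_⟩⟩
    · rintro ⟨a, ha, b, hb, rfl⟩
      obtain ⟨x, rfl⟩ := mem_car.1 ha
      obtain ⟨y, rfl⟩ := mem_car.1 hb
      exact ⟨(x, y), rfl⟩
    · rintro ⟨w, rfl⟩
      exact ⟨_, cd_mem_car _, _, cd_mem_car _, rfl⟩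

@[simp] theorem cd_prod (x : X) (y : Y) : cd (x, y) = opair (cd x) (cd y) := rfl

theorem cd_prod' (z : X × Y) : cd z = opair (cd z.1) (cd z.2) := rfl

open Classical in
noncomputable instance : Coded Prop where
  code p := if p then upair emp emp else emp
  inj := by
    have h : upair emp emp ≠ emp := fun h =>
      notMem_emp emp ((congrArg (fun s : UM => emp ∈ s) h).mp (mem_upair.2 (Or.inl rfl)))
    intro p q hpq
    by_cases hp : p <;> by_cases hq : q <;> simp_all [h.symm]
  mem := ⟨upair (upair emp emp) emp, fun z => by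
    rw [mem_upair]
    constructor
    · rintro (rfl | rfl)
      exacts [⟨True, by simp⟩, ⟨False, by simp⟩]
    · rintro ⟨p, rfl⟩
      split_ifs <;> simp⟩

theorem defF_iff_defP {p : X → Prop} : DefF p ↔ DefP p := by
  constructor
  · rintro ⟨a, h⟩
    exact DefP.of_df (fun z => opair z (cd True) ∈ a) fun x => by rw [← h]; simp
  · rintro ⟨a, h⟩
    refine DefF.of_df (fun z w => (z ∈ a ∧ w = cd True) ∨ (¬ z ∈ a ∧ w = cd False))
      fun x q => ?_
    rw [← h, cd_inj, cd_inj]
    by_cases hp : p x <;> by_cases hq : q <;> simp [hp, hq]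

theorem DefF.defP {p : X → Prop} (h : DefF p) : DefP p := defF_iff_defP.1 h

theorem DefP.defF {p : X → Prop} (h : DefP p) : DefF p := defF_iff_defP.2 h

theorem defF_mem (a : UM) : DefF (fun x : X => cd x ∈ a) := DefP.defF ⟨a, fun _ => Iff.rfl⟩

theorem DefF.congr {f g : X → Y} (h : DefF f) (hfg : ∀ x, f x = g x) : DefF g :=
  funext hfg ▸ h

theorem DefF.congr_iff {p q : X → Prop} (h : DefF p) (hpq : ∀ x, p x ↔ q x) : DefF q :=
  h.congr fun x => propext (hpq x)

@[fun_prop] theorem DefF.id : DefF (fun x : X => x) :=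
  DefF.of_df (fun z w => z = w) fun _ _ => cd_inj.symm

@[fun_prop] theorem DefF.const (y : Y) : DefF (fun _ : X => y) :=
  DefF.of_df (fun _ w => cd y = w) fun _ _ => cd_inj.symm

@[fun_prop] theorem DefF.comp {g : Y → Z} {f : X → Y} (hg : DefF g) (hf : DefF f) :
    DefF (fun x => g (f x)) := by
  obtain ⟨a, h1⟩ := hf
  obtain ⟨b, h2⟩ := hg
  refine DefF.of_df (fun x z => ∃ y, y ∈ car Y ∧ opair x y ∈ a ∧ opair y z ∈ b) fun x z => ?_
  rw [exists_car]
  simp only [← h1, ← h2]
  simp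

@[fun_prop] theorem DefF.fst : DefF (Prod.fst : X × Y → X) :=
  DefF.of_df (fun z w => ∃ y, y ∈ car Y ∧ z = opair w y) fun z x => by
    rw [exists_car, cd_prod']
    simp only [opair_inj, cd_inj]
    simp

@[fun_prop] theorem DefF.snd : DefF (Prod.snd : X × Y → Y) :=
  DefF.of_df (fun z w => ∃ x, x ∈ car X ∧ z = opair x w) fun z x => by
    rw [exists_car, cd_prod']
    simp only [opair_inj, cd_inj]
    simp

@[fun_prop] theorem DefF.prodMk {f : X → Y} {g : X → Z} (hf : DefF f) (hg : DefF g) :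
    DefF (fun x => (f x, g x)) := by
  obtain ⟨a, h1⟩ := hf
  obtain ⟨b, h2⟩ := hg
  refine DefF.of_df (fun x w => ∃ y, y ∈ car Y ∧ ∃ z, z ∈ car Z ∧ w = opair y z ∧
    opair x y ∈ a ∧ opair x z ∈ b) fun x w => ?_
  simp only [exists_car, ← h1, ← h2, cd_prod', opair_inj, cd_inj]
  simp [Prod.ext_iff, eq_comm]

@[fun_prop] theorem DefF.eq {f g : X → Y} (hf : DefF f) (hg : DefF g) :
    DefF (fun x => f x = g x) := by
  have h : DefF (fun z : Y × Y => z.1 = z.2) :=
    DefP.defF (DefP.of_df (fun z => ∃ y, y ∈ car Y ∧ z = opair y y) fun z => by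
      rw [exists_car, cd_prod']
      simp only [opair_inj, cd_inj]
      exact ⟨fun h => ⟨z.2, h, rfl⟩, fun ⟨y, h1, h2⟩ => h1.trans h2.symm⟩)
  exact h.comp (hf.prodMk hg)

@[fun_prop] theorem DefF.not {p : X → Prop} (hp : DefF p) : DefF (fun x => ¬ p x) := by
  obtain ⟨a, h⟩ := hp.defP
  exact (DefP.of_df (fun z => ¬ z ∈ a) fun x => by rw [h]).defF

@[fun_prop] theorem DefF.and {p q : X → Prop} (hp : DefF p) (hq : DefF q) :
    DefF (fun x => p x ∧ q x) := by
  obtain ⟨a, h⟩ := hp.defP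
  obtain ⟨b, k⟩ := hq.defP
  exact (DefP.of_df (fun z => z ∈ a ∧ z ∈ b) fun x => by rw [h, k]).defF

@[fun_prop] theorem DefF.or {p q : X → Prop} (hp : DefF p) (hq : DefF q) :
    DefF (fun x => p x ∨ q x) :=
  (hp.not.and hq.not).not.congr_iff fun _ => by tauto

@[fun_prop] theorem DefF.iff {p q : X → Prop} (hp : DefF p) (hq : DefF q) :
    DefF (fun x => p x ↔ q x) :=
  (hp.eq hq).congr_iff fun _ => eq_iff_iff

@[fun_prop] theorem DefF.ne {f g : X → Y} (hf : DefF f) (hg : DefF g) :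
    DefF (fun x => f x ≠ g x) := (hf.eq hg).not

@[fun_prop] theorem DefF.exists {p : X → Y → Prop} (hp : DefF (fun z : X × Y => p z.1 z.2)) :
    DefF (fun x => ∃ y, p x y) := by
  obtain ⟨a, h⟩ := hp.defP
  refine (DefP.of_df (fun z => ∃ y, y ∈ car Y ∧ opair z y ∈ a) fun x => ?_).defF
  rw [exists_car]
  exact exists_congr fun y => h (x, y)

/-- Universal quantification as a constant. -/
def All {Y : Type} (p : Y → Prop) : Prop := ∀ y, p y

/-- Implication as a constant. -/
def Imp (p q : Prop) : Prop := p → q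

omit [ZU] in
theorem all_eq {Y : Type} (p : Y → Prop) : (∀ y, p y) = All p := rfl

omit [ZU] in
theorem imp_eq (p q : Prop) : (p → q) = Imp p q := rfl

@[fun_prop] theorem DefF.all {p : X → Y → Prop} (hp : DefF (fun z : X × Y => p z.1 z.2)) :
    DefF (fun x => All (p x)) :=
  (DefF.exists (p := fun x y => ¬ p x y) hp.not).not.congr_iff fun _ => by simp [All]

@[fun_prop] theorem DefF.imp {p q : X → Prop} (hp : DefF p) (hq : DefF q) :
    DefF (fun x => Imp (p x) (q x)) :=
  (hp.not.or hq).congr_iff fun _ => by unfold Imp; tauto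

@[fun_prop] theorem DefF.existsUnique {p : X → Y → Prop}
    (hp : DefF (fun z : X × Y => p z.1 z.2)) : DefF (fun x => ExistsUnique (p x)) := by
  have : DefF (fun x => ∃ y, p x y ∧ ∀ y', p x y' → y' = y) := by
    simp only [all_eq, imp_eq]
    fun_prop
  exact this

theorem DefF.of_graph {f : X → Y} (h : DefF (fun z : X × Y => f z.1 = z.2)) : DefF f := by
  obtain ⟨a, h⟩ := h.defP
  exact ⟨a, fun x y => h (x, y)⟩

/-- A function is definable when its graph is described by a definable relation. -/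
theorem DefF.of_rel {f : X → Y} (R : X → Y → Prop) (h : DefF (fun z : X × Y => R z.1 z.2))
    (hR : ∀ x y, f x = y ↔ R x y) : DefF f :=
  DefF.of_graph (h.congr_iff fun z => (hR z.1 z.2).symm)

/-- A function picking the unique witness of a definable relation is definable. -/
theorem DefF.of_unique {f : X → Y} (R : X → Y → Prop) (h : DefF (fun z : X × Y => R z.1 z.2))
    (h1 : ∀ x, R x (f x)) (h2 : ∀ x y y', R x y → R x y' → y = y') : DefF f :=
  DefF.of_rel R h fun x _ => ⟨fun e => e ▸ h1 x, h2 x _ _ (h1 x)⟩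

@[fun_prop] theorem DefF.ite {p : X → Prop} [DecidablePred p] {f g : X → Y} (hp : DefF p)
    (hf : DefF f) (hg : DefF g) : DefF (fun x => if p x then f x else g x) :=
  DefF.of_rel (fun x y => (p x ∧ f x = y) ∨ (¬ p x ∧ g x = y)) (by fun_prop) fun x y => by
    by_cases h : p x <;> simp [h]

@[fun_prop] theorem DefF.swap : DefF (Prod.swap : X × Y → Y × X) :=
  (by fun_prop : DefF (fun z : X × Y => (z.2, z.1)))

/-- Membership between codes is definable. -/
theorem defF_cd_mem {f : W → X} {g : W → Y} (hf : DefF f) (hg : DefF g) :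
    DefF (fun w => cd (f w) ∈ cd (g w)) := by
  have h : DefF (fun z : X × Y => cd z.1 ∈ cd z.2) :=
    DefP.defF (DefP.of_df (fun z => ∃ a b, z = opair a b ∧ a ∈ b) fun z => by
      rw [cd_prod']
      simp only [opair_inj]
      exact ⟨fun h => ⟨_, _, ⟨rfl, rfl⟩, h⟩, fun ⟨a, b, ⟨h1, h2⟩, h⟩ => by rwa [h1, h2]⟩)
  exact h.comp (hf.prodMk hg)

theorem defF_cd_eq {f : W → X} {g : W → Y} (hf : DefF f) (hg : DefF g) :
    DefF (fun w => cd (f w) = cd (g w)) := by
  have h : DefF (fun z : X × Y => cd z.1 = cd z.2) :=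
    DefP.defF (DefP.of_df (fun z => ∃ a b, z = opair a b ∧ a = b) fun z => by
      rw [cd_prod']
      simp only [opair_inj]
      exact ⟨fun h => ⟨_, _, ⟨rfl, rfl⟩, h⟩, fun ⟨a, b, ⟨h1, h2⟩, h⟩ => by rwa [h1, h2]⟩)
  exact h.comp (hf.prodMk hg)

/-- Coding along an injection with definable range. -/
@[reducible] noncomputable def Coded.ofInj {Y : Type} (ι : Y → X) (hι : Function.Injective ι)
    (h : DefF (fun x => ∃ y, ι y = x)) : Coded Y where
  code y := cd (ι y)
  inj := fun _ _ h => hι (Coded.inj h)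
  mem := by
    obtain ⟨a, h⟩ := h.defP
    obtain ⟨b, hb⟩ := exists_sep (fun z => z ∈ a) (car X)
    refine ⟨b, fun z => ?_⟩
    rw [hb, mem_car]
    constructor
    · rintro ⟨⟨x, rfl⟩, hx⟩
      obtain ⟨y, rfl⟩ := (h x).2 hx
      exact ⟨y, rfl⟩
    · rintro ⟨y, rfl⟩
      exact ⟨⟨_, rfl⟩, (h _).1 ⟨y, rfl⟩⟩

theorem defF_of_cd_eq {ι : Y → X} (h : ∀ y, cd (ι y) = cd y) : DefF ι :=
  DefF.of_rel (fun y x => cd y = cd x) (defF_cd_eq DefF.fst DefF.snd) fun y x => by
    rw [← h, cd_inj]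

theorem DefF.of_inj {ι : Y → X} (hι : Function.Injective ι) (h : DefF ι) {f : W → Y}
    (hf : DefF (fun w => ι (f w))) : DefF f :=
  DefF.of_rel (fun w y => ι (f w) = ι y) (DefF.eq (hf.comp DefF.fst) (h.comp DefF.snd))
    fun _ _ => hι.eq_iff.symm

open Classical in
/-- The unique element with a property if there is one, else the default `x₀`. -/
noncomputable def uq {X : Type} (x₀ : X) (p : X → Prop) : X :=
  if h : ∃! y, p y then h.choose else x₀

omit [ZU] in
theorem uq_eq {X : Type} {x₀ y : X} {p : X → Prop} (h : p y) (h' : ∀ y', p y' → y' = y) :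
    uq x₀ p = y := by
  have h1 : ∃! y, p y := ⟨y, h, h'⟩
  rw [uq, dif_pos h1]
  exact h' _ h1.choose_spec.1

omit [ZU] in
theorem uq_spec {X : Type} (x₀ : X) {p : X → Prop} (h : ∃! y, p y) : p (uq x₀ p) := by
  obtain ⟨y, h1, h2⟩ := h
  rwa [uq_eq h1 h2]

@[fun_prop] theorem DefF.uq {x₀ : W → X} {R : W → X → Prop} (h0 : DefF x₀)
    (h : DefF (fun z : W × X => R z.1 z.2)) : DefF (fun w => uq (x₀ w) (R w)) := by
  refine DefF.of_rel (fun w y => (R w y ∧ ∀ y', R w y' → y' = y) ∨
    ((¬ ∃ y, R w y ∧ ∀ y', R w y' → y' = y) ∧ x₀ w = y)) ?_ fun w y => ?_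
  · simp only [all_eq, imp_eq]
    fun_prop
  · by_cases h1 : ∃! y, R w y
    · obtain ⟨y1, h2, h3⟩ := h1
      rw [uq_eq h2 h3]
      constructor
      · rintro rfl
        exact Or.inl ⟨h2, h3⟩
      · rintro (h4 | h4)
        · exact h4.2 _ h2
        · exact (h4.1 ⟨y1, h2, h3⟩).elim
    · rw [Z.uq, dif_neg h1]
      exact ⟨fun h => Or.inr ⟨h1, h⟩, fun h => h.elim (fun h => (h1 ⟨y, h⟩).elim) fun h => h.2⟩

/-- The elements of a set of the model. -/
def El (a : UM) : Type := {x : UM // x ∈ a}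

instance (a : UM) : Coded (El a) where
  code x := x.1
  inj := Subtype.val_injective
  mem := ⟨a, fun z => ⟨fun h => ⟨⟨z, h⟩, rfl⟩, fun ⟨x, h⟩ => h ▸ x.2⟩⟩

theorem cd_el {a : UM} (x : El a) : cd x = x.1 := rfl

end

end Pool.Agent.P.MP_e517ea_lc.Z
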