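import Pool.Agent.P.MP_e517ea_lc.Z.Enc

/-!
Counting lemmas: injective sequences, Bell numbers against factorials, two doubling lemmas.
-/

set_option synthInstance.maxSize 16384
set_option linter.unusedSectionVars false

noncomputable section

namespace Pool.Agent.P.MP_e517ea_lc.Z

open DSet IEq

variable [ZU]

theorem nseq_pos (k : Nn) : 0 < nseq k := by
  rcases k.eq_zero_or_succ with rfl | ⟨k, rfl⟩
  · simp
  · rw [nseq_succ]; exact Nn.succ_pos _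

theorem factorial_le_nseq (k : Nn) : k.fact ≤ nseq k :=
  Nn.induction (p := fun k => k.fact ≤ nseq k) (by fun_prop) (by simp) (fun k ih => by
    rw [nseq_succ, Nn.fact_succ]
    exact (Nn.mul_le_mul_left _ ih).trans le_self_add) k

theorem nseq_add_le (k c : Nn) : nseq (k + c) ≤ (k + c + 1) ^ c * nseq k := by
  refine Nn.induction (p := fun c => nseq (k + c) ≤ (k + c + 1) ^ c * nseq k) (by fun_prop)
    (by simp) (fun c ih => ?_) c
  have h1 := Nn.pos_iff_one_le.1 (nseq_pos (k + c))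
  have h2 : (k + c + 1) ^ c ≤ (k + c + 1 + 1) ^ c := Nn.pow_le_pow_left le_self_add _
  calc nseq (k + (c + 1)) = (k + c + 1) * nseq (k + c) + 1 := by rw [← add_assoc, nseq_succ]
    _ ≤ (k + c + 1 + 1) * nseq (k + c) := by
      rw [add_mul (k + c + 1) 1, one_mul]; exact add_le_add_right h1 _
    _ ≤ (k + c + 1 + 1) * ((k + c + 1 + 1) ^ c * nseq k) :=
      Nn.mul_le_mul_left _ (ih.trans (Nn.mul_le_mul_right _ h2))
    _ = _ := by rw [← add_assoc, Nn.pow_succ]; ring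

theorem nseq_rem (k c : Nn) : ∃ q r, nseq (k + c) = q * nseq k + r ∧ r + 1 ≤ (k + c + 1) ^ c ∧
    (1 ≤ c → 0 < r) := by
  refine Nn.induction (p := fun c => ∃ q r, nseq (k + c) = q * nseq k + r ∧
    r + 1 ≤ (k + c + 1) ^ c ∧ Imp (1 ≤ c) (0 < r)) (by fun_prop)
    ⟨1, 0, by simp, by simp, fun h => absurd h (by simp)⟩ (fun c ⟨q, r, h1, h2, _⟩ => ?_) c
  refine ⟨(k + c + 1) * q, (k + c + 1) * r + 1, ?_, ?_, fun _ => Nn.succ_pos _⟩
  · rw [← add_assoc, nseq_succ, h1]; ring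
  · have h3 : (k + c + 1) ^ c ≤ (k + c + 1 + 1) ^ c := Nn.pow_le_pow_left le_self_add _
    calc (k + c + 1) * r + 1 + 1 ≤ (k + c + 1 + 1) * (r + 1) := ⟨k + c + r, by ring⟩
      _ ≤ (k + c + 1 + 1) * (k + c + 1 + 1) ^ c := Nn.mul_le_mul_left _ (h2.trans h3)
      _ = _ := by rw [← add_assoc, Nn.pow_succ]; ring

theorem le_of_dvd_nseq {k c d : Nn} (hc : 1 ≤ c) (h1 : d ∣ nseq k) (h2 : d ∣ nseq (k + c)) :
    d ≤ (k + c + 1) ^ c := by
  obtain ⟨q, r, e, h3, h4⟩ := nseq_rem k c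
  rw [e] at h2
  exact (Nn.le_of_dvd (h4 hc) ((Nn.dvd_add_right (h1.mul_left q)).1 h2)).trans (le_self_add.trans h3)

theorem le_of_succ_pow_le {Z k M : Nn} (hZ : 0 < Z) (h : (Z + 1) ^ k ≤ Z ^ k * 2 ^ M) :
    k ≤ Z * M := by
  have h1 : ∀ n, Z ^ n * (Z + n) ≤ Z * (Z + 1) ^ n :=
    Nn.induction (by fun_prop) (by simp) fun n ih => by
      rw [Nn.pow_succ, Nn.pow_succ]
      calc Z ^ n * Z * (Z + (n + 1)) = Z ^ n * (Z * (Z + (n + 1))) := by ring
        _ ≤ Z ^ n * ((Z + n) * (Z + 1)) := Nn.mul_le_mul_left _ ⟨n, by ring⟩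
        _ = Z ^ n * (Z + n) * (Z + 1) := by ring
        _ ≤ Z * (Z + 1) ^ n * (Z + 1) := Nn.mul_le_mul_right _ ih
        _ = _ := by ring
  have h2 : Z ^ Z * 2 ≤ (Z + 1) ^ Z :=
    Nn.le_of_mul_le_mul_left (le_of_eq_of_le (by ring) (h1 Z)) hZ
  by_contra hk
  obtain ⟨m, rfl⟩ := Nn.lt_iff_add_one_le.1 (not_le.1 hk)
  have h3 : (Z ^ Z * 2) ^ M ≤ ((Z + 1) ^ Z) ^ M := Nn.pow_le_pow_left h2 _
  have h4 : Z ^ (m + 1) < (Z + 1) ^ (m + 1) := Nn.pow_lt_pow_left (lt_add_one Z) (Nn.succ_ne_zero m)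
  have h5 : (Z ^ Z * 2) ^ M * Z ^ (m + 1) < ((Z + 1) ^ Z) ^ M * (Z + 1) ^ (m + 1) :=
    Nn.mul_lt_mul_of_le_of_lt h3 h4 (Nn.pow_pos (Nn.pow_pos (Nn.succ_pos Z)))
  rw [← Nn.pow_mul, ← Nn.pow_add, Nn.mul_pow, ← Nn.pow_mul, mul_right_comm, ← Nn.pow_add,
    add_comm m, ← add_assoc] at h5
  exact absurd h (not_le.2 h5)

theorem succ_pow_le (a : Nn) : (a + 1) ^ a ≤ 4 * a ^ a := by
  rcases a.eq_zero_or_pos with rfl | ha
  · simp
  have h := Nn.induction (p := fun k => Imp (k ≤ a)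
    ((a + 1) ^ k * (a * a) ≤ a ^ k * (a * a + k * a + k * k))) (by fun_prop) (fun _ => by simp)
    (fun k ih hk => by
      obtain ⟨j, rfl⟩ := hk
      rw [Nn.pow_succ, Nn.pow_succ, mul_right_comm]
      refine (Nn.mul_le_mul_right _ (ih ⟨1 + j, by ring⟩)).trans ?_
      rw [mul_assoc, mul_assoc]
      exact Nn.mul_le_mul_left _ ⟨k + 1 + j + k + j * k, by ring⟩) a le_rfl
  exact Nn.le_of_mul_le_mul_right (h.trans ⟨a ^ a * (a * a), by ring⟩) (mul_pos ha ha)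

theorem pow_self_le (n : Nn) : n ^ n ≤ 4 ^ n * n.fact :=
  Nn.induction (p := fun n => n ^ n ≤ 4 ^ n * n.fact) (by fun_prop) (by simp) (fun n ih => by
    rw [Nn.pow_succ, Nn.pow_succ, Nn.fact_succ]
    exact (Nn.mul_le_mul_right _ ((succ_pow_le n).trans (Nn.mul_le_mul_left _ ih))).trans
      (le_of_eq (by ring))) n

theorem pow_sub_le {n k : Nn} (hn : 2 ^ (64 : Nn) ≤ n) (hk : k ≤ n) :
    4 ^ n * k ^ (n - k) ≤ n.fact := by
  have h0 : 0 < n := (Nn.two_pow_pos _).trans_le hn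
  refine Nn.le_of_mul_le_mul_left (le_trans ?_ (pow_self_le n)) (Nn.pow_pos four_pos)
  rw [← mul_assoc, ← Nn.mul_pow, show (4 : Nn) * 4 = 16 by norm_num]
  rcases le_total (16 * k) n with h | h
  · rcases k.eq_zero_or_pos with rfl | hk0
    · rw [tsub_zero, Nn.zero_pow h0, mul_zero]; exact zero_le
    · exact (Nn.mul_le_mul_left _ (Nn.pow_le_pow_right hk0 tsub_le_self)).trans
        (Nn.mul_pow 16 k n ▸ Nn.pow_le_pow_left h n)
  · have h1 : (16 : Nn) ^ n ≤ n ^ k := by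
      refine (Nn.pow_le_pow_right (by norm_num) h).trans ?_
      rw [Nn.pow_mul]
      refine Nn.pow_le_pow_left (le_of_eq_of_le ?_ hn) k
      rw [Nn.pow_ofNat, Nn.pow_ofNat]; norm_num
    refine (Nn.mul_le_mul h1 (Nn.pow_le_pow_left hk _)).trans ?_
    rw [← Nn.pow_add, add_tsub_cancel_of_le hk]

theorem DSet.card_biUnion_le_mul {X Y : Type} [Coded X] [Coded Y] {S : DSet X} {F : X → DSet Y}
    (hF : DefF F) (hS : S.Finite) {c b : Nn} (h : ∀ x ∈ S, c * (F x).card ≤ b) :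
    c * (S.biUnion F hF).card ≤ S.card * b :=
  hS.induction_on_le (p := fun S => c * (S.biUnion F hF).card ≤ S.card * b) (by fun_prop)
    (by simp [biUnion_bot]) fun a T ha _ hT ha' ih => by
      rw [biUnion_insert, card_insert_of_notMem ha' hT, add_mul, one_mul, add_comm]
      exact (Nn.mul_le_mul_left _ (card_sup_le _ _)).trans
        (mul_add c _ _ ▸ add_le_add (h a ha) ih)

variable {G A : Type} [Group G] [MulAction G A] [Coded A] [GS G A] {V U : OS G A} {K X D : DSet A}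

theorem nn_le_factorial (hf : FinG V) (hK : K.Finite)
    (hfix : ∀ g ∈ V, ∀ a ∈ K, g • a = a) : nn V K ≤ K.card.fact := by
  refine hK.induction_on_le (p := fun K => nn V K ≤ K.card.fact) (by fun_prop)
    (by simp [nn_empty]) fun x T hx hT hT' hx' ih => ?_
  have h1 := enc hf hT' (finite_singleton x)
    (fun g hg a ha => by rwa [hfix g hg a (hT ha)])
    (fun g hg a (ha : a = x) => hfix g hg a (ha ▸ hx)) (T.card + 1)
  have h2 : (Inv V (T ⊔ {x})).sep (fun P => (IB V P (T ⊔ {x})).card ≤ T.card + 1) (by fun_prop) =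
      Inv V (insert x T) := by
    simp only [sup_singleton]
    refine DSet.ext fun P => and_iff_left ?_
    rw [← card_insert_of_notMem hx' hT']
    refine le_trans (card_le_card ?_
      ((hT'.insert x).image P.blk (by fun_prop))) (card_image_le (hT'.insert x) _ _)
    exact fun _ ⟨a, ha, h, _⟩ => ⟨a, ha, h.symm⟩
  rw [h2, card_singleton, Nn.pow_one] at h1
  rw [card_insert_of_notMem hx' hT', Nn.fact_succ, mul_comm]
  exact h1.trans (Nn.mul_le_mul_right _ ih)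

theorem nn_lt_nseq (hf : FinG V) (hK : K.Finite) (hne : K.Nonempty)
    (hfix : ∀ g ∈ V, ∀ a ∈ K, g • a = a) : nn V K < nseq K.card := by
  refine (nn_le_factorial hf hK hfix).trans_lt ?_
  obtain ⟨n, hn⟩ := Nn.exists_eq_succ_of_pos ((card_pos hK).2 hne)
  rw [hn, nseq_succ, Nn.fact_succ]
  exact Nn.lt_succ_of_le (Nn.mul_le_mul_left _ (factorial_le_nseq n))

theorem nn_upper (hK : K.Finite) (hn : 2 ^ (64 : Nn) ≤ K.card) :
    2 ^ K.card * nn V K ≤ nseq K.card := by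
  classical
  let F : DSet A → DSet (DFun A A) := fun M =>
    (K \ M).pi (fun _ => M) (by fun_prop) ⟨fun x => x, DefF.id⟩
  have dF : DefF F := by fun_prop
  have h1 : nn V K ≤ (K.powerset.biUnion F dF).card := by
    refine (card_le_of_rel (fun (P : IEq A) (f : DFun A A) => ∀ a b, P a b ↔ f a = f b)
      (by simp only [all_eq]; fun_prop) (fun P hP => ?_)
      (fun P _ Q _ f _ h h' => IEq.ext fun a b => (h a b).trans (h' a b).symm)
      (hK.powerset.biUnion dF fun M hM =>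
        finite_pi (hK.subset sdiff_le) fun _ _ => hK.subset hM)).2
    obtain ⟨x0, -⟩ := nonempty_of_card_pos ((Nn.two_pow_pos _).trans_le hn)
    have : Nonempty A := ⟨x0⟩
    obtain ⟨r, dr, hr⟩ := (hK.image P.blk (by fun_prop)).choice (r := fun β x => x ∈ β)
      (by fun_prop) (by rintro _ ⟨a, -, rfl⟩; exact ⟨a, P.refl a⟩)
    let f : DFun A A := ⟨fun x => if x ∈ K then r (P.blk x) else x, by fun_prop⟩
    have k0 : ∀ x ∈ K, f x = r (P.blk x) := fun x hx => if_pos hx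
    have k1 : ∀ x, P x (f x) := fun x => by
      by_cases hx : x ∈ K
      · exact k0 x hx ▸ hr _ ⟨x, hx, rfl⟩
      · rw [show f x = x from if_neg hx]; exact P.refl x
    have k2 : ∀ a b, P a b → f a = f b := fun a b h => by
      rcases hP.2.2 a b h with rfl | H
      · rfl
      · rw [k0 a H.1, k0 b H.2, blk_eq h]
    refine ⟨f, ⟨K.sep (fun x => f x = x) (by fun_prop), sep_le, fun x hx => ⟨?_, (k2 _ _ (k1 x)).symm⟩,
      fun x hx => ?_⟩, fun a b => ⟨k2 a b, fun h => P.trans (k1 a) (h ▸ P.symm (k1 b))⟩⟩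
    · exact (hP.2.2 _ _ (k1 x)).elim (fun e => e ▸ hx.1) (·.2)
    · by_cases h : x ∈ K
      · exact by_contra fun e => hx ⟨h, fun k => e k.2⟩
      · exact if_neg h
  have h2 := card_biUnion_le_mul dF hK.powerset (c := 4 ^ K.card) (b := K.card.fact) fun M hM => by
    rw [card_pi_const (hK.subset sdiff_le) (hK.subset hM), card_sdiff hM hK]
    exact pow_sub_le hn (card_le_card hM hK)
  rw [card_powerset hK, show (4 : Nn) = 2 * 2 by norm_num, Nn.mul_pow, mul_assoc] at h2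
  exact (Nn.mul_le_mul_left _ h1).trans
    ((Nn.le_of_mul_le_mul_left h2 (Nn.two_pow_pos _)).trans (factorial_le_nseq _))

theorem two_to_one (hf : FinG V) (hle : V ≤ U) (hD : Stab U D) {x : A}
    (hx : ∀ g ∈ V, g • x = x) {g : G} (hg : g ∈ U) (hgx : g • x ≠ x) :
    nn U D ≤ 2 * nn V (D \ {x}) := by
  have h1 : 2 * nn V (D \ {x}) = ((Inv V (D \ {x})).times (⊤ : DSet Prop)).card := by
    rw [card_times (hf.fin _) finite_top_prop, card_top_prop, mul_comm, nn]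
  have h2 : Stab V (D \ {x}) := (hD.mono hle).diff fun g hg a (ha : a = x) => by
    rw [ha]; exact hx g hg
  rw [h1]
  refine card_le_card_of_injOn (fun P => (P.res (D \ {x}), P x (g⁻¹ • x))) (by fun_prop)
    (fun P hP => ⟨res_mem (Inv_anti hle hP) h2, trivial⟩) (fun P hP Q hQ e => ?_)
    ((hf.fin _).times finite_top_prop)
  have key : ∀ P ∈ Inv U D, ∀ Q ∈ Inv U D, P.res (D \ {x}) = Q.res (D \ {x}) →
      (P x (g⁻¹ • x) → Q x (g⁻¹ • x)) → ∀ a b, P a b → Q a b := by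
    intro P hP Q hQ e1 e2
    have k1 : ∀ a b, a ∈ D → b ∈ D → a ≠ x → b ≠ x → P a b → Q a b := fun a b ha hb a1 b1 h =>
      res_le (e1 ▸ (res_iff' (X := D \ {x}) ⟨ha, a1⟩ ⟨hb, b1⟩).2 h : Q.res _ a b)
    have k2 : ∀ b, x ∈ D → b ∈ D → P x b → Q x b := by
      intro b ha hb h
      by_cases e : g • b = x
      · have : b = g⁻¹ • x := by rw [← e, inv_smul_smul]
        rw [this] at h ⊢
        exact e2 h
      · exact (Inv.iff hQ hg).1 (k1 _ _ (hD g hg _ ha) (hD g hg _ hb) hgx e (hP.2.1 g hg _ _ h))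
    intro a b hab
    rcases hP.2.2 a b hab with rfl | ⟨ha, hb⟩
    · exact Q.refl a
    by_cases a1 : a = x
    · subst a1; exact k2 b ha hb hab
    by_cases b1 : b = x
    · subst b1; exact Q.symm (k2 a hb ha (P.symm hab))
    exact k1 a b ha hb a1 b1 hab
  simp only [Prod.mk.injEq, eq_iff_iff] at e
  ext a b
  exact ⟨key P hP Q hQ e.1 e.2.1 a b, key Q hQ P hP e.1.symm e.2.2 a b⟩

theorem pointed (hf : FinG V) {τ σ : IEq A} (hτ : τ ∈ Inv V ⊤) (hX : Stab V X)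
    {d : A} (hd : d ∈ X) (hσ : ∀ v ∈ V, ∀ v' ∈ V, σ (v • d) (v' • d) → v • d = v' • d)
    {v0 : G} (hv0 : v0 ∈ V) (h1 : τ d (v0 • d)) (h2 : ¬ σ d (v0 • d))
    {Ps : DSet (IEq A)} (hP : Ps ≤ Inv V X) (hσP : ∀ P ∈ Ps, ∀ a b, P a b → σ a b)
    (hτP : ∀ P ∈ Ps, ∀ a b, P a b → τ a b) : 2 * Ps.card ≤ nn V X := by
  have h3 := (card_le_of_rel (S := Ps) (T := Inv V X \ Ps)
    (fun P R : IEq A => ∀ a b, P a b ↔ R a b ∧ σ a b) (by simp only [all_eq]; fun_prop)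
    (fun P hm => ?_) (fun P _ Q _ R _ h h' => IEq.ext fun a b => (h a b).trans (h' a b).symm)
    ((hf.fin X).subset sdiff_le)).2
  · rw [two_mul, nn, ← card_sdiff_add_card_of_le hP (hf.fin X)]
    exact add_le_add_left h3 _
  have k1 : ∀ a, (∃ y ∈ orb V d, P a y) → a ∈ X := by
    rintro a ⟨_, ⟨v, hv, rfl⟩, h⟩
    rcases (hP hm).2.2 _ _ h with rfl | h
    exacts [hX v hv d hd, h.1]
  have k2 : ∀ g ∈ V, ∀ a, (∃ y ∈ orb V d, P a y) → ∃ y ∈ orb V d, P (g • a) y := by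
    rintro g hg a ⟨_, ⟨v, hv, rfl⟩, h⟩
    exact ⟨_, ⟨g * v, V.mul_mem hg hv, mul_smul _ _ _⟩, (hP hm).2.1 g hg _ _ h⟩
  refine ⟨mrg P (fun a b => (∃ y ∈ orb V d, P a y) ∧ (∃ y ∈ orb V d, P b y) ∧ τ a b) (by fun_prop)
    (fun a b h => ⟨h.2.1, h.1, τ.symm h.2.2⟩)
    (fun a b c h h' => ⟨h.1, h'.2.1, τ.trans h.2.2 h'.2.2⟩)
    (fun a b c h ⟨⟨v, hv, k⟩, k', k''⟩ =>
      ⟨⟨v, hv, P.trans h k⟩, k', τ.trans (hτP P hm a b h) k''⟩), ⟨?_, fun h => h2 (hσP _ h _ _ ?_)⟩,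
    fun a b => ?_⟩
  · exact mrg_mem (hP hm) (fun a => ⟨_, hτ.1 a, fun _ h => h.2.2⟩)
      (fun g hg a b h => ⟨k2 g hg a h.1, k2 g hg b h.2.1, hτ.2.1 g hg a b h.2.2⟩)
      (fun a b h => Or.inr ⟨k1 a h.1, k1 b h.2.1⟩)
  · exact Or.inr ⟨⟨d, ⟨1, V.one_mem, one_smul _ _⟩, P.refl d⟩, ⟨_, ⟨v0, hv0, rfl⟩, P.refl _⟩, h1⟩
  · refine ⟨fun h => ⟨Or.inl h, hσP P hm a b h⟩, ?_⟩
    rintro ⟨h | ⟨⟨_, ⟨v, hv, rfl⟩, k⟩, ⟨_, ⟨v', hv', rfl⟩, k'⟩, -⟩, h'⟩
    · exact h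
    · have := hσ v hv v' hv'
        (σ.trans (σ.symm (hσP P hm _ _ k)) (σ.trans h' (hσP P hm _ _ k')))
      exact P.trans k (this ▸ P.symm k')

end Pool.Agent.P.MP_e517ea_lc.Z
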