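import Pool.Agent.P.MP_e517ea_lc.Z.Coded

/-!
Definable subsets (a Boolean algebra), definable functions, subtypes.
-/

set_option synthInstance.maxSize 16384

namespace Pool.Agent.P.MP_e517ea_lc.Z

variable [ZU]
variable {X Y W : Type} [Coded X] [Coded Y] [Coded W]

/-- Definable subsets. -/
structure DSet (X : Type) [Coded X] where
  Mem : X → Prop
  defn : DefF Mem

namespace DSet

instance : SetLike (DSet X) X where
  coe S := {x | S.Mem x}
  coe_injective := fun ⟨_, _⟩ ⟨_, _⟩ h => by congr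

@[ext] theorem ext {S T : DSet X} (h : ∀ x, x ∈ S ↔ x ∈ T) : S = T := SetLike.ext h

@[simp] theorem mem_mk {p : X → Prop} {h : DefF p} {x : X} : x ∈ (⟨p, h⟩ : DSet X) ↔ p x := Iff.rfl

theorem defF_mem (S : DSet X) : DefF (fun x => x ∈ S) := S.defn

theorem exists_code (S : DSet X) : ∃ b : UM, ∀ z, z ∈ b ↔ ∃ x, x ∈ S ∧ cd x = z := by
  obtain ⟨a, h⟩ := S.defF_mem.defP
  obtain ⟨b, hb⟩ := exists_sep (fun z => z ∈ a) (car X)
  refine ⟨b, fun z => ?_⟩
  rw [hb, mem_car]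
  exact ⟨fun ⟨⟨x, e⟩, hx⟩ => ⟨x, (h x).2 (e ▸ hx), e⟩, fun ⟨x, hx, e⟩ => ⟨⟨x, e⟩, e ▸ (h x).1 hx⟩⟩

noncomputable instance : Coded (DSet X) where
  code S := S.exists_code.choose
  inj := fun S S' h => by
    ext x
    have h1 := S.exists_code.choose_spec (cd x)
    have h2 := S'.exists_code.choose_spec (cd x)
    dsimp only at h
    rw [h, h2] at h1
    simpa using h1.symm
  mem := ⟨pows (car X), fun z => by
    rw [mem_pows]
    constructor
    · intro h
      refine ⟨⟨fun x => cd x ∈ z, MP_e517ea_lc.Z.defF_mem z⟩, UM.ext fun w => ?_⟩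
      rw [(exists_code _).choose_spec]
      exact ⟨fun ⟨x, hx, e⟩ => e ▸ hx, fun hw => by
        obtain ⟨x, rfl⟩ := mem_car.1 (h w hw)
        exact ⟨x, hw, rfl⟩⟩
    · rintro ⟨S, rfl⟩ w hw
      obtain ⟨x, -, rfl⟩ := (S.exists_code.choose_spec w).1 hw
      exact cd_mem_car x⟩

theorem mem_cd {S : DSet X} {z : UM} : z ∈ cd S ↔ ∃ x, x ∈ S ∧ cd x = z :=
  S.exists_code.choose_spec z

theorem cd_mem_cd {S : DSet X} {x : X} : cd x ∈ cd S ↔ x ∈ S := by
  simp [mem_cd]

theorem exists_cd_eq {z : UM} (h : ∀ w, w ∈ z → w ∈ car X) : ∃ S : DSet X, cd S = z :=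
  ⟨⟨fun x => cd x ∈ z, MP_e517ea_lc.Z.defF_mem z⟩, UM.ext fun w => by
    rw [mem_cd]
    exact ⟨fun ⟨x, hx, e⟩ => e ▸ hx, fun hw => by
      obtain ⟨x, rfl⟩ := mem_car.1 (h w hw)
      exact ⟨x, hw, rfl⟩⟩⟩

end DSet

@[fun_prop] theorem DefF.mem {S : W → DSet X} {f : W → X} (hS : DefF S) (hf : DefF f) :
    DefF (fun w => f w ∈ S w) :=
  (defF_cd_mem hf hS).congr_iff fun _ => DSet.cd_mem_cd

theorem DefF.of_mem {S : W → DSet X} (h : DefF (fun z : W × X => z.2 ∈ S z.1)) : DefF S :=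
  DefF.of_rel (fun w A => ∀ x, x ∈ S w ↔ x ∈ A)
    (by
      simp only [all_eq]
      refine DefF.all (DefF.iff ?_ (by fun_prop))
      exact h.comp (f := fun z : (W × DSet X) × X => (z.1.1, z.2)) (by fun_prop))
    fun w A => SetLike.ext_iff

@[fun_prop] theorem DefF.dsetMk {p : W → X → Prop} (h0 : ∀ w, DefF (p w))
    (h : DefF (fun z : W × X => p z.1 z.2)) : DefF (fun w => (⟨p w, h0 w⟩ : DSet X)) :=
  DefF.of_mem h

namespace DSet

instance : PartialOrder (DSet X) := .ofSetLike (DSet X) X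

instance : Max (DSet X) := ⟨fun S T => ⟨fun x => x ∈ S ∨ x ∈ T, by fun_prop⟩⟩
instance : Min (DSet X) := ⟨fun S T => ⟨fun x => x ∈ S ∧ x ∈ T, by fun_prop⟩⟩
instance : Top (DSet X) := ⟨⟨fun _ => True, by fun_prop⟩⟩
instance : Bot (DSet X) := ⟨⟨fun _ => False, by fun_prop⟩⟩
instance : Compl (DSet X) := ⟨fun S => ⟨fun x => ¬ x ∈ S, by fun_prop⟩⟩
instance : SDiff (DSet X) := ⟨fun S T => ⟨fun x => x ∈ S ∧ ¬ x ∈ T, by fun_prop⟩⟩
instance : HImp (DSet X) := ⟨fun S T => ⟨fun x => Imp (x ∈ S) (x ∈ T), by fun_prop⟩⟩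
instance : Insert X (DSet X) := ⟨fun a S => ⟨fun x => x = a ∨ x ∈ S, by fun_prop⟩⟩
instance : Singleton X (DSet X) := ⟨fun a => ⟨fun x => x = a, by fun_prop⟩⟩
instance : Inhabited (DSet X) := ⟨⊥⟩

instance : BooleanAlgebra (DSet X) :=
  SetLike.coe_injective.booleanAlgebra _ Iff.rfl Iff.rfl (fun _ _ => rfl) (fun _ _ => rfl) rfl rfl
    (fun _ => rfl) (fun _ _ => rfl) (fun _ _ => rfl)

variable {S T R : DSet X} {a b x : X}

@[simp] theorem mem_sup : x ∈ S ⊔ T ↔ x ∈ S ∨ x ∈ T := Iff.rfl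
@[simp] theorem mem_inf : x ∈ S ⊓ T ↔ x ∈ S ∧ x ∈ T := Iff.rfl
@[simp] theorem mem_top (x : X) : x ∈ (⊤ : DSet X) := trivial
@[simp] theorem notMem_bot (x : X) : x ∉ (⊥ : DSet X) := fun h => h
@[simp] theorem mem_compl : x ∈ Sᶜ ↔ x ∉ S := Iff.rfl
@[simp] theorem mem_sdiff : x ∈ S \ T ↔ x ∈ S ∧ x ∉ T := Iff.rfl
@[simp] theorem mem_insert_iff : x ∈ insert a S ↔ x = a ∨ x ∈ S := Iff.rfl
@[simp] theorem mem_singleton : x ∈ ({a} : DSet X) ↔ x = a := Iff.rfl

theorem le_def : S ≤ T ↔ ∀ ⦃x⦄, x ∈ S → x ∈ T := Iff.rfl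
theorem mem_insert (a : X) (S : DSet X) : a ∈ insert a S := Or.inl rfl
theorem le_insert (a : X) (S : DSet X) : S ≤ insert a S := fun _ h => Or.inr h
theorem insert_le_iff : insert a S ≤ T ↔ a ∈ T ∧ S ≤ T :=
  ⟨fun h => ⟨h (Or.inl rfl), fun _ hx => h (Or.inr hx)⟩,
    fun h _ hx => hx.elim (fun e => e ▸ h.1) fun hx => h.2 hx⟩
@[simp] theorem singleton_le_iff : {a} ≤ S ↔ a ∈ S := ⟨fun h => h rfl, fun h _ e => e ▸ h⟩
theorem insert_eq (a : X) (S : DSet X) : insert a S = {a} ⊔ S := rfl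
theorem sup_singleton (a : X) (S : DSet X) : S ⊔ {a} = insert a S := by
  ext; simp [or_comm]
theorem insert_eq_of_mem (h : a ∈ S) : insert a S = S :=
  ext fun _ => ⟨fun hx => hx.elim (fun e => e ▸ h) id, Or.inr⟩
theorem insert_sdiff_singleton (h : a ∈ S) : insert a (S \ {a}) = S := by
  ext x; by_cases hx : x = a <;> simp [hx, h]
theorem insert_bot (a : X) : insert a (⊥ : DSet X) = {a} := by ext; simp
theorem disjoint_left : Disjoint S T ↔ ∀ ⦃a⦄, a ∈ S → a ∉ T := by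
  rw [disjoint_iff_inf_le]
  exact ⟨fun h _ h1 h2 => h ⟨h1, h2⟩, fun h _ h1 => h h1.1 h1.2⟩
theorem disjoint_right : Disjoint S T ↔ ∀ ⦃a⦄, a ∈ T → a ∉ S := by
  rw [disjoint_comm, disjoint_left]
theorem disjoint_singleton : Disjoint ({a} : DSet X) {b} ↔ a ≠ b := by
  simp [disjoint_left]
theorem eq_bot_iff_forall : S = ⊥ ↔ ∀ x, x ∉ S := by
  simp [SetLike.ext_iff]
theorem eq_top_iff_forall : S = ⊤ ↔ ∀ x, x ∈ S := by
  simp [SetLike.ext_iff]
theorem exists_of_lt (h : S < T) : ∃ x ∈ T, x ∉ S := SetLike.exists_of_lt h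
theorem lt_iff_exists (h : S ≤ T) : S < T ↔ ∃ x ∈ T, x ∉ S :=
  SetLike.lt_iff_le_and_exists.trans (and_iff_right h)

/-- Nonempty definable sets. -/
def Nonempty (S : DSet X) : Prop := ∃ x, x ∈ S

theorem nonempty_iff_ne_bot : S.Nonempty ↔ S ≠ ⊥ := by
  simp [Nonempty, eq_bot_iff_forall]
theorem eq_bot_or_nonempty (S : DSet X) : S = ⊥ ∨ S.Nonempty := by
  rw [nonempty_iff_ne_bot]; exact em _
theorem Nonempty.mono (h : S.Nonempty) (h' : S ≤ T) : T.Nonempty := h.imp fun _ hx => h' hx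
theorem singleton_nonempty (a : X) : ({a} : DSet X).Nonempty := ⟨a, rfl⟩

/-- Separation. -/
def sep (S : DSet X) (p : X → Prop) (hp : DefF p) : DSet X := ⟨fun x => x ∈ S ∧ p x, by fun_prop⟩

@[simp] theorem mem_sep {p : X → Prop} {hp : DefF p} : x ∈ S.sep p hp ↔ x ∈ S ∧ p x := Iff.rfl

theorem sep_le {p : X → Prop} {hp : DefF p} : S.sep p hp ≤ S := fun _ h => h.1

/-- Image under a definable function. -/
def image (f : X → Y) (hf : DefF f) (S : DSet X) : DSet Y :=
  ⟨fun y => ∃ x, x ∈ S ∧ f x = y, by fun_prop⟩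

@[simp] theorem mem_image {f : X → Y} {hf : DefF f} {y : Y} :
    y ∈ S.image f hf ↔ ∃ x ∈ S, f x = y := Iff.rfl

theorem mem_image_of_mem {f : X → Y} {hf : DefF f} (h : x ∈ S) : f x ∈ S.image f hf := ⟨x, h, rfl⟩

/-- Preimage under a definable function. -/
def preimage (f : X → Y) (hf : DefF f) (T : DSet Y) : DSet X := ⟨fun x => f x ∈ T, by fun_prop⟩

@[simp] theorem mem_preimage {f : X → Y} {hf : DefF f} {T : DSet Y} :
    x ∈ T.preimage f hf ↔ f x ∈ T := Iff.rfl

/-- Union of a definable family. -/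
def biUnion (S : DSet X) (f : X → DSet Y) (hf : DefF f) : DSet Y :=
  ⟨fun y => ∃ x, x ∈ S ∧ y ∈ f x, by fun_prop⟩

@[simp] theorem mem_biUnion {f : X → DSet Y} {hf : DefF f} {y : Y} :
    y ∈ S.biUnion f hf ↔ ∃ x ∈ S, y ∈ f x := Iff.rfl

theorem biUnion_le {f : X → DSet Y} {hf : DefF f} {T : DSet Y} (h : ∀ x ∈ S, f x ≤ T) :
    S.biUnion f hf ≤ T := fun _ ⟨x, hx, hy⟩ => h x hx hy

theorem le_biUnion {f : X → DSet Y} {hf : DefF f} (h : x ∈ S) : f x ≤ S.biUnion f hf :=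
  fun _ hy => ⟨x, h, hy⟩

theorem biUnion_bot {f : X → DSet Y} {hf : DefF f} : (⊥ : DSet X).biUnion f hf = ⊥ := by
  ext; simp

theorem biUnion_insert {f : X → DSet Y} {hf : DefF f} :
    (insert a S).biUnion f hf = f a ⊔ S.biUnion f hf := by
  ext; simp [or_and_right, exists_or]

theorem biUnion_singleton {f : X → DSet Y} {hf : DefF f} :
    ({a} : DSet X).biUnion f hf = f a := by
  ext; simp

theorem disjoint_biUnion_left {f : X → DSet Y} {hf : DefF f} {T : DSet Y} :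
    Disjoint (S.biUnion f hf) T ↔ ∀ x ∈ S, Disjoint (f x) T := by
  simp only [disjoint_left, mem_biUnion]
  exact ⟨fun h x hx _ hy => h ⟨x, hx, hy⟩, fun h _ ⟨x, hx, hy⟩ => h x hx hy⟩

theorem disjoint_biUnion_right {f : X → DSet Y} {hf : DefF f} {T : DSet Y} :
    Disjoint T (S.biUnion f hf) ↔ ∀ x ∈ S, Disjoint T (f x) := by
  simp only [disjoint_comm (a := T), disjoint_biUnion_left]

/-- Cartesian product. -/
def times (S : DSet X) (T : DSet Y) : DSet (X × Y) := ⟨fun z => z.1 ∈ S ∧ z.2 ∈ T, by fun_prop⟩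

@[simp] theorem mem_times {T : DSet Y} {z : X × Y} : z ∈ S.times T ↔ z.1 ∈ S ∧ z.2 ∈ T := Iff.rfl

open Classical in
/-- The definable set given by `p` if `p` is definable, else the empty set. -/
noncomputable def ofP (p : X → Prop) : DSet X := if h : DefF p then ⟨p, h⟩ else ⊥

theorem mem_ofP {p : X → Prop} (hp : DefF p) : x ∈ ofP p ↔ p x := by
  rw [ofP, dif_pos hp]; rfl

end DSet

section
variable {S T : W → DSet X} {a : W → X}

@[fun_prop] theorem DefF.dsetSup (hS : DefF S) (hT : DefF T) : DefF (fun w => S w ⊔ T w) :=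
  DefF.of_mem (by simp only [DSet.mem_sup]; fun_prop)

@[fun_prop] theorem DefF.dsetInf (hS : DefF S) (hT : DefF T) : DefF (fun w => S w ⊓ T w) :=
  DefF.of_mem (by simp only [DSet.mem_inf]; fun_prop)

@[fun_prop] theorem DefF.dsetCompl (hS : DefF S) : DefF (fun w => (S w)ᶜ) :=
  DefF.of_mem (by simp only [DSet.mem_compl]; fun_prop)

@[fun_prop] theorem DefF.dsetSDiff (hS : DefF S) (hT : DefF T) : DefF (fun w => S w \ T w) :=
  DefF.of_mem (by simp only [DSet.mem_sdiff]; fun_prop)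

@[fun_prop] theorem DefF.dsetInsert (ha : DefF a) (hS : DefF S) :
    DefF (fun w => insert (a w) (S w)) :=
  DefF.of_mem (by simp only [DSet.mem_insert_iff]; fun_prop)

@[fun_prop] theorem DefF.dsetSingleton (ha : DefF a) : DefF (fun w => ({a w} : DSet X)) :=
  DefF.of_mem (by simp only [DSet.mem_singleton]; fun_prop)

@[fun_prop] theorem DefF.dsetLe (hS : DefF S) (hT : DefF T) : DefF (fun w => S w ≤ T w) := by
  simp only [DSet.le_def, all_eq, imp_eq]; fun_prop

@[fun_prop] theorem DefF.dsetLt (hS : DefF S) (hT : DefF T) : DefF (fun w => S w < T w) := by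
  simp only [lt_iff_le_not_ge]; fun_prop

@[fun_prop] theorem DefF.dsetDisjoint (hS : DefF S) (hT : DefF T) :
    DefF (fun w => Disjoint (S w) (T w)) := by
  simp only [disjoint_iff]; fun_prop

@[fun_prop] theorem DefF.dsetNonempty (hS : DefF S) : DefF (fun w => (S w).Nonempty) := by
  unfold DSet.Nonempty; fun_prop

@[fun_prop] theorem DefF.dsetSep {p : W → X → Prop} (h0 : ∀ w, DefF (p w)) (hS : DefF S)
    (hp : DefF (fun z : W × X => p z.1 z.2)) : DefF (fun w => (S w).sep (p w) (h0 w)) :=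
  DefF.of_mem (by simp only [DSet.mem_sep]; fun_prop)

@[fun_prop] theorem DefF.dsetImage {f : W → X → Y} (h0 : ∀ w, DefF (f w)) (hS : DefF S)
    (hf : DefF (fun z : W × X => f z.1 z.2)) : DefF (fun w => (S w).image (f w) (h0 w)) :=
  DefF.of_mem (by simp only [DSet.mem_image]; fun_prop)

@[fun_prop] theorem DefF.dsetPreimage {f : W → Y → X} (h0 : ∀ w, DefF (f w)) (hS : DefF S)
    (hf : DefF (fun z : W × Y => f z.1 z.2)) : DefF (fun w => (S w).preimage (f w) (h0 w)) :=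
  DefF.of_mem (by simp only [DSet.mem_preimage]; fun_prop)

@[fun_prop] theorem DefF.dsetBiUnion {f : W → X → DSet Y} (h0 : ∀ w, DefF (f w)) (hS : DefF S)
    (hf : DefF (fun z : W × X => f z.1 z.2)) : DefF (fun w => (S w).biUnion (f w) (h0 w)) :=
  DefF.of_mem (by simp only [DSet.mem_biUnion]; fun_prop)

@[fun_prop] theorem DefF.dsetTimes {T : W → DSet Y} (hS : DefF S) (hT : DefF T) :
    DefF (fun w => (S w).times (T w)) :=
  DefF.of_mem (by simp only [DSet.mem_times]; fun_prop)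

@[fun_prop] theorem DefF.dsetOfP {p : W → X → Prop} (hp : DefF (fun z : W × X => p z.1 z.2)) :
    DefF (fun w => DSet.ofP (p w)) :=
  DefF.of_mem (hp.congr_iff fun z => (DSet.mem_ofP (by fun_prop)).symm)

end

/-- The subsets of a definable set. -/
def DSet.powerset (S : DSet X) : DSet (DSet X) := ⟨fun T => T ≤ S, by fun_prop⟩

@[simp] theorem DSet.mem_powerset {S T : DSet X} : T ∈ S.powerset ↔ T ≤ S := Iff.rfl

@[fun_prop] theorem DefF.dsetPowerset {S : W → DSet X} (hS : DefF S) :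
    DefF (fun w => (S w).powerset) :=
  DefF.of_mem (by simp only [DSet.mem_powerset]; fun_prop)

/-- Definable functions. -/
@[ext] structure DFun (X Y : Type) [Coded X] [Coded Y] where
  app : X → Y
  defn : DefF app

instance : CoeFun (DFun X Y) (fun _ => X → Y) := ⟨DFun.app⟩

/-- The graph of a definable function. -/
def DFun.graph (f : DFun X Y) : DSet (X × Y) :=
  ⟨fun z => f.app z.1 = z.2, by have := f.defn; fun_prop⟩

theorem DFun.graph_inj : Function.Injective (DFun.graph : DFun X Y → _) := fun f g h => by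
  ext x
  have := congrArg (fun S : DSet (X × Y) => (x, g.app x) ∈ S) h
  simpa [DFun.graph] using this

noncomputable instance : Coded (DFun X Y) :=
  Coded.ofInj DFun.graph DFun.graph_inj <| by
    have h : DefF (fun S : DSet (X × Y) =>
        ∀ x, ∃ y, (x, y) ∈ S ∧ ∀ y', (x, y') ∈ S → y = y') := by
      simp only [all_eq, imp_eq]
      fun_prop
    refine h.congr_iff fun S => ⟨fun h => ?_, ?_⟩
    · choose f hf using h
      have h2 : ∀ x y, f x = y ↔ (x, y) ∈ S := fun x y =>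
        ⟨fun h => h ▸ (hf x).1, (hf x).2 y⟩
      refine ⟨⟨f, DefF.of_rel _ (by fun_prop) h2⟩, ?_⟩
      ext z
      exact h2 z.1 z.2
    · rintro ⟨f, rfl⟩ x
      exact ⟨f.app x, rfl, fun _ h => h⟩

@[fun_prop] theorem DefF.graph : DefF (DFun.graph : DFun X Y → _) := defF_of_cd_eq fun _ => rfl

@[fun_prop] theorem DefF.app {F : W → DFun X Y} {f : W → X} (hF : DefF F) (hf : DefF f) :
    DefF (fun w => (F w).app (f w)) :=
  DefF.of_rel (fun w y => (f w, y) ∈ (F w).graph)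
    (DefF.mem (DefF.graph.comp (hF.comp DefF.fst)) (by fun_prop)) fun _ _ => Iff.rfl

theorem DefF.of_app {F : W → DFun X Y} (h : DefF (fun z : W × X => (F z.1).app z.2)) :
    DefF F :=
  DefF.of_inj DFun.graph_inj DefF.graph (DefF.of_mem (by
    change DefF (fun z : W × X × Y => (F z.1).app z.2.1 = z.2.2)
    exact DefF.eq (h.comp (f := fun z : W × X × Y => (z.1, z.2.1)) (by fun_prop)) (by fun_prop)))

@[fun_prop] theorem DefF.dfunMk {F : W → X → Y} (h0 : ∀ w, DefF (F w))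
    (h : DefF (fun z : W × X => F z.1 z.2)) : DefF (fun w => (⟨F w, h0 w⟩ : DFun X Y)) :=
  DefF.of_app h

/-- The elements of a definable set form a coded type. -/
noncomputable instance (S : DSet X) : Coded S :=
  Coded.ofInj Subtype.val Subtype.val_injective
    (S.defF_mem.congr_iff fun x => ⟨fun h => ⟨⟨x, h⟩, rfl⟩, fun ⟨y, h⟩ => h ▸ y.2⟩)

@[fun_prop] theorem DefF.subtypeVal {S : DSet X} : DefF (Subtype.val : S → X) :=
  defF_of_cd_eq fun _ => rfl

@[fun_prop] theorem DefF.subtypeMk {S : DSet X} {f : W → X} (h0 : ∀ w, f w ∈ S) (hf : DefF f) :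
    DefF (fun w => (⟨f w, h0 w⟩ : S)) :=
  DefF.of_inj Subtype.val_injective DefF.subtypeVal hf

@[fun_prop] theorem DefF.injOn {f : W → X → Y} {S : W → DSet X}
    (hf : DefF (fun z : W × X => f z.1 z.2)) (hS : DefF S) :
    DefF (fun w => Set.InjOn (f w) (S w)) := by
  simp only [Set.InjOn, SetLike.mem_coe, all_eq, imp_eq]
  fun_prop

/-- An externally finite set is definable. -/
theorem defF_finite {S : Set X} (h : S.Finite) : DefF (fun x => x ∈ S) := by
  induction S, h using Set.Finite.induction_on with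
  | empty => exact DefF.const False
  | @insert a s _ _ ih =>
    exact (DefF.or (DefF.eq DefF.id (DefF.const a)) ih).congr_iff fun _ => Set.mem_insert_iff.symm

end Pool.Agent.P.MP_e517ea_lc.Z
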