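import Mathlib.Logic.ExistsUnique

/-!
Arbitrary first-order models `(M, E)` of ZF (not assumed well-founded or transitive), and the
notions of the problem as interpreted in such a model. `E x y` stands for `x ∈ y`.
-/

universe u

namespace Pool.Agent.P.MP_e517ea_lc.Z

/-- Formulas of the first-order language of set theory (membership and equality), with
de Bruijn variables: `all φ` binds variable `0` of `φ`. -/
inductive Fml : Type
  | mem (i j : Nat) : Fml
  | eq (i j : Nat) : Fml
  | neg (φ : Fml) : Fml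
  | and (φ ψ : Fml) : Fml
  | all (φ : Fml) : Fml

variable {M : Type u}

/-- The assignment that gives variable `0` the value `x` and variable `n + 1` the value `e n`. -/
def cons (x : M) (e : Nat → M) : Nat → M
  | 0 => x
  | n + 1 => e n

/-- Tarski satisfaction in the structure `(M, E)`. -/
def Sat (E : M → M → Prop) : Fml → (Nat → M) → Prop
  | .mem i j, e => E (e i) (e j)
  | .eq i j, e => e i = e j
  | .neg φ, e => ¬ Sat E φ e
  | .and φ ψ, e => Sat E φ e ∧ Sat E ψ e
  | .all φ, e => ∀ x, Sat E φ (cons x e)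

/-- `I` is inductive: it contains `∅` and, with each `x`, also `x ∪ {x}`. -/
def IsInductive (E : M → M → Prop) (I : M) : Prop :=
  (∃ z, E z I ∧ ∀ w, ¬ E w z) ∧ ∀ x, E x I → ∃ y, E y I ∧ ∀ w, E w y ↔ E w x ∨ w = x

/-- `(M, E)` is a model of ZF (no choice): the axioms, with the two schemes for all formulas
and all parameters. -/
structure IsZF (E : M → M → Prop) : Prop where
  extensionality : ∀ x y, (∀ z, E z x ↔ E z y) → x = y
  foundation : ∀ x, (∃ y, E y x) → ∃ y, E y x ∧ ∀ z, E z y → ¬ E z x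
  pairing : ∀ x y, ∃ p, ∀ z, E z p ↔ z = x ∨ z = y
  union : ∀ x, ∃ u, ∀ z, E z u ↔ ∃ y, E y x ∧ E z y
  powerSet : ∀ x, ∃ p, ∀ z, E z p ↔ ∀ w, E w z → E w x
  infinity : ∃ I, IsInductive E I
  separation : ∀ (φ : Fml) (e : Nat → M) (a : M), ∃ b, ∀ x, E x b ↔ E x a ∧ Sat E φ (cons x e)
  replacement : ∀ (φ : Fml) (e : Nat → M) (a : M),
    (∀ x, E x a → ∃! y, Sat E φ (cons y (cons x e))) →
    ∃ b, ∀ x, E x a → ∃ y, E y b ∧ Sat E φ (cons y (cons x e))

/-- `n ∈ ω`: `n` lies in every inductive set. -/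
def IsNat (E : M → M → Prop) (n : M) : Prop := ∀ I, IsInductive E I → E n I

/-- `p` is the ordered pair `(a, b) = {{a}, {a, b}}`. -/
def IsOPair (E : M → M → Prop) (p a b : M) : Prop :=
  ∀ z, E z p ↔ (∀ w, E w z ↔ w = a) ∨ (∀ w, E w z ↔ w = a ∨ w = b)

/-- `(a, b) ∈ f`. -/
def Maps (E : M → M → Prop) (f a b : M) : Prop := ∃ p, E p f ∧ IsOPair E p a b

/-- `f` is a function from `x` to `y`. -/
def IsFunc (E : M → M → Prop) (f x y : M) : Prop :=
  (∀ p, E p f → ∃ a b, E a x ∧ E b y ∧ IsOPair E p a b) ∧ ∀ a, E a x → ∃! b, Maps E f a b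

/-- `|x| = |y|`: there is a bijection from `x` onto `y`. -/
def EqCard (E : M → M → Prop) (x y : M) : Prop :=
  ∃ f, IsFunc E f x y ∧ ∀ b, E b y → ∃! a, Maps E f a b

/-- `x` is finite: in bijection with some `n ∈ ω`. -/
def IsFinite (E : M → M → Prop) (x : M) : Prop := ∃ n, IsNat E n ∧ EqCard E x n

/-- `P` is a finitary partition of `A`: a set of nonempty finite subsets of `A` such that every
element of `A` lies in exactly one of them. -/
def IsFinPartition (E : M → M → Prop) (A P : M) : Prop :=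
  (∀ b, E b P → (∃ a, E a b) ∧ (∀ a, E a b → E a A) ∧ IsFinite E b) ∧
    ∀ a, E a A → ∃! b, E b P ∧ E a b

/-- `s` is an injection from some `n ∈ ω` into `A`. -/
def IsInjSeq (E : M → M → Prop) (A s : M) : Prop :=
  ∃ n, IsNat E n ∧ IsFunc E s n A ∧ ∀ i j a, Maps E s i a → Maps E s j a → i = j

end Pool.Agent.P.MP_e517ea_lc.Z
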