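import Pool.Agent.P.MP_e517ea_lc.Z.IEq

/-!
Ehrenfeucht-Fraisse games, played inside the model, for the structure given by a bijection from the
injective finite sequences onto the finitary partitions.
-/

set_option synthInstance.maxSize 16384

noncomputable section

namespace Pool.Agent.P.MP_e517ea_lc.Z

open DSet IEq ISeq

variable [ZU]

section
variable {X Y Z : Type} [Coded X] [Coded Y] [Coded Z]

theorem DSet.insert_mono {S T : DSet X} (a : X) (h : S ≤ T) : insert a S ≤ insert a T :=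
  fun _ k => k.imp_right fun k => h k

theorem DSet.insert_comp {p : DSet (X × Y)} {q : DSet (Y × Z)} (a : X) (b : Y) (c : Z) :
    insert (a, c) (p.comp q) ≤ (insert (a, b) p).comp (insert (b, c) q) := by
  rintro _ (rfl | ⟨y, k, k'⟩)
  exacts [⟨b, Or.inl rfl, Or.inl rfl⟩, ⟨y, Or.inr k, Or.inr k'⟩]

theorem DSet.idm_le_comp {K : DSet X} {p q : DSet (X × X)} (h : K.idm ≤ p) (h' : K.idm ≤ q) :
    K.idm ≤ p.comp q := by
  rintro ⟨a, b⟩ ⟨k, rfl : a = b⟩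
  exact ⟨a, h ⟨k, rfl⟩, h' ⟨k, rfl⟩⟩

theorem DSet.idm_le_inv {K : DSet X} {p : DSet (X × X)} (h : K.idm ≤ p) : K.idm ≤ p.inv :=
  inv_idm K ▸ inv_mono h

variable {p : DSet (X × Y)} {s : ISeq X} {t t' : ISeq Y}

theorem ISeq.Rel.inv (h : Rel p s t) : Rel p.inv t s := ⟨h.1.symm, fun i y x k k' => h.2 i x y k' k⟩

theorem ISeq.Rel.unique (hp : ∀ a b c, (a, b) ∈ p → (a, c) ∈ p → b = c) (h : Rel p s t)
    (h' : Rel p s t') : t = t' :=
  ISeq.ext' (h.1.symm.trans h'.1) fun i y k => by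
    obtain ⟨x, k1, k2⟩ := h.bwd k
    obtain ⟨y', k3, k4⟩ := h'.fwd k1
    rwa [hp _ _ _ k2 k4]

theorem ISeq.Rel.nodup (hp : ∀ a b c, (b, a) ∈ p → (c, a) ∈ p → b = c) (h : Rel p s t)
    (hs : s.Nodup) : t.Nodup := fun i j y k k' => by
  obtain ⟨x, k1, k2⟩ := h.bwd k
  obtain ⟨x', k3, k4⟩ := h.bwd k'
  exact hs i j x k1 (hp _ _ _ k4 k2 ▸ k3)

theorem ISeq.rel_idm {K : DSet X} (h : s.rng ≤ K) : Rel K.idm s s :=
  ⟨rfl, fun _ _ _ k k' => ⟨h k.mem, k.unique k'⟩⟩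

theorem ISeq.exists_rng {K : DSet X} (hK : K.Finite) : ∃ s : ISeq X, s.rng = K :=
  hK.induction_on (p := fun K => ∃ s : ISeq X, s.rng = K) (by fun_prop)
    ⟨nil, eq_bot_iff_forall.2 fun _ ⟨_, k⟩ => k⟩ fun a _ _ _ ⟨s, e⟩ => ⟨s.snoc a, e ▸ rng_snoc a⟩

/-- The pairs of entries with the same index. -/
def ISeq.zip (s : ISeq X) (t : ISeq Y) : DSet (X × Y) := s.gr.inv.comp t.gr

theorem ISeq.mem_zip {x : X} {y : Y} : (x, y) ∈ s.zip t ↔ ∃ i, s.At i x ∧ t.At i y := Iff.rfl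

theorem ISeq.zip_snoc (h : s.len = t.len) (a : X) (b : Y) :
    (s.snoc a).zip (t.snoc b) = insert (a, b) (s.zip t) := by
  ext ⟨x, y⟩
  simp only [mem_zip, at_snoc, mem_insert_iff, Prod.mk.injEq]
  constructor
  · rintro ⟨i, k | k, k' | k'⟩
    · exact Or.inl ⟨k.2, k'.2⟩
    · exact absurd (k.1.trans h) k'.lt.ne
    · exact absurd (k'.1.trans h.symm) k.lt.ne
    · exact Or.inr ⟨i, k, k'⟩
  · rintro (k | ⟨i, k, k'⟩)
    exacts [⟨_, Or.inl ⟨rfl, k.1⟩, Or.inl ⟨h, k.2⟩⟩, ⟨i, Or.inr k, Or.inr k'⟩]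

theorem ISeq.zip_self (s : ISeq X) : s.zip s = s.rng.idm :=
  DSet.ext fun ⟨_, _⟩ => ⟨fun ⟨_, k, k'⟩ => ⟨At.mem k, At.unique k k'⟩,
    fun ⟨⟨i, k⟩, e⟩ => ⟨i, k, (show _ = _ from e) ▸ k⟩⟩

theorem ISeq.zip_le {u : ISeq Z} (h : s.len = u.len) : s.zip t ≤ (s.zip u).comp (t.zip u).inv := by
  rintro ⟨x, y⟩ ⟨i, k, k'⟩
  obtain ⟨z, hz⟩ := (lt_len_iff (s := u)).1 (h ▸ At.lt k)
  exact ⟨z, ⟨i, k, hz⟩, i, k', hz⟩

@[fun_prop] theorem DefF.seqZip {W : Type} [Coded W] {s : W → ISeq X} {t : W → ISeq Y}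
    (hs : DefF s) (ht : DefF t) : DefF (fun w => (s w).zip (t w)) := by
  unfold ISeq.zip; fun_prop

/-- Representatives for the fibres of a map into a finite set. -/
theorem exists_reps {S : DSet X} {T : DSet Y} (hT : T.Finite) (f : X → Y) (hf : DefF f)
    (h : ∀ x ∈ S, f x ∈ T) : ∃ R : DSet X, R.Finite ∧ R ≤ S ∧ ∀ x ∈ S, ∃ r ∈ R, f r = f x := by
  rcases S.eq_bot_or_nonempty with rfl | ⟨x0, -⟩
  · exact ⟨⊥, finite_bot, le_rfl, fun _ k => k.elim⟩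
  have : Nonempty X := ⟨x0⟩
  have h1 : (S.image f hf).Finite := hT.subset fun _ ⟨x, k, e⟩ => e ▸ h x k
  obtain ⟨g, dg, hg⟩ := h1.choice (r := fun y x => x ∈ S ∧ f x = y) (by fun_prop) fun _ k => k
  exact ⟨_, h1.image g dg, fun _ ⟨y, k, e⟩ => e ▸ (hg y k).1, fun x k =>
    ⟨_, mem_image_of_mem (mem_image_of_mem k), (hg _ (mem_image_of_mem k)).2⟩⟩

/-- A monotone definable sequence with finitely many values is eventually constant. -/
theorem stable_mono {f : Nn → DSet X} (hf : DefF f) {𝓢 : DSet (DSet X)} (hS : 𝓢.Finite)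
    (h : ∀ n, f n ∈ 𝓢) (hm : ∀ m n, m ≤ n → f m ≤ f n) : ∃ n, ∀ m, f m ≤ f n := by
  obtain ⟨n, hn⟩ := exists_stable_mono (f := fun n => 𝓢.sep (fun S => S ≤ f n) (by fun_prop))
    (by fun_prop) hS (fun _ => sep_le) fun m n k _ k' => ⟨k'.1, k'.2.trans (hm m n k)⟩
  exact ⟨n, fun m => (le_total m n).elim (hm m n) fun k => ((hn m k).le ⟨h m, le_rfl⟩).2⟩

/-- An antitone definable sequence with finitely many values is eventually constant. -/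
theorem stable_anti {f : Nn → DSet X} (hf : DefF f) {𝓢 : DSet (DSet X)} (hS : 𝓢.Finite)
    (h : ∀ n, f n ∈ 𝓢) (hm : ∀ m n, m ≤ n → f n ≤ f m) : ∃ n, ∀ m, f n ≤ f m :=
  (stable_mono (f := fun n => (f n)ᶜ) (by fun_prop) (hS.image (·ᶜ) (by fun_prop))
    (fun n => mem_image_of_mem (h n)) fun m n k => compl_le_compl (hm m n k)).imp
    fun _ k m => compl_le_compl_iff_le.1 (k m)

end

/-- The data: a bijection `E`, a base point; no definable injective sequence. -/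
class Sig (X : Type) [Coded X] where
  E : ISeq X → IEq X
  pt : X
  bij : Bij E
  nd : ∀ ι : Nn → X, DefF ι → ¬ Function.Injective ι

variable {X W : Type} [Coded X] [Coded W] [Sig X]

open Sig

@[fun_prop] theorem defF_E : DefF (E : ISeq X → IEq X) := bij.defn

/-- One half of being an isomorphism. -/
structure PI1 (p : DSet (X × X)) : Prop where
  fn : ∀ a b c, (a, b) ∈ p → (a, c) ∈ p → b = c
  pt : ∀ b, (pt, b) ∈ p → b = pt
  rel : ∀ s t, s.Nodup → Rel p s t → ∀ a a' b b', (a, a') ∈ p → (b, b') ∈ p → E s a b → E t a' b'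

/-- Finite isomorphisms. -/
def PI (p : DSet (X × X)) : Prop := p.Finite ∧ PI1 p ∧ PI1 p.inv

@[fun_prop] theorem DefF.pi1 {p : W → DSet (X × X)} (hp : DefF p) : DefF (fun w => PI1 (p w)) := by
  refine DefF.congr_iff ?_ fun w => ⟨fun h : _ ∧ _ ∧ _ => ⟨h.1, h.2.1, h.2.2⟩,
    fun h => ⟨h.1, h.2, h.3⟩⟩
  simp only [all_eq, imp_eq]
  fun_prop

@[fun_prop] theorem DefF.pi {p : W → DSet (X × X)} (hp : DefF p) : DefF (fun w => PI (p w)) := by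
  unfold PI; fun_prop

variable {p q : DSet (X × X)} {K L : DSet X} {m n : Nn} {s t : ISeq X}

theorem PI1.sub (h : PI1 p) (k : q ≤ p) : PI1 q :=
  ⟨fun a b c h1 h2 => h.fn a b c (k h1) (k h2), fun b h1 => h.pt b (k h1),
    fun s t hs r a a' b b' h1 h2 => h.rel s t hs (r.mono k) a a' b b' (k h1) (k h2)⟩

theorem PI.sub (h : PI p) (k : q ≤ p) : PI q :=
  ⟨h.1.subset k, h.2.1.sub k, h.2.2.sub (inv_mono k)⟩

theorem PI.inv (h : PI p) : PI p.inv := ⟨h.1.inv, h.2.2, h.2.1⟩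

theorem PI1.comp (h : PI1 p) (h' : PI1 p.inv) (k : PI1 q) : PI1 (p.comp q) := by
  refine ⟨fun a b c ⟨y, h1, h2⟩ ⟨y', h3, h4⟩ => k.fn y b c h2 (h.fn _ _ _ h3 h1 ▸ h4),
    fun b ⟨y, h1, h2⟩ => k.pt b (h.pt y h1 ▸ h2),
    fun s t hs r a a' b b' ⟨y, h1, h2⟩ ⟨y', h3, h4⟩ e => ?_⟩
  obtain ⟨u, hu⟩ := ISeq.exists_rel (s := s) p fun x ⟨i, hx⟩ => (r.fwd hx).elim fun _ k => k.2.imp
    fun _ k => k.1
  refine k.rel u t (hu.nodup h'.fn hs) ⟨hu.1.symm.trans r.1, fun i x z k1 k2 => ?_⟩ _ _ _ _ h2 h4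
    (h.rel s u hs hu _ _ _ _ h1 h3 e)
  obtain ⟨w, k3, k4⟩ := hu.bwd k1
  obtain ⟨v, k5, k6⟩ := r.2 i w z k3 k2
  exact h.fn _ _ _ k5 k4 ▸ k6

theorem PI.comp (h : PI p) (k : PI q) : PI (p.comp q) :=
  ⟨h.1.comp k.1, h.2.1.comp h.2.2 k.2.1,
    (k.2.2.comp k.2.1 h.2.2).sub fun _ ⟨y, h1, h2⟩ => ⟨y, h2, h1⟩⟩

theorem PI.idm (hK : K.Finite) : PI K.idm := by
  have h : PI1 K.idm := ⟨fun _ _ _ h h' => h.2.symm.trans h'.2, fun _ h => h.2.symm,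
    fun s t _ r a a' b b' h1 h2 e => by
      obtain rfl : s = t := ISeq.ext' r.1 fun i x k => (r.fwd k).elim fun y k =>
        (show x = y from k.2.2) ▸ k.1
      exact (show a = a' from h1.2) ▸ (show b = b' from h2.2) ▸ e⟩
  exact ⟨hK.idm, h, (inv_idm K).symm ▸ h⟩

/-- The positions from which the second player survives `n` more rounds. -/
def EFs (n : Nn) : DSet (DSet (X × X)) :=
  recN ⟨PI, by fun_prop⟩ (fun _ S => ⟨fun p => PI p ∧ (∀ a, ∃ b, insert (a, b) p ∈ S) ∧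
    ∀ b, ∃ a, insert (a, b) p ∈ S, by simp only [all_eq]; fun_prop⟩) n

/-- The second player survives `n` more rounds from `p`. -/
def EF (n : Nn) (p : DSet (X × X)) : Prop := p ∈ EFs n

@[fun_prop] theorem DefF.ef {n : W → Nn} {p : W → DSet (X × X)} (hn : DefF n) (hp : DefF p) :
    DefF (fun w => EF (n w) (p w)) := by
  refine DefF.mem (DefF.recN (by fun_prop) (DefF.of_mem ?_) hn) hp
  simp only [mem_mk, all_eq]
  fun_prop

theorem EF_zero : EF 0 p ↔ PI p := by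
  rw [EF, EFs, recN_zero _ (DefF.of_mem (by simp only [mem_mk, all_eq]; fun_prop))]
  rfl

theorem EF_succ : EF (n + 1) p ↔
    PI p ∧ (∀ a, ∃ b, EF n (insert (a, b) p)) ∧ ∀ b, ∃ a, EF n (insert (a, b) p) := by
  rw [EF, EFs, recN_succ _ (DefF.of_mem (by simp only [mem_mk, all_eq]; fun_prop))]
  rfl

theorem EF.pi (h : EF n p) : PI p := by
  rcases n.eq_zero_or_succ with rfl | ⟨n, rfl⟩
  exacts [EF_zero.1 h, (EF_succ.1 h).1]

theorem EF.fwd (h : EF (n + 1) p) (a : X) : ∃ b, EF n (insert (a, b) p) := (EF_succ.1 h).2.1 a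

theorem EF.bwd (h : EF (n + 1) p) (b : X) : ∃ a, EF n (insert (a, b) p) := (EF_succ.1 h).2.2 b

theorem EF.fn (h : EF n p) {a b c : X} (k : (a, b) ∈ p) (k' : (a, c) ∈ p) : b = c :=
  h.pi.2.1.fn _ _ _ k k'

theorem EF.fn' (h : EF n p) {a b c : X} (k : (b, a) ∈ p) (k' : (c, a) ∈ p) : b = c :=
  h.pi.2.2.fn _ _ _ k k'

theorem EF.rel (h : EF n p) (hs : s.Nodup) (r : Rel p s t) {a a' b b' : X} (k : (a, a') ∈ p)
    (k' : (b, b') ∈ p) : E s a b ↔ E t a' b' :=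
  ⟨h.pi.2.1.rel s t hs r _ _ _ _ k k',
    h.pi.2.2.rel t s (r.nodup h.pi.2.2.fn hs) r.inv _ _ _ _ k k'⟩

theorem EF.sub (h : EF n p) (k : q ≤ p) : EF n q :=
  Nn.induction (p := fun n => ∀ p q : DSet (X × X), EF n p → q ≤ p → EF n q)
    (by simp only [all_eq, imp_eq]; fun_prop) (fun _ _ h k => EF_zero.2 (h.pi.sub k))
    (fun _ ih _ _ h k => EF_succ.2 ⟨h.pi.sub k,
      fun a => (h.fwd a).imp fun _ h => ih _ _ h (insert_mono _ k),
      fun b => (h.bwd b).imp fun _ h => ih _ _ h (insert_mono _ k)⟩) n p q h k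

theorem EF.mono (h : EF n p) (k : m ≤ n) : EF m p :=
  Nn.le_induction (p := fun n => ∀ p : DSet (X × X), EF n p → EF m p)
    (by simp only [all_eq, imp_eq]; fun_prop) (fun _ h => h)
    (fun _ _ ih _ h => ih _ ((h.fwd pt).elim fun _ h => h.sub (le_insert _ _))) n k p h

theorem EF.inv (h : EF n p) : EF n p.inv :=
  Nn.induction (p := fun n => ∀ p : DSet (X × X), EF n p → EF n p.inv)
    (by simp only [all_eq, imp_eq]; fun_prop) (fun _ h => EF_zero.2 h.pi.inv)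
    (fun _ ih p h => EF_succ.2 ⟨h.pi.inv,
      fun a => (h.bwd a).imp fun b h => inv_insert p b a ▸ ih _ h,
      fun b => (h.fwd b).imp fun a h => inv_insert p b a ▸ ih _ h⟩) n p h

theorem EF.comp (h : EF n p) (k : EF n q) : EF n (p.comp q) :=
  Nn.induction (p := fun n => ∀ p q : DSet (X × X), EF n p → EF n q → EF n (p.comp q))
    (by simp only [all_eq, imp_eq]; fun_prop) (fun _ _ h k => EF_zero.2 (h.pi.comp k.pi))
    (fun _ ih _ _ h k => EF_succ.2 ⟨h.pi.comp k.pi,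
      fun a => (h.fwd a).elim fun b h => (k.fwd b).imp fun c k =>
        (ih _ _ h k).sub (insert_comp a b c),
      fun c => (k.bwd c).elim fun b k => (h.bwd b).imp fun a h =>
        (ih _ _ h k).sub (insert_comp a b c)⟩) n p q h k

theorem EF.idm (n : Nn) (hK : K.Finite) : EF n K.idm := by
  have e : ∀ (K : DSet X) a, insert (a, a) K.idm ≤ (insert a K).idm := by
    rintro K a _ (rfl | k)
    exacts [⟨Or.inl rfl, rfl⟩, ⟨Or.inr k.1, k.2⟩]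
  exact Nn.induction (p := fun n => ∀ K : DSet X, K.Finite → EF n K.idm)
    (by simp only [all_eq, imp_eq]; fun_prop) (fun _ h => EF_zero.2 (PI.idm h))
    (fun _ ih K h => EF_succ.2 ⟨PI.idm h, fun a => ⟨a, (ih _ (h.insert a)).sub (e K a)⟩,
      fun a => ⟨a, (ih _ (h.insert a)).sub (e K a)⟩⟩) n K hK

theorem EF.ext (hK : K.Finite) (h : EF (n + K.card) p) : ∃ q, EF n q ∧ p ≤ q ∧ K ≤ q.dom := by
  refine hK.induction_on
    (p := fun K => ∀ p, EF (n + K.card) p → ∃ q, EF n q ∧ p ≤ q ∧ K ≤ q.dom)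
    (by simp only [all_eq, imp_eq]; fun_prop) (fun p h => ⟨p, by simpa using h, le_rfl, bot_le⟩)
    (fun a K hK ha ih p h => ?_) p h
  rw [card_insert_of_notMem ha hK, ← add_assoc] at h
  obtain ⟨b, h⟩ := h.fwd a
  obtain ⟨q, k1, k2, k3⟩ := ih _ h
  exact ⟨q, k1, (le_insert _ _).trans k2, insert_le_iff.2 ⟨⟨b, k2 (Or.inl rfl)⟩, k3⟩⟩

theorem pi1_zip (hl : s.len = t.len) (h1 : ∀ i j x, s.At i x → s.At j x → ∃ y, t.At i y ∧ t.At j y)
    (h2 : ∀ i, s.At i pt → t.At i pt)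
    (h3 : ∀ (u : ISeq Nn) i j, u.Nodup → (∃ s' x y, Rel s.gr u s' ∧ s.At i x ∧ s.At j y ∧ E s' x y) →
      ∃ t' x y, Rel t.gr u t' ∧ t.At i x ∧ t.At j y ∧ E t' x y) : PI1 (s.zip t) := by
  have fn : ∀ a b c, (a, b) ∈ s.zip t → (a, c) ∈ s.zip t → b = c :=
    fun a b c ⟨i, k1, k2⟩ ⟨j, k3, k4⟩ => (h1 i j a k1 k3).elim fun y k =>
      (At.unique k2 k.1).trans (At.unique k.2 k4)
  refine ⟨fn, fun b ⟨i, k1, k2⟩ => At.unique k2 (h2 i k1),
    fun s' t' hs r a a' b b' ⟨i, k1, k2⟩ ⟨j, k3, k4⟩ e => ?_⟩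
  obtain ⟨u, hu⟩ := ISeq.exists_rel (s := s') s.gr.inv fun x ⟨i, hx⟩ => (r.fwd hx).elim fun _ k =>
    k.2.imp fun _ k => k.1
  obtain ⟨t'', x, y, m1, m2, m3, m4⟩ := h3 u i j (hu.nodup s.uniq hs) ⟨s', a, b, hu.inv, k1, k3, e⟩
  have m5 : Rel t.gr u t' := ⟨hu.1.symm.trans r.1, fun k l z k5 k6 => by
    obtain ⟨w, k7, k8⟩ := hu.bwd k5
    obtain ⟨z', hz⟩ := (lt_len_iff (s := t)).1 (hl ▸ At.lt k8)
    exact fn _ _ _ ⟨l, k8, hz⟩ (r.2 k w z k7 k6) ▸ hz⟩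
  obtain rfl : x = a' := At.unique m2 k2
  obtain rfl : y = b' := At.unique m3 k4
  exact m1.unique t.uniq m5 ▸ m4

/-- There are finitely many types of each level and length. -/
theorem finite_types (n m : Nn) : ∃ T : DSet (ISeq X), T.Finite ∧
    ∀ s : ISeq X, s.len = m → ∃ t ∈ T, t.len = m ∧ EF n (s.zip t) := by
  have h0 : ∀ m, ∃ T : DSet (ISeq X), T.Finite ∧
      ∀ s : ISeq X, s.len = m → ∃ t ∈ T, t.len = m ∧ EF 0 (s.zip t) := fun m => by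
    have hm := finite_range m
    obtain ⟨R, r1, r2, r3⟩ := exists_reps (S := ⟨fun s : ISeq X => s.len = m, by fun_prop⟩)
      ((hm.times hm).powerset.times (hm.powerset.times
        ((card_NL hm).1.times (hm.times hm)).powerset))
      (fun s => (⟨fun z => ∃ x, s.At z.1 x ∧ s.At z.2 x, by fun_prop⟩,
        ⟨fun i => s.At i pt, by fun_prop⟩, ⟨fun z => z.1.Nodup ∧
          ∃ s' x y, Rel s.gr z.1 s' ∧ s.At z.2.1 x ∧ s.At z.2.2 y ∧ E s' x y, by fun_prop⟩))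
      (by fun_prop) fun s (hs : s.len = m) => ⟨fun _ ⟨_, k, k'⟩ => ⟨hs ▸ k.lt, hs ▸ k'.lt⟩,
        fun _ k => hs ▸ At.lt k, fun _ ⟨k0, _, _, _, k, k', k'', _⟩ =>
          ⟨⟨k0, fun _ ⟨_, j⟩ => (k.fwd j).elim fun _ j => hs ▸ At.lt j.2⟩, hs ▸ k'.lt, hs ▸ k''.lt⟩⟩
    refine ⟨R, r1, fun s hs => (r3 s hs).imp fun t ⟨k, e⟩ => ⟨k, r2 k, ?_⟩⟩
    have hl : s.len = t.len := hs.trans (r2 k).symm
    simp only [Prod.mk.injEq, SetLike.ext_iff, mem_mk] at e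
    obtain ⟨e1, e2, e3⟩ := e
    exact EF_zero.2 ⟨(s.finite_rng.times t.finite_rng).subset fun _ ⟨i, k, k'⟩ => ⟨⟨i, k⟩, i, k'⟩,
      pi1_zip hl (fun i j x k k' => (e1 (i, j)).2 ⟨x, k, k'⟩) (fun i => (e2 i).2)
        fun u i j hu k => ((e3 (u, i, j)).2 ⟨hu, k⟩).2,
      (pi1_zip hl.symm (fun i j x k k' => (e1 (i, j)).1 ⟨x, k, k'⟩) (fun i => (e2 i).1)
        fun u i j hu k => ((e3 (u, i, j)).1 ⟨hu, k⟩).2).sub fun _ ⟨i, k, k'⟩ => ⟨i, k', k⟩⟩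
  refine Nn.induction (p := fun n => ∀ m, ∃ T : DSet (ISeq X), T.Finite ∧
    ∀ s : ISeq X, s.len = m → ∃ t ∈ T, t.len = m ∧ EF n (s.zip t))
    (by simp only [all_eq, imp_eq]; fun_prop) h0 (fun n ih m => ?_) n m
  obtain ⟨T0, a1, a2⟩ := h0 m
  obtain ⟨T1, b1, b2⟩ := ih (m + 1)
  obtain ⟨R, r1, r2, r3⟩ := exists_reps (S := ⟨fun s : ISeq X => s.len = m, by fun_prop⟩)
    (a1.powerset.times b1.powerset)
    (fun s => (T0.sep (fun t => t.len = m ∧ EF 0 (s.zip t)) (by fun_prop),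
      T1.sep (fun t => t.len = m + 1 ∧ ∃ a, EF n ((s.snoc a).zip t)) (by fun_prop)))
    (by fun_prop) fun _ _ => ⟨fun _ k => k.1, fun _ k => k.1⟩
  refine ⟨R, r1, fun s hs => (r3 s hs).imp fun t ⟨k, e⟩ => ⟨k, r2 k, ?_⟩⟩
  have ht : t.len = m := r2 k
  have hl : s.len = t.len := hs.trans ht.symm
  simp only [Prod.mk.injEq, SetLike.ext_iff, mem_sep] at e
  obtain ⟨e1, e2⟩ := e
  refine EF_succ.2 ⟨?_, fun a => ?_, fun b => ?_⟩
  · obtain ⟨u, k1, k2, k3⟩ := a2 s hs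
    exact ((k3.comp ((e1 u).2 ⟨k1, k2, k3⟩).2.2.inv).sub (zip_le (hs.trans k2.symm))).pi
  · obtain ⟨u, k1, k2, k3⟩ := b2 (s.snoc a) (by rw [len_snoc, hs])
    obtain ⟨b, k4⟩ := ((e2 u).2 ⟨k1, k2, a, k3⟩).2.2
    exact ⟨b, zip_snoc hl a b ▸ (k3.comp k4.inv).sub (zip_le (by rw [len_snoc, hs, k2]))⟩
  · obtain ⟨u, k1, k2, k3⟩ := b2 (t.snoc b) (by rw [len_snoc, ht])
    obtain ⟨a, k4⟩ := ((e2 u).1 ⟨k1, k2, b, k3⟩).2.2
    exact ⟨a, zip_snoc hl a b ▸ (k4.comp k3.inv).sub (zip_le (by rw [len_snoc, hs, k2]))⟩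

end Pool.Agent.P.MP_e517ea_lc.Z
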