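import Pool.Agent.P.MP_e517ea_lc.Z.Basic

/-!
Encoding invariant partitions after adding fixed points.
-/

set_option synthInstance.maxSize 16384

noncomputable section

namespace Pool.Agent.P.MP_e517ea_lc.Z

open DSet IEq

variable [ZU]
variable {G A : Type} [Group G] [MulAction G A] [Coded A] [GS G A] {V : OS G A} {S K : DSet A}

theorem exists_code (hS : S.Finite) (hK : K.Finite) (hSV : Stab V S)
    (hfix : ∀ g ∈ V, ∀ a ∈ K, g • a = a) {P : IEq A} {j : Nn}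
    (hj : (IB V P (S ⊔ K)).card ≤ j) (e : DFun (DSet A) Nn) (he : Set.InjOn e (IB V (P.res S) S))
    (he' : ∀ x ∈ IB V (P.res S) S, e x < (IB V (P.res S) S).card) (hP : P ∈ Inv V (S ⊔ K)) :
    ∃ f : A → Nn, DefF f ∧ (∀ a ∈ K, f a < j) ∧ (∀ a ∈ K, ∀ b ∈ K, P a b ↔ f a = f b) ∧
      ∀ a ∈ K, ∀ b ∈ S, P a b ↔ (P.res S).blk b ∈ IB V (P.res S) S ∧
        e ((P.res S).blk b) = f a := by
  classical
  set B := IB V P (S ⊔ K) with hB
  have hBf : B.Finite := IB.finite P (hS.sup hK)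
  set B2 := B.sep (fun β => ¬ (β ⊓ S).Nonempty) (by fun_prop) with hB2
  set u := (IB V (P.res S) S).card with hu
  obtain ⟨e2, h3, h2, -⟩ := (hBf.sep : B2.Finite).hasCard
  have hr : ∀ b ∈ S, (P.res S).blk b = P.blk b ⊓ S := fun b hb => DSet.ext fun c =>
    ⟨fun h => ⟨res_le h, by rcases h with rfl | h; exacts [hb, h.2.1]⟩,
      fun h => (res_iff' hb h.2).2 h.1⟩
  have hu1 : u + B2.card ≤ j := by
    have h4 : u ≤ (B.sep (fun β => (β ⊓ S).Nonempty) (by fun_prop)).card := by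
      refine le_trans (card_le_card ?_ (hBf.sep.image (· ⊓ S) (by fun_prop)))
        (card_image_le hBf.sep _ _)
      rintro _ ⟨a, ha, rfl, h⟩
      exact ⟨_, ⟨⟨a, Or.inl ha, rfl, fun g hg => res_le (h g hg)⟩, a, P.refl a, ha⟩, (hr a ha).symm⟩
    have h5 := card_sep_add_card_sep_not hBf (p := fun β => (β ⊓ S).Nonempty) (by fun_prop)
    exact (add_le_add_left h4 _).trans (h5.trans_le hj)
  have hm : ∀ a ∈ K, ∀ b ∈ S, P a b → P.blk a ⊓ S ∈ IB V (P.res S) S := by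
    intro a ha b hb hab
    refine ⟨b, hb, by rw [hr b hb, blk_eq hab], fun g hg => (res_iff' hb (hSV g hg b hb)).2 ?_⟩
    have := hP.2.1 g hg a b hab
    rw [hfix g hg a ha] at this
    exact P.trans (P.symm hab) this
  have hm2 : ∀ a ∈ K, ¬ (P.blk a ⊓ S).Nonempty → P.blk a ∈ B2 := fun a ha h =>
    ⟨⟨a, Or.inr ha, rfl, fun g hg => by rw [hfix g hg a ha]; exact P.refl a⟩, h⟩
  refine ⟨fun a => if (P.blk a ⊓ S).Nonempty then e (P.blk a ⊓ S) else u + e2 (P.blk a),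
    by fun_prop, fun a ha => ?_, fun a ha b hb => ⟨fun h => by simp only [blk_eq h], fun h => ?_⟩,
    fun a ha b hb => ⟨fun h => ?_, fun h => ?_⟩⟩
  · dsimp only
    split_ifs with h
    · obtain ⟨b, h4, h5⟩ := h
      exact (he' _ (hm a ha b h5 h4)).trans_le (le_self_add.trans hu1)
    · exact (add_lt_add_right (h3 _ (hm2 a ha h)) u).trans_le hu1
  · dsimp only at h
    split_ifs at h with k1 k2 k2
    · obtain ⟨c, k3, k4⟩ := k1
      obtain ⟨d, k5, k6⟩ := k2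
      have := he (hm a ha c k4 k3) (hm b hb d k6 k5) h
      have k7 : c ∈ P.blk b ⊓ S := this ▸ ⟨k3, k4⟩
      exact P.trans k3 (P.symm k7.1)
    · obtain ⟨c, k3, k4⟩ := k1
      exact absurd (he' _ (hm a ha c k4 k3)) (not_lt.2 (h ▸ le_self_add))
    · obtain ⟨c, k3, k4⟩ := k2
      exact absurd (he' _ (hm b hb c k4 k3)) (not_lt.2 (h ▸ le_self_add))
    · have := h2 _ (hm2 a ha k1) _ (hm2 b hb k2) (add_left_cancel h)
      have k7 : b ∈ P.blk a := this ▸ P.refl b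
      exact k7
  · have k1 : (P.blk a ⊓ S).Nonempty := ⟨b, h, hb⟩
    simp only [if_pos k1]
    rw [hr b hb, ← blk_eq h]
    exact ⟨hm a ha b hb h, rfl⟩
  · obtain ⟨k1, k2⟩ := h
    dsimp only at k2
    split_ifs at k2 with k3
    · obtain ⟨c, k4, k5⟩ := k3
      have := he k1 (hm a ha c k5 k4) k2
      have k7 : b ∈ P.blk a ⊓ S := this ▸ (P.res S).refl b
      exact k7.1
    · exact absurd (he' _ k1) (not_lt.2 (k2 ▸ le_self_add))

theorem enc (hf : FinG V) (hS : S.Finite) (hK : K.Finite) (hSV : Stab V S)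
    (hfix : ∀ g ∈ V, ∀ a ∈ K, g • a = a) (j : Nn) :
    ((Inv V (S ⊔ K)).sep (fun P => (IB V P (S ⊔ K)).card ≤ j) (by fun_prop)).card ≤
      nn V S * j ^ K.card := by
  classical
  let d : DFun A Nn := ⟨fun _ => 0, by fun_prop⟩
  have : Nonempty (DFun (DSet A) Nn) := ⟨⟨fun _ => 0, by fun_prop⟩⟩
  obtain ⟨e, de, he⟩ := (hf.fin S).choice (r := fun Q (e : DFun (DSet A) Nn) =>
    Set.InjOn e (IB V Q S) ∧ ∀ x ∈ IB V Q S, e x < (IB V Q S).card)
    (by simp only [all_eq, imp_eq]; fun_prop) fun Q _ => by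
      obtain ⟨e, h1, h2, -⟩ := (IB.finite (V := V) Q hS).hasCard
      exact ⟨e, fun x hx y hy => h2 x hx y hy, h1⟩
  have h4 : nn V S * j ^ K.card =
      ((Inv V S).times (K.pi (fun _ => range j) (by fun_prop) d)).card := by
    rw [card_times (hf.fin S) (finite_pi hK fun _ _ => finite_range j),
      card_pi_const hK (finite_range j), card_range, nn]
  rw [h4]
  refine (card_le_of_rel (fun (P : IEq A) (z : IEq A × DFun A Nn) => P.res S = z.1 ∧
    (∀ a ∈ K, ∀ b ∈ K, P a b ↔ z.2 a = z.2 b) ∧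
      ∀ a ∈ K, ∀ b ∈ S, P a b ↔ z.1.blk b ∈ IB V z.1 S ∧ e z.1 (z.1.blk b) = z.2 a)
    (by simp only [all_eq, imp_eq]; fun_prop) (fun P hP => ?_) (fun P hP Q hQ z _ h h' => ?_)
    ((hf.fin S).times (finite_pi hK fun _ _ => finite_range j))).2
  · have h0 := res_mem hP.1 hSV
    obtain ⟨f, df, h1, h2, h3⟩ := exists_code hS hK hSV hfix hP.2 (e _) (he _ h0).1 (he _ h0).2 hP.1
    refine ⟨(P.res S, ⟨fun a => if a ∈ K then f a else 0, by fun_prop⟩),
      ⟨h0, fun a ha => ?_, fun a ha => if_neg ha⟩, rfl, fun a ha b hb => ?_, fun a ha b hb => ?_⟩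
    · simpa [ha] using h1 a ha
    · simpa [ha, hb] using h2 a ha b hb
    · simpa [ha] using h3 a ha b hb
  · have key : ∀ P Q : IEq A, P ∈ Inv V (S ⊔ K) → P.res S = Q.res S →
        (∀ a ∈ K, ∀ b ∈ K, P a b → Q a b) → (∀ a ∈ K, ∀ b ∈ S, P a b → Q a b) →
        ∀ a b, P a b → Q a b := by
      intro P Q hP e1 k2 k1 a b hab
      rcases hP.2.2 a b hab with rfl | ⟨ha | ha, hb | hb⟩
      · exact Q.refl a
      · exact res_le (e1 ▸ (res_iff' ha hb).2 hab : Q.res S a b)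
      · exact Q.symm (k1 b hb a ha (P.symm hab))
      · exact k1 a ha b hb hab
      · exact k2 a ha b hb hab
    ext a b
    exact ⟨key P Q hP.1 (h.1.trans h'.1.symm)
        (fun a ha b hb k => (h'.2.1 a ha b hb).2 ((h.2.1 a ha b hb).1 k))
        (fun a ha b hb k => (h'.2.2 a ha b hb).2 ((h.2.2 a ha b hb).1 k)) a b,
      key Q P hQ.1 (h'.1.trans h.1.symm)
        (fun a ha b hb k => (h.2.1 a ha b hb).2 ((h'.2.1 a ha b hb).1 k))
        (fun a ha b hb k => (h.2.2 a ha b hb).2 ((h'.2.2 a ha b hb).1 k)) a b⟩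

end Pool.Agent.P.MP_e517ea_lc.Z
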