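import Pool.Agent.P.MP_e517ea_lc.Z.Arith

/-!
Choice of the numeric parameters.
-/

set_option synthInstance.maxSize 16384

namespace Pool.Agent.P.MP_e517ea_lc.Z

variable [ZU]

theorem params_sq (s : Nn) (hs : 30 ≤ s) : 20000 * (s + 6) ^ 2 ≤ 2 ^ s := by
  refine Nn.le_induction (p := fun s => 20000 * (s + 6) ^ 2 ≤ 2 ^ s) (by fun_prop)
    (by rw [Nn.pow_ofNat]; norm_num) (fun s _ ih => ?_) s hs
  have : (s + 1 + 6) ^ 2 ≤ 2 * (s + 6) ^ 2 := ⟨s ^ 2 + 10 * s + 23, by ring⟩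
  rw [Nn.pow_succ]
  zify at ih this ⊢
  linarith

theorem params_pow (a b : Nn) (h : a ≤ b) : (2 : Nn) ^ a ≤ 2 ^ b := Nn.pow_le_pow_right two_pos h

theorem params_pp (a e n : Nn) (h : a ≤ 2 ^ e) : a ^ n ≤ 2 ^ (e * n) := by
  rw [Nn.pow_mul 2]
  exact Nn.pow_le_pow_left h _

theorem two_pow_add (a : Nn) (k : ℕ) [k.AtLeastTwo] :
    (2 : Nn) ^ (a + ofNat(k)) = 2 ^ (ofNat(k) : ℕ) * 2 ^ a := by
  rw [Nn.pow_add, Nn.pow_ofNat, mul_comm]

theorem exists_half (n : Nn) : ∃ h, 2 * h ≤ n ∧ n ≤ 2 * h + 1 :=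
  ⟨n / 2, (Nn.div_spec n two_pos).1, Nn.lt_succ_iff.1 (by
    have := (Nn.div_spec n two_pos).2
    rwa [add_assoc, one_add_one_eq_two])⟩

theorem params_mk (L eta om w l Y : Nn) (hw : w ≤ 2 ^ om) (hom : 9 ≤ om)
    (heta : 800 * om ^ 2 ≤ eta) (hL1 : 13 * eta ≤ L) (hL2 : L < 13 * eta + 13)
    (hl : l < 2 ^ (L + 1)) (hY : 2 ^ eta ≤ Y) (hYl : Y ≤ l) :
    ∃ m k, 4 * w ^ Y < m ^ m ∧
      2 * (4 * m) ^ (4 * m) ≤ 2 ^ k ∧ 4 * Y ≤ k ∧ 3 * k ≤ 400 * om * Y := by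
  have hom2 : 9 * om ≤ om ^ 2 := sq om ▸ Nn.mul_le_mul_right _ hom
  have heta0 : 0 < eta := by zify at hom heta hom2 ⊢; linarith
  have hetaY : eta < Y := lt_of_lt_of_le Nn.lt_two_pow_self hY
  obtain ⟨q, hq⟩ : ∃ q, q = 2 * (om + 1) * Y / eta := ⟨_, rfl⟩
  have hq1 : q * eta ≤ 2 * (om + 1) * Y := hq ▸ Nn.div_mul_le_self _ _
  have hq2 : 2 * (om + 1) * Y < (q + 1) * eta := by
    have := Nn.lt_div_mul_add (a := 2 * (om + 1) * Y) heta0
    rwa [← hq, ← add_one_mul] at this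
  clear hq
  obtain ⟨t, t1, t2⟩ := exists_half eta
  have hm : 2 ^ (t + 1) ≤ q + 1 := by
    have e1 : eta ≤ 2 ^ (t + 1) := by
      have : t < 2 ^ t := Nn.lt_two_pow_self
      rw [Nn.pow_succ]
      zify at this t2 ⊢
      linarith
    have e2 : (2 : Nn) ^ (t + 1) * 2 ^ (t + 1) ≤ 4 * 2 ^ eta := by
      rw [← Nn.pow_add]
      refine (params_pow _ (eta + 2) (by zify at t1 ⊢; linarith)).trans_eq ?_
      rw [two_pow_add]; norm_num
    have e3 : 2 ^ (t + 1) * eta ≤ 4 * Y :=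
      (Nn.mul_le_mul_left _ e1).trans (e2.trans (Nn.mul_le_mul_left _ hY))
    have e4 : 4 * Y ≤ 2 * (om + 1) * Y := Nn.mul_le_mul_right _ (by zify at hom ⊢; linarith)
    exact (Nn.lt_of_mul_lt_mul_right ((e3.trans e4).trans_lt hq2)).le
  have h4m : 4 * (q + 1) ≤ Y := by
    have e1 : q * (16 * (om + 1)) ≤ q * eta :=
      Nn.mul_le_mul_left _ (by zify at hom heta hom2 ⊢; linarith)
    have e2 : (8 * q) * (2 * (om + 1)) ≤ Y * (2 * (om + 1)) :=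
      le_of_eq_of_le (by ring) ((e1.trans hq1).trans_eq (by ring))
    have e3 : 8 * q ≤ Y := Nn.le_of_mul_le_mul_right e2 (by positivity)
    zify at e3 hom heta hom2 hetaY ⊢
    linarith
  refine ⟨q + 1, 4 * (q + 1) * (L + 1) + 1, ?_, ?_, ?_, ?_⟩
  · have e1 : w ^ Y ≤ 2 ^ (om * Y) := params_pp _ _ _ hw
    have e2 : 2 ^ ((t + 1) * (q + 1)) ≤ (q + 1) ^ (q + 1) := by
      rw [Nn.pow_mul]
      exact Nn.pow_le_pow_left hm _
    have e3 : (q + 1) * eta ≤ (q + 1) * (2 * (t + 1)) :=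
      Nn.mul_le_mul_left _ (by zify at t2 ⊢; linarith)
    have e4 : om * Y + 3 ≤ (t + 1) * (q + 1) := by
      have : 2 * (om * Y) + 2 * Y < 2 * ((t + 1) * (q + 1)) :=
        lt_of_eq_of_lt (by ring) ((hq2.trans_le e3).trans_eq (by ring))
      zify at this hom heta hom2 hetaY ⊢
      linarith
    have e5 := params_pow _ _ e4
    have e6 := Nn.two_pow_pos (om * Y)
    rw [two_pow_add, show (2 : Nn) ^ 3 = 8 by norm_num] at e5
    zify at e1 e2 e5 e6 ⊢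
    linarith
  · have e1 : 4 * (q + 1) ≤ 2 ^ (L + 1) := h4m.trans (hYl.trans hl.le)
    have e2 : (4 * (q + 1)) ^ (4 * (q + 1)) ≤ 2 ^ (4 * (q + 1) * (L + 1)) := by
      rw [mul_comm (4 * (q + 1)) (L + 1)]
      exact params_pp _ _ _ e1
    rw [Nn.pow_succ 2, mul_comm]
    exact Nn.mul_le_mul_right _ e2
  · have e1 : (q + 1) * eta ≤ (q + 1) * (L + 1) :=
      Nn.mul_le_mul_left _ (by zify at hL1 ⊢; linarith [eta.nn])
    have e2 : Y ≤ 2 * (om + 1) * Y := Nn.le_mul_of_pos_left _ (by positivity)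
    rw [mul_assoc]
    exact (Nn.mul_le_mul_left _ (e2.trans (hq2.le.trans e1))).trans le_self_add
  · have e1 : (q + 1) * (L + 1) ≤ (q + 1) * (14 * eta) :=
      Nn.mul_le_mul_left _ (by zify at hL2 hom heta hom2 ⊢; linarith)
    have e2 : 9 * Y ≤ om * Y := Nn.mul_le_mul_right _ hom
    rw [mul_assoc 4, mul_assoc 400]
    rw [show (q + 1) * (14 * eta) = 14 * (q * eta) + 14 * eta by ring] at e1
    rw [show 2 * (om + 1) * Y = 2 * (om * Y) + 2 * Y by ring] at hq1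
    zify at e1 e2 hq1 hetaY ⊢
    linarith [eta.nn]

theorem params : ∃ l0 : Nn, ∀ l, l0 ≤ l → ∃ J w om ka Y0 lam : Nn,
    2 * (4 * J) ^ (4 * J) ≤ 2 ^ l ∧ 2 * l + 1 ≤ w * J ∧ w ≤ 2 ^ om ∧ 2 ≤ w ∧ 1 ≤ ka ∧
    w ^ ka < J ∧ J ≤ l ∧ (l + 1) ^ l ≤ w ^ l * J ^ (l - J) ∧
    (∀ y, Y0 ≤ y → (y / 2) ^ (y - y / 2) ≤ w ^ l → (ka + 4) * y ≤ l) ∧
    (∀ Y, Y0 ≤ Y → (ka + 4) * Y ≤ l → ∃ m k, 4 * w ^ Y < m ^ m ∧
      2 * (4 * m) ^ (4 * m) ≤ 2 ^ k ∧ 4 * Y ≤ k ∧ 3 * k ≤ ka * Y) ∧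
    2 * w ^ (2 * (ka + 4)) + 2 ≤ Y0 ∧ 4 * ((130 * w) ^ (65 : Nn)) ^ 2 ≤ Y0 ∧ om ≤ Y0 ∧
    ka + 4 ≤ Y0 ∧ lam ≤ Y0 ∧ 2 * Y0 * w ≤ 2 ^ lam ∧ 2 * l + 1 ≤ 2 ^ lam ∧ Y0 ^ 13 ≤ l ∧
    1000 ≤ Y0 := by
  refine ⟨2 ^ (2 : Nn) ^ (30 : Nn), fun l hl => ?_⟩
  have hL0 := Nn.le_log2 hl
  have hs := Nn.le_log2 hL0
  obtain ⟨hl1, hl2⟩ := Nn.log2_spec ((Nn.two_pow_pos _).trans_le hl).ne'
  obtain ⟨hs1, hs2⟩ := Nn.log2_spec ((Nn.two_pow_pos _).trans_le hL0).ne'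
  clear hl hL0
  generalize l.log2 = L at *
  generalize L.log2 = s at *
  have hsq := params_sq s hs
  obtain ⟨om, hom⟩ : ∃ om, om = s + 6 := ⟨_, rfl⟩
  rw [← hom] at hsq
  have hom1 : 36 ≤ om := by zify at hs hom ⊢; linarith
  have hom2 : 36 * om ≤ om ^ 2 := sq om ▸ Nn.mul_le_mul_right _ hom1
  obtain ⟨he1, he2⟩ := Nn.div_spec L (b := 13) (by norm_num)
  generalize L / 13 = eta at *
  have he3 : 1000 * om ^ 2 ≤ eta := by zify at hsq hs1 he2 hom1 hom2 ⊢; linarith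
  have he4 : eta < 2 ^ eta := Nn.lt_two_pow_self
  have hL0 : 2 ≤ L := by zify at he1 he3 hom1 hom2 ⊢; linarith
  obtain ⟨hJ1, hJ2⟩ := Nn.div_spec l (b := 8 * L) (mul_pos (by norm_num) (two_pos.trans_le hL0))
  generalize l / (8 * L) = J at *
  rw [show 8 * L * J = 8 * (J * L) by ring] at hJ1 hJ2
  have hw : 32 * L ≤ 2 ^ om := by
    rw [hom, show s + 6 = (s + 1) + 5 by ring, two_pow_add, show (2 : Nn) ^ 5 = 32 by norm_num]
    zify at hs2 ⊢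
    linarith
  have hLl : 32 * L ≤ l :=
    hw.trans ((params_pow _ _ (by zify at he1 he3 hom1 hom2 ⊢; linarith)).trans hl1)
  have hJL : 2 * J ≤ J * L := mul_comm 2 J ▸ Nn.mul_le_mul_left _ hL0
  have c1 : 2 * (4 * J) ^ (4 * J) ≤ 2 ^ l := by
    have e1 : 4 * J ≤ 2 ^ (L + 1) := by zify at hJL hJ1 hl2 ⊢; linarith [J.nn]
    have e2 : (4 * J) ^ (4 * J) ≤ 2 ^ ((L + 1) * (4 * J)) := params_pp _ _ _ e1
    have e3 : (L + 1) * (4 * J) + 1 ≤ l := by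
      rw [show (L + 1) * (4 * J) = 4 * (J * L) + 4 * J by ring]
      zify at hJL hJ1 hLl hL0 ⊢
      linarith
    have e4 := params_pow _ _ e3
    rw [Nn.pow_succ 2, mul_comm _ 2] at e4
    exact (Nn.mul_le_mul_left _ e2).trans e4
  have c2 : 2 * (l + 1) ≤ 32 * L * J := by
    rw [show 32 * L * J = 32 * (J * L) by ring]
    zify at hJ2 hLl hL0 ⊢
    linarith
  have c6 : (32 * L) ^ (400 * om) < J := by
    have e1 : (32 * L) ^ (400 * om) ≤ 2 ^ (om * (400 * om)) := params_pp _ _ _ hw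
    by_contra hc
    have e2 : J ≤ 2 ^ (om * (400 * om)) := (not_lt.1 hc).trans e1
    have e3 := Nn.two_pow_pos (om * (400 * om))
    have e4 : (J + 1) * (8 * L) ≤ (2 * 2 ^ (om * (400 * om))) * 2 ^ om :=
      Nn.mul_le_mul (by zify at e2 e3 ⊢; linarith) (by zify at hw ⊢; linarith [L.nn])
    have e5 : (2 * 2 ^ (om * (400 * om))) * 2 ^ om = (2 : Nn) ^ (om * (400 * om) + om + 1) := by
      rw [Nn.pow_succ, Nn.pow_add]
      ring
    have e6 : om * (400 * om) + om + 1 ≤ L := by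
      rw [show om * (400 * om) = 400 * om ^ 2 by ring]
      zify at he1 he3 hom1 hom2 ⊢
      linarith
    rw [e5, show (J + 1) * (8 * L) = 8 * (J * L) + 8 * L by ring] at e4
    exact absurd (e4.trans ((params_pow _ _ e6).trans hl1)) (not_le.2 hJ2)
  have hJ0 : 0 < J := zero_le.trans_lt c6
  have c7 : J ≤ l := by zify at hJL hJ1 ⊢; linarith [J.nn]
  refine ⟨J, 32 * L, om, 400 * om, 2 ^ eta, L + 2, c1, by zify at c2 ⊢; linarith, hw,
    by zify at hL0 ⊢; linarith, by zify at hom1 ⊢; linarith, c6, c7, ?_, ?_, ?_, ?_, ?_,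
    by zify at he3 he4 hom1 hom2 ⊢; linarith, by zify at he3 he4 hom1 hom2 ⊢; linarith, ?_, ?_, ?_,
    ?_, by zify at he3 he4 hom1 hom2 ⊢; linarith⟩
  · have e1 : J ^ J ≤ 2 ^ l :=
      (Nn.pow_le_pow_left (Nn.le_mul_of_pos_left _ four_pos) _).trans
        ((Nn.pow_le_pow_right (by positivity) (Nn.le_mul_of_pos_left _ four_pos)).trans
          ((Nn.le_mul_of_pos_left _ two_pos).trans c1))
    have e2 : (2 * (l + 1)) ^ l ≤ (32 * L * J) ^ l := Nn.pow_le_pow_left c2 _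
    have e3 : (32 * L * J) ^ l = (32 * L) ^ l * J ^ (l - J) * J ^ J := by
      rw [mul_assoc ((32 * L) ^ l), ← Nn.pow_add, Nn.sub_add_cancel c7, Nn.mul_pow (32 * L)]
    have e4 : (l + 1) ^ l * J ^ J ≤ (2 * (l + 1)) ^ l := by
      rw [Nn.mul_pow, mul_comm (2 ^ l)]
      exact Nn.mul_le_mul_left _ e1
    exact Nn.le_of_mul_le_mul_right (e4.trans (e2.trans e3.le)) (Nn.pow_pos hJ0)
  · intro y hy hyw
    obtain ⟨eta, rfl⟩ := Nn.exists_eq_succ_of_pos (n := eta)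
      (by zify at he3 hom1 hom2 ⊢; linarith)
    have e1 : 2 ^ eta ≤ y / 2 := (Nn.le_div_iff_mul_le two_pos).2 (Nn.pow_succ 2 eta ▸ hy)
    have e2 : 2 ^ (eta * (y - y / 2)) ≤ (y / 2) ^ (y - y / 2) := by
      rw [Nn.pow_mul]
      exact Nn.pow_le_pow_left e1 _
    have e3 : (32 * L) ^ l ≤ 2 ^ (om * l) := params_pp _ _ _ hw
    have e4 : eta * (y - y / 2) ≤ om * l :=
      (Nn.pow_le_pow_iff_right one_lt_two).1 (e2.trans (hyw.trans e3))
    have e5 : 2 * om * (400 * om + 4) ≤ eta := by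
      rw [show 2 * om * (400 * om + 4) = 800 * om ^ 2 + 8 * om by ring]
      zify at he3 hom1 hom2 ⊢
      linarith
    have e6 : 2 * om * (400 * om + 4) * y ≤ eta * (2 * (y - y / 2)) :=
      Nn.mul_le_mul e5 (by
        have k1 := (Nn.div_spec y two_pos).1
        have k2 := Nn.sub_add_cancel (Nn.div_le_self y 2)
        zify at k1 k2 ⊢
        linarith)
    have e7 : (2 * om) * ((400 * om + 4) * y) ≤ (2 * om) * l :=
      le_of_eq_of_le (by ring) (e6.trans (le_of_eq_of_le (by ring)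
        ((Nn.mul_le_mul_left 2 e4).trans_eq (by ring))))
    exact Nn.le_of_mul_le_mul_left e7 (mul_pos two_pos (lt_of_lt_of_le (by norm_num) hom1))
  · intro Y hY hYl
    exact params_mk L eta om (32 * L) l Y hw (le_trans (by norm_num) hom1)
      ((Nn.mul_le_mul_right _ (by norm_num)).trans he3) he1 he2 hl2 hY
      ((Nn.le_mul_of_pos_left Y (by positivity)).trans hYl)
  · have e1 : (32 * L) ^ (2 * (400 * om + 4)) ≤ 2 ^ (om * (2 * (400 * om + 4))) :=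
      params_pp _ _ _ hw
    have e2 : om * (2 * (400 * om + 4)) + 2 ≤ eta := by
      rw [show om * (2 * (400 * om + 4)) = 800 * om ^ 2 + 8 * om by ring]
      zify at he3 hom1 hom2 ⊢
      linarith
    have e3 := params_pow _ _ e2
    have e4 := Nn.two_pow_pos (om * (2 * (400 * om + 4)))
    rw [two_pow_add, show (2 : Nn) ^ 2 = 4 by norm_num] at e3
    zify at e1 e3 e4 ⊢
    linarith
  · have e1 : 130 * (32 * L) ≤ 2 ^ (om + 8) := by
      rw [two_pow_add, show (2 : Nn) ^ 8 = 256 by norm_num]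
      zify at hw ⊢
      linarith [L.nn]
    have e2 : ((130 * (32 * L)) ^ (65 : Nn)) ^ 2 ≤ 2 ^ ((om + 8) * 130) := by
      rw [← Nn.pow_ofNat, ← Nn.pow_mul, show (65 : Nn) * 2 = 130 by norm_num]
      exact params_pp _ _ _ e1
    have e3 := params_pow ((om + 8) * 130 + 2) eta (by zify at he3 hom1 hom2 ⊢; linarith)
    rw [two_pow_add] at e3
    exact (Nn.mul_le_mul (by norm_num) e2).trans e3
  · have e1 := params_pow (s + 1 + 1) eta (by zify at he3 hom hom1 hom2 ⊢; linarith)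
    rw [Nn.pow_succ] at e1
    zify at e1 hs2 hL0 ⊢
    linarith
  · have e1 : 2 * 2 ^ eta * (32 * L) ≤ 2 * 2 ^ eta * 2 ^ om := Nn.mul_le_mul_left _ hw
    have e2 : 2 * 2 ^ eta * 2 ^ om = (2 : Nn) ^ (eta + om + 1) := by
      rw [Nn.pow_succ, Nn.pow_add]
      ring
    exact e1.trans (e2.le.trans (params_pow _ _ (by zify at he1 he3 hom1 hom2 ⊢; linarith)))
  · rw [show L + 2 = (L + 1) + 1 by ring, Nn.pow_succ]
    zify at hl2 ⊢
    linarith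
  · rw [← Nn.pow_ofNat, ← Nn.pow_mul]
    exact (params_pow _ _ (mul_comm 13 eta ▸ he1)).trans hl1

end Pool.Agent.P.MP_e517ea_lc.Z
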