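import Pool.Agent.P.MP_e517ea_lc.Z.Low
import Pool.Agent.P.MP_e517ea_lc.Z.Params

/-!
The number of nontrivial orbits is small; the counting hypothesis is contradictory.
-/

set_option synthInstance.maxSize 16384
set_option linter.unusedSectionVars false

noncomputable section

namespace Pool.Agent.P.MP_e517ea_lc.Z

open DSet IEq

variable [ZU]
variable {G A : Type} [Group G] [MulAction G A] [Coded A] [GS G A]

variable {U : OS G A} {c : A} {J w ka Y T om lam : Nn}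

theorem arith {Y nu M un g1 bb r ln o Z K : Nn} (hY : 1000 ≤ Y) (h1 : nu ≤ Y ^ 2)
    (h2 : M ≤ 2 * Y ^ 4) (h3 : un ≤ Y ^ 2) (hZ : Z ≤ Y) (h4 : g1 ≤ 3 * (Z * M) + un)
    (hK : K ≤ Y ^ 3) (h5 : bb ≤ K * (g1 + M)) (h6 : r ≤ nu + g1 + bb) (h7 : ln ≤ Y ^ 2 * r)
    (h8 : o ≤ nu + g1 + ln + ln) : Y ^ 2 * o < Y ^ 13 := by
  have h0 : 1 ≤ Y := le_trans (by norm_num) hY
  have p : ∀ {a b : ℕ}, a ≤ b → Y ^ a ≤ Y ^ b := fun h => pow_le_pow_right₀ h0 h
  have a1 : Z * M ≤ 2 * Y ^ 5 := (Nn.mul_le_mul hZ h2).trans_eq (by ring)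
  have a2 : g1 ≤ 7 * Y ^ 5 := by
    have := p (show 2 ≤ 5 by norm_num); zify at this a1 h3 h4 ⊢; linarith
  have a3 : g1 + M ≤ 9 * Y ^ 5 := by
    have := p (show 4 ≤ 5 by norm_num); zify at this a2 h2 ⊢; linarith
  have a4 : bb ≤ 9 * Y ^ 8 := h5.trans ((Nn.mul_le_mul hK a3).trans_eq (by ring))
  have a5 : r ≤ 17 * Y ^ 8 := by
    have k1 := p (show 2 ≤ 8 by norm_num)
    have k2 := p (show 5 ≤ 8 by norm_num)
    zify at k1 k2 h1 a2 a4 h6 ⊢; linarith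
  have a6 : ln ≤ 17 * Y ^ 10 := h7.trans ((Nn.mul_le_mul_left _ a5).trans_eq (by ring))
  have a7 : o ≤ 42 * Y ^ 10 := by
    have k1 := p (show 2 ≤ 10 by norm_num)
    have k2 := p (show 5 ≤ 10 by norm_num)
    zify at k1 k2 h1 a2 a6 h8 ⊢; linarith
  calc _ ≤ Y ^ 2 * (42 * Y ^ 10) := Nn.mul_le_mul_left _ a7
    _ = 42 * Y ^ 12 := by ring
    _ < Y * Y ^ 12 := mul_lt_mul_of_pos_right (lt_of_lt_of_le (by norm_num) hY)
      (pow_pos (zero_lt_one.trans_le h0) _)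
    _ = _ := by ring

theorem Base2.NN_lt (B : Base2 U J w ka Y) (hc : MinP U c) (hY : 1000 ≤ Y) (hw : w ≤ 2 ^ om)
    (hT : T = (130 * w) ^ (65 : Nn)) (hZ : 4 * T ^ 2 ≤ Y) (hom : om ≤ Y) (hka : ka + 4 ≤ Y)
    (hlam : lam ≤ Y) (hl1 : 2 * Y * w ≤ 2 ^ lam) (hl2 : 2 * (Fix U).card + 1 ≤ 2 ^ lam) :
    NN U < 2 ^ Y ^ 13 := by
  have H := B.hyp
  have h65 : 65 ≤ Y ∧ T = (130 * w) ^ (65 : Nn) := ⟨le_trans (by norm_num) hY, hT⟩
  have hf := H.fin (SS U c)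
  have hfU := H.fin U
  have hT0 : 0 < T := hT ▸ Nn.pow_pos (mul_pos (by norm_num) B.w_pos)
  clear hT
  have : Nonempty A := ⟨c⟩
  have ho := Orb.finite hfU
  have dn : DefF (nn U) := by fun_prop
  have hB : ∀ O ∈ Orb U, nn U O ≤ 2 ^ (lam * Y) := by
    rintro _ ⟨a, ha, rfl, -⟩
    exact (B.lt ha).trans (Nn.pow_mul 2 lam Y ▸ Nn.pow_le_pow_left hl1 _)
  have g1 := B.good_le (M := om * Y + lam * Y * (om * Y)) hT0 (B.NN_le hc)
  have hln := B.ln_le h65 hw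
  obtain ⟨u, hu⟩ : ∃ u, u = (Orb U).sep (fun O => ¬ Stb U c O) (by fun_prop) := ⟨_, rfl⟩
  obtain ⟨gd, hgd⟩ : ∃ gd, gd = (Orb U).sep (fun O => Good U c T O ∧ ¬ Bad U c T O) (by fun_prop) :=
    ⟨_, rfl⟩
  rw [← hu, ← hgd] at g1
  replace hu : ∀ O, O ∈ u ↔ O ∈ Orb U ∧ ¬ Stb U c O := fun O => by rw [hu]; rfl
  replace hgd : ∀ O, O ∈ gd ↔ O ∈ Orb U ∧ Good U c T O ∧ ¬ Bad U c T O := fun O => by rw [hgd]; rfl
  have hu' : ∀ O ∈ u, O ∈ Orb U := fun O h => ((hu O).1 h).1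
  have huf : u.Finite := ho.subset hu'
  have hgf : gd.Finite := ho.subset fun O h => ((hgd O).1 h).1
  have u1 : nn (SS U c) (u.biUnion (fun O => O) DefF.id \ cl U c) ≤ w ^ Y * u.prod (nn U) :=
    (B.f1 (X := u.biUnion (fun O => O) DefF.id) hc (stab_biUnion fun O h => Orb.stab (hu' O h))
      (cs_biUnion fun O h => Orb.cs (hu' O h)) (biUnion_le fun O h => Orb.subset (hu' O h))).trans
      (Nn.mul_le_mul_left _ (nn_biUnion_le hfU huf _ _ (fun O h => Orb.stab (hu' O h))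
        fun O h => (Orb.cs (hu' O h)).sat))
  have u2 : u.card ≤ om * Y := by
    have k1 : u.prod (fun O => 2 * nn U O) ≤ u.prod fun O => nn (SS U c) (O \ cl U c) :=
      prod_le_prod (by fun_prop) (by fun_prop) huf
        fun O h => not_lt.1 fun h' => ((hu O).1 h).2 ⟨hu' O h, h'⟩
    rw [prod_mul_distrib (by fun_prop) dn huf, prod_const huf] at k1
    have k3 : UO U c u ≤ u.biUnion (fun O => O) DefF.id \ cl U c :=
      fun _ ⟨O, h, k⟩ => ⟨⟨O, h, k.1⟩, k.2⟩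
    have k2 := k1.trans ((prod_nn_le hf huf (fun O => O \ cl U c) (by fun_prop) fun O h O' h' hne =>
      disjoint_SO (hu' O h) (hu' O' h') hne).trans ((nn_mono hf k3).trans u1))
    exact le_of_two_pow hw (Nn.le_of_mul_le_mul_right k2 (prod_pos dn huf fun O _ => nn_pos hfU O))
  have u3 : w ^ Y * u.prod (nn U) ≤ 2 ^ (om * Y + lam * Y * (om * Y)) := by
    rw [Nn.pow_add]
    refine Nn.mul_le_mul (Nn.pow_mul 2 om Y ▸ Nn.pow_le_pow_left hw _) ((prod_le_pow_card dn huf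
      fun O h => hB O (hu' O h)).trans ?_)
    rw [← Nn.pow_mul]
    exact Nn.pow_le_pow_right two_pos (Nn.mul_le_mul_left _ u2)
  replace g1 := g1 u3
  have q1 : om * Y ≤ Y ^ 2 := sq Y ▸ Nn.mul_le_mul_right _ hom
  have q2 : lam * Y ≤ Y ^ 2 := sq Y ▸ Nn.mul_le_mul_right _ hlam
  have q3 : om * Y + lam * Y * (om * Y) ≤ 2 * Y ^ 4 := by
    have k1 := Nn.mul_le_mul q2 q1
    rw [← pow_add] at k1
    rw [two_mul]
    exact add_le_add (q1.trans (pow_le_pow_right₀ (Nn.pos_iff_one_le.1 B.Y_pos) (by norm_num))) k1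
  generalize om * Y + lam * Y * (om * Y) = M at *
  have c1 := B.F0_pos hc
  have c2 := B.hY c hc
  have un : ((Orb U).sep (fun O => Stb U c O ∧ Unch U c O) (by fun_prop)).card ≤ lam * Y := by
    refine le_trans (le_of_two_pow (w := 2 ^ lam) le_rfl ((B.unch c1 _
      fun O h => by exact h.2).trans (Nn.pow_le_pow_left ?_ _))) (Nn.mul_le_mul_left _ c2)
    have := B.Yl
    zify at this c2 hl2 ⊢
    linarith
  have low : ∀ t : DSet (DSet A), t.Finite → (∀ Λ ∈ t, ∃ b, Low U c b ∧ Λ = XO U (SS U c) b) →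
      t.card ≤ gd.card + M := by
    intro t htf ht
    rw [← card_inf_add_card_sdiff t (gd.image (· \ cl U c) (by fun_prop)) htf]
    have htf' : (t \ gd.image (· \ cl U c) (by fun_prop)).Finite := htf.subset sdiff_le
    refine add_le_add ((card_le_card inf_le_right (hgf.image _ _)).trans
      (card_image_le hgf _ _)) ((Nn.pow_le_pow_iff_right one_lt_two).1 (le_trans ?_ (u1.trans u3)))
    refine (pow_card_le_prod (f := nn (SS U c)) (by fun_prop) htf' fun Λ h => ?_).trans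
      ((prod_nn_le hf htf' (fun Λ => Λ) DefF.id
      fun Λ h Λ' h' hne => ?_).trans (nn_mono hf (biUnion_le fun Λ h => ?_)))
    · obtain ⟨b, hb, rfl⟩ := ht Λ h.1
      exact (Orb.two_le (B.big_orb hb.1)).trans
        (nn_XO_le le_rfl SS_le hf (stab_XO SS_le) cls_subset_XO)
    · obtain ⟨b, -, rfl⟩ := ht Λ h.1
      obtain ⟨b', -, rfl⟩ := ht Λ' h'.1
      exact XO_disjoint SS_le hne
    · obtain ⟨b, hb, rfl⟩ := ht Λ h.1
      have k1 := B.big_orb hb.1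
      have k2 : XO U U b ∈ u := (hu _).2 ⟨k1, fun hs => by
        have k3 : b ∈ XO U U b \ cl U c := ⟨mem_XO_self, hb.2.1⟩
        refine h.2 ⟨XO U U b, (hgd _).2
          ⟨k1, ⟨hs, Or.inr ⟨b, mem_XO_self, hb.1⟩⟩, fun hbad => ?_⟩, (B.SO_eq hs k3).symm⟩
        obtain ⟨b', m1, m2, m3, m4⟩ := B.bad_nonlow h65 hc hbad k3
        exact m4 (hb.2.2 b' m1 m2 m3)⟩
      exact fun z hz => ⟨⟨_, k2, XO_mono SS_le hz⟩,
        B.acl_SS c ▸ XO_subset_compl SS_le (B.acl_SS c ▸ hb.2.1) hz⟩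
  obtain ⟨bd, hbd⟩ : ∃ bd : DSet (DSet A), ∀ O, O ∈ bd ↔ Bad U c T O :=
    ⟨⟨Bad U c T, by fun_prop⟩, fun _ => Iff.rfl⟩
  have hbd' : ∀ O ∈ bd, Bad U c T O := fun O h => (hbd O).1 h
  have hbf : bd.Finite := ho.subset fun O h => (hbd' O h).1.1.1
  have bb : bd.card ≤ om * ((ka + 4) * Y) * (gd.card + M) := by
    obtain ⟨b, db, hb⟩ := hbf.choice (r := fun O b => Low U c b ∧
      ∃ d, d ∈ O \ cl U c ∧ b ∈ cl (SS U c) d ∧ d ∉ cl (SS U c) b) (by fun_prop) fun O h => by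
        obtain ⟨d, hd, -⟩ := B.exists_gen (hbd' O h).1.1.1 c
        obtain ⟨b, k1, k2⟩ := B.exists_low h65 hc (hbd' O h) hd
        exact ⟨b, k1, d, hd, k2⟩
    refine (card_le_mul_card_image (f := fun O => XO U (SS U c) (b O)) (by fun_prop) hbf _
      ?_).trans (Nn.mul_le_mul_left _ (low _ (hbf.image _ _) ?_))
    · rintro _ ⟨O0, h0, rfl⟩
      refine B.bad_above (T := T) hc hw (hb O0 h0).1.1 (hb O0 h0).1.2.1 _ fun O h => ?_
      obtain ⟨h1, h2⟩ := h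
      obtain ⟨-, d, hd, k1, k2⟩ := hb O h1
      obtain ⟨v, hv, ev⟩ : b O0 ∈ XO U (SS U c) (b O) :=
        (show XO U (SS U c) (b O) = _ from h2) ▸ mem_XO_self
      have ev' : cl (SS U c) (v • b O) = cl (SS U c) (b O0) := cl_eq_mono SS_le ev
      exact ⟨hbd' O h1, v • d, stab_SO (hbd' O h1).1.1.1 v hv d hd,
        cl_subset le_rfl (smul_mem_cl hv k1) (mem_cl_of_eq ev'),
        fun h => k2 ((smul_mem_cl_iff hv).1 (ev' ▸ h))⟩
    · rintro _ ⟨O0, h0, rfl⟩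
      exact ⟨_, (hb O0 h0).1, rfl⟩
  have cov : ∀ O ∈ Orb U, nn U O ≤ T ∨ Big U O → O ∈ u ⊔ gd ⊔ bd := fun O h h' => by
    by_cases h1 : Stb U c O
    · by_cases h2 : Bad U c T O
      · exact Or.inr ((hbd O).2 h2)
      · exact Or.inl (Or.inr ((hgd O).2 ⟨h, ⟨h1, h'⟩, h2⟩))
    · exact Or.inl (Or.inl ((hu O).2 ⟨h, h1⟩))
  have cf := (huf.sup hgf).sup hbf
  have cu : (u ⊔ gd ⊔ bd).card ≤ u.card + gd.card + bd.card :=
    (card_sup_le _ _).trans (Nn.add_le_add_right (card_sup_le _ _) _)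
  have hr : ((Orb U).sep (Big U) (by fun_prop)).card ≤ u.card + gd.card + bd.card :=
    (card_le_card (fun O h => by exact cov O h.1 (Or.inr h.2)) cf).trans cu
  have ho' : (Orb U).card ≤ u.card + gd.card + bd.card +
      ((Orb U).sep (LN U T) (by fun_prop)).card := by
    refine (card_le_card (T := u ⊔ gd ⊔ bd ⊔ (Orb U).sep (LN U T) (by fun_prop)) (fun O h => ?_)
      (cf.sup ho.sep)).trans ((card_sup_le _ _).trans (Nn.add_le_add_right cu _))
    by_cases h1 : nn U O ≤ T ∨ Big U O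
    · exact Or.inl (cov O h h1)
    · push Not at h1
      exact Or.inr ⟨h, h, h1⟩
  have q4 : om * ((ka + 4) * Y) ≤ Y ^ 3 :=
    (Nn.mul_le_mul hom (Nn.mul_le_mul_right Y hka)).trans_eq (by ring)
  have q5 : u.card + gd.card + bd.card ≤ Y ^ 2 * (u.card + gd.card + bd.card) :=
    Nn.le_mul_of_pos_left _ (pow_pos B.Y_pos _)
  have q6 := hln.trans (Nn.mul_le_mul q1 hr)
  have := arith (o := (Orb U).card) hY (u2.trans q1) q3 (un.trans q2) hZ g1 q4 bb le_rfl le_rfl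
    (ho'.trans (add_le_add (q5.trans le_add_self) q6))
  calc _ ≤ (Orb U).prod (nn U) := nn_le_prod hfU ho (fun O h => h) fun a ha h => ⟨a, ha, rfl, h⟩
    _ ≤ (2 ^ (lam * Y)) ^ (Orb U).card := prod_le_pow_card dn ho hB
    _ ≤ 2 ^ (Y ^ 2 * (Orb U).card) := by
        rw [← Nn.pow_mul]; exact Nn.pow_le_pow_right two_pos (Nn.mul_le_mul_right _ q2)
    _ < _ := Nn.pow_lt_pow_right one_lt_two this

theorem Hyp.false [Nonempty A] (H : Hyp G A) : False := by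
  by_cases hA : (⊤ : DSet A).Finite
  · have h1 : Fix (pw G (⊤ : DSet A)) = ⊤ := eq_top_iff_forall.2 fun a g hg => hg hA a trivial
    have h2 := (H (pw G ⊤)).2.2
    rw [h1] at h2
    exact (nn_lt_nseq (H.fin (pw G ⊤)) hA ⟨Classical.arbitrary A, trivial⟩
      fun g hg a _ => hg hA a trivial).ne h2
  obtain ⟨l0, hl0⟩ := params
  obtain ⟨K, -, hKf, hK⟩ := exists_le_card_eq_of_infinite hA (max l0 (2 ^ (64 : Nn)))
  have hL := H.aclf (pw G K)
  obtain ⟨U, hU⟩ : ∃ U, U = pw G K ⊓ pw G (acl (pw G K)) := ⟨_, rfl⟩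
  have e1 : acl U = acl (pw G K) := hU ▸ acl_inf_pw hL le_rfl
  have e2 : acl U = Fix U :=
    le_antisymm (fun a ha g hg => (hU ▸ hg).2 hL a (e1 ▸ ha)) Fix_subset_acl
  have hF := H.fix U
  have hf := H.fin U
  have e3 : max l0 (2 ^ (64 : Nn)) ≤ (Fix U).card :=
    hK ▸ card_le_card (fun a ha g hg => (hU ▸ hg).1 hKf a ha) hF
  obtain ⟨J, w, om, ka, Y0, lam, p1, p2, p3, p4, p5, p6, p7, p8, p9, p10, p11, p12, p13, p14, p15,
    p16, p17, p18, p19⟩ := hl0 _ (le_of_max_le_left e3)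
  have B : Base U J w :=
    ⟨H, e2, p1, p2, p4, (Nn.le_self_pow (Nn.one_le_iff_ne_zero.1 p5) w).trans p6.le⟩
  have e4 := H.nseq_eq U
  rw [e2] at e4
  have n1 : NN U ≤ w ^ (Fix U).card := by
    have k1 := nn_lower hf hF (fun g hg a ha => ha g hg) p7
    have k2 := nseq_add_le 0 (Fix U).card
    rw [zero_add, e4, nseq_zero, mul_one] at k2
    have k3 := (Nn.mul_le_mul_right _ k1).trans (k2.trans p8)
    rw [mul_comm] at k3
    exact Nn.le_of_mul_le_mul_right k3 (Nn.pow_pos B.J_pos)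
  have n2 : 2 ^ (Fix U).card ≤ NN U := by
    have k1 := nn_upper (V := U) hF (le_of_max_le_right e3)
    rw [e4, mul_comm] at k1
    exact Nn.le_of_mul_le_mul_left k1 (nn_pos hf _)
  have big : ∀ Y, Y0 ≤ Y → 2 * w ^ 2 < Y := fun Y h => by
    have : w ^ 2 ≤ w ^ (2 * (ka + 4)) := Nn.pow_ofNat w 2 ▸
      Nn.pow_le_pow_right B.w_pos (Nn.le_mul_of_pos_right _ (by positivity))
    zify at this h p11 ⊢
    linarith
  have ap : ∀ a : A, MinP U a → Y0 ≤ (F0 U a).card →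
      (ka + 4) * (F0 U a).card ≤ (Fix U).card := fun a ha h =>
    p9 _ h ((B.lower ha (Nn.div_le_self _ _)).trans
      ((nn_mono hf (XO_subset_compl le_rfl ha.1)).trans n1))
  have hY : ∀ a : A, MinP U a → (F0 U a).card ≤ Y0 := by
    intro a ha
    by_contra h
    obtain ⟨_, ⟨b, k1, rfl⟩, k2⟩ := Nn.exists_max (p := fun n => ∃ a : A, MinP U a ∧ (F0 U a).card = n)
      (by fun_prop) ⟨_, a, ha, rfl⟩ (b := max Y0 (Fix U).card) (by
        rintro _ ⟨b, hb, rfl⟩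
        by_cases h' : Y0 ≤ (F0 U b).card
        · exact le_max_of_le_right ((Nn.le_mul_of_pos_left _ (by positivity)).trans (ap b hb h'))
        · exact le_max_of_le_left (not_le.1 h').le)
    have k3 : ∀ x : A, MinP U x → (F0 U x).card ≤ (F0 U b).card := fun x hx => k2 _ ⟨x, hx, rfl⟩
    have k4 : Y0 ≤ (F0 U b).card := (not_le.1 h).le.trans (k3 a ha)
    exact Base2.lemA ⟨B, k3, ap b k1 k4, big _ k4, p10 _ k4 (ap b k1 k4)⟩ (p11.trans k4) p6 k1 rfl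
  have hYl : (ka + 4) * Y0 ≤ (Fix U).card := (Nn.mul_le_mul_right _ p14).trans
    (le_trans (by rw [← sq]; exact pow_le_pow_right₀ (le_trans (by norm_num) p19) (by norm_num)) p18)
  obtain ⟨a, -, ha⟩ := exists_of_lt (lt_top_iff_ne_top.2 fun e : acl U = ⊤ => hA (e ▸ H.aclf U))
  obtain ⟨c, -, hc⟩ := H.exists_min ha
  have := Base2.NN_lt ⟨B, hY, hYl, big _ le_rfl, p10 _ le_rfl hYl⟩ hc p19 p3 rfl p12 p13 p14 p15 p16 p17
  exact absurd ((Nn.pow_le_pow_right two_pos p18).trans n2) (not_le.2 this)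

end Pool.Agent.P.MP_e517ea_lc.Z
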