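import Pool.Agent.P.MP_e517ea_lc.Z.Cl
import Pool.Agent.P.MP_e517ea_lc.Z.Count2

/-!
The counting hypothesis, generic points and the basic comparison lemmas.
-/

set_option synthInstance.maxSize 16384
set_option linter.unusedSectionVars false

noncomputable section

namespace Pool.Agent.P.MP_e517ea_lc.Z

open DSet IEq

variable [ZU]
variable {G A Ω : Type} [Group G] [MulAction G A] [Coded A] [Coded Ω] [GS G A]

/-- A permutation group with an equivariant bijection `E` from the injective finite sequences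
onto the finitely supported finitary partitions. -/
structure PermModel (G : Type) [Group G] [MulAction G A] [GS G A] (E : ISeq A → IEq A) : Prop where
  defn : DefF E
  fixfin : ∀ K : DSet A, K.Finite → (Fix (pw G K)).Finite
  fin : ∀ s, s.Nodup → (E s).Fin
  equiv : ∀ (g : G) (s t : ISeq A), s.Nodup → s.len = t.len → (∀ i x, s.At i x → t.At i (g • x)) →
    ∀ a b, E s a b → E t (g • a) (g • b)
  inj : ∀ s t, s.Nodup → t.Nodup → E s = E t → s = t
  surj : ∀ K : DSet A, K.Finite → ∀ P : IEq A, P.Fin → Pres (pw G K) P → ∃ s, s.Nodup ∧ E s = P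

/-- The counting hypothesis. -/
def Hyp (G A : Type) [Group G] [MulAction G A] [Coded A] [GS G A] : Prop :=
  ∀ U : OS G A, (Fix U).Finite ∧ FinG U ∧ nn U ⊤ = nseq (Fix U).card

/-- The number of invariant partitions outside the algebraic closure. -/
def NN (U : OS G A) : Nn := nn U (acl U)ᶜ

variable {U U' V W : OS G A} {a b c : A} {g : G} {X Y : DSet A}

theorem PermModel.hyp {E : ISeq A → IEq A} (h : PermModel G E) : Hyp G A := by
  intro U
  obtain ⟨K, hK, hU⟩ := U.exists_pw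
  have h1 : (Fix U).Finite := (h.fixfin K hK).subset (Fix_anti hU)
  obtain ⟨h2, h3⟩ := ISeq.card_NL h1
  have h4 : Inv U ⊤ = (ISeq.NL (Fix U)).image E h.defn := by
    ext P
    constructor
    · intro hP
      obtain ⟨s, hs, rfl⟩ := h.surj K hK P hP.1 fun g hg => hP.2.1 g (hU hg)
      refine ⟨s, ⟨hs, fun x ⟨i, hx⟩ g hg => ?_⟩, rfl⟩
      obtain ⟨t, ht⟩ := ISeq.exists_rel (s := s) (rs g s.rng)
        fun x hx => ⟨_, mk_mem_rs g s.finite_rng hx⟩
      have k1 : ∀ i x, s.At i x → t.At i (g • x) := fun i x k => by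
        obtain ⟨y, k1, k2⟩ := ht.fwd k
        exact (show g • x = y from k2.2.2) ▸ k1
      have k2 : ∀ i y, t.At i y → s.At i (g⁻¹ • y) := fun i y k => by
        obtain ⟨x, k1, k2⟩ := ht.bwd k
        rwa [← show g • x = y from k2.2.2, inv_smul_smul]
      have hs' : t.Nodup := fun i j y k k' => hs i j _ (k2 i y k) (k2 j y k')
      obtain rfl : t = s := by
        refine h.inj _ _ hs' hs (IEq.ext fun a b => ⟨fun H => ?_, fun H => ?_⟩)
        · exact (Inv.iff hP (U.inv_mem hg)).1 (h.equiv g⁻¹ t s hs' ht.1.symm k2 a b H)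
        · simpa using h.equiv g s t hs ht.1 k1 _ _ ((Inv.iff hP (U.inv_mem hg)).2 H)
      exact (k1 i x hx).unique hx
    · rintro ⟨s, hs, rfl⟩
      exact ⟨h.fin s hs.1, fun g hg => h.equiv g s s hs.1 rfl fun i x k => by
        rwa [hs.2 k.mem g hg], fun a b _ => Or.inr ⟨trivial, trivial⟩⟩
  refine ⟨h1, by unfold FinG; rw [h4]; exact h2.image _ _, ?_⟩
  rw [nn, h4, card_image_of_injOn (S := ISeq.NL (Fix U)) _ fun s hs t ht => h.inj s t hs.1 ht.1, h3]

theorem one_lt_nn (hf : FinG U) {P : IEq A} (hP : P ∈ Inv U X) (h : P a b) (hne : a ≠ b) :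
    1 < nn U X :=
  (one_lt_card (hf.fin X)).2 ⟨P, hP, ⊥, bot_mem_Inv, fun e => hne (by rw [e] at h; exact h)⟩

theorem FinG.acl_finite (hf : FinG U) (hF : (Fix U).Finite) : (acl U).Finite := by
  let sp : IEq A → DSet A := fun P => ⟨fun x => ∃ y, y ≠ x ∧ P x y, by fun_prop⟩
  have h1 : ((Inv U ⊤).sep (fun P => (sp P).Finite) (by fun_prop)).Finite := Finite.sep hf
  refine (hF.sup (h1.biUnion (f := sp) (by fun_prop) fun P hP => hP.2)).subset fun a ha => ?_
  by_cases h0 : a ∈ Fix U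
  · exact Or.inl h0
  refine Or.inr ⟨(⊤ : IEq A).res (orb U a),
    ⟨Inv_mono le_top (blk_mem ha stab_orb), Finite.subset ha ?_⟩, ?_⟩
  · rintro x ⟨y, hy, h | h⟩
    · exact (hy h.symm).elim
    · exact h.1
  · simp only [mem_Fix, not_forall] at h0
    obtain ⟨g, hg, h0⟩ := h0
    exact ⟨g • a, h0, Or.inr ⟨mem_orb_self U a, ⟨g, hg, rfl⟩, trivial⟩⟩

/-- Generic points. -/
def Gen (U W : OS G A) : DSet A :=
  ⟨fun a => a ∉ acl U ∧ ∀ x ∈ cl U a, x ∈ acl W → x ∈ acl U, by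
    simp only [all_eq, imp_eq]; fun_prop⟩

theorem cs_gen : CS U (Gen U W) := fun _ ha _ e =>
  ⟨notMem_acl_of_eq le_rfl e ha.1, e ▸ ha.2⟩

theorem stab_gen (h : W ≤ U) : Stab W (Gen U W) := fun g hg a ha =>
  ⟨stab_acl.compl g (h hg) a ha.1, fun x hx hx' => by
    have h1 := ha.2 (g⁻¹ • x) ((smul_mem_cl_iff (h hg)).1 (by simpa))
      (stab_acl _ (W.inv_mem hg) _ hx')
    simpa using stab_acl g (h hg) _ h1⟩

theorem gen_subset : Gen U W ≤ (acl W)ᶜ := fun a ha h =>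
  ha.1 (ha.2 a (mem_cl_self U a) h)

/-- Orbits of classes. -/
def Orb (U : OS G A) : DSet (DSet A) :=
  ⟨fun O => ∃ a, a ∉ acl U ∧ O = XO U U a ∧ 1 < nn U O, by fun_prop⟩

theorem Orb.stab {O : DSet A} (h : O ∈ Orb U) : Stab U O := by
  obtain ⟨a, -, rfl, -⟩ := h; exact stab_XO le_rfl

theorem Orb.cs {O : DSet A} (h : O ∈ Orb U) : CS U O := by
  obtain ⟨a, -, rfl, -⟩ := h; exact cs_XO

theorem Orb.subset {O : DSet A} (h : O ∈ Orb U) : O ≤ (acl U)ᶜ := by
  obtain ⟨a, ha, rfl, -⟩ := h; exact XO_subset_compl le_rfl ha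

theorem Orb.eq {O : DSet A} (h : O ∈ Orb U) (ha : a ∈ O) : XO U U a = O := by
  obtain ⟨b, -, rfl, -⟩ := h; exact XO_eq le_rfl ha

theorem Orb.two_le {O : DSet A} (h : O ∈ Orb U) : 2 ≤ nn U O :=
  one_add_one_eq_two (R := Nn) ▸ Nn.lt_iff_add_one_le.1 h.choose_spec.2.2

theorem Orb.disjoint {O O' : DSet A} (h : O ∈ Orb U) (h' : O' ∈ Orb U) (hne : O ≠ O') :
    Disjoint O O' := by
  obtain ⟨a, -, rfl, -⟩ := h
  obtain ⟨b, -, rfl, -⟩ := h'
  exact XO_disjoint le_rfl hne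

theorem nn_le_prod (hf : FinG U) {s : DSet (DSet A)} (hs : s.Finite) (hs' : ∀ O ∈ s, O ∈ Orb U)
    (hX : ∀ a ∈ X, 1 < nn U (XO U U a) → XO U U a ∈ s) : nn U X ≤ s.prod fun O => nn U O := by
  refine le_trans ?_ (nn_biUnion_le hf hs (fun O => O) DefF.id (fun O h => Orb.stab (hs' O h))
    fun O h => (Orb.cs (hs' O h)).sat)
  refine card_le_card (fun P hP => ⟨hP.1, hP.2.1, fun a b hab => ?_⟩) (hf.fin _)
  by_cases h : a = b
  · exact Or.inl h
  have hb : b ∈ XO U U a := cls_subset_XO (Inv.cl_eq hP hab)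
  have := hX a ((hP.2.2 a b hab).resolve_left h).1 (one_lt_nn hf (res_mem hP (stab_XO le_rfl))
    ((res_iff' mem_XO_self hb).2 hab) h)
  exact Or.inr ⟨⟨_, this, mem_XO_self⟩, ⟨_, this, hb⟩⟩

theorem Orb.finite (hf : FinG U) : (Orb U).Finite := by
  by_contra h
  obtain ⟨s, h1, h0, h2⟩ := exists_le_card_eq_of_infinite h (nn U ⊤)
  have h3 := (pow_card_le_prod (f := fun O => nn U O) (by fun_prop) h0
    fun O hO => Orb.two_le (h1 hO)).trans ((prod_nn_le hf h0 (fun O => O) DefF.id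
      fun O hO O' hO' => Orb.disjoint (h1 hO) (h1 hO')).trans (nn_mono hf le_top))
  rw [h2] at h3
  exact absurd h3 (not_le.2 Nn.lt_two_pow_self)

variable (H : Hyp G A)
include H

theorem Hyp.fix (U : OS G A) : (Fix U).Finite := (H U).1

theorem Hyp.fin (U : OS G A) : FinG U := (H U).2.1

theorem Hyp.aclf (U : OS G A) : (acl U).Finite := (H.fin U).acl_finite (H.fix U)

theorem Hyp.clf (U : OS G A) (a : A) : (cl U a).Finite := H.aclf _

theorem Hyp.clsf (U : OS G A) (a : A) : (cls U a).Finite := (H.clf U a).subset cls_subset_cl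

theorem Hyp.acl_SS (U : OS G A) (a : A) : acl (SS U a) = cl U a := Z.acl_SS (H.clf U a)

theorem Hyp.nseq_eq (U : OS G A) : nseq (Fix U).card = nn U (acl U) * NN U := by
  rw [← (H U).2.2, NN, ← nn_union_eq (H.fin U) stab_acl (cs_acl le_rfl).sat
    disjoint_compl_right, sup_compl_eq_top]

/-- Invariant partitions are coded by fixed points. -/
theorem Hyp.code {P : IEq A} (hP : P ∈ Inv U X) (hg : ∀ a ∈ Fix U, g • a = a)
    (h : P a b) : P (g • a) (g • b) := by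
  have h2 : Fix (pw G (Fix U)) = Fix U :=
    (Fix_anti le_pw_Fix).antisymm fun x hx k hk => hk (H.fix U) x hx
  have h3 : Inv (pw G (Fix U)) ⊤ = Inv U ⊤ :=
    eq_of_le_of_card_le (Inv_anti le_pw_Fix) (by
      have e1 := (H (pw G (Fix U))).2.2
      have e2 := (H U).2.2
      rw [h2, ← e2] at e1
      exact e1.ge) (H.fin U)
  exact (h3.ge (Inv_mono le_top hP)).2.1 g (mem_pw_of hg) a b h

theorem Hyp.tau_mem (U : OS G A) : ker (cl U) (by fun_prop) ∈ Inv U ⊤ :=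
  ⟨H.clsf U, fun _ hg _ _ h => cl_smul_eq hg h, fun _ _ _ => Or.inr ⟨trivial, trivial⟩⟩

theorem Hyp.exists_gen (W : OS G A) (ha : a ∉ acl U) : ∃ g ∈ U, g • a ∈ Gen U W := by
  obtain ⟨g, hg, h⟩ := neumann ((H.clf U a).subset (sdiff_le (b := acl U))) (H.aclf W)
    fun x hx => hx.2
  refine ⟨g, hg, stab_acl.compl g hg a ha, fun x hx hx' => ?_⟩
  by_contra h0
  refine h (g⁻¹ • x) ⟨(smul_mem_cl_iff hg).1 (by simpa), stab_acl.compl _ (U.inv_mem hg) x h0⟩ ?_
  simpa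

theorem Hyp.det_gen (h : W ≤ U) (hY : Stab U Y) (hc : CS U Y)
    (hs : Y ≤ (acl U)ᶜ) : nn U Y ≤ nn W (Y ⊓ Gen U W) :=
  nn_le_of_cls h (H.fin W) ((hY.mono h).inter (stab_gen h)) fun a ha => by
    obtain ⟨g, hg, h1⟩ := H.exists_gen W (hs ha)
    exact ⟨g, hg, fun b hb => ⟨hc _ (hY g hg a ha) b hb, cs_gen _ h1 b hb⟩⟩

theorem Hyp.det (h : W ≤ U) (hY : Stab U Y) (hc : CS U Y)
    (hs : Y ≤ (acl U)ᶜ) : nn U Y ≤ nn W (Y \ acl W) :=
  (H.det_gen h hY hc hs).trans (nn_mono (H.fin W) fun _ hx => ⟨hx.1, gen_subset hx.2⟩)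

theorem Hyp.NN_mono (h : W ≤ U) : NN U ≤ NN W :=
  (H.det h stab_acl.compl (cs_acl le_rfl).compl le_rfl).trans
    (nn_mono (H.fin W) fun _ hx => hx.2)

theorem Hyp.NN_pos (U : OS G A) : 0 < NN U := nn_pos (H.fin U) _

/-- Splitting off dependent classes. -/
theorem Hyp.sp (h : W ≤ U) {ι : Type} [Coded ι] {s : DSet ι} (hs : s.Finite) (d : ι → A)
    (dd : DefF d) (h1 : ∀ i ∈ s, d i ∉ acl W)
    (h2 : ∀ i ∈ s, ∃ x ∈ cl U (d i), x ∈ acl W ∧ x ∉ acl U)
    (hd : (s : Set ι).PairwiseDisjoint fun i => XO U U (d i)) :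
    NN U * s.prod (fun i => nn U (XO U U (d i))) ≤ NN W := by
  have hf := H.fin W
  have k1 := H.det_gen h stab_acl.compl (cs_acl le_rfl).compl le_rfl
  have k2 : s.prod (fun i => nn U (XO U U (d i))) ≤
      nn W (s.biUnion (fun i => XO U W (d i)) (by fun_prop)) :=
    (prod_le_prod (by fun_prop) (by fun_prop) hs
      fun i _ => nn_XO_le le_rfl h hf (stab_XO h) cls_subset_XO).trans
      (prod_nn_le hf hs _ _ fun i hi j hj hij => (hd hi hj hij).mono (XO_mono h) (XO_mono h))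
  refine (Nn.mul_le_mul k1 k2).trans ((nn_mul_le hf ?_).trans (nn_mono hf ?_))
  · refine disjoint_left.2 fun x hx ⟨i, hi, hx'⟩ => ?_
    obtain ⟨y, k3, k4, k5⟩ := h2 i hi
    exact k5 ((XO_subset (stab_gen h) cs_gen hx.2 (XO_symm h hx')).2 y k3 k4)
  · rintro x (hx | ⟨i, hi, hx⟩)
    · exact gen_subset hx.2
    · exact XO_subset_compl h (h1 i hi) hx

/-- The budget applies to every invariant union of classes. -/
theorem Hyp.f1 (h : V ≤ U) {β : Nn} (hβ : NN V ≤ β * NN U) (hX : Stab U X)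
    (hc : CS U X) (hs : X ≤ (acl U)ᶜ) : nn V (X \ acl V) ≤ β * nn U X := by
  have hf := H.fin V
  have k1 : NN U = nn U X * nn U ((acl U)ᶜ \ X) := by
    rw [← nn_union_eq (H.fin U) hX hc.sat disjoint_sdiff_self_right, sup_sdiff_cancel_right hs, NN]
  have k2 := H.det h (stab_acl.compl.diff hX) ((cs_acl le_rfl).compl.diff hc) sdiff_le
  have k3 : nn V (X \ acl V) * nn V (((acl U)ᶜ \ X) \ acl V) ≤ NN V :=
    (nn_mul_le hf (disjoint_sdiff_self_right.mono sdiff_le sdiff_le)).trans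
      (nn_mono hf fun _ hx => hx.elim (·.2) (·.2))
  refine Nn.le_of_mul_le_mul_right ?_ (nn_pos (H.fin U) ((acl U)ᶜ \ X))
  calc _ ≤ _ := Nn.mul_le_mul_left _ k2
    _ ≤ _ := k3
    _ ≤ _ := hβ
    _ = _ := by rw [k1, mul_assoc]

end Pool.Agent.P.MP_e517ea_lc.Z
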