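import Pool.Agent.P.MP_e517ea_lc.Z.Nat

/-!
The ring of differences of the natural numbers of the model. Recipes:
`zify at h1 h2 ⊢; grind` replaces `omega` (products of variables stay atoms, their
nonnegativity and truncated subtraction are known to `grind`);
`qify at h1 h2 ⊢; nlinarith [a.nn, b.nn]` replaces `nlinarith` (casts are pushed through products).
-/

namespace Pool.Agent.P.MP_e517ea_lc.Z

variable [ZU]

/-- Equality of formal differences. -/
def zSetoid : Setoid (Nn × Nn) where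
  r x y := x.1 + y.2 = y.1 + x.2
  iseqv := ⟨fun _ => rfl, Eq.symm, fun {x y z} h h' => add_right_cancel (b := y.2) (by
    calc x.1 + z.2 + y.2 = x.1 + y.2 + z.2 := by ring
      _ = y.1 + z.2 + x.2 := by rw [h]; ring
      _ = _ := by rw [h']; ring)⟩

/-- The integers of the model. -/
def Zz : Type := Quotient zSetoid

namespace Zz

/-- The difference `a - b`. -/
def mk (a b : Nn) : Zz := Quotient.mk zSetoid (a, b)

theorem mk_eq {a b c d : Nn} : mk a b = mk c d ↔ a + d = c + b := Quotient.eq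

@[elab_as_elim] theorem ind {p : Zz → Prop} (z : Zz) (h : ∀ a b, p (mk a b)) : p z :=
  Quotient.inductionOn z fun x => h x.1 x.2

noncomputable instance : Zero Zz := ⟨mk 0 0⟩
noncomputable instance : One Zz := ⟨mk 1 0⟩
noncomputable instance : Add Zz := ⟨Quotient.map₂ (fun x y => (x.1 + y.1, x.2 + y.2))
  fun x x' (h : x.1 + x'.2 = x'.1 + x.2) y y' (h' : y.1 + y'.2 = y'.1 + y.2) =>
    show _ + _ = _ + _ by
      calc x.1 + y.1 + (x'.2 + y'.2) = (x.1 + x'.2) + (y.1 + y'.2) := by ring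
        _ = _ := by rw [h, h']; ring⟩
instance : Neg Zz := ⟨Quotient.map (fun x => (x.2, x.1))
  fun x x' (h : x.1 + x'.2 = x'.1 + x.2) => show x.2 + x'.1 = x'.2 + x.1 by
    rw [add_comm, ← h, add_comm]⟩
noncomputable instance : Mul Zz :=
  ⟨Quotient.map₂ (fun x y => (x.1 * y.1 + x.2 * y.2, x.1 * y.2 + x.2 * y.1))
  fun x x' (h : x.1 + x'.2 = x'.1 + x.2) y y' (h' : y.1 + y'.2 = y'.1 + y.2) =>
    show _ + _ = _ + _ from add_right_cancel (b := x'.2 * y.1 + x'.1 * y.2 + x'.1 * y.1 + x'.2 * y.2)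
      (by
        calc _ = (x.1 + x'.2) * y.1 + (x'.1 + x.2) * y.2 + x'.1 * (y.1 + y'.2)
              + x'.2 * (y'.1 + y.2) := by ring
          _ = (x'.1 + x.2) * y.1 + (x.1 + x'.2) * y.2 + x'.1 * (y'.1 + y.2)
              + x'.2 * (y.1 + y'.2) := by rw [h, h']
          _ = _ := by ring)⟩

theorem mk_add (a b c d : Nn) : mk a b + mk c d = mk (a + c) (b + d) := rfl
theorem mk_neg (a b : Nn) : -mk a b = mk b a := rfl
theorem mk_mul (a b c d : Nn) : mk a b * mk c d = mk (a * c + b * d) (a * d + b * c) := rfl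
theorem zero_def : (0 : Zz) = mk 0 0 := rfl
theorem one_def : (1 : Zz) = mk 1 0 := rfl

noncomputable instance : CommRing Zz where
  add_assoc x y z := x.ind fun _ _ => y.ind fun _ _ => z.ind fun _ _ => by
    simp only [mk_add, mk_eq]; ring
  zero_add x := x.ind fun _ _ => by simp only [zero_def, mk_add, mk_eq]; ring
  add_zero x := x.ind fun _ _ => by simp only [zero_def, mk_add, mk_eq]; ring
  add_comm x y := x.ind fun _ _ => y.ind fun _ _ => by simp only [mk_add, mk_eq]; ring
  neg_add_cancel x := x.ind fun _ _ => by simp only [zero_def, mk_neg, mk_add, mk_eq]; ring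
  mul_assoc x y z := x.ind fun _ _ => y.ind fun _ _ => z.ind fun _ _ => by
    simp only [mk_mul, mk_eq]; ring
  mul_comm x y := x.ind fun _ _ => y.ind fun _ _ => by simp only [mk_mul, mk_eq]; ring
  one_mul x := x.ind fun _ _ => by simp only [one_def, mk_mul, mk_eq]; ring
  mul_one x := x.ind fun _ _ => by simp only [one_def, mk_mul, mk_eq]; ring
  zero_mul x := x.ind fun _ _ => by simp only [zero_def, mk_mul, mk_eq]; ring
  mul_zero x := x.ind fun _ _ => by simp only [zero_def, mk_mul, mk_eq]; ring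
  left_distrib x y z := x.ind fun _ _ => y.ind fun _ _ => z.ind fun _ _ => by
    simp only [mk_mul, mk_add, mk_eq]; ring
  right_distrib x y z := x.ind fun _ _ => y.ind fun _ _ => z.ind fun _ _ => by
    simp only [mk_mul, mk_add, mk_eq]; ring
  nsmul := nsmulRec
  zsmul := zsmulRec
  natCast n := mk n 0
  natCast_zero := by rw [Nat.cast_zero, zero_def]
  natCast_succ n := by simp only [one_def, mk_add, mk_eq, Nat.cast_succ]; ring

theorem le_aux {x x' y y' : Nn × Nn} (h : x.1 + x'.2 = x'.1 + x.2) (h' : y.1 + y'.2 = y'.1 + y.2)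
    (k : x.1 + y.2 ≤ y.1 + x.2) : x'.1 + y'.2 ≤ y'.1 + x'.2 :=
  le_of_add_le_add_right (a := x.2 + y.2) (by
    calc _ = (x'.1 + x.2) + y.2 + y'.2 := by ring
      _ = (x.1 + y.2) + x'.2 + y'.2 := by rw [← h]; ring
      _ ≤ (y.1 + x.2) + x'.2 + y'.2 := by gcongr
      _ = (y.1 + y'.2) + x.2 + x'.2 := by ring
      _ = _ := by rw [h']; ring)

instance : LE Zz := ⟨Quotient.lift₂ (fun x y => x.1 + y.2 ≤ y.1 + x.2)
  fun _ _ _ _ h h' => propext ⟨le_aux h h', le_aux (Eq.symm h) (Eq.symm h')⟩⟩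

theorem mk_le {a b c d : Nn} : mk a b ≤ mk c d ↔ a + d ≤ c + b := Iff.rfl

noncomputable instance : LinearOrder Zz where
  le_refl x := x.ind fun _ _ => mk_le.2 le_rfl
  le_trans x y z := x.ind fun a b => y.ind fun c d => z.ind fun e f h h' =>
    mk_le.2 (le_of_add_le_add_right (a := d) (by
      calc _ = (a + d) + f := by ring
        _ ≤ (c + b) + f := add_le_add_left (mk_le.1 h) _
        _ = (c + f) + b := by ring
        _ ≤ (e + d) + b := add_le_add_left (mk_le.1 h') _
        _ = _ := by ring))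
  le_antisymm x y := x.ind fun _ _ => y.ind fun _ _ h h' =>
    mk_eq.2 (le_antisymm (mk_le.1 h) (mk_le.1 h'))
  le_total x y := x.ind fun a b => y.ind fun c d => le_total (a + d) (c + b)
  toDecidableLE := Classical.decRel _

theorem mk_lt {a b c d : Nn} : mk a b < mk c d ↔ a + d < c + b := by
  rw [← not_le, mk_le, not_le]

instance : IsOrderedAddMonoid Zz where
  add_le_add_left x y := x.ind fun a b => y.ind fun c d h z => z.ind fun e f => by
    rw [mk_add, mk_add, mk_le]
    calc _ = (a + d) + (e + f) := by ring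
      _ ≤ (c + b) + (e + f) := add_le_add_left (mk_le.1 h) _
      _ = _ := by ring

instance : ZeroLEOneClass Zz := ⟨mk_le.2 (by simp)⟩

instance : Nontrivial Zz := ⟨⟨mk 1 0, mk 0 0, fun h => by simpa using mk_eq.1 h⟩⟩

instance : IsStrictOrderedRing Zz :=
  .of_mul_pos fun x y => x.ind fun a b => y.ind fun c d h h' => by
    rw [zero_def, mk_lt, zero_add, add_zero] at h h'
    obtain ⟨k, rfl⟩ := h.le
    obtain ⟨j, rfl⟩ := h'.le
    rw [zero_def, mk_mul, mk_lt, zero_add, add_zero]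
    have : 0 < k * j := mul_pos (by simpa using h) (by simpa using h')
    calc _ < (b + k) * d + b * (d + j) + k * j := lt_add_of_pos_right _ this
      _ = _ := by ring

theorem le_or_succ_le (x y : Zz) : x ≤ y ∨ y + 1 ≤ x :=
  x.ind fun a b => y.ind fun c d => by
    rw [one_def, mk_add, mk_le, mk_le, add_zero, add_right_comm, ← Nn.lt_iff_add_one_le]
    exact le_or_gt _ _

grind_pattern le_or_succ_le => x ≤ y

end Zz

namespace Nn

/-- The cast to the integers of the model. -/
@[coe] noncomputable def z (a : Nn) : Zz := Zz.mk a 0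

noncomputable instance : Coe Nn Zz := ⟨z⟩

variable (a b : Nn)

theorem nn : 0 ≤ a.z := Zz.mk_le.2 (by simp)

grind_pattern nn => a.z

@[grind =, zify_simps] theorem le_iff_z : a ≤ b ↔ a.z ≤ b.z := by simp [z, Zz.mk_le]

@[zify_simps] theorem eq_iff_z : a = b ↔ a.z = b.z := by simp [z, Zz.mk_eq]

@[zify_simps] theorem ne_iff_z : a ≠ b ↔ a.z ≠ b.z := (eq_iff_z a b).not

@[grind =, push_cast] theorem z_add : (a + b).z = a.z + b.z := by simp [z, Zz.mk_add]

@[grind =, push_cast] theorem z_zero : (0 : Nn).z = 0 := rfl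

@[grind =, push_cast] theorem z_one : (1 : Nn).z = 1 := rfl

@[grind =, zify_simps] theorem lt_iff_z : a < b ↔ a.z + 1 ≤ b.z := by
  rw [lt_iff_add_one_le, le_iff_z, z_add, z_one]

@[qify_simps] theorem z_mul : (a * b).z = a.z * b.z := by simp [z, Zz.mk_mul]

@[qify_simps] theorem z_pow (n : ℕ) : (a ^ n).z = a.z ^ n := by
  induction n with
  | zero => rw [pow_zero, pow_zero, z_one]
  | succ n ih => rw [pow_succ, pow_succ, z_mul, ih]

@[push_cast] theorem z_natCast (n : ℕ) : (n : Nn).z = n := by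
  induction n with
  | zero => rw [Nat.cast_zero, Nat.cast_zero, z_zero]
  | succ n ih => rw [Nat.cast_succ, Nat.cast_succ, z_add, ih, z_one]

@[push_cast] theorem z_ofNat (n : ℕ) [n.AtLeastTwo] : (ofNat(n) : Nn).z = ofNat(n) :=
  z_natCast n

@[push_cast] theorem z_ofNat_mul (n : ℕ) [n.AtLeastTwo] :
    (ofNat(n) * a : Nn).z = ofNat(n) * a.z := by rw [z_mul, z_ofNat]

@[push_cast] theorem z_mul_ofNat (n : ℕ) [n.AtLeastTwo] :
    (a * ofNat(n) : Nn).z = a.z * ofNat(n) := by rw [z_mul, z_ofNat]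

@[push_cast] theorem z_ofNat_pow (n : ℕ) [n.AtLeastTwo] (k : ℕ) :
    ((ofNat(n) : Nn) ^ k).z = ofNat(n) ^ k := by rw [z_pow, z_ofNat]

theorem z_sub : (b.z ≤ a.z ∧ (a - b).z = a.z - b.z) ∨ (a.z ≤ b.z ∧ (a - b).z = 0) := by
  rcases le_total b a with h | h
  · refine Or.inl ⟨(le_iff_z _ _).1 h, eq_sub_of_add_eq ?_⟩
    rw [← z_add, tsub_add_cancel_of_le h]
  · exact Or.inr ⟨(le_iff_z _ _).1 h, by rw [tsub_eq_zero_of_le h, z_zero]⟩

grind_pattern z_sub => (a - b).z

theorem z_max : (b.z ≤ a.z ∧ (max a b).z = a.z) ∨ (a.z ≤ b.z ∧ (max a b).z = b.z) := by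
  rcases le_total b a with h | h
  · exact Or.inl ⟨(le_iff_z _ _).1 h, by rw [max_eq_left h]⟩
  · exact Or.inr ⟨(le_iff_z _ _).1 h, by rw [max_eq_right h]⟩

grind_pattern z_max => (max a b).z

end Nn

end Pool.Agent.P.MP_e517ea_lc.Z
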