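import Pool.Agent.P.MP_e517ea_lc.Z.EF

/-!
Definable closure and isolated types.
-/

set_option synthInstance.maxSize 16384

noncomputable section

namespace Pool.Agent.P.MP_e517ea_lc.Z

open DSet IEq ISeq Sig

variable [ZU] {X W : Type} [Coded X] [Coded W] [Sig X]

/-- Elementary maps. -/
def Eqv (p : DSet (X × X)) : Prop := ∀ n, EF n p

@[fun_prop] theorem DefF.eqv {p : W → DSet (X × X)} (hp : DefF p) : DefF (fun w => Eqv (p w)) := by
  simp only [Eqv, all_eq]; fun_prop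

variable {p q : DSet (X × X)} {K L : DSet X} {m n : Nn} {s t : ISeq X} {x y : X} {R : IEq X}

theorem Eqv.sub (h : Eqv p) (k : q ≤ p) : Eqv q := fun n => (h n).sub k
theorem Eqv.inv (h : Eqv p) : Eqv p.inv := fun n => (h n).inv
theorem Eqv.comp (h : Eqv p) (k : Eqv q) : Eqv (p.comp q) := fun n => (h n).comp (k n)
theorem Eqv.idm (hK : K.Finite) : Eqv K.idm := fun n => EF.idm n hK
theorem Eqv.fin (h : Eqv p) : p.Finite := (h 0).pi.1

/-- A definable sequence of finite sets has a finite union. -/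
theorem finite_union {C : Nn → DSet X} (hC : DefF C) (h : ∀ n, (C n).Finite) :
    ((⊤ : DSet Nn).biUnion C hC).Finite := by
  have h1 : ∀ n, ∃! s : ISeq X, s.Nodup ∧ E s = (⊤ : IEq X).res (insert pt (C n)) := fun n =>
    (bij.surj _ (fin_res_top ((h n).insert pt))).elim fun s k =>
      ⟨s, k, fun t k' => bij.inj t s k'.1 k.1 (k'.2.trans k.2.symm)⟩
  let c : Nn → ISeq X := fun n => uq nil fun s => s.Nodup ∧ E s = (⊤ : IEq X).res (insert pt (C n))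
  have dc : DefF c := by fun_prop
  have h2 : ∀ n, (c n).Nodup ∧ E (c n) = (⊤ : IEq X).res (insert pt (C n)) := fun n =>
    uq_spec nil (h1 n)
  by_cases hT : ((⊤ : DSet Nn).biUnion (fun n => (c n).rng) (by fun_prop)).Finite
  · refine ((card_NL hT).1.biUnion (f := fun s => (E s).blk pt) (by fun_prop)
      fun s k => bij.fin s k.1 pt).subset fun x ⟨n, _, k⟩ =>
        ⟨c n, ⟨(h2 n).1, le_biUnion (f := fun n => (c n).rng) trivial⟩, ?_⟩
    rw [mem_blk, (h2 n).2]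
    exact Or.inr ⟨Or.inl rfl, Or.inr k, trivial⟩
  let r : X → Nn := fun x => uq 0 fun k => (∃ n i, (c n).At i x ∧ Nn.pair n i = k) ∧
    ∀ n i, (c n).At i x → k ≤ Nn.pair n i
  have h3 : ∀ x ∈ (⊤ : DSet Nn).biUnion (fun n => (c n).rng) (by fun_prop),
      ∃ n i, (c n).At i x ∧ Nn.pair n i = r x := fun x ⟨n, _, i, k⟩ => by
    obtain ⟨k, k1, k2⟩ := Nn.exists_min (p := fun k => ∃ n i, (c n).At i x ∧ Nn.pair n i = k)
      (by fun_prop) ⟨_, n, i, k, rfl⟩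
    rwa [show r x = k from uq_eq ⟨k1, fun n i h => k2 _ ⟨n, i, h, rfl⟩⟩ fun _ ⟨k3, k4⟩ =>
      le_antisymm (k1.elim fun n k1 => k1.elim fun i k1 => k1.2 ▸ k4 n i k1.1) (k2 _ k3)]
  obtain ⟨ι, d, hi⟩ := exists_inj_of_idx hT (r := r)
    (by simp only [r, all_eq, imp_eq]; fun_prop) fun x hx y hy e => by
      obtain ⟨n, i, k1, k2⟩ := h3 x hx
      obtain ⟨n', i', k3, k4⟩ := h3 y hy
      obtain ⟨rfl, rfl⟩ := Nn.pair_eq_pair.1 (k2.trans (e.trans k4.symm))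
      exact k1.unique k3
  exact (nd ι d hi).elim

/-- The points fixed by all maps of level `n` over `K`. -/
def dclN (n : Nn) (K : DSet X) : DSet X :=
  ⟨fun x => ∀ p, EF n p → K.idm ≤ p → ∀ y, (x, y) ∈ p → y = x, by
    simp only [all_eq, imp_eq]; fun_prop⟩

theorem mem_dclN : x ∈ dclN n K ↔ ∀ p, EF n p → K.idm ≤ p → ∀ y, (x, y) ∈ p → y = x := Iff.rfl

@[fun_prop] theorem DefF.dclN {n : W → Nn} {K : W → DSet X} (hn : DefF n) (hK : DefF K) :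
    DefF (fun w => dclN (n w) (K w)) :=
  DefF.of_mem (by simp only [mem_dclN, all_eq, imp_eq]; fun_prop)

/-- The definable closure. -/
def dcl (K : DSet X) : DSet X := (⊤ : DSet Nn).biUnion (fun n => dclN n K) (by fun_prop)

@[fun_prop] theorem DefF.dcl {K : W → DSet X} (hK : DefF K) : DefF (fun w => dcl (K w)) := by
  unfold Z.dcl; fun_prop

theorem finite_dcl (hK : K.Finite) : (dcl K).Finite := by
  refine finite_union _ fun n => ?_
  obtain ⟨k, rfl⟩ := exists_rng hK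
  obtain ⟨T, h1, h2⟩ := finite_types (X := X) n (k.len + 1)
  refine (card_le_of_rel (fun x t => t.len = k.len + 1 ∧ EF n ((k.snoc x).zip t)) (by fun_prop)
    (fun x _ => h2 _ rfl) (fun x hx y _ t _ k1 k2 => ?_) h1).1
  have := (k1.2.comp k2.2.inv).sub (zip_le k1.1.symm)
  rw [zip_snoc rfl, zip_self] at this
  exact (hx _ this (le_insert _ _) y (Or.inl rfl)).symm

/-- `R` is invariant under the maps of level `n` over `K`. -/
def InvR (n : Nn) (K : DSet X) (R : IEq X) : Prop :=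
  ∀ p, EF n p → K.idm ≤ p → ∀ a a' b b', (a, a') ∈ p → (b, b') ∈ p → R a b → R a' b'

theorem InvR.code (h : InvR n K R) (hR : R.Fin) : ∃ s, s ∈ NL (dcl K) ∧ E s = R := by
  obtain ⟨s, hs, rfl⟩ := bij.surj R hR
  refine ⟨s, ⟨hs, fun x ⟨i, hx⟩ => ⟨n + 1 + 1 + s.rng.card, trivial, fun p k1 k2 y k3 => ?_⟩⟩, rfl⟩
  obtain ⟨q, m1, m2, m3⟩ := k1.ext s.finite_rng
  obtain ⟨t, ht⟩ := ISeq.exists_rel q m3
  obtain rfl : t = s := by
    refine bij.inj t s (ht.nodup m1.pi.2.2.fn hs) hs (IEq.ext fun a b => ?_)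
    obtain ⟨a', m4⟩ := m1.bwd a
    obtain ⟨b', m5⟩ := m4.bwd b
    have m6 : q ≤ _ := (le_insert (a', a) q).trans (le_insert (b', b) _)
    have m7 := k2.trans (m2.trans m6)
    rw [← m5.rel hs (ht.mono m6) (Or.inr (Or.inl rfl)) (Or.inl rfl)]
    exact ⟨h _ m5 m7 _ _ _ _ (Or.inr (Or.inl rfl)) (Or.inl rfl),
      h _ m5.inv (idm_le_inv m7) _ _ _ _ (Or.inr (Or.inl rfl)) (Or.inl rfl)⟩
  exact m1.fn (m2 k3) (ht.2 i x x hx hx)

theorem exists_family (hK : K.Finite) : ∃ 𝓢 : DSet (DSet (X × X)), 𝓢.Finite ∧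
    ∀ n (R : IEq X), InvR n K R → R.Fin → R.gr ∈ 𝓢 :=
  ⟨_, (card_NL (finite_dcl hK)).1.image (fun s => (E s).gr) (by fun_prop), fun _ _ h hR =>
    (h.code hR).imp fun _ k => ⟨k.1, congrArg IEq.gr k.2⟩⟩

/-- `x` is definable over `K` or lies in a nontrivial block of a partition coded in `K`. -/
def Step (K : DSet X) (x : X) : Prop :=
  x ∈ dcl K ∨ ∃ s : ISeq X, s ∈ NL K ∧ ∃ y, y ≠ x ∧ E s x y

@[fun_prop] theorem DefF.step {K : W → DSet X} {x : W → X} (hK : DefF K) (hx : DefF x) :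
    DefF (fun w => Step (K w) (x w)) := by
  unfold Step; fun_prop

omit [Sig X] in
theorem idm_mono (h : K ≤ L) : K.idm ≤ L.idm := fun _ k => ⟨h k.1, k.2⟩

omit [Sig X] in
theorem idm_le (h : ∀ a ∈ K, (a, a) ∈ p) : K.idm ≤ p := by
  rintro ⟨a, b⟩ ⟨k, rfl : a = b⟩
  exact h a k

theorem Step.mono (h : Step K x) (k : K ≤ L) : Step L x :=
  h.imp (fun ⟨n, _, h⟩ => ⟨n, trivial, fun p k1 k2 => h p k1 ((idm_mono k).trans k2)⟩)
    fun ⟨s, k1, k2⟩ => ⟨s, ⟨k1.1, k1.2.trans k⟩, k2⟩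

theorem Step.transfer (h : Step K x) (hq : Eqv q) (hK : K ≤ q.dom) (k : (x, y) ∈ q) :
    Step (q.restr K).ran y := by
  rcases h with ⟨n, -, h⟩ | ⟨s, hs, z, h1, h2⟩
  · refine Or.inl ⟨n, trivial, fun p k1 k2 y' k3 => ?_⟩
    obtain ⟨x', k4⟩ := (hq (n + 1)).bwd y'
    obtain rfl := h _ ((k4.comp k1).comp k4.inv) (idm_le fun a ha =>
      (hK ha).elim fun b hb => ⟨b, ⟨b, Or.inr hb, k2 ⟨⟨a, hb, ha⟩, rfl⟩⟩, Or.inr hb⟩) x'
      ⟨y', ⟨y, Or.inr k, k3⟩, Or.inl rfl⟩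
    exact k4.fn (Or.inl rfl) (Or.inr k)
  · obtain ⟨t, ht⟩ := ISeq.exists_rel (s := s) (q.restr K) fun a ha =>
      (hK (hs.2 ha)).imp fun _ k => ⟨k, hs.2 ha⟩
    obtain ⟨z', k1⟩ := (hq (0 + 1)).fwd z
    have ht' := ht.mono (restr_le.trans (le_insert (z, z') q))
    exact Or.inr ⟨t, ⟨ht'.nodup k1.pi.2.2.fn hs.1, fun b ⟨i, hb⟩ => (ht.bwd hb).imp fun _ k => k.2⟩,
      z', fun e => h1 (k1.fn' (Or.inl rfl) (e ▸ Or.inr k)),
      (k1.rel hs.1 ht' (Or.inr k) (Or.inl rfl)).1 h2⟩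

/-- The type of `x` over `K` is isolated. -/
def Iso (K : DSet X) (x : X) : Prop :=
  ∃ n, ∀ y, EF n (insert (x, y) K.idm) → Eqv (insert (x, y) K.idm)

@[fun_prop] theorem DefF.iso {K : W → DSet X} {x : W → X} (hK : DefF K) (hx : DefF x) :
    DefF (fun w => Iso (K w) (x w)) := by
  simp only [Iso, all_eq, imp_eq]; fun_prop

theorem ins_comp {z : X} (h : EF n (insert (x, y) K.idm)) (hp : EF n p) (k : K.idm ≤ p)
    (k' : (y, z) ∈ p) : EF n (insert (x, z) K.idm) :=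
  (h.comp hp).sub (insert_le_iff.2 ⟨⟨y, Or.inl rfl, k'⟩, idm_le_comp (le_insert _ _) k⟩)

theorem ins_self (hK : K.Finite) (x : X) : Eqv (insert (x, x) K.idm) :=
  (Eqv.idm (hK.insert x)).sub (insert_le_iff.2 ⟨⟨Or.inl rfl, rfl⟩, idm_mono (le_insert _ _)⟩)

theorem Step.iso (h : Step K x) (hK : K.Finite) : Iso K x := by
  rcases h with ⟨n, -, h⟩ | ⟨s, hs, z, h1, h2⟩
  · exact ⟨n, fun y k => h _ k (le_insert _ _) y (Or.inl rfl) ▸ ins_self hK x⟩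
  have rel : ∀ {n p a a' b b'}, EF n p → K.idm ≤ p → (a, a') ∈ p → (b, b') ∈ p → E s a b →
      E s a' b' := fun k1 k2 k3 k4 => (k1.rel hs.1 ((rel_idm hs.2).mono k2) k3 k4).1
  let Q : Nn → IEq X := fun n =>
    { rel := fun a b => a = b ∨ (E s a b ∧ ∃ y, EF n (insert (x, y) K.idm) ∧ E s a y)
      defn := by fun_prop
      refl := fun _ => Or.inl rfl
      symm := fun h => h.imp Eq.symm fun ⟨k1, y, k2, k3⟩ =>
        ⟨(E s).symm k1, y, k2, (E s).trans ((E s).symm k1) k3⟩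
      trans := by
        rintro a b c (rfl | h) (rfl | h')
        exacts [Or.inl rfl, Or.inr h', Or.inr h, Or.inr ⟨(E s).trans h.1 h'.1, h.2⟩] }
  obtain ⟨𝓢, s1, s2⟩ := exists_family hK
  obtain ⟨n0, h0⟩ := stable_anti (f := fun n => (Q n).gr)
    (DefF.of_mem (by simp only [mem_gr, Q]; fun_prop)) s1
    (fun n => s2 (n + 1) _ (by
      rintro p k1 k2 a a' b b' k3 k4 (rfl | ⟨k5, y, k6, k7⟩)
      · exact Or.inl (k1.fn k3 k4)
      obtain ⟨y', k8⟩ := k1.fwd y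
      have k9 := k2.trans (le_insert (y, y') p)
      exact Or.inr ⟨rel k1 k2 k3 k4 k5, y', ins_comp k6 k8 k9 (Or.inl rfl),
        rel k8 k9 (Or.inr k3) (Or.inl rfl) k7⟩)
      fun a => (bij.fin s hs.1 a).subset fun b k => k.elim (fun e => e ▸ (E s).refl a) (·.1))
    fun m n k _ h => h.imp_right fun ⟨k1, y, k2, k3⟩ => ⟨k1, y, k2.mono k, k3⟩
  obtain ⟨n1, h3⟩ := exists_stable_anti
    (f := fun n => ((E s).blk x).sep (fun y => EF n (insert (x, y) K.idm)) (by fun_prop))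
    (by fun_prop) (bij.fin s hs.1 x).sep fun m n k _ h => ⟨h.1, h.2.mono k⟩
  refine ⟨max n0 n1 + 1, fun y k m => ?_⟩
  obtain ⟨y', k1⟩ := k.fwd z
  have k2 := (le_insert (x, y) K.idm).trans (le_insert (z, y') _)
  have k3 := rel k1 k2 (Or.inr (Or.inl rfl)) (Or.inl rfl) h2
  obtain ⟨-, w, k4, k5⟩ := (h0 (max m n1 + 1) (show (y, y') ∈ (Q n0).gr from Or.inr ⟨k3, y,
    k.mono ((le_max_left _ _).trans le_self_add), (E s).refl y⟩)).resolve_left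
      fun (e : y = y') => h1 (k1.fn' (Or.inl rfl) (e ▸ Or.inr (Or.inl rfl)))
  obtain ⟨u, k6⟩ := k4.bwd y
  have k7 := (le_insert (x, w) K.idm).trans (le_insert (u, y) _)
  have k8 := (h3 _ (le_max_right m n1)).ge ⟨rel k6.inv (idm_le_inv k7) (Or.inr (Or.inl rfl))
    (Or.inl rfl) ((E s).symm k5), ins_comp (k.mono ((le_max_right _ _).trans le_self_add))
      (k6.inv.mono (le_max_right _ _)) (idm_le_inv k7) (Or.inl rfl)⟩
  exact (ins_comp k8.2 k6 k7 (Or.inl rfl)).mono (le_max_left _ _)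

theorem iso_transfer (h : ∀ y, EF n (insert (x, y) p.dom.idm) → Eqv (insert (x, y) p.dom.idm))
    (hp : Eqv p) (k : EF n (insert (x, y) p)) : Eqv (insert (x, y) p) := fun m => by
  obtain ⟨a, k1⟩ := (hp (max m n + 1)).bwd y
  have k2 := h a ((k.comp (k1.mono (le_max_right _ _)).inv).sub (insert_le_iff.2
    ⟨⟨y, Or.inl rfl, Or.inl rfl⟩, idm_le fun _ ⟨c, hc⟩ => ⟨c, Or.inr hc, Or.inr hc⟩⟩))
  exact ((k2 m).comp (k1.mono (le_max_left _ _))).sub (insert_le_iff.2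
    ⟨⟨a, Or.inl rfl, Or.inl rfl⟩, fun z hz => ⟨z.1, Or.inr ⟨⟨_, hz⟩, rfl⟩, Or.inr hz⟩⟩)

theorem Iso.ext (h : Iso p.dom x) (hp : Eqv p) : ∃ y, Eqv (insert (x, y) p) :=
  h.elim fun n h => ((hp (n + 1)).fwd x).imp fun _ k => iso_transfer h hp k

/-- The type of an enumeration of `L` over `K` is isolated at level `n`. -/
def IsoS (n : Nn) (K L : DSet X) : Prop :=
  ∀ p, EF n p → K.idm ≤ p → L ≤ p.dom → Eqv (p.restr (K ⊔ L))

@[fun_prop] theorem DefF.isoS {n : W → Nn} {K L : W → DSet X} (hn : DefF n) (hK : DefF K)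
    (hL : DefF L) : DefF (fun w => IsoS (n w) (K w) (L w)) := by
  simp only [IsoS, all_eq, imp_eq]; fun_prop

theorem IsoS.mono (h : IsoS m K L) (k : m ≤ n) : IsoS n K L := fun p k1 => h p (k1.mono k)

theorem IsoS.insert (h : IsoS n K L) (hx : Iso (K ⊔ L) x) : ∃ m, IsoS m K (insert x L) := by
  obtain ⟨m, hx⟩ := hx
  refine ⟨max n m, fun p k1 k2 k3 => ?_⟩
  obtain ⟨⟨y, k4⟩, k5⟩ := insert_le_iff.1 k3
  have e : (p.restr (K ⊔ L)).dom = K ⊔ L := dom_restr (sup_le (dom_idm K ▸ dom_mono k2) k5)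
  refine (iso_transfer (y := y) (e.symm ▸ hx) (h p (k1.mono (le_max_left _ _)) k2 k5)
    ((k1.mono (le_max_right _ _)).sub (insert_le_iff.2 ⟨k4, restr_le⟩))).sub ?_
  rintro ⟨a, b⟩ ⟨m1, m2 | (rfl : a = x) | m2⟩
  exacts [Or.inr ⟨m1, Or.inl m2⟩, Or.inl (Prod.ext rfl (k1.fn m1 k4)), Or.inr ⟨m1, Or.inr m2⟩]

theorem IsoS.iso (h : IsoS n K L) (hL : L.Finite) (hx : x ∈ L) : Iso K x :=
  ⟨n + L.card, fun y k => by
    obtain ⟨q, k1, k2, k3⟩ := k.ext hL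
    exact (h q k1 ((le_insert _ _).trans k2) k3).sub (insert_le_iff.2
      ⟨⟨k2 (Or.inl rfl), Or.inr hx⟩, fun z hz => ⟨k2 (Or.inr hz), Or.inl hz.1⟩⟩)⟩

theorem iso_set (hK : K.Finite) (hL : L.Finite) (h : ∀ x ∈ L, ∀ K : DSet X, K.Finite → Iso K x) :
    ∃ n, IsoS n K L :=
  hL.induction_on_le (p := fun L => ∃ n, IsoS n K L) (by fun_prop)
    ⟨0, fun _ k1 k2 _ => (Eqv.idm hK).sub fun z ⟨k3, k4⟩ => by
      rw [sup_bot_eq] at k4
      exact ⟨k4, k1.fn (k2 (show (z.1, z.1) ∈ K.idm from ⟨k4, rfl⟩)) k3⟩⟩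
    fun a _ ha _ hT _ ⟨_, k⟩ => k.insert (h a ha _ (hK.sup hT))

variable (X) in
/-- The least set that is closed under steps. -/
def Rch : DSet X :=
  ⟨fun x => ∀ C : DSet X, (∀ K, K.Finite → K ≤ C → ∀ y, Step K y → y ∈ C) → x ∈ C, by
    simp only [all_eq, imp_eq]; fun_prop⟩

theorem Step.rch (h : Step K x) (hK : K.Finite) (k : K ≤ Rch X) : x ∈ Rch X :=
  fun C hC => hC K hK (fun _ ha => k ha C hC) x h

theorem pt_mem_rch : pt ∈ Rch X :=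
  Step.rch (K := ⊥) (Or.inl ⟨0, trivial, fun _ k _ => k.pi.2.1.pt⟩) finite_bot bot_le

theorem rch_iso (hx : x ∈ Rch X) : ∀ K : DSet X, K.Finite → Iso K x :=
  hx ⟨fun x => ∀ K : DSet X, K.Finite → Iso K x, by simp only [all_eq, imp_eq]; fun_prop⟩
    fun L hL k y h K hK => by
      obtain ⟨n, k1⟩ := iso_set hK hL k
      obtain ⟨m, k2⟩ := k1.insert ((h.mono le_sup_right).iso (hK.sup hL))
      exact k2.iso (hL.insert y) (Or.inl rfl)

theorem Eqv.ext (hp : Eqv p) (hx : x ∈ Rch X) : ∃ y, Eqv (insert (x, y) p) :=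
  (rch_iso hx _ hp.fin.dom).ext hp

theorem Eqv.ext_set (hp : Eqv p) (hL : L.Finite) (h : L ≤ Rch X) :
    ∃ q, Eqv q ∧ p ≤ q ∧ L ≤ q.dom :=
  hL.induction_on_le (p := fun L => ∃ q, Eqv q ∧ p ≤ q ∧ L ≤ q.dom) (by fun_prop)
    ⟨p, hp, le_rfl, bot_le⟩ fun _ _ ha _ _ _ ⟨_, k1, k2, k3⟩ => (k1.ext (h ha)).elim fun b hb =>
      ⟨_, hb, k2.trans (le_insert _ _), insert_le_iff.2 ⟨⟨b, Or.inl rfl⟩,
        k3.trans (dom_mono (le_insert _ _))⟩⟩

theorem Eqv.rch (hp : Eqv p) (k : (x, y) ∈ p) (hx : x ∈ Rch X) : y ∈ Rch X :=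
  (hx ((Rch X).sep (fun x => ∀ p, Eqv p → ∀ y, (x, y) ∈ p → y ∈ Rch X)
    (by simp only [all_eq, imp_eq]; fun_prop)) fun L hL k x h =>
      ⟨h.rch hL fun _ ha => (k ha).1, fun p hp y k1 => by
        obtain ⟨q, k2, k3, k4⟩ := hp.ext_set hL fun _ ha => (k ha).1
        exact (h.transfer k2 k4 (k3 k1)).rch (k2.fin.subset restr_le).ran
          fun b ⟨a, k5, k6⟩ => (k k6).2 q k2 b k5⟩).2 p hp y k

/-- An invariant finitary partition with nontrivial blocks in `Rch X` is coded in `dcl K`. -/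
theorem exists_code_of_eqv (hK : K.Finite) (hR : R.Fin) (h1 : ∀ a b, R a b → a ≠ b → a ∈ Rch X)
    (h2 : ∀ p, Eqv p → K.idm ≤ p → ∀ a a' b b', (a, a') ∈ p → (b, b') ∈ p → R a b → R a' b') :
    ∃ s, s ∈ NL (dcl K) ∧ E s = R := by
  let Q : Nn → IEq X := fun n =>
    { rel := fun a b => a = b ∨ (R a b ∧ (R.blk a).card ≤ n ∧ IsoS n K (R.blk a))
      defn := by fun_prop
      refl := fun _ => Or.inl rfl
      symm := fun h => h.imp Eq.symm fun ⟨k, k'⟩ => ⟨R.symm k, blk_eq k ▸ k'⟩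
      trans := by
        rintro a b c (rfl | h) (rfl | h')
        exacts [Or.inl rfl, Or.inr h', Or.inr h, Or.inr ⟨R.trans h.1 h'.1, h.2⟩] }
  have hb : ∀ {a b}, R a b → a ≠ b → R.blk a ≤ Rch X := fun {a b} k k' c hc =>
    (em (c = a)).elim (fun e => e ▸ h1 a b k k') (h1 c a (R.symm hc))
  have q1 : ∀ n, InvR (n + n) K (Q n) := by
    intro n p k1 k2 a a' b b' k3 k4 k
    by_cases e : a = b
    · exact Or.inl (k1.fn k3 (e ▸ k4))
    obtain ⟨k5, k6, k7⟩ := k.resolve_left e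
    obtain ⟨q, m1, m2, m3⟩ := (k1.mono (add_le_add_right k6 n)).ext (hR a)
    have m4 := k7 q m1 (k2.trans m2) m3
    have m5 : K.idm ≤ q.restr (K ⊔ R.blk a) := fun z hz => ⟨m2 (k2 hz), Or.inl hz.1⟩
    have m6 : (a, a') ∈ q.restr (K ⊔ R.blk a) := ⟨m2 k3, Or.inr (R.refl a)⟩
    have m7 := h2 _ m4 m5 _ _ _ _ m6 ⟨m2 k4, Or.inr k5⟩ k5
    have m8 : ∀ z ∈ R.blk a', ∃ w ∈ R.blk a, (w, z) ∈ q := fun z hz => by
      obtain ⟨w, j1⟩ := m4.inv.ext (hb m7 (fun e' => e (k1.fn' k3 (e' ▸ k4))) hz)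
      have j2 := h2 _ j1 ((idm_le_inv m5).trans (le_insert _ _)) _ _ _ _ (Or.inr m6) (Or.inl rfl) hz
      obtain ⟨z', j3⟩ := m3 j2
      exact ⟨w, j2, (j1 0).fn' (Or.inr ⟨j3, Or.inr j2⟩) (Or.inl rfl) ▸ j3⟩
    refine Or.inr ⟨m7, (card_le_of_rel (fun z w => (w, z) ∈ q) (by fun_prop) m8
      (fun _ _ _ _ _ _ => m1.fn) (hR a)).2.trans k6, fun r j1 j2 j3 => ?_⟩
    refine (m4.inv.comp (k7 _ ((m4 n).comp j1) (idm_le_comp m5 j2) fun w hw => ?_)).sub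
      fun ⟨z, z'⟩ ⟨j4, j5⟩ => ?_
    · obtain ⟨z, j4⟩ := m3 hw
      obtain ⟨z', j5⟩ := j3 (h2 _ m4 m5 _ _ _ _ m6 ⟨j4, Or.inr hw⟩ hw)
      exact ⟨z', z, ⟨j4, Or.inr hw⟩, j5⟩
    · rcases j5 with j5 | j5
      · have j6 : (z, z) ∈ q.restr (K ⊔ R.blk a) := m5 ⟨j5, rfl⟩
        exact ⟨z, j6, ⟨z, j6, j4⟩, Or.inl j5⟩
      · obtain ⟨w, j6, j7⟩ := m8 z j5
        exact ⟨w, ⟨j7, Or.inr j6⟩, ⟨z, ⟨j7, Or.inr j6⟩, j4⟩, Or.inr j6⟩
  have q2 : ∀ n, (Q n).Fin := fun n a =>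
    (hR a).subset fun b k => k.elim (fun e => e ▸ R.refl a) (·.1)
  obtain ⟨𝓢, s1, s2⟩ := exists_family hK
  obtain ⟨n, hn⟩ := stable_mono (f := fun n => (Q n).gr)
    (DefF.of_mem (by simp only [mem_gr, Q]; fun_prop)) s1 (fun n => s2 _ _ (q1 n) (q2 n))
    fun m n k _ h => h.imp_right fun h => ⟨h.1, h.2.1.trans k, h.2.2.mono k⟩
  refine ((q1 n).code (q2 n)).imp fun s k => ⟨k.1, k.2.trans (IEq.ext fun a b =>
    ⟨fun k => k.elim (fun e => e ▸ R.refl a) (·.1), fun k => ?_⟩)⟩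
  by_cases e : a = b
  · exact Or.inl e
  obtain ⟨m, hm⟩ := iso_set hK (hR a) fun x hx => rch_iso (hb k e hx)
  exact hn (max m (R.blk a).card) (show (a, b) ∈ (Q _).gr from
    Or.inr ⟨k, le_max_right _ _, hm.mono (le_max_left _ _)⟩)

end Pool.Agent.P.MP_e517ea_lc.Z
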