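import Pool.Agent.P.MP_e517ea_lc.Z.Univ

/-!
Countable elementary submodels, and the transfer of the notions of the problem.
-/

universe u

namespace Pool.Agent.P.MP_e517ea_lc.Z

deriving instance Countable for Fml

variable {M : Type u} {N : Type}

theorem exists_bound (E : M → M → Prop) (φ : Fml) :
    ∃ n, ∀ e e' : ℕ → M, (∀ i < n, e i = e' i) → (Sat E φ e ↔ Sat E φ e') := by
  induction φ with
  | mem i j => exact ⟨i + j + 1, fun e e' h => by simp only [Sat, h i (by omega), h j (by omega)]⟩
  | eq i j => exact ⟨i + j + 1, fun e e' h => by simp only [Sat, h i (by omega), h j (by omega)]⟩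
  | neg φ ih => exact ih.imp fun n k e e' h => not_congr (k e e' h)
  | and φ ψ ih ih' =>
    obtain ⟨m, k⟩ := ih
    obtain ⟨n, k'⟩ := ih'
    exact ⟨m + n, fun e e' h => and_congr (k e e' fun i _ => h i (by omega))
      (k' e e' fun i _ => h i (by omega))⟩
  | all φ ih =>
    exact ih.imp fun n k e e' h => forall_congr' fun x => k _ _ fun i hi => by
      cases i
      exacts [rfl, h _ (by omega)]

/-- Skolem terms, denoting assignments. -/
inductive Sk : Type
  | nil : Sk
  | cons (φ : Fml) (a b : Sk) : Sk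
  deriving Countable

/-- The value of a Skolem term. -/
noncomputable def Sk.ev (E : M → M → Prop) (e₀ : ℕ → M) : Sk → ℕ → M
  | .nil => e₀
  | .cons φ a b => Z.cons (@Classical.epsilon M ⟨e₀ 0⟩ fun x => Sat E φ (Z.cons x (a.ev E e₀)))
    (b.ev E e₀)

/-- The downward theorem of Loewenheim and Skolem. -/
theorem exists_elem (E : M → M → Prop) (e₀ : ℕ → M) : ∃ (N : Type) (_ : Countable N) (j : N → M),
    (∃ e : ℕ → N, (fun i => j (e i)) = e₀) ∧
      ∀ φ e, Sat (fun x y => E (j x) (j y)) φ e ↔ Sat E φ fun i => j (e i) := by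
  have h1 : ∀ φ (a : Sk), (∃ x, Sat E φ (cons x (a.ev E e₀))) →
      Sat E φ (cons ((Sk.cons φ a .nil).ev E e₀ 0) (a.ev E e₀)) := fun φ a h =>
    Classical.epsilon_spec h
  have h2 : ∀ (i : ℕ) (a b : Sk), (Sk.cons (.eq 0 (i + 1)) a b).ev E e₀ 0 = a.ev E e₀ i :=
    fun i a _ => h1 (.eq 0 (i + 1)) a ⟨_, rfl⟩
  let j : Quotient (Setoid.ker fun a : Sk => a.ev E e₀ 0) → M := Quotient.lift _ fun _ _ h => h
  have h3 : ∀ (n : ℕ) (e : ℕ → _), ∃ a : Sk, ∀ i < n, j (e i) = a.ev E e₀ i := fun n => by
    induction n with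
    | zero => exact fun _ => ⟨.nil, fun _ h => by omega⟩
    | succ n ih =>
      intro e
      obtain ⟨b, hb⟩ := ih fun i => e (i + 1)
      obtain ⟨a, ha⟩ := (e 0).exists_rep
      refine ⟨.cons (.eq 0 1) a b, fun i hi => ?_⟩
      cases i
      exacts [ha ▸ (h2 0 a b).symm, hb _ (by omega)]
  have h4 : ∀ x (e : ℕ → _), (fun i => j (cons x e i)) = cons (j x) fun i => j (e i) :=
    fun x e => funext fun i => by cases i <;> rfl
  refine ⟨_, inferInstance, j, ⟨fun i => ⟦.cons (.eq 0 (i + 1)) .nil .nil⟧,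
    funext fun i => h2 i .nil .nil⟩, fun φ => ?_⟩
  induction φ with
  | mem i j => exact fun _ => Iff.rfl
  | eq i k =>
    exact fun e => ⟨congrArg j, Quotient.inductionOn₂ (motive := fun x y => j x = j y → x = y)
      (e i) (e k) fun _ _ h => Quotient.sound h⟩
  | neg φ ih => exact fun e => not_congr (ih e)
  | and φ ψ ih ih' => exact fun e => and_congr (ih e) (ih' e)
  | all φ ih =>
    intro e
    simp only [Sat, ih, h4]
    refine ⟨fun h x => by_contra fun k => ?_, fun h _ => h _⟩
    obtain ⟨n, hn⟩ := exists_bound E φ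
    obtain ⟨a, ha⟩ := h3 n e
    have h5 : ∀ y, Sat E φ (cons y fun i => j (e i)) ↔ Sat E φ (cons y (a.ev E e₀)) := fun y =>
      hn _ _ fun i hi => by
        cases i
        exacts [rfl, ha _ (by omega)]
    exact h1 (.neg φ) a ⟨x, mt (h5 x).2 k⟩ ((h5 _).1 (h ⟦.cons (.neg φ) a .nil⟧))

/-- `R` and `S` are defined in two structures by the same formula. -/
class Abs (D : N → N → Prop) (E : M → M → Prop) (R : (ℕ → N) → Prop) (S : (ℕ → M) → Prop) :
    Prop where
  out : ∃ φ : Fml, (∀ e, R e ↔ Sat D φ e) ∧ ∀ e, S e ↔ Sat E φ e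

namespace Abs

variable {D : N → N → Prop} {E : M → M → Prop} {R R' : (ℕ → N) → Prop} {S S' : (ℕ → M) → Prop}

theorem congr (h : Abs D E R S) (k : ∀ e, R' e ↔ R e) (k' : ∀ e, S' e ↔ S e) : Abs D E R' S' :=
  ⟨h.out.imp fun _ h => ⟨fun e => (k e).trans (h.1 e), fun e => (k' e).trans (h.2 e)⟩⟩

instance mem (i j : ℕ) : Abs D E (fun e => D (e i) (e j)) fun e => E (e i) (e j) :=
  ⟨.mem i j, fun _ => Iff.rfl, fun _ => Iff.rfl⟩

instance eq (i j : ℕ) : Abs D E (fun e => e i = e j) fun e => e i = e j :=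
  ⟨.eq i j, fun _ => Iff.rfl, fun _ => Iff.rfl⟩

instance not [h : Abs D E R S] : Abs D E (fun e => ¬ R e) fun e => ¬ S e :=
  h.out.elim fun φ h => ⟨.neg φ, fun e => not_congr (h.1 e), fun e => not_congr (h.2 e)⟩

instance and [h : Abs D E R S] [k : Abs D E R' S'] :
    Abs D E (fun e => R e ∧ R' e) fun e => S e ∧ S' e :=
  h.out.elim fun φ h => k.out.elim fun ψ k =>
    ⟨.and φ ψ, fun e => and_congr (h.1 e) (k.1 e), fun e => and_congr (h.2 e) (k.2 e)⟩

instance imp [Abs D E R S] [Abs D E R' S'] : Abs D E (fun e => R e → R' e) fun e => S e → S' e :=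
  (inferInstance : Abs D E (fun e => ¬ (R e ∧ ¬ R' e)) fun e => ¬ (S e ∧ ¬ S' e)).congr
    (fun _ => by tauto) fun _ => by tauto

instance or [Abs D E R S] [Abs D E R' S'] : Abs D E (fun e => R e ∨ R' e) fun e => S e ∨ S' e :=
  (inferInstance : Abs D E (fun e => ¬ R e → R' e) fun e => ¬ S e → S' e).congr
    (fun _ => by tauto) fun _ => by tauto

instance iff [Abs D E R S] [Abs D E R' S'] : Abs D E (fun e => R e ↔ R' e) fun e => S e ↔ S' e :=
  (inferInstance : Abs D E (fun e => (R e → R' e) ∧ (R' e → R e))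
    fun e => (S e → S' e) ∧ (S' e → S e)).congr (fun _ => by tauto) fun _ => by tauto

variable {P : N → (ℕ → N) → Prop} {Q : M → (ℕ → M) → Prop}

instance all [h : Abs D E (fun e => P (e 0) fun i => e (i + 1)) fun e => Q (e 0) fun i => e (i + 1)] :
    Abs D E (fun e => ∀ x, P x e) fun e => ∀ x, Q x e :=
  h.out.elim fun φ h => ⟨.all φ, fun e => forall_congr' fun x => h.1 (cons x e),
    fun e => forall_congr' fun x => h.2 (cons x e)⟩

instance ex [Abs D E (fun e => P (e 0) fun i => e (i + 1)) fun e => Q (e 0) fun i => e (i + 1)] :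
    Abs D E (fun e => ∃ x, P x e) fun e => ∃ x, Q x e :=
  (inferInstance : Abs D E (fun e => ¬ ∀ x, ¬ P x e) fun e => ¬ ∀ x, ¬ Q x e).congr
    (fun _ => by push Not; rfl) fun _ => by push Not; rfl

theorem sat (φ : Fml) : Abs D E (fun e => Sat D φ (cons (e 0) fun i => e (i + 3)))
    fun e => Sat E φ (cons (e 0) fun i => e (i + 3)) :=
  ⟨φ.rename (cons 0 (· + 3)),
    fun e => Iff.trans (iff_of_eq (congrArg _ (funext fun i => by cases i <;> rfl)))
      (sat_rename D φ _ e).symm,
    fun e => Iff.trans (iff_of_eq (congrArg _ (funext fun i => by cases i <;> rfl)))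
      (sat_rename E φ _ e).symm⟩

variable (i j k : ℕ)

instance isInductive : Abs D E (fun e => IsInductive D (e i)) fun e => IsInductive E (e i) := by
  unfold IsInductive; infer_instance

instance isNat : Abs D E (fun e => IsNat D (e i)) fun e => IsNat E (e i) := by
  unfold IsNat; infer_instance

instance isOPair :
    Abs D E (fun e => IsOPair D (e i) (e j) (e k)) fun e => IsOPair E (e i) (e j) (e k) := by
  unfold IsOPair; infer_instance

instance maps : Abs D E (fun e => Maps D (e i) (e j) (e k)) fun e => Maps E (e i) (e j) (e k) := by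
  unfold Maps; infer_instance

instance isFunc :
    Abs D E (fun e => IsFunc D (e i) (e j) (e k)) fun e => IsFunc E (e i) (e j) (e k) := by
  simp only [IsFunc, ExistsUnique]; infer_instance

instance eqCard : Abs D E (fun e => EqCard D (e i) (e j)) fun e => EqCard E (e i) (e j) := by
  simp only [EqCard, ExistsUnique]; infer_instance

instance isFinite : Abs D E (fun e => IsFinite D (e i)) fun e => IsFinite E (e i) := by
  unfold IsFinite; infer_instance

instance isFinPartition :
    Abs D E (fun e => IsFinPartition D (e i) (e j)) fun e => IsFinPartition E (e i) (e j) := by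
  simp only [IsFinPartition, ExistsUnique]; infer_instance

instance isInjSeq : Abs D E (fun e => IsInjSeq D (e i) (e j)) fun e => IsInjSeq E (e i) (e j) := by
  unfold IsInjSeq; infer_instance

end Abs

end Pool.Agent.P.MP_e517ea_lc.Z
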