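import Pool.Agent.P.MP_e517ea_lc.Z.Stable

/-!
Counting good orbits through the gains caused by merging.
-/

set_option synthInstance.maxSize 16384
set_option linter.unusedSectionVars false

noncomputable section

namespace Pool.Agent.P.MP_e517ea_lc.Z

open DSet IEq

variable [ZU]
variable {G A Ω : Type} [Group G] [MulAction G A] [Coded A] [Coded Ω] [GS G A]

/-- Large orbits that are not big minimal. -/
def LN (U : OS G A) (T : Nn) (O : DSet A) : Prop := O ∈ Orb U ∧ T < nn U O ∧ ¬ Big U O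

/-- Good orbits that merge only with large orbits that are not big minimal. -/
def Bad (U : OS G A) (c : A) (T : Nn) (O : DSet A) : Prop :=
  Good U c T O ∧ (∀ O', Good U c T O' → lab U c O' = lab U c O → O' = O) ∧
    ∃ O', Stb U c O' ∧ LN U T O' ∧ lab U c O' = lab U c O

/-- Unchanged orbits. -/
def Unch (U : OS G A) (c : A) (O : DSet A) : Prop :=
  lab U c O = O \ cl U c ∧ nn (SS U c) (O \ cl U c) = nn U O

variable {U U' V W : OS G A} {a b c d d' e x : A} {g : G} {X S R K O O' Ξ : DSet A}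
  {J w ka Y T : Nn}

@[fun_prop] theorem DefF.ln {O : Ω → DSet A} (hO : DefF O) : DefF (fun z => LN U T (O z)) := by
  unfold LN; fun_prop

@[fun_prop] theorem DefF.bad {O : Ω → DSet A} (hO : DefF O) : DefF (fun z => Bad U c T (O z)) := by
  simp only [Bad, all_eq, imp_eq]; fun_prop

@[fun_prop] theorem DefF.unch {O : Ω → DSet A} (hO : DefF O) : DefF (fun z => Unch U c (O z)) := by
  unfold Unch; fun_prop

theorem prod_dvd_NN (hf : FinG W) {ι : Type} [Coded ι] {s : DSet ι} (hs : s.Finite) (f : ι → DSet A)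
    (df : DefF f) (h1 : ∀ i ∈ s, Stab W (f i)) (h2 : ∀ i ∈ s, CS W (f i))
    (h3 : ∀ i ∈ s, f i ≤ (acl W)ᶜ) (hd : (s : Set ι).PairwiseDisjoint f) :
    s.prod (fun i => nn W (f i)) ∣ NN W := by
  rw [(prod_nn_le hf hs f df hd).antisymm (nn_biUnion_le hf hs f df h1 fun i hi => (h2 i hi).sat),
    NN, ← sup_sdiff_cancel_right (biUnion_le (hf := df) h3),
    nn_union_eq (X := s.biUnion f df) hf (stab_biUnion h1) (cs_biUnion h2).sat
      disjoint_sdiff_self_right]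
  exact Dvd.intro _ rfl

theorem stab_lab : Stab (SS U c) (lab U c O) := stab_biUnion fun _ _ => stab_XO le_rfl

theorem cs_lab : CS (SS U c) (lab U c O) := cs_biUnion fun _ _ => cs_XO

theorem disjoint_SO (h : O ∈ Orb U) (h' : O' ∈ Orb U) (hne : O ≠ O') :
    Disjoint (O \ cl U c) (O' \ cl U c) := (Orb.disjoint h h' hne).mono sdiff_le sdiff_le

/-- The union of the orbits in `t` outside the closure of `c`. -/
def UO (U : OS G A) (c : A) (t : DSet (DSet A)) : DSet A :=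
  t.biUnion (fun O => O \ cl U c) (by fun_prop)

@[fun_prop] theorem DefF.uo {t : Ω → DSet (DSet A)} (ht : DefF t) :
    DefF (fun z => UO U c (t z)) := by
  unfold UO; fun_prop

theorem le_UO {t : DSet (DSet A)} (h : O ∈ t) : O \ cl U c ≤ UO U c t :=
  le_biUnion (f := fun O => O \ cl U c) h

variable (B : Base U J w)
include B

theorem Base.lab_subset : lab U c O ≤ (acl (SS U c))ᶜ :=
  biUnion_le fun _ hd => XO_subset_compl le_rfl (B.acl_SS c ▸ hd.2)

theorem Base.lab_disjoint (h : Stb U c O) (h' : Stb U c O') (hne : lab U c O ≠ lab U c O') :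
    Disjoint (lab U c O) (lab U c O') := by
  obtain ⟨d, -, e⟩ := B.exists_lab h
  obtain ⟨d', -, e'⟩ := B.exists_lab h'
  rw [e, e'] at hne ⊢
  exact XO_disjoint le_rfl hne

theorem Base.fin_orb {t : DSet (DSet A)} (ht : ∀ O ∈ t, O ∈ Orb U) : t.Finite :=
  (Orb.finite (B.hyp.fin U)).subset ht

theorem Base.prod_det {t : DSet (DSet A)} (ht : ∀ O ∈ t, O ∈ Orb U) :
    t.prod (nn U) ≤ nn (SS U c) (UO U c t) :=
  (prod_le_prod (by fun_prop) (by fun_prop) (B.fin_orb ht) fun O hO => B.det (ht O hO)).trans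
    (prod_nn_le (B.hyp.fin (SS U c)) (B.fin_orb ht) _ _
      fun O hO O' hO' hne => disjoint_SO (ht O hO) (ht O' hO') hne)

theorem Base.pairs (hT : 0 < T) {t : DSet (DSet A)} (ht : ∀ O ∈ t, Good U c T O ∧ lab U c O = Ξ) :
    ∃ k, t.card ≤ 2 * k + 1 ∧
      (4 * T ^ 2 + 1) ^ k * t.prod (nn U) ≤ (4 * T ^ 2) ^ k * nn (SS U c) (UO U c t) := by
  have htf := B.fin_orb fun O hO => (ht O hO).1.1.1
  refine htf.strong_induction_on_le (p := fun t => ∃ k, t.card ≤ 2 * k + 1 ∧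
    (4 * T ^ 2 + 1) ^ k * t.prod (nn U) ≤ (4 * T ^ 2) ^ k * nn (SS U c) (UO U c t)) (by fun_prop)
    fun s hs ih => ?_
  have hsf := htf.subset hs
  replace ht : ∀ O ∈ s, Good U c T O ∧ lab U c O = Ξ := fun O hO => ht O (hs hO)
  by_cases h1 : s.card ≤ 1
  · exact ⟨0, by simpa using h1, by simpa using B.prod_det fun O hO => (ht O hO).1.1.1⟩
  obtain ⟨O, hO, O', hO', hne⟩ := (one_lt_card hsf).1 (not_le.1 h1)
  have hO'' : O' ∈ s \ {O} := ⟨hO', hne.symm⟩
  have hsf' : (s \ {O}).Finite := hsf.subset sdiff_le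
  have c1 := card_sdiff_singleton_add_one hO hsf
  have c2 := card_sdiff_singleton_add_one hO'' hsf'
  obtain ⟨k, k1, k2⟩ := ih ((s \ {O}) \ {O'}) ((lt_iff_exists (sdiff_le.trans sdiff_le)).2
    ⟨O, hO, fun h => h.1.2 rfl⟩)
  have k3 := B.gain2 (ht O hO).1 (ht O' hO').1 hT hne ((ht O hO).2.trans (ht O' hO').2.symm)
  have hf := B.hyp.fin (SS U c)
  have k4 := (nn_mul_le hf (X := (O \ cl U c) ⊔ (O' \ cl U c))
    (X' := UO U c ((s \ {O}) \ {O'})) (disjoint_biUnion_right.2 fun X hX =>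
      disjoint_sup_left.2 ⟨disjoint_SO (ht O hO).1.1.1 (ht X hX.1.1).1.1.1 (Ne.symm hX.1.2),
        disjoint_SO (ht O' hO').1.1.1 (ht X hX.1.1).1.1.1 (Ne.symm hX.2)⟩)).trans
    (nn_mono hf (X' := UO U c s)
      (sup_le (sup_le (le_UO hO) (le_UO hO')) (biUnion_le fun X hX => le_UO hX.1.1)))
  refine ⟨k + 1, by zify at c1 c2 k1 ⊢; grind, ?_⟩
  rw [← mul_prod_erase (by fun_prop) hsf hO, ← mul_prod_erase (by fun_prop) hsf' hO'', Nn.pow_succ,
    Nn.pow_succ]
  calc _ = ((4 * T ^ 2 + 1) * (nn U O * nn U O')) *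
        ((4 * T ^ 2 + 1) ^ k * ((s \ {O}) \ {O'}).prod (nn U)) := by ring
    _ ≤ _ := Nn.mul_le_mul k3 k2
    _ = (4 * T ^ 2) ^ k * (4 * T ^ 2) * _ := by ring
    _ ≤ _ := Nn.mul_le_mul_left _ k4

theorem Base.ext {t t' : DSet (DSet A)} (h : t ≤ t') (ht : ∀ O ∈ t', Stb U c O ∧ lab U c O = Ξ)
    {p q : Nn} (hk : p * t.prod (nn U) ≤ q * nn (SS U c) (UO U c t)) :
    p * t'.prod (nn U) ≤ q * nn (SS U c) Ξ := by
  have hf := B.hyp.fin (SS U c)
  have k1 := B.prod_det (c := c) (t := t' \ t) fun O hO => (ht O hO.1).1.1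
  have k2 := (nn_mul_le hf (X := UO U c t) (X' := UO U c (t' \ t))
    (disjoint_biUnion_right.2 fun X hX => disjoint_biUnion_left.2 fun X' hX' =>
      disjoint_SO (ht X' (h hX')).1.1 (ht X hX.1).1.1 fun e => hX.2 (e ▸ hX'))).trans
    (nn_mono hf (X' := Ξ) (sup_le (biUnion_le fun X hX => (ht X (h hX)).2 ▸ subset_lab)
      (biUnion_le fun X hX => (ht X hX.1).2 ▸ subset_lab)))
  rw [← prod_sdiff (by fun_prop) h (B.fin_orb fun O hO => (ht O hO).1.1)]
  calc _ = (p * t.prod (nn U)) * (t' \ t).prod (nn U) := by ring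
    _ ≤ _ := Nn.mul_le_mul hk k1
    _ = q * _ := by ring
    _ ≤ _ := Nn.mul_le_mul_left _ k2

theorem Base.fiber (hT : 0 < T) (t : DSet (DSet A)) (ht : ∀ O, O ∈ t ↔ Stb U c O ∧ lab U c O = Ξ) :
    ∃ e, (4 * T ^ 2 + 1) ^ e * t.prod (nn U) ≤ (4 * T ^ 2) ^ e * nn (SS U c) Ξ ∧
      (t.sep (fun O => Good U c T O ∧ ¬ Bad U c T O) (by fun_prop)).card ≤
        3 * e + (t.sep (Unch U c) (by fun_prop)).card := by
  have htf := B.fin_orb fun O hO => ((ht O).1 hO).1.1
  obtain ⟨k, k1, k2⟩ := B.pairs (Ξ := Ξ) hT (t := t.sep (Good U c T) (by fun_prop)) fun O hO =>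
    ⟨hO.2, ((ht O).1 hO.1).2⟩
  have k3 := B.ext sep_le (fun O hO => (ht O).1 hO) k2
  have k4 : (t.sep (fun O => Good U c T O ∧ ¬ Bad U c T O) (by fun_prop)).card ≤
      (t.sep (Good U c T) (by fun_prop)).card :=
    card_le_card (fun _ h => ⟨h.1, h.2.1⟩) htf.sep
  by_cases h1 : 1 < (t.sep (Good U c T) (by fun_prop)).card
  · exact ⟨k, k3, by zify at h1 k1 k4 ⊢; grind⟩
  rcases (t.sep (fun O => Good U c T O ∧ ¬ Bad U c T O) (by fun_prop)).eq_bot_or_nonempty with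
    h2 | ⟨O, o1, o2, o3⟩
  · exact ⟨k, k3, by rw [h2]; simp⟩
  obtain ⟨-, rfl⟩ := (ht O).1 o1
  have u1 : ∀ O', Good U c T O' → lab U c O' = lab U c O → O' = O := fun O' h h' =>
    (card_le_one htf.sep).1 (not_lt.1 h1) _ ⟨(ht O').2 ⟨h.1, h'⟩, h⟩ _ ⟨o1, o2⟩
  have u2 : t = {O} := le_antisymm (fun O' h => by
    obtain ⟨h3, h4⟩ := (ht O').1 h
    refine u1 O' ⟨h3, ?_⟩ h4
    by_contra h5
    push Not at h5
    exact o3 ⟨o2, u1, O', h3, ⟨h3.1, h5⟩, h4⟩) (singleton_le_iff.2 o1)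
  have u3 : t.prod (nn U) = nn U O := by rw [u2, prod_singleton (by fun_prop)]
  rw [u3]
  rcases (lab U c O \ (O \ cl U c)).eq_bot_or_nonempty with h3 | ⟨x, hx⟩
  · have h4 : lab U c O = O \ cl U c := (sdiff_eq_bot_iff.1 h3).antisymm subset_lab
    have h5 := B.det (c := c) o2.1.1
    by_cases h6 : nn (SS U c) (O \ cl U c) = nn U O
    · refine ⟨0, by simpa [h4] using h5, ?_⟩
      have := (card_pos (S := t.sep (Unch U c) (by fun_prop)) htf.sep).2 ⟨O, o1, h4, h6⟩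
      zify at this h1 k4 ⊢
      grind
    · refine ⟨1, ?_, by zify at h1 k4 ⊢; grind⟩
      have h7 := o2.2.resolve_right fun h => h6 ((B.st5 o2.1 h).antisymm h5)
      rw [h4, Nn.pow_one, Nn.pow_one, add_mul, one_mul]
      refine le_trans ?_ (Nn.mul_le_mul_left _ (Nn.lt_iff_add_one_le.1 (h5.lt_of_ne' h6)))
      rw [mul_add, mul_one]
      exact Nn.add_le_add_left (h7.trans ((Nn.le_mul_of_pos_right _
        (mul_pos four_pos hT)).trans_eq (by ring))) _
  · refine ⟨1, ?_, by zify at h1 k4 ⊢; grind⟩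
    have := B.gain1 o2 hT (stab_lab.diff (stab_SO o2.1.1)) sdiff_le hx disjoint_sdiff_self_right
    rw [sup_sdiff_cancel_right subset_lab] at this
    rwa [Nn.pow_one, Nn.pow_one]

/-- Unchanged orbits are few. -/
theorem Base.unch (hc : 1 ≤ (F0 U c).card) (t : DSet (DSet A))
    (ht : ∀ O ∈ t, Stb U c O ∧ Unch U c O) :
    2 ^ t.card ≤ ((Fix U).card + (F0 U c).card + 1) ^ (F0 U c).card := by
  have H := B.hyp
  have htf := B.fin_orb fun O hO => (ht O hO).1.1
  have k1 := prod_dvd_NN (H.fin U) htf (fun O => O) DefF.id (fun O h => Orb.stab (ht O h).1.1)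
    (fun O h => Orb.cs (ht O h).1.1) (fun O h => Orb.subset (ht O h).1.1)
    fun O h O' h' hne => Orb.disjoint (ht O h).1.1 (ht O' h').1.1 hne
  have k2 := prod_dvd_NN (H.fin (SS U c)) htf (fun O => O \ cl U c) (by fun_prop)
    (fun O h => stab_SO (ht O h).1.1)
    (fun O h => (ht O h).2.1 ▸ cs_lab) (fun O h => (ht O h).2.1 ▸ B.lab_subset)
    fun O h O' h' hne => disjoint_SO (ht O h).1.1 (ht O' h').1.1 hne
  rw [prod_congr fun O h => (ht O h).2.2] at k2
  have k3 : (Fix (SS U c)).card = (Fix U).card + (F0 U c).card := by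
    rw [add_comm, F0, card_sdiff_add_card_of_le (Fix_anti SS_le) (H.fix _)]
  refine (pow_card_le_prod (f := nn U) (by fun_prop) htf fun O h => Orb.two_le (ht O h).1.1).trans
    (le_of_dvd_nseq hc ?_ ?_)
  · rw [H.nseq_eq U]; exact k1.mul_left _
  · rw [← k3, H.nseq_eq]; exact k2.mul_left _

/-- The number of good orbits that are not bad. -/
theorem Base.good_le (hT : 0 < T) {β M : Nn} (hβ : NN (SS U c) ≤ β * NN U)
    (hM : β * ((Orb U).sep (fun O => ¬ Stb U c O) (by fun_prop)).prod (nn U) ≤ 2 ^ M) :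
    ((Orb U).sep (fun O => Good U c T O ∧ ¬ Bad U c T O) (by fun_prop)).card ≤
      3 * (4 * T ^ 2 * M) +
        ((Orb U).sep (fun O => Stb U c O ∧ Unch U c O) (by fun_prop)).card := by
  have H := B.hyp
  have hf := H.fin (SS U c)
  have ho := Orb.finite (H.fin U)
  have k3 : NN U ≤ (Orb U).prod (nn U) := nn_le_prod (H.fin U) ho (fun O h => h)
    fun a ha h => ⟨a, ha, rfl, h⟩
  rw [← prod_sep_mul_prod_sep_not (by fun_prop) ho (p := Stb U c) (by fun_prop)] at k3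
  obtain ⟨s, hs⟩ : ∃ s, s = (Orb U).sep (Stb U c) (by fun_prop) := ⟨_, rfl⟩
  rw [← hs] at k3
  have hsf : s.Finite := hs ▸ ho.sep
  have hs' : ∀ O, O ∈ s ↔ Stb U c O := fun O => hs ▸ ⟨(·.2), fun h => ⟨h.1, h⟩⟩
  clear hs
  have dl : DefF (lab U c) := by fun_prop
  have hLf : (s.image (lab U c) dl).Finite := hsf.image _ _
  have d1 : DefF (nn U) := by fun_prop
  have d2 : DefF (fun O => Good U c T O ∧ ¬ Bad U c T O) := by fun_prop
  have d3 : DefF (Unch U c) := by fun_prop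
  have d4 : DefF (nn (SS U c)) := by fun_prop
  have d5 : DefF fun Ξ => s.sep (fun O => lab U c O = Ξ) (by fun_prop) := by fun_prop
  have d6 : DefF fun Ξ => (s.sep (fun O => lab U c O = Ξ) (by fun_prop)).prod (nn U) :=
    DefF.dsetProd d5 (d1.comp DefF.snd)
  have d7 : ∀ (p : DSet A → Prop) (hp : DefF p),
      DefF fun Ξ => ((s.sep (fun O => lab U c O = Ξ) (by fun_prop)).sep p hp).card :=
    fun p hp => DefF.card (DefF.dsetSep (fun _ => hp) d5 (hp.comp DefF.snd))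
  have d8 : DefF fun z : DSet A × Nn =>
      (4 * T ^ 2 + 1) ^ z.2 * (s.sep (fun O => lab U c O = z.1) (by fun_prop)).prod (nn U) ≤
        (4 * T ^ 2) ^ z.2 * nn (SS U c) z.1 :=
    Nn.defF_le (Nn.defF_mul (by fun_prop) (d6.comp DefF.fst)) (by fun_prop)
  have d9 : DefF fun z : DSet A × Nn =>
      ((s.sep (fun O => lab U c O = z.1) (by fun_prop)).sep _ d2).card ≤ 3 * z.2 +
        ((s.sep (fun O => lab U c O = z.1) (by fun_prop)).sep _ d3).card :=
    Nn.defF_le ((d7 _ d2).comp DefF.fst) (Nn.defF_add (by fun_prop) ((d7 _ d3).comp DefF.fst))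
  obtain ⟨e, de, he⟩ := hLf.choice (r := fun Ξ (e : Nn) =>
    (4 * T ^ 2 + 1) ^ e * (s.sep (fun O => lab U c O = Ξ) (by fun_prop)).prod (nn U) ≤
      (4 * T ^ 2) ^ e * nn (SS U c) Ξ ∧
    ((s.sep (fun O => lab U c O = Ξ) (by fun_prop)).sep _ d2).card ≤ 3 * e +
      ((s.sep (fun O => lab U c O = Ξ) (by fun_prop)).sep _ d3).card) (d8.and d9)
    fun Ξ _ => B.fiber (c := c) (Ξ := Ξ) hT (s.sep (fun O => lab U c O = Ξ) (by fun_prop))
      fun O => by rw [mem_sep, hs']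
  have k1 := prod_le_prod (Nn.defF_mul (by fun_prop) d6) (by fun_prop) hLf fun Ξ h => (he Ξ h).1
  rw [prod_mul_distrib (by fun_prop) d6 hLf,
    prod_mul_distrib (by fun_prop) d4 hLf, prod_pow_eq_pow_sum de hLf,
    prod_pow_eq_pow_sum de hLf,
    prod_fiberwise dl d1 hsf hLf fun _ h => mem_image_of_mem h] at k1
  have k2 : (s.image (lab U c) dl).prod (nn (SS U c)) ≤ NN (SS U c) := by
    refine (prod_nn_le hf hLf (fun Ξ => Ξ) DefF.id ?_).trans (nn_mono hf (biUnion_le ?_))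
    · rintro _ ⟨O, hO, rfl⟩ _ ⟨O', hO', rfl⟩ hne
      exact B.lab_disjoint ((hs' _).1 hO) ((hs' _).1 hO') hne
    · rintro _ ⟨O, -, rfl⟩
      exact B.lab_subset
  have k4 : (s.image (lab U c) dl).sum e ≤ 4 * T ^ 2 * M := by
    refine le_of_succ_pow_le (by positivity) (Nn.le_of_mul_le_mul_right (c := s.prod (nn U)) ?_
      (prod_pos d1 hsf fun O _ => nn_pos (H.fin U) O))
    refine k1.trans ?_
    rw [mul_assoc]
    refine Nn.mul_le_mul_left _ (k2.trans (hβ.trans ((Nn.mul_le_mul_left _ k3).trans ?_)))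
    rw [mul_comm (s.prod _), ← mul_assoc]
    exact Nn.mul_le_mul_right _ hM
  have k5 := sum_le_sum (d7 _ d2) (Nn.defF_add (by fun_prop) (d7 _ d3)) hLf fun Ξ h => (he Ξ h).2
  have k6 : ∀ (p : DSet A → Prop) (hp : DefF p), ((s.image (lab U c) dl).sum fun Ξ =>
      ((s.sep (fun O => lab U c O = Ξ) (by fun_prop)).sep p hp).card) = (s.sep p hp).card :=
    fun p hp => by
      rw [card_eq_sum_card_fiberwise (S := s.sep p hp) dl hsf.sep hLf
        fun O h => mem_image_of_mem h.1]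
      exact sum_congr fun _ _ => congrArg card (DSet.ext fun _ => and_right_comm)
  rw [sum_add_distrib (by fun_prop) (d7 _ d3) hLf, ← mul_sum de hLf, k6, k6] at k5
  exact (card_le_card (fun _ h => by exact ⟨(hs' _).2 h.2.1.1, h.2⟩) hsf.sep).trans
    (k5.trans (add_le_add (Nn.mul_le_mul_left _ k4)
      (card_le_card (fun _ h => by exact ⟨((hs' _).1 h.1).1, (hs' _).1 h.1, h.2⟩) ho.sep)))

end Pool.Agent.P.MP_e517ea_lc.Z
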