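import Pool.Agent.P.MP_e517ea_lc.Z.Second

/-!
Minimal classes have few new fixed points.
-/

set_option synthInstance.maxSize 16384
set_option linter.unusedSectionVars false

noncomputable section

namespace Pool.Agent.P.MP_e517ea_lc.Z

open DSet IEq

variable [ZU]
variable {G A : Type} [Group G] [MulAction G A] [Coded A] [GS G A]

variable {U U' V W : OS G A} {a b c d d' x : A} {g : G} {X S K : DSet A} {J w ka Y : Nn}

/-- Setwise stabiliser of a finite set inside `U`. -/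
theorem exists_sw (U : OS G A) (hX : X.Finite) :
    ∃ P : OS G A, ∀ g, g ∈ P ↔ g ∈ U ∧ ∀ x, g • x ∈ X ↔ x ∈ X := by
  let H : Subgroup G :=
    { carrier := {g | g ∈ U ∧ ∀ x, g • x ∈ X ↔ x ∈ X}
      one_mem' := ⟨U.one_mem, fun _ => by rw [one_smul]⟩
      mul_mem' := fun {g h} hg hh => ⟨U.mul_mem hg.1 hh.1, fun x => by rw [mul_smul, hg.2, hh.2]⟩
      inv_mem' := fun {g} hg => ⟨U.inv_mem hg.1, fun x => by rw [← hg.2, smul_inv_smul]⟩ }
  refine ⟨⟨H, (U ⊓ pw G X).opn.imp fun K h => ⟨h.1, fun g hg => ⟨(h.2 g hg).1, fun x =>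
    Stab.iff (V := pw G X) (fun k hk a ha => by rwa [hk hX a ha]) (h.2 g hg).2⟩⟩,
    U.defF_tr_of hX (R := fun z _ => z.2 ∈ X ↔ z.1 ∈ X) (by fun_prop)
      (fun g hg => ⟨hg.1, fun a _ => hg.2 a⟩) fun g hg h => ⟨hg, fun x => ?_⟩⟩, fun _ => Iff.rfl⟩
  exact ⟨fun k => (h x x (Or.inr k) (Or.inr k)).1 k, fun k => (h x x (Or.inl k) (Or.inl k)).2 k⟩

theorem smul_mem_acl (h : ∀ k ∈ W, g⁻¹ * k * g ∈ W) (hx : x ∈ acl W) : g • x ∈ acl W := by
  refine (fin_of_smul g⁻¹ hx ?_).1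
  rintro _ ⟨k, hk, rfl⟩
  exact ⟨_, h k hk, by simp [mul_smul]⟩

theorem conj_mem_SS (hg : g ∈ U) (e : cl U (g • a) = cl U b) {k : G} (hk : k ∈ SS U b) :
    g⁻¹ * k * g ∈ SS U a :=
  ⟨U.mul_mem (U.mul_mem (U.inv_mem hg) hk.1) hg, by
    have := cl_smul_eq (U.inv_mem hg) (SS_congr e ▸ hk : k ∈ SS U (g • a)).2
    simpa [mul_smul] using this⟩

theorem Hyp.acl_two (H : Hyp G A) (U : OS G A) : acl (SS U a ⊓ SS U b) = cl (SS U a) b :=
  (acl_anti (le_inf inf_le_left ((inf_le_inf_right _ SS_le).trans inf_pw_le_SS))).antisymm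
    (cl_subset_acl inf_le_left (acl_anti inf_le_right (H.acl_SS U b ▸ mem_cl_self U b)))

/-- An orbit that splits. -/
theorem nn_split (hV : V ≤ U) (hf : FinG V) (hd : d ∈ XO U U a) (hd' : d' ∈ XO U U a)
    (h1 : d ∉ acl V) (h2 : d' ∉ acl V) (h : d' ∉ XO U V d) :
    nn U (XO U U a) * nn U (XO U U a) ≤ nn V (XO U U a \ acl V) := by
  have k1 : ∀ y ∈ XO U U a, nn U (XO U U a) ≤ nn V (XO U V y) := fun y hy =>
    XO_eq le_rfl hy ▸ nn_XO_le le_rfl hV hf (stab_XO hV) cls_subset_XO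
  have k2 : ∀ y ∈ XO U U a, y ∉ acl V → XO U V y ≤ XO U U a \ acl V := fun y hy hy' z hz =>
    ⟨XO_eq le_rfl hy ▸ XO_mono hV hz, XO_subset_compl hV hy' hz⟩
  exact (Nn.mul_le_mul (k1 d hd) (k1 d' hd')).trans ((nn_mul_le hf (XO_disjoint hV fun e =>
    h (e.symm ▸ mem_XO_self))).trans (nn_mono hf (sup_le (k2 d hd h1) (k2 d' hd' h2))))

theorem Base.lower (B : Base U J w) (h : MinP U a) {t : Nn} (ht : t ≤ (F0 U a).card) :
    t ^ ((F0 U a).card - t) ≤ nn U (XO U U a) := by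
  have H := B.hyp
  have k1 := nn_cls_le (X := XO U U a) le_rfl (H.fin U) (H.F0f U a) (B.F0_cls h)
    ((stab_Fix sdiff_le).mono inf_le_right) (stab_XO le_rfl) ((B.F0_cls h).trans cls_subset_XO)
  rw [inf_eq_right.2 SS_le] at k1
  exact (nn_lower (H.fin (SS U a)) (H.F0f U a) (fun g hg a ha => ha.1 g hg) ht).trans k1

theorem Base2.lemA (B : Base2 U J w ka Y) (h1 : 2 * w ^ (2 * (ka + 4)) + 2 ≤ Y) (h2 : w ^ ka < J)
    (ha : MinP U a) (hY : (F0 U a).card = Y) : False := by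
  classical
  have H := B.hyp
  have p1 := B.Y_pos
  have p2 := B.w_pos
  have low : w ^ ((ka + 4) * Y) < nn U (XO U U a) := by
    obtain ⟨d1, d2⟩ := Nn.div_spec Y two_pos
    have k1 := B.lower ha (t := Y / 2) (hY ▸ Nn.div_le_self _ _)
    rw [hY] at k1
    refine lt_of_lt_of_le ?_ k1
    calc _ ≤ (w ^ (2 * (ka + 4))) ^ (Y - Y / 2) := by
          rw [← Nn.pow_mul]
          refine Nn.pow_le_pow_right p2 ?_
          rw [mul_comm 2, mul_assoc]
          exact Nn.mul_le_mul_left _ (by zify at d1 ⊢; grind)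
      _ < _ := Nn.pow_lt_pow_left (by zify at h1 d2 ⊢; grind) (by zify at p1 d1 ⊢; grind)
  set V := SS U a with hV
  have eV : acl V = cl U a := B.acl_SS a
  have tr : ∀ d ∈ XO U U a, ∀ d' ∈ XO U U a, d ∉ cl U a → d' ∉ cl U a → d' ∈ XO U V d := by
    intro d hd d' hd' k1 k2
    by_contra h
    have k3 := nn_split SS_le (H.fin V) hd hd' (eV ▸ k1) (eV ▸ k2) h
    rw [eV] at k3
    have k4 := Nn.le_of_mul_le_mul_right (k3.trans (B.f1 ha (stab_XO le_rfl) cs_XO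
      (XO_subset_compl le_rfl ha.1))) (nn_pos (H.fin U) _)
    exact absurd (k4.trans (Nn.pow_le_pow_right p2 ⟨(ka + 3) * Y, by ring⟩)) (not_le.2 low)
  obtain ⟨g, hg, hgen⟩ := H.exists_gen V ha.1
  have hb : g • a ∉ cl U a := eV ▸ gen_subset hgen
  have hbm := ha.smul hg
  obtain ⟨v, hv, ev⟩ := tr _ (smul_mem_XO hg) _ (smul_mem_XO (U.inv_mem hg)) hb fun h =>
    hb (hbm.2 a (by simpa using smul_mem_cl hg h) ha.1 ▸ mem_cl_self U _)
  set b := g • a with hbdef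
  have hs : g * v ∈ U := U.mul_mem hg hv.1
  have s1 : cl U ((g * v) • a) = cl U b := by rw [mul_smul]; exact (cl_smul_eq hg hv.2).symm
  have s2 : cl U ((g * v) • b) = cl U a := by
    rw [mul_smul]; simpa using cl_smul_eq hg ev
  have s3 : cl U ((g * v)⁻¹ • a) = cl U b := by
    simpa only [inv_smul_smul] using (cl_smul_eq (U.inv_mem hs) s2).symm
  have s4 : cl U ((g * v)⁻¹ • b) = cl U a := by
    simpa only [inv_smul_smul] using (cl_smul_eq (U.inv_mem hs) s1).symm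
  obtain ⟨P, hP⟩ := exists_sw U (H.clf V b)
  have hsP : g * v ∈ P := by
    refine (hP _).2 ⟨hs, fun x => ?_⟩
    rw [← H.acl_two U]
    refine ⟨fun h => ?_, smul_mem_acl fun k hk => ⟨conj_mem_SS hs s1 hk.2, conj_mem_SS hs s2 hk.1⟩⟩
    simpa only [inv_smul_smul] using smul_mem_acl (W := SS U a ⊓ SS U b) (g := (g * v)⁻¹) (fun k hk =>
      ⟨conj_mem_SS (U.inv_mem hs) s3 hk.2, conj_mem_SS (U.inv_mem hs) s4 hk.1⟩) h
  have hle : SS V b ≤ P := fun k hk => (hP _).2 ⟨hk.1.1, fun x => stab_cl.iff hk⟩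
  have hPU : P ≤ U := fun _ h => ((hP _).1 h).1
  have hPs : Stab P (cl V b) := fun k hk x hx => (((hP _).1 hk).2 x).2 hx
  have z1 : ∀ z ∈ Fix P \ Fix U, z ∉ cl U a := fun z hz h => by
    have e := ha.2 z h (B.closed ▸ hz.2)
    have := cl_smul_eq hs e
    rw [hz.1 _ hsP, s1, ← e] at this
    exact hb (this ▸ mem_cl_self U b)
  have z2 : ∀ z ∈ Fix P, z ∈ cl V b := fun z hz =>
    H.acl_SS V b ▸ Fix_subset_acl (Fix_anti hle hz)
  by_cases hz : ∀ z ∈ Fix P \ Fix U, b ∈ cl V z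
  · have k1 : (Fix P \ Fix U).card ≤ ka * Y :=
      (card_le_card (S := Fix P \ Fix U) (T := Fix (SS V b) ⊓ cls V b)
        (fun z h => ⟨Fix_anti hle h.1, cl_eq_cl (z2 z h.1) (hz z h)⟩)
        ((H.clsf V b).subset inf_le_right)).trans (B.lemF ha hb)
    have hZ : (Fix P \ Fix U).Finite := (H.fix P).subset sdiff_le
    have hF := (H.F0f U a).sup hZ
    have k2 := B.budget hPU (k1.trans (le_trans ⟨4 * Y, by ring⟩ B.hYl)) stab_bot bot_le hF (orb P)
      (by fun_prop) (fun z hz => by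
        refine ⟨⟨z, mem_orb_self P z⟩, stab_orb, ?_⟩
        rintro _ ⟨k, hk, rfl⟩
        rw [sup_bot_eq]
        exact ⟨subset_acl (H.clf V b) hPs (hPs k hk z (hz.elim
          (fun h => acl_subset_cl (eV ▸ H.F0_subset h)) fun h => z2 z h.1)),
          (stab_Fix le_rfl).compl k (hPU hk) z (hz.elim (·.2) (·.2))⟩)
      (fun x hx y hy hne => disjoint_left.2 (by
        rintro _ ⟨k, hk, rfl⟩ ⟨k', hk', e⟩
        have hq := P.mul_mem (P.inv_mem hk') hk
        have e' : (k'⁻¹ * k) • x = y := by rw [mul_smul, ← e, inv_smul_smul]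
        rcases hx with hx | hx
        · rcases hy with hy | hy
          · refine hne (e'.symm.trans (hx.1 _ (mem_SS_of (hPU hq) (B.F0_cls ha hx) ?_))).symm
            exact e' ▸ B.F0_cls ha hy
          · exact hne ((eq_inv_smul_iff.2 e').trans (hy.1 _ (P.inv_mem hq)))
        · exact hne (e'.symm.trans (hx.1 _ hq)).symm))
    rw [nn_empty, mul_one, card_sup_eq (disjoint_right.2
      fun z h h' => z1 z h (H.F0_subset h')) (H.F0f U a) hZ, hY] at k2
    have k3 := Nn.le_of_mul_le_mul_right ((Nn.mul_le_mul_left _ (H.NN_mono hPU)).trans k2)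
      (H.NN_pos U)
    rw [Nn.pow_add, Nn.mul_pow] at k3
    have k4 := (Nn.le_of_mul_le_mul_right k3 (Nn.pow_pos B.J_pos)).trans
      (Nn.pow_le_pow_right p2 k1)
    rw [Nn.pow_mul] at k4
    exact absurd k4 (not_le.2 (Nn.pow_lt_pow_left h2 p1.ne'))
  · push Not at hz
    obtain ⟨z, k1, k2⟩ := hz
    have k3 := B.gl' ha hbm hb (Fix_anti ((inf_SS_le SS_le rfl).trans hle) k1.1) (z1 z k1)
      (finite_singleton True) (fun _ => b) (by fun_prop) (fun _ _ => z2 z k1.1) (fun _ _ => k2)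
      fun _ k _ k' hne => (hne (k.trans k'.symm)).elim
    rw [prod_singleton (by fun_prop)] at k3
    have k4 := nn_XO_le (a := b) le_rfl SS_le (H.fin V) (stab_XO le_rfl)
      ((cls_mono SS_le).trans (cls_subset_XO (W := V)))
    rw [XO_eq le_rfl (smul_mem_XO hg)] at k4
    exact absurd (k4.trans k3) (not_le.2 low)

end Pool.Agent.P.MP_e517ea_lc.Z
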