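import Pool.Agent.P.MP_e517ea_lc.Z.Labels

/-!
Large orbits and the lowest big minimal points.
-/

set_option synthInstance.maxSize 16384
set_option linter.unusedSectionVars false

noncomputable section

namespace Pool.Agent.P.MP_e517ea_lc.Z

open DSet IEq

variable [ZU]
variable {G A Ω : Type} [Group G] [MulAction G A] [Coded A] [Coded Ω] [GS G A]

/-- Lowest big minimal points. -/
def Low (U : OS G A) (c b : A) : Prop :=
  BigP U b ∧ b ∉ cl U c ∧ ∀ b', BigP U b' → b' ∉ cl U c → b' ∈ cl (SS U c) b → b ∈ cl (SS U c) b'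

variable {U U' V W : OS G A} {a b c d d' e x y : A} {g : G} {X S R K O O' Ξ : DSet A}
  {J w ka Y T om : Nn}

@[fun_prop] theorem DefF.low {b : Ω → A} (hb : DefF b) : DefF (fun z => Low U c (b z)) := by
  simp only [Low, all_eq, imp_eq]; fun_prop

theorem le_of_two_pow (h : w ≤ 2 ^ om) {n m : Nn} (h' : 2 ^ n ≤ w ^ m) : n ≤ om * m :=
  (Nn.pow_le_pow_iff_right one_lt_two).1 (h'.trans (Nn.pow_mul 2 om m ▸ Nn.pow_le_pow_left h _))

theorem Base.F0_pos (B : Base U J w) (hc : MinP U c) : 1 ≤ (F0 U c).card := by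
  have H := B.hyp
  refine Nn.pos_iff_one_le.1 ((card_pos (H.F0f U c)).2 (nonempty_iff_ne_bot.2 fun h0 => ?_))
  have h1 : Fix (SS U c) ≤ Fix U := sdiff_eq_bot_iff.1 h0
  by_cases h : ∀ x ∈ cls U c, x = c
  · exact hc.1 (Fix_subset_acl (h1 fun g hg => h _ hg.2))
  push Not at h
  obtain ⟨x, hx, hne⟩ := h
  refine hc.1 ((H.clsf U c).subset ?_)
  rintro _ ⟨g, hg, rfl⟩
  have := H.code (blk_mem (H.clsf U c) stab_cls) (fun z hz => h1 hz g hg)
    (Or.inr ⟨mem_cls_self U c, hx, trivial⟩ : (⊤ : IEq A).res (cls U c) c x)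
  exact (this.resolve_left fun e => hne (MulAction.injective g e).symm).1

theorem Base.big_orb (B : Base U J w) (h : BigP U b) : XO U U b ∈ Orb U :=
  ⟨b, h.1.1, rfl, lt_of_lt_of_le (Nn.one_lt_two_pow
    (tsub_pos_of_lt (lt_trans (by norm_num) h.2)).ne')
    (B.lower h.1 (t := 2) (by have := h.2; zify at this ⊢; grind))⟩

variable (B : Base2 U J w ka Y) (h65 : 65 ≤ Y ∧ T = (130 * w) ^ (65 : Nn))
include B h65

theorem Base2.ln_nonmin (h : LN U T O) (hy : y ∈ O) : ¬ MinP U y := fun hm => by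
  obtain ⟨h65, rfl⟩ := h65
  have h1 : (F0 U y).card ≤ 65 := not_lt.1 fun h' => h.2.2 ⟨y, hy, hm, h'⟩
  have h2 := B.lt_min hm (h1.trans (h65.trans B.Yl))
  rw [Orb.eq h.1 hy] at h2
  have := B.w_pos
  exact absurd (h2.trans ((Nn.pow_le_pow_left (Nn.mul_le_mul_right _
    (by zify at h1 ⊢; grind)) _).trans
    (Nn.pow_le_pow_right (by positivity) h1))) (not_le.2 h.2.1)

theorem Base2.ln_big (h : LN U T O) (hy : y ∈ O) (hb : MinP U b) (hb' : b ∈ cl U y) :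
    BigP U b := by
  refine ⟨hb, not_le.1 fun h1 => ?_⟩
  have h2 := B.lt_nonmin hb h1 (h65.1.trans B.Yl) (B.ln_nonmin h65 h hy) hb'
  obtain ⟨-, rfl⟩ := h65
  rw [Orb.eq h.1 hy] at h2
  exact absurd (h2.trans (Nn.pow_le_pow_left (Nn.le_mul_of_pos_left _ (by norm_num)) _))
    (not_le.2 h.2.1)

theorem Base2.pa (hc : MinP U c) (hs : Stb U c O) (h : LN U T O)
    (hy : y ∈ O \ cl U c) :
    ∃ b, BigP U b ∧ b ∉ cl U c ∧ b ∈ cl U y ∧ y ∉ cl (SS U c) b := by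
  have H := B.hyp
  by_contra h0
  have h1 : ∀ b, MinP U b → b ∈ cl U y → y ∈ cl (SS U c) b := fun b hb hb' => by
    by_contra h2
    exact h0 ⟨b, B.ln_big h65 h hy.1 hb hb', fun h3 =>
      hb.1 ((B.gen hs hy).2 b hb' (B.acl_SS c ▸ h3)), hb', h2⟩
  obtain ⟨b, hb, hm⟩ := H.exists_min (Orb.subset h.1 hy.1)
  refine B.ln_nonmin h65 h hy.1 (hm.congr (cl_eq_cl ((H.clf (SS U c) b).subset ?_) hb))
  rintro _ ⟨g, hg, rfl⟩
  have k1 : g • y ∈ O := Orb.stab h.1 g hg.1 y hy.1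
  obtain ⟨v, hv, ev⟩ := B.tr hs hy ⟨k1, fun h2 =>
    B.ln_nonmin h65 h k1 (hc.congr (hc.2 _ h2 (Orb.subset h.1 k1)))⟩
  have k2 : b ∈ cl U (v • y) := by
    have := smul_mem_cl hg.1 hb
    rwa [mem_pw_one.1 hg.2, ← ev] at this
  have k3 := smul_mem_cl hv (h1 _ (hm.smul (U.inv_mem hv.1))
    ((smul_mem_cl_iff hv.1).1 (by rwa [smul_inv_smul])))
  rw [smul_inv_smul] at k3
  exact cl_subset SS_le k3 (mem_cl_of_eq ev)

theorem Base2.bad_nonlow (hc : MinP U c) (h : Bad U c T O) (hd : d ∈ O \ cl U c) :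
    ∃ b, BigP U b ∧ b ∉ cl U c ∧ b ∈ cl (SS U c) d ∧ d ∉ cl (SS U c) b := by
  obtain ⟨-, -, O', h1, h2, h3⟩ := h
  obtain ⟨y, hy, e⟩ := B.exists_lab h1
  obtain ⟨v, hv, ev⟩ : d ∈ XO (SS U c) (SS U c) y := e ▸ h3 ▸ subset_lab hd
  obtain ⟨b, k1, k2, k3, k4⟩ := B.pa h65 hc h1 h2 (stab_SO h1.1 v hv y hy)
  exact ⟨b, k1, k2, ev ▸ cl_mono SS_le k3, fun h => k4 (cl_subset le_rfl h (mem_cl_of_eq ev.symm))⟩

theorem Base2.exists_low (hc : MinP U c) (h : Bad U c T O) (hd : d ∈ O \ cl U c) :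
    ∃ b, Low U c b ∧ b ∈ cl (SS U c) d ∧ d ∉ cl (SS U c) b := by
  have hf := B.hyp.clf (SS U c)
  obtain ⟨b0, k1, k2, k3, k4⟩ := B.bad_nonlow h65 hc h hd
  obtain ⟨b, ⟨m1, m2, m3⟩, m4⟩ := exists_min_image
    ⟨fun b => BigP U b ∧ b ∉ cl U c ∧ b ∈ cl (SS U c) d, by fun_prop⟩
    (fun b => (cl (SS U c) b).card) (by fun_prop) ⟨b0, k1, k2, k3⟩
  have key : ∀ b', BigP U b' → b' ∉ cl U c → b' ∈ cl (SS U c) b → cl (SS U c) b' = cl (SS U c) b :=
    fun b' h1 h2 h3 => eq_of_le_of_card_le (cl_subset le_rfl h3)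
      (m4 b' ⟨h1, h2, cl_subset le_rfl m3 h3⟩) (hf b)
  exact ⟨b, ⟨m1, m2, fun b' h1 h2 h3 => key b' h1 h2 h3 ▸ mem_cl_self _ b⟩, m3, fun h =>
    k4 (key b0 k1 k2 (cl_subset le_rfl h k3) ▸ h)⟩

omit h65 in
/-- Bad orbits above one big minimal point. -/
theorem Base2.bad_above (hc : MinP U c) (hw : w ≤ 2 ^ om) (hb : BigP U b) (hb' : b ∉ cl U c)
    (t : DSet (DSet A)) (ht : ∀ O ∈ t, Bad U c T O ∧
      ∃ d ∈ O \ cl U c, b ∈ cl (SS U c) d ∧ d ∉ cl (SS U c) b) :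
    t.card ≤ om * ((ka + 4) * Y) := by
  have : Nonempty A := ⟨b⟩
  have htf := B.fin_orb fun O h => (ht O h).1.1.1.1
  obtain ⟨d, dd, hd⟩ := htf.choice
    (r := fun O d => d ∈ O \ cl U c ∧ b ∈ cl (SS U c) d ∧ d ∉ cl (SS U c) b) (by fun_prop)
    fun O h => (ht O h).2
  obtain ⟨x, hx⟩ := hb.nonempty
  have ex : cl U b = cl U x := B.F0_cls hb.1 hx
  have ex' : cl (SS U c) b = cl (SS U c) x := cl_eq_mono SS_le ex
  have el : ∀ O ∈ t, XO (SS U c) (SS U c) (d O) = lab U c O := fun O h =>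
    (B.lab_eq (ht O h).1.1.1 (hd O h).1).symm
  have := B.gl' hc hb.1 hb' (Fix_anti inf_le_right hx.1)
    (fun h => hb' (cl_subset le_rfl h (mem_cl_of_eq ex.symm))) htf d dd
    (fun O h => cl_subset le_rfl (hd O h).2.1 (mem_cl_of_eq ex')) (fun O h => ex' ▸ (hd O h).2.2)
    fun O h O' h' hne => by
      rw [Function.onFun, el O h, el O' h']
      exact B.lab_disjoint (ht O h).1.1.1 (ht O' h').1.1.1 fun e =>
        hne ((ht O' h').1.2.1 O (ht O h).1.1 e)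
  refine le_of_two_pow hw ((pow_card_le_prod (by fun_prop) htf fun O h => ?_).trans this)
  rw [el O h]
  exact (Orb.two_le (ht O h).1.1.1.1).trans ((B.det (ht O h).1.1.1.1).trans
    (nn_mono (B.hyp.fin (SS U c)) subset_lab))

/-- Large orbits that are not big minimal lie above big minimal orbits. -/
theorem Base2.ln_le (hw : w ≤ 2 ^ om) : ((Orb U).sep (LN U T) (by fun_prop)).card ≤
    om * Y * ((Orb U).sep (Big U) (by fun_prop)).card := by
  have H := B.hyp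
  have ho := Orb.finite (H.fin U)
  rcases ((Orb U).sep (LN U T) (by fun_prop)).eq_bot_or_nonempty with h0 | ⟨O0, ⟨a0, -⟩, -⟩
  · rw [h0]; simp
  have : Nonempty A := ⟨a0⟩
  obtain ⟨b, db, hb⟩ := (ho.sep (p := LN U T) (hp := by fun_prop)).choice
    (r := fun O b => BigP U b ∧ ∃ y, y ∈ O ∧ b ∈ cl U y) (by fun_prop) fun O h => by
      obtain ⟨y, hy, e, -⟩ := h.1
      have hy' : y ∈ O := e ▸ mem_XO_self
      obtain ⟨b, hb, hm⟩ := H.exists_min hy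
      exact ⟨b, B.ln_big h65 h.2 hy' hm hb, y, hy', hb⟩
  refine card_le_mul_card_of_maps_to (f := fun O => XO U U (b O)) (by fun_prop) ho.sep
    (fun O h => ⟨B.big_orb (hb O h).1, _, mem_XO_self, (hb O h).1⟩) _ fun Ob hOb => ?_
  obtain ⟨b0, k1, k2⟩ := hOb.2
  obtain ⟨t, ht⟩ : ∃ t, t = ((Orb U).sep (LN U T) (by fun_prop)).sep (fun O => XO U U (b O) = Ob)
    (by fun_prop) := ⟨_, rfl⟩
  rw [← ht]
  have htf : t.Finite := ht ▸ ho.sep.sep
  have h1 : ∀ O ∈ t, O ∈ (Orb U).sep (LN U T) (by fun_prop) ∧ XO U U (b O) = Ob :=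
    fun O h => (ht ▸ h :)
  have h2 : ∀ O ∈ t, LN U T O := fun O h => (h1 O h).1.2
  obtain ⟨y, dy, hy⟩ := htf.choice (r := fun O y => y ∈ O ∧ b0 ∈ cl U y) (by fun_prop) fun O h => by
    obtain ⟨-, y, hy, hy'⟩ := hb O (h1 O h).1
    obtain ⟨g, hg, e⟩ : b0 ∈ XO U U (b O) := (h1 O h).2 ▸ k1
    exact ⟨g • y, Orb.stab (h2 O h).1 g hg y hy,
      cl_subset le_rfl (smul_mem_cl hg hy') (mem_cl_of_eq e)⟩
  have el : ∀ O ∈ t, XO U U (y O) = O := fun O h => Orb.eq (h2 O h).1 (hy O h).1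
  have := B.lt_above k2.1 (B.hY b0 k2.1) B.Yl htf y dy
    (fun O h h' => B.ln_nonmin h65 (h2 O h) (hy O h).1
    (k2.1.congr (cl_eq_cl h' (hy O h).2))) (fun O h => (hy O h).2) fun O h O' h' hne => by
      rw [Function.onFun, el O h, el O' h']
      exact Orb.disjoint (h2 O h).1 (h2 O' h').1 hne
  refine le_of_two_pow hw ((pow_card_le_prod (by fun_prop) htf fun O h => ?_).trans this)
  rw [el O h]
  exact Orb.two_le (h2 O h).1

end Pool.Agent.P.MP_e517ea_lc.Z
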