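import Pool.Agent.P.MP_e517ea_lc.Z.Bridge
import Pool.Agent.P.MP_e517ea_lc.Z.LS

/-!
Assembly: the theorem for arbitrary models of ZF.
-/

universe u

namespace Pool.Agent.P.MP_e517ea_lc.Z

theorem main {M : Type u} (E : M → M → Prop) (h : IsZF E) (A B S : M) (hA : ¬ IsFinite E A)
    (hB : ∀ P, E P B ↔ IsFinPartition E A P) (hS : ∀ s, E s S ↔ IsInjSeq E A s) :
    ¬ EqCard E B S := fun hc => by
  obtain ⟨N, _, j, ⟨e, he⟩, hj⟩ := exists_elem E (cons A (cons B fun _ => S))
  generalize hD : (fun x y => E (j x) (j y)) = D at hj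
  have tr : ∀ (R : (ℕ → N) → Prop) (S : (ℕ → M) → Prop) [Abs D E R S] (e : ℕ → N),
      S (fun i => j (e i)) → R e := fun R S h e k =>
    h.out.elim fun φ h => (h.1 e).2 ((hj φ e).2 ((h.2 _).1 k))
  let Z : ZU :=
    { M := N
      E := D
      extensionality := tr (fun _ => _) (fun _ => _) e h.extensionality
      pairing := tr (fun _ => _) (fun _ => _) e h.pairing
      union := tr (fun _ => _) (fun _ => _) e h.union
      powerSet := tr (fun _ => _) (fun _ => _) e h.powerSet
      infinity := tr (fun _ => _) (fun _ => _) e h.infinity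
      separation := fun φ e a => by
        have := Abs.sat (D := D) (E := E) φ
        exact tr (fun e => ∃ b, ∀ x, D x b ↔ D x (e 0) ∧ Sat D φ (cons x fun i => e (i + 1)))
          (fun e => ∃ b, ∀ x, E x b ↔ E x (e 0) ∧ Sat E φ (cons x fun i => e (i + 1))) (cons a e)
          (h.separation φ _ _) }
  have : Countable UM := ‹Countable N›
  exact main_countable (a := e 0) (b := e 1) (s := e 2)
    (tr (fun e => ¬ IsFinite D (e 0)) (fun e => ¬ IsFinite E (e 0)) e (he ▸ hA))
    (tr (fun e => ∀ P, D P (e 1) ↔ IsFinPartition D (e 0) P)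
      (fun e => ∀ P, E P (e 1) ↔ IsFinPartition E (e 0) P) e (he ▸ hB))
    (tr (fun e => ∀ P, D P (e 2) ↔ IsInjSeq D (e 0) P)
      (fun e => ∀ P, E P (e 2) ↔ IsInjSeq E (e 0) P) e (he ▸ hS))
    (tr (fun e => EqCard D (e 1) (e 2)) (fun e => EqCard E (e 1) (e 2)) e (he ▸ hc))

end Pool.Agent.P.MP_e517ea_lc.Z
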