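import Pool.Agent.P.MP_e517ea_lc.Z.Iso
import Pool.Agent.P.MP_e517ea_lc.Z.BF
import Pool.Agent.P.MP_e517ea_lc.Z.Final

/-!
The permutation model on the reachable points; the Dedekind finite case over a countable model.
-/

set_option synthInstance.maxSize 16384

noncomputable section

namespace Pool.Agent.P.MP_e517ea_lc.Z

open DSet IEq ISeq Sig

variable [ZU] {X : Type} [Coded X]

section
variable {B : DSet X} {p q : DSet (B × B)} {a b : B}

/-- A relation on a subset as a relation on the whole type. -/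
def upR (p : DSet (B × B)) : DSet (X × X) := p.image (fun z => (z.1.1, z.2.1)) (by fun_prop)

theorem mem_upR : (a.1, b.1) ∈ upR p ↔ (a, b) ∈ p :=
  ⟨fun ⟨z, k, e⟩ => by
    rwa [← show z = (a, b) from Prod.ext (Subtype.ext (Prod.ext_iff.1 e).1)
      (Subtype.ext (Prod.ext_iff.1 e).2)], fun k => ⟨_, k, rfl⟩⟩

theorem upR_le {r : DSet (X × X)} (h : ∀ a b, (a, b) ∈ p → (a.1, b.1) ∈ r) : upR p ≤ r := by
  rintro _ ⟨z, k, rfl⟩
  exact h _ _ k

/-- The partition induced on a subset. -/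
def IEq.down (B : DSet X) (P : IEq X) : IEq B :=
  ⟨fun a b => P a.1 b.1, by fun_prop, fun _ => P.refl _, P.symm, P.trans⟩

theorem IEq.down_iff {P : IEq X} : P.down B a b ↔ P a.1 b.1 := Iff.rfl

/-- A sequence in a subset as a sequence in the whole type. -/
def ISeq.up (s : ISeq B) : ISeq X := s.map Subtype.val DefF.subtypeVal

theorem ISeq.Nodup.up {s : ISeq B} (h : s.Nodup) : s.up.Nodup :=
  h.map Subtype.val_injective.injOn

theorem ISeq.rng_up (s : ISeq B) : s.up.rng ≤ B := by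
  rintro _ ⟨_, x, _, rfl⟩
  exact x.2

theorem ISeq.exists_up {s : ISeq X} (h : s.rng ≤ B) : ∃ t : ISeq B, t.up = s := by
  obtain ⟨t, ht⟩ := ISeq.exists_rel (s := s) (⟨fun z : X × B => z.1 = z.2.1, by fun_prop⟩)
    fun x hx => ⟨⟨x, h hx⟩, rfl⟩
  refine ⟨t, ISeq.ext' ht.1.symm ?_⟩
  rintro i _ ⟨y, k, rfl⟩
  obtain ⟨x, k1, (k2 : x = y.1)⟩ := ht.bwd k
  exact k2 ▸ k1

end

variable [Sig X]

theorem bf_rch : BF fun p : DSet (Rch X × Rch X) => Eqv (upR p) where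
  defn := by unfold upR; fun_prop
  fin h := h.fin.of_injOn (f := fun z => (z.1.1, z.2.1)) (by fun_prop) (fun _ => mem_image_of_mem)
    fun _ _ _ _ e => Prod.ext (Subtype.ext (Prod.ext_iff.1 e).1) (Subtype.ext (Prod.ext_iff.1 e).2)
  fn h _ _ _ k k' := Subtype.ext ((h 0).fn (mem_upR.2 k) (mem_upR.2 k'))
  sub h k := h.sub (upR_le fun _ _ k' => mem_upR.2 (k k'))
  inv h := h.inv.sub (upR_le fun _ _ k => mem_upR.2 k)
  comp h h' := (h.comp h').sub (upR_le fun _ _ ⟨y, k, k'⟩ => ⟨y.1, mem_upR.2 k, mem_upR.2 k'⟩)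
  idm hK := (Eqv.idm (hK.image _ DefF.subtypeVal)).sub
    (upR_le fun _ _ k => ⟨mem_image_of_mem k.1, congrArg Subtype.val k.2⟩)
  ext h a := (h.ext a.2).elim fun b k => ⟨⟨b, k.rch (Or.inl rfl) a.2⟩, k.sub (upR_le fun _ _ k =>
    k.imp (fun e => congrArg (fun z : Rch X × Rch X => (z.1.1, z.2.1)) e) mem_upR.2)⟩

/-- The Dedekind finite case. -/
theorem no_sig [Countable UM] (X : Type) [Coded X] [Sig X] : False := by
  have h := bf_rch (X := X)
  have := h.gs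
  have : _root_.Nonempty (Rch X) := ⟨⟨pt, pt_mem_rch⟩⟩
  have key : ∀ {K : DSet (Rch X)} {p}, Eqv p → (K.image _ DefF.subtypeVal).idm ≤ p →
      ∀ {a a' b b' : Rch X}, (a.1, a'.1) ∈ p → (b.1, b'.1) ∈ p →
      ∃ g ∈ pw h.grp K, g • a = a' ∧ g • b = b' := fun {K p} hp k a a' b b' k1 k2 => by
    obtain ⟨-, g, -, e⟩ := h.tr_iff.2 (hp.sub (upR_le (p := insert (a, a') (insert (b, b') K.idm))
      (by
        rintro x y (e | e | e)
        · cases e; exact k1
        · cases e; exact k2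
        · exact k ⟨mem_image_of_mem e.1, congrArg Subtype.val e.2⟩)))
    exact ⟨g, mem_pw_of fun x hx => e (x, x) (Or.inr (Or.inr ⟨hx, rfl⟩)), e _ (Or.inl rfl),
      e _ (Or.inr (Or.inl rfl))⟩
  have nt : ∀ {s : ISeq (Rch X)}, s.Nodup → ∀ {a b}, E s.up a b → a ≠ b → a ∈ Rch X :=
    fun {s} hs a b k hne => Step.rch (Or.inr ⟨_, ⟨hs.up, le_rfl⟩, b, hne.symm, k⟩)
      s.up.finite_rng s.rng_up
  refine Hyp.false (PermModel.hyp (G := h.grp) (E := fun s => (E s.up).down (Rch X))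
    ⟨DefF.of_ieq (by simp only [down_iff, ISeq.up]; fun_prop), fun K hK => ?_, fun s hs a => ?_,
      fun g s t hs hl k a b e => ?_, fun s t hs ht e => ?_, fun K hK P hP hP' => ?_⟩)
  · have hK' := hK.image _ DefF.subtypeVal
    refine (finite_dcl hK').of_injOn DefF.subtypeVal (fun x hx => ?_) Subtype.val_injective.injOn
    obtain ⟨n, hn⟩ := rch_iso x.2 _ hK'
    refine ⟨n, trivial, fun p k1 k2 y k3 => ?_⟩
    have k4 := hn y (k1.sub (insert_le_iff.2 ⟨k3, k2⟩))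
    obtain ⟨g, k5, k6, -⟩ := key k4 (le_insert _ _) (a := x) (a' := ⟨y, k4.rch (Or.inl rfl) x.2⟩)
      (b := x) (b' := ⟨y, k4.rch (Or.inl rfl) x.2⟩) (Or.inl rfl) (Or.inl rfl)
    exact congrArg Subtype.val (k6.symm.trans (hx g k5))
  · exact (bij.fin _ hs.up a.1).of_injOn DefF.subtypeVal (fun _ k => k) Subtype.val_injective.injOn
  · have hf := (s.finite_rng.insert b).insert a
    have k1 := h.tr_iff.1 ⟨finite_rs g (insert a (insert b s.rng)), g, trivial, fun _ k => k.2.2⟩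
    refine ((k1 0).rel (t := t.up) hs.up ⟨hl, ?_⟩ (mem_upR.2 (mk_mem_rs g hf (Or.inl rfl)))
      (mem_upR.2 (mk_mem_rs g hf (Or.inr (Or.inl rfl))))).1 e
    rintro i _ _ ⟨x, k2, rfl⟩ ⟨y, k3, rfl⟩
    exact k3.unique (k i x k2) ▸ mem_upR.2 (mk_mem_rs g hf (Or.inr (Or.inr k2.mem)))
  · have k : ∀ {s t : ISeq (Rch X)}, s.Nodup → (E s.up).down (Rch X) = (E t.up).down (Rch X) →
        ∀ a b, E s.up a b → E t.up a b := fun {s t} hs e a b k => by
      by_cases hne : a = b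
      · exact hne ▸ (E t.up).refl a
      exact down_iff.1 (e ▸ (down_iff (a := ⟨a, nt hs k hne⟩)
        (b := ⟨b, nt hs ((E _).symm k) (Ne.symm hne)⟩)).2 k)
    exact map_injective Subtype.val_injective
      (bij.inj _ _ hs.up ht.up (IEq.ext fun a b => ⟨k hs e a b, k ht e.symm a b⟩))
  · have hK' := hK.image _ DefF.subtypeVal
    let R : IEq X :=
      { rel := fun x y => x = y ∨ ∃ a b : Rch X, a.1 = x ∧ b.1 = y ∧ P a b
        defn := by fun_prop
        refl := fun _ => Or.inl rfl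
        symm := fun h => h.imp Eq.symm fun ⟨a, b, k1, k2, k3⟩ => ⟨b, a, k2, k1, P.symm k3⟩
        trans := by
          rintro _ _ _ (rfl | ⟨a, b, rfl, rfl, k⟩) (rfl | ⟨b', c, e, rfl, k'⟩)
          exacts [Or.inl rfl, Or.inr ⟨b', c, e, rfl, k'⟩, Or.inr ⟨a, b, rfl, rfl, k⟩,
            Or.inr ⟨a, c, rfl, rfl, P.trans k (Subtype.ext e ▸ k')⟩] }
    have r1 : ∀ a b : Rch X, R a.1 b.1 ↔ P a b := fun a b =>
      ⟨fun k => k.elim (fun e => Subtype.ext e ▸ P.refl a) fun ⟨_, _, e, e', k⟩ =>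
        Subtype.ext e ▸ Subtype.ext e' ▸ k, fun k => Or.inr ⟨a, b, rfl, rfl, k⟩⟩
    have r2 : R.Fin := fun x => by
      by_cases hx : x ∈ Rch X
      · refine (((hP ⟨x, hx⟩).image _ DefF.subtypeVal).insert x).subset ?_
        rintro y (rfl | ⟨a, b, rfl, rfl, k⟩)
        exacts [Or.inl rfl, Or.inr ⟨b, k, rfl⟩]
      · refine (finite_singleton x).subset ?_
        rintro y (rfl | ⟨a, b, rfl, rfl, k⟩)
        exacts [rfl, (hx a.2).elim]
    obtain ⟨s, k1, k2⟩ := exists_code_of_eqv hK' r2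
      (fun _ _ k hne => (k.resolve_left hne).elim fun a k => k.elim fun _ k => k.1 ▸ a.2) (by
        rintro p hp k _ a' _ b' k1 k2 (rfl | ⟨a, b, rfl, rfl, k3⟩)
        · exact Or.inl ((hp 0).fn k1 k2)
        obtain ⟨g, k4, k5, k6⟩ := key hp k (a' := ⟨a', hp.rch k1 a.2⟩) (b' := ⟨b', hp.rch k2 b.2⟩)
          k1 k2
        exact Or.inr ⟨_, _, congrArg Subtype.val k5, congrArg Subtype.val k6, hP' g k4 a b k3⟩)
    obtain ⟨t, rfl⟩ := exists_up (B := Rch X) (k1.2.trans fun x hx =>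
      Step.rch (Or.inl hx) hK' fun _ ⟨a, _, e⟩ => e ▸ a.2)
    exact ⟨t, k1.1.of_map, IEq.ext fun a b => by rw [down_iff, k2, r1]⟩

end Pool.Agent.P.MP_e517ea_lc.Z
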