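import Pool.Agent.P.MP_e517ea_lc.Z.DSet

/-!
The natural numbers of the model: definable induction and recursion, the ordered semiring.
-/

set_option synthInstance.maxSize 16384

namespace Pool.Agent.P.MP_e517ea_lc.Z

variable [ZU]
variable {X Y W : Type} [Coded X] [Coded Y] [Coded W]

/-- The natural numbers of the model. -/
def Nn : Type := El omg

namespace Nn

instance : Coded Nn := inferInstanceAs (Coded (El omg))

noncomputable instance : Zero Nn := ⟨⟨emp, emp_mem_omg⟩⟩

/-- The successor. -/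
noncomputable def succ (n : Nn) : Nn := ⟨sucs n.1, sucs_mem_omg n.2⟩

theorem cd_zero : cd (0 : Nn) = emp := rfl

theorem cd_succ (n : Nn) : cd n.succ = sucs (cd n) := rfl

theorem cd_mem_omg (n : Nn) : cd n ∈ omg := n.2

theorem exists_cd_eq {z : UM} (h : z ∈ omg) : ∃ n : Nn, cd n = z := ⟨⟨z, h⟩, rfl⟩

theorem succ_injective : Function.Injective succ := fun m _ h =>
  Subtype.ext (sucs_inj m.2 (congrArg Subtype.val h))

theorem succ_ne_zero' (n : Nn) : n.succ ≠ 0 := fun h =>
  notMem_emp n.1 ((congrArg (fun k : Nn => n.1 ∈ k.1) h).mp (mem_sucs.2 (Or.inr rfl)))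

theorem induction' {p : Nn → Prop} (hp : DefF p) (h0 : p 0) (hs : ∀ n, p n → p n.succ) (n : Nn) :
    p n := by
  obtain ⟨a, ha⟩ := hp.defP
  exact (ha n).2 (omg_induction (fun z => z ∈ a) ((ha 0).1 h0)
    (fun z hz h => (ha (succ ⟨z, hz⟩)).1 (hs _ ((ha ⟨z, hz⟩).2 h))) n.1 n.2)

@[fun_prop] theorem defF_succ : DefF succ :=
  DefF.of_df (fun z w => sucs z = w) fun _ _ => Subtype.ext_iff

end Nn

/-- The graph of a function defined by recursion. -/
def RecG (a : X) (s : Nn → X → X) (n : Nn) (y : X) : Prop :=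
  ∀ S : DSet (Nn × X), (0, a) ∈ S → (∀ k x, (k, x) ∈ S → (k.succ, s k x) ∈ S) → (n, y) ∈ S

@[fun_prop] theorem DefF.recG {a : W → X} {s : W → Nn → X → X} {n : W → Nn} {y : W → X}
    (ha : DefF a) (hs : DefF (fun z : W × Nn × X => s z.1 z.2.1 z.2.2)) (hn : DefF n)
    (hy : DefF y) : DefF (fun w => RecG (a w) (s w) (n w) (y w)) := by
  simp only [RecG, all_eq, imp_eq]
  fun_prop

theorem RecG.existsUnique (a : X) {s : Nn → X → X} (hs : DefF (fun z : Nn × X => s z.1 z.2))
    (n : Nn) : ∃! y, RecG a s n y := by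
  have inv : ∀ n y, RecG a s n y →
      (n = 0 ∧ y = a) ∨ ∃ k x, RecG a s k x ∧ n = k.succ ∧ y = s k x := fun n y h =>
    h ⟨fun z => (z.1 = 0 ∧ z.2 = a) ∨ ∃ k x, RecG a s k x ∧ z.1 = k.succ ∧ z.2 = s k x,
      by fun_prop⟩ (Or.inl ⟨rfl, rfl⟩) fun k x h => Or.inr ⟨k, x, by
        rcases h with ⟨h1, h2⟩ | ⟨k', x', h1, h2, h3⟩
        · dsimp only at h1 h2
          rw [h1, h2]; exact fun _ h _ => h
        · dsimp only at h2 h3
          rw [h2, h3]; exact fun S k1 k2 => k2 _ _ (h1 S k1 k2), rfl, rfl⟩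
  refine Nn.induction' (p := fun n => ∃! y, RecG a s n y) (by fun_prop)
    ⟨a, fun _ h _ => h, fun y hy => ?_⟩ (fun n ⟨x, h1, h2⟩ =>
      ⟨s n x, fun S k1 k2 => k2 _ _ (h1 S k1 k2), fun y hy => ?_⟩) n
  · rcases inv _ _ hy with h | ⟨k, x, -, h, -⟩
    · exact h.2
    · exact (k.succ_ne_zero' h.symm).elim
  · rcases inv _ _ hy with h | ⟨k, x', k1, k2, k3⟩
    · exact (n.succ_ne_zero' h.1).elim
    · obtain rfl := Nn.succ_injective k2
      rw [k3, h2 x' k1]

/-- Definition by recursion on the natural numbers of the model. -/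
noncomputable def recN (a : X) (s : Nn → X → X) (n : Nn) : X := uq a (RecG a s n)

@[fun_prop] theorem DefF.recN {a : W → X} {s : W → Nn → X → X} {n : W → Nn}
    (ha : DefF a) (hs : DefF (fun z : W × Nn × X => s z.1 z.2.1 z.2.2)) (hn : DefF n) :
    DefF (fun w => recN (a w) (s w) (n w)) := by
  unfold Z.recN
  fun_prop

theorem recN_zero (a : X) {s : Nn → X → X} (hs : DefF (fun z : Nn × X => s z.1 z.2)) :
    recN a s 0 = a :=
  uq_eq (fun _ h _ => h) fun _ h => (RecG.existsUnique a hs 0).unique h fun _ h _ => h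

theorem recN_succ' (a : X) {s : Nn → X → X} (hs : DefF (fun z : Nn × X => s z.1 z.2)) (n : Nn) :
    recN a s n.succ = s n (recN a s n) := by
  have h1 : RecG a s n.succ (s n (recN a s n)) := fun S k1 k2 =>
    k2 _ _ (uq_spec a (RecG.existsUnique a hs n) S k1 k2)
  exact uq_eq h1 fun _ h => (RecG.existsUnique a hs _).unique h h1

namespace Nn

noncomputable instance : One Nn := ⟨succ 0⟩

noncomputable instance : Add Nn := ⟨fun m n => recN m (fun _ x => x.succ) n⟩

@[fun_prop] theorem defF_add {f g : W → Nn} (hf : DefF f) (hg : DefF g) :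
    DefF (fun w => f w + g w) :=
  DefF.recN (s := fun _ _ x => succ x) hf (by fun_prop) hg

protected theorem add_zero (m : Nn) : m + 0 = m := recN_zero m (by fun_prop)

theorem add_succ (m n : Nn) : m + n.succ = (m + n).succ := recN_succ' m (by fun_prop) n

theorem succ_eq (n : Nn) : n.succ = n + 1 := by
  rw [show (1 : Nn) = succ 0 from rfl, add_succ, Nn.add_zero]

protected theorem zero_add (n : Nn) : 0 + n = n :=
  induction' (p := fun n => 0 + n = n) (by fun_prop) (Nn.add_zero 0)
    (fun n ih => by rw [add_succ, ih]) n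

theorem succ_add (m n : Nn) : m.succ + n = (m + n).succ :=
  induction' (p := fun n => m.succ + n = (m + n).succ) (by fun_prop)
    (by rw [Nn.add_zero, Nn.add_zero]) (fun n ih => by rw [add_succ, ih, add_succ]) n

protected theorem add_comm (m n : Nn) : m + n = n + m :=
  induction' (p := fun n => m + n = n + m) (by fun_prop) (by rw [Nn.add_zero, Nn.zero_add])
    (fun n ih => by rw [add_succ, ih, succ_add]) n

protected theorem add_assoc (k m n : Nn) : k + m + n = k + (m + n) :=
  induction' (p := fun n => k + m + n = k + (m + n)) (by fun_prop)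
    (by rw [Nn.add_zero, Nn.add_zero]) (fun n ih => by rw [add_succ, ih, add_succ, add_succ]) n

noncomputable instance : AddCommMonoid Nn where
  add_assoc := Nn.add_assoc
  zero_add := Nn.zero_add
  add_zero := Nn.add_zero
  add_comm := Nn.add_comm
  nsmul := nsmulRec

noncomputable instance : Mul Nn := ⟨fun m n => recN 0 (fun _ x => x + m) n⟩

@[fun_prop] theorem defF_mul {f g : W → Nn} (hf : DefF f) (hg : DefF g) :
    DefF (fun w => f w * g w) :=
  DefF.recN (a := fun _ => 0) (s := fun w _ x => x + f w) (by fun_prop) (by fun_prop) hg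

protected theorem mul_zero (m : Nn) : m * 0 = 0 := recN_zero 0 (by fun_prop)

theorem mul_succ (m n : Nn) : m * n.succ = m * n + m := recN_succ' 0 (by fun_prop) n

protected theorem zero_mul (n : Nn) : 0 * n = 0 :=
  induction' (p := fun n => 0 * n = 0) (by fun_prop) (Nn.mul_zero 0)
    (fun n ih => by rw [mul_succ, ih, add_zero]) n

theorem succ_mul (m n : Nn) : m.succ * n = m * n + n :=
  induction' (p := fun n => m.succ * n = m * n + n) (by fun_prop)
    (by rw [Nn.mul_zero, Nn.mul_zero, add_zero])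
    (fun n ih => by
      rw [mul_succ, ih, mul_succ, add_succ, add_succ, add_right_comm]) n

protected theorem mul_comm (m n : Nn) : m * n = n * m :=
  induction' (p := fun n => m * n = n * m) (by fun_prop) (by rw [Nn.mul_zero, Nn.zero_mul])
    (fun n ih => by rw [mul_succ, ih, succ_mul]) n

protected theorem mul_add (k m n : Nn) : k * (m + n) = k * m + k * n :=
  induction' (p := fun n => k * (m + n) = k * m + k * n) (by fun_prop)
    (by rw [Nn.mul_zero, add_zero, add_zero])
    (fun n ih => by rw [add_succ, mul_succ, ih, mul_succ, add_assoc]) n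

protected theorem mul_assoc (k m n : Nn) : k * m * n = k * (m * n) :=
  induction' (p := fun n => k * m * n = k * (m * n)) (by fun_prop)
    (by rw [Nn.mul_zero, Nn.mul_zero, Nn.mul_zero])
    (fun n ih => by rw [mul_succ, ih, mul_succ, Nn.mul_add]) n

protected theorem mul_one (n : Nn) : n * 1 = n := by
  rw [show (1 : Nn) = succ 0 from rfl, mul_succ, Nn.mul_zero, zero_add]

theorem exists_cast : ∃ f : ℕ → Nn, f 0 = 0 ∧ ∀ n, f (n + 1) = f n + 1 :=
  ⟨Nat.unaryCast, rfl, fun _ => rfl⟩

noncomputable instance : CommSemiring Nn where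
  natCast := exists_cast.choose
  natCast_zero := exists_cast.choose_spec.1
  natCast_succ := exists_cast.choose_spec.2
  mul_assoc := Nn.mul_assoc
  one_mul n := by rw [Nn.mul_comm, Nn.mul_one]
  mul_one := Nn.mul_one
  mul_comm := Nn.mul_comm
  zero_mul := Nn.zero_mul
  mul_zero := Nn.mul_zero
  left_distrib := Nn.mul_add
  right_distrib a b c := by rw [Nn.mul_comm, Nn.mul_add, Nn.mul_comm c, Nn.mul_comm c]

/-- Induction for definable predicates. -/
theorem induction {p : Nn → Prop} (hp : DefF p) (h0 : p 0) (hs : ∀ n, p n → p (n + 1)) (n : Nn) :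
    p n := induction' hp h0 (fun n h => succ_eq n ▸ hs n h) n

theorem succ_ne_zero (n : Nn) : n + 1 ≠ 0 := succ_eq n ▸ succ_ne_zero' n

theorem succ_inj {m n : Nn} : m + 1 = n + 1 ↔ m = n := by
  rw [← succ_eq, ← succ_eq, succ_injective.eq_iff]

theorem cd_add_one (n : Nn) : cd (n + 1) = sucs (cd n) := by rw [← succ_eq, cd_succ]

theorem eq_zero_or_succ (n : Nn) : n = 0 ∨ ∃ m, n = m + 1 :=
  induction (p := fun n => n = 0 ∨ ∃ m, n = m + 1) (by fun_prop) (Or.inl rfl)
    (fun n _ => Or.inr ⟨n, rfl⟩) n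

instance : IsCancelAdd Nn := by
  have h : ∀ k m n : Nn, m + k = n + k → m = n := fun k m n =>
    induction (p := fun k => Imp (m + k = n + k) (m = n)) (by fun_prop)
      (fun h => by simpa using h)
      (fun k ih h => ih (succ_inj.1 (by rwa [add_assoc, add_assoc]))) k
  exact { add_right_cancel := fun k m n => h k m n
          add_left_cancel := fun k m n e => h k m n (by rw [add_comm m, add_comm n]; exact e) }

protected theorem eq_zero_of_add {m n : Nn} (h : m + n = 0) : n = 0 := by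
  rcases eq_zero_or_succ n with h' | ⟨k, rfl⟩
  · exact h'
  · exact (succ_ne_zero (m + k) (by rwa [add_assoc])).elim

instance : LE Nn := ⟨fun m n => ∃ k, n = m + k⟩

theorem le_iff_add {m n : Nn} : m ≤ n ↔ ∃ k, n = m + k := Iff.rfl

@[fun_prop] theorem defF_le {f g : W → Nn} (hf : DefF f) (hg : DefF g) :
    DefF (fun w => f w ≤ g w) := by
  simp only [le_iff_add]; fun_prop

protected theorem le_total (m n : Nn) : m ≤ n ∨ n ≤ m := by
  refine induction (p := fun n => m ≤ n ∨ n ≤ m) (by fun_prop) (Or.inr ⟨m, (zero_add m).symm⟩)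
    (fun n ih => ?_) n
  rcases ih with ⟨k, rfl⟩ | ⟨k, rfl⟩
  · exact Or.inl ⟨k + 1, add_assoc _ _ _⟩
  · rcases eq_zero_or_succ k with rfl | ⟨j, rfl⟩
    · exact Or.inl ⟨1, by rw [add_zero]⟩
    · exact Or.inr ⟨j, by ring⟩

noncomputable instance : LinearOrder Nn where
  le_refl n := ⟨0, (add_zero n).symm⟩
  le_trans := by
    rintro a _ _ ⟨k, rfl⟩ ⟨j, rfl⟩
    exact ⟨k + j, add_assoc _ _ _⟩
  le_antisymm := by
    rintro a _ ⟨k, rfl⟩ ⟨j, h⟩
    have : k + j = 0 := add_left_cancel (a := a) (by rw [← add_assoc, ← h, add_zero])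
    rw [Nn.eq_zero_of_add ((add_comm j k).trans this), add_zero]
  le_total := Nn.le_total
  toDecidableLE := Classical.decRel _

instance : CanonicallyOrderedAdd Nn where
  exists_add_of_le h := h
  le_add_self a b := ⟨b, add_comm b a⟩
  le_self_add _ b := ⟨b, rfl⟩

instance : IsOrderedCancelAddMonoid Nn where
  add_le_add_left := by
    rintro a _ ⟨k, rfl⟩ c
    exact ⟨k, by ring⟩
  le_of_add_le_add_left := by
    rintro a b c ⟨k, h⟩
    exact ⟨k, add_left_cancel (a := a) (by rw [h, add_assoc])⟩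

instance : Nontrivial Nn := ⟨⟨0 + 1, 0, succ_ne_zero 0⟩⟩

instance : NoZeroDivisors Nn where
  eq_zero_or_eq_zero_of_mul_eq_zero {a b} h := by
    rcases eq_zero_or_succ b with h' | ⟨k, rfl⟩
    · exact Or.inr h'
    · exact Or.inl (Nn.eq_zero_of_add (by rwa [mul_add, mul_one] at h))

instance : IsStrictOrderedRing Nn := by
  have h : ∀ a : Nn, 0 < a → StrictMono fun b => a * b := fun a ha b c hbc => by
    obtain ⟨k, rfl⟩ := hbc.le
    have hk : k ≠ 0 := fun e => by simp [e] at hbc
    dsimp only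
    rw [mul_add]
    exact lt_add_of_pos_right _ (pos_iff_ne_zero.2 (mul_ne_zero ha.ne' hk))
  exact { zero_le_one := zero_le
          mul_lt_mul_of_pos_left := fun a ha _ _ hbc => h a ha hbc
          mul_lt_mul_of_pos_right := fun a ha b c hbc => by
            rw [mul_comm b, mul_comm c]; exact h a ha hbc }

@[fun_prop] theorem defF_lt {f g : W → Nn} (hf : DefF f) (hg : DefF g) :
    DefF (fun w => f w < g w) := by
  simp only [lt_iff_le_not_ge]; fun_prop

theorem lt_iff_add_one_le {m n : Nn} : m < n ↔ m + 1 ≤ n := by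
  refine ⟨fun h => ?_, fun h => (lt_add_one m).trans_le h⟩
  obtain ⟨k, rfl⟩ := h.le
  rcases eq_zero_or_succ k with rfl | ⟨j, rfl⟩
  · simp at h
  · exact ⟨j, by ring⟩

theorem lt_succ_iff {m n : Nn} : m < n + 1 ↔ m ≤ n := by
  rw [lt_iff_add_one_le, add_le_add_iff_right]

theorem lt_succ_iff_lt_or_eq {m n : Nn} : m < n + 1 ↔ m < n ∨ m = n := by
  rw [lt_succ_iff, le_iff_lt_or_eq]

theorem one_le_iff_ne_zero {n : Nn} : 1 ≤ n ↔ n ≠ 0 := by
  rw [← pos_iff_ne_zero, lt_iff_add_one_le, zero_add]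

theorem pos_iff_one_le {n : Nn} : 0 < n ↔ 1 ≤ n := by rw [lt_iff_add_one_le, zero_add]

theorem eq_zero_or_pos (n : Nn) : n = 0 ∨ 0 < n := _root_.eq_zero_or_pos n

theorem exists_eq_succ_of_pos {n : Nn} (h : 0 < n) : ∃ m, n = m + 1 :=
  (eq_zero_or_succ n).resolve_left h.ne'

theorem cd_mem_cd {m n : Nn} : cd m ∈ cd n ↔ m < n := by
  refine induction (p := fun n => cd m ∈ cd n ↔ m < n)
    (DefF.iff (defF_cd_mem (by fun_prop) (by fun_prop)) (by fun_prop)) ?_ (fun n ih => ?_) n
  · simp [cd_zero]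
  · rw [cd_add_one, mem_sucs, ih, cd_inj, lt_succ_iff_lt_or_eq]

theorem mem_cd {n : Nn} {z : UM} : z ∈ cd n ↔ ∃ m, m < n ∧ cd m = z :=
  ⟨fun h => ⟨⟨z, omg_trans _ n.2 z h⟩, cd_mem_cd.1 h, rfl⟩, fun ⟨_, h, e⟩ => e ▸ cd_mem_cd.2 h⟩

/-- Strong induction for definable predicates. -/
theorem strong_induction {p : Nn → Prop} (hp : DefF p) (h : ∀ n, (∀ m, m < n → p m) → p n)
    (n : Nn) : p n := by
  have := induction (p := fun n => ∀ m, m < n → p m) (by simp only [all_eq, imp_eq]; fun_prop)
    (fun m hm => absurd hm not_lt_zero) (fun n ih m hm =>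
      (lt_succ_iff_lt_or_eq.1 hm).elim (ih m) fun e => e ▸ h n ih) n
  exact h n this

/-- Induction from `m` upwards. -/
theorem le_induction {p : Nn → Prop} (hp : DefF p) {m : Nn} (h0 : p m)
    (hs : ∀ n, m ≤ n → p n → p (n + 1)) (n : Nn) (hn : m ≤ n) : p n := by
  obtain ⟨k, rfl⟩ := hn
  exact induction (p := fun k => p (m + k)) (by fun_prop) (by rwa [add_zero])
    (fun k ih => add_assoc m k 1 ▸ hs _ le_self_add ih) k

/-- A nonempty definable set of numbers has a least element. -/
theorem exists_min {p : Nn → Prop} (hp : DefF p) (h : ∃ n, p n) : ∃ n, p n ∧ ∀ m, p m → n ≤ m := by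
  by_contra hc
  obtain ⟨n, hn⟩ := h
  refine strong_induction (p := fun n => ¬ p n) (by fun_prop) (fun n ih hn => hc ⟨n, hn,
    fun m hm => not_lt.1 fun hlt => ih m hlt hm⟩) n hn

/-- A nonempty bounded definable set of numbers has a largest element. -/
theorem exists_max {p : Nn → Prop} (hp : DefF p) (h : ∃ n, p n) {b : Nn} (hb : ∀ n, p n → n ≤ b) :
    ∃ n, p n ∧ ∀ m, p m → m ≤ n := by
  obtain ⟨c, hc, hc'⟩ := exists_min (p := fun c => ∀ n, p n → n ≤ c)
    (by simp only [all_eq, imp_eq]; fun_prop) ⟨b, hb⟩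
  refine ⟨c, by_contra fun h0 => ?_, hc⟩
  obtain ⟨n, hn⟩ := h
  rcases eq_zero_or_succ c with rfl | ⟨k, rfl⟩
  · exact h0 (nonpos_iff_eq_zero.1 (hc n hn) ▸ hn)
  · exact absurd (hc' k fun m hm => lt_succ_iff.1 ((hc m hm).lt_of_ne fun e => h0 (e ▸ hm)))
      (not_le.2 (lt_add_one k))

noncomputable instance : Sub Nn := ⟨fun a b => uq 0 fun k => a = b + k⟩

@[fun_prop] theorem defF_sub {f g : W → Nn} (hf : DefF f) (hg : DefF g) :
    DefF (fun w => f w - g w) :=
  DefF.uq (x₀ := fun _ => (0 : Nn)) (R := fun w k => f w = g w + k) (by fun_prop) (by fun_prop)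

instance : OrderedSub Nn where
  tsub_le_iff_right a b c := by
    rcases le_total b a with ⟨k, rfl⟩ | h
    · have : b + k - b = k := uq_eq rfl fun _ h => (add_left_cancel h).symm
      rw [this, add_comm c, add_le_add_iff_left]
    · have : a - b = 0 := by
        rcases h.eq_or_lt with rfl | h
        · exact uq_eq (add_zero a).symm fun _ h => by simpa using h
        · exact dif_neg fun ⟨k, hk, _⟩ => absurd ⟨k, hk⟩ (not_le.2 h)
      rw [this]
      exact iff_of_true zero_le (h.trans le_add_self)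

@[fun_prop] theorem defF_npow {f : W → Nn} (hf : DefF f) (k : ℕ) : DefF (fun w => f w ^ k) := by
  induction k with
  | zero => simp only [pow_zero]; fun_prop
  | succ k ih => simp only [pow_succ]; fun_prop

@[fun_prop] theorem defF_max {f g : W → Nn} (hf : DefF f) (hg : DefF g) :
    DefF (fun w => max (f w) (g w)) := by
  simp only [max_def]; fun_prop

@[fun_prop] theorem defF_min {f g : W → Nn} (hf : DefF f) (hg : DefF g) :
    DefF (fun w => min (f w) (g w)) := by
  simp only [min_def]; fun_prop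

end Nn

theorem recN_succ (a : X) {s : Nn → X → X} (hs : DefF (fun z : Nn × X => s z.1 z.2)) (n : Nn) :
    recN a s (n + 1) = s n (recN a s n) := Nn.succ_eq n ▸ recN_succ' a hs n

end Pool.Agent.P.MP_e517ea_lc.Z
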