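import Pool.Agent.P.MP_e517ea_lc.Z.IEq

/-!
An external group acting on a coded type such that the finite pieces of its elements form a set of
the model; the open subgroups with definable traces form a coded type.
-/

set_option synthInstance.maxSize 16384

noncomputable section

namespace Pool.Agent.P.MP_e517ea_lc.Z

open DSet

variable [ZU]
variable {G A W : Type} [Group G] [MulAction G A] [Coded A] [Coded W]

/-- `p` is a finite piece of the graph of an element of `H`. -/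
def Tr (H : Subgroup G) (p : DSet (A × A)) : Prop := p.Finite ∧ ∃ g ∈ H, ∀ z ∈ p, g • z.1 = z.2

/-- Finite restrictions of group elements are definable and form a definable family. -/
class GS (G A : Type) [Group G] [MulAction G A] [Coded A] : Prop where
  res : ∀ (g : G) (K : DSet A), K.Finite → DefF (fun z : A × A => z.1 ∈ K ∧ g • z.1 = z.2)
  top : DefF (Tr (⊤ : Subgroup G) : DSet (A × A) → Prop)

variable [GS G A]

/-- The restriction of `g` to a finite set. -/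
def rs (g : G) (K : DSet A) : DSet (A × A) :=
  ⟨fun z => K.Finite ∧ z.1 ∈ K ∧ g • z.1 = z.2, by
    by_cases h : K.Finite
    · exact (GS.res g K h).congr_iff fun _ => (and_iff_right h).symm
    · exact (DefF.const False).congr_iff fun _ => by simp [h]⟩

theorem mem_rs' {g : G} {K : DSet A} {z : A × A} :
    z ∈ rs g K ↔ K.Finite ∧ z.1 ∈ K ∧ g • z.1 = z.2 := Iff.rfl

theorem mem_rs {g : G} {K : DSet A} (h : K.Finite) {z : A × A} :
    z ∈ rs g K ↔ z.1 ∈ K ∧ g • z.1 = z.2 := and_iff_right h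

theorem mk_mem_rs {K : DSet A} (g : G) (h : K.Finite) {a : A} (ha : a ∈ K) : (a, g • a) ∈ rs g K :=
  ⟨h, ha, rfl⟩

theorem rs_of_infinite {K : DSet A} (g : G) (h : ¬ K.Finite) : rs g K = ⊥ :=
  eq_bot_iff_forall.2 fun _ k => h k.1

theorem finite_rs (g : G) (K : DSet A) : (rs g K).Finite := by
  by_cases h : K.Finite
  · exact h.of_injOn DefF.fst (fun _ k => k.2.1) fun _ k _ k' e =>
      Prod.ext e (by rw [← k.2.2, ← k'.2.2, e])
  · exact finite_bot.subset fun _ k => h k.1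

/-- Sets that are moved into a finite set. -/
theorem fin_of_smul {S T : DSet A} (g : G) (hT : T.Finite) (h : ∀ x ∈ S, g • x ∈ T) :
    S.Finite ∧ S.card ≤ T.card :=
  card_le_of_rel (fun x y => (y, x) ∈ rs g⁻¹ T) (by fun_prop)
    (fun x hx => ⟨_, h x hx, hT, h x hx, inv_smul_smul g x⟩)
    (fun _ _ _ _ _ _ k k' => k.2.2.symm.trans k'.2.2) hT

theorem card_eq_of_smul {S T : DSet A} (g : G) (h : ∀ x, x ∈ S ↔ g • x ∈ T) : S.card = T.card := by
  have h' : ∀ x ∈ T, g⁻¹ • x ∈ S := fun x hx => (h _).2 (by simpa)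
  by_cases hT : T.Finite
  · have := fin_of_smul g hT fun x => (h x).1
    exact this.2.antisymm (fin_of_smul g⁻¹ this.1 h').2
  · rw [card_of_infinite hT, card_of_infinite fun k => hT (fin_of_smul g⁻¹ k h').1]

theorem Tr.sup_rs {H : Subgroup G} {p : DSet (A × A)} {g : G} (hp : p.Finite) (hg : g ∈ H)
    (h : ∀ z ∈ p, g • z.1 = z.2) (K : DSet A) : Tr H (p ⊔ rs g K) :=
  ⟨hp.sup (finite_rs g K), g, hg, fun z hz => hz.elim (h z) fun k => k.2.2⟩

theorem eq_rs {q : DSet (A × A)} {g : G} (hq : q.Finite) (h : ∀ z ∈ q, g • z.1 = z.2) :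
    rs g q.dom = q :=
  DSet.ext fun z => ⟨fun ⟨_, ⟨y, k⟩, e⟩ => by rwa [show y = z.2 from (h _ k).symm.trans e] at k,
    fun k => ⟨hq.dom, ⟨_, k⟩, h z k⟩⟩

/-- Elimination of a quantifier over the group. -/
theorem DefF.exG {H : W → Subgroup G} (hH : DefF fun z : W × DSet (A × A) => Tr (H z.1) z.2)
    {K : W → DSet A} (hK : DefF K) {Ψ : W → DSet (A × A) → Prop}
    (hΨ : DefF fun z : W × DSet (A × A) => Ψ z.1 z.2) :
    DefF (fun w => ∃ g ∈ H w, Ψ w (rs g (K w))) := by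
  have h : DefF (fun w => (∃ q, Tr (H w) q ∧ q.dom = K w ∧ Ψ w q) ∨ (¬ (K w).Finite ∧ Ψ w ⊥)) := by
    fun_prop
  refine h.congr_iff fun w => ⟨?_, fun ⟨g, hg, k⟩ => ?_⟩
  · rintro (⟨q, ⟨k1, g, hg, k2⟩, k3, k4⟩ | ⟨k1, k2⟩)
    · exact ⟨g, hg, by rwa [← k3, eq_rs k1 k2]⟩
    · exact ⟨1, (H w).one_mem, by rwa [rs_of_infinite _ k1]⟩
  · by_cases hf : (K w).Finite
    · exact Or.inl ⟨_, ⟨finite_rs g _, g, hg, fun _ k => k.2.2⟩,
        DSet.ext fun x => ⟨fun ⟨_, k⟩ => k.2.1, fun k => ⟨_, mk_mem_rs g hf k⟩⟩, k⟩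
    · exact Or.inr ⟨hf, by rwa [rs_of_infinite _ hf] at k⟩

/-- Traces of subgroups given by a local condition. -/
theorem defF_tr_of {U H : W → Subgroup G} (hU : DefF fun z : W × DSet (A × A) => Tr (U z.1) z.2)
    {D : W → DSet A} (hD : DefF D) (hD' : ∀ w, (D w).Finite) {R : W → A × A → A × A → Prop}
    (hR : DefF fun z : W × (A × A) × A × A => R z.1 z.2.1 z.2.2)
    (h1 : ∀ w, ∀ g ∈ H w, g ∈ U w ∧ ∀ a b, R w (a, g • a) (b, g • b))
    (h2 : ∀ w, ∀ g ∈ U w, (∀ a b, (a ∈ D w ∨ g • a ∈ D w) → (b ∈ D w ∨ g • b ∈ D w) →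
      R w (a, g • a) (b, g • b)) → g ∈ H w) :
    DefF fun z : W × DSet (A × A) => Tr (H z.1) z.2 := by
  have h : ∀ T : W → DSet (A × A) → Prop, DefF (fun z : W × DSet (A × A) => T z.1 z.2) →
      DefF fun z : W × DSet (A × A) => ∃ q, T z.1 q ∧ z.2 ≤ q ∧ D z.1 ≤ q.dom ∧
      D z.1 ≤ q.ran ∧ ∀ u ∈ q, ∀ v ∈ q, R z.1 u v := fun T hT => by
    simp only [all_eq, imp_eq]
    fun_prop
  refine (h (fun w => Tr (U w)) hU).congr_iff fun ⟨w, p⟩ => ⟨?_, ?_⟩
  · rintro ⟨q, ⟨k1, g, hg, k2⟩, k3, k4, k5, k6⟩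
    have key : ∀ a, (a ∈ D w ∨ g • a ∈ D w) → (a, g • a) ∈ q := by
      rintro a (h | h)
      · obtain ⟨y, hy⟩ := k4 h
        rwa [k2 _ hy]
      · obtain ⟨y, hy⟩ := k5 h
        obtain rfl : y = a := MulAction.injective g (k2 _ hy)
        exact hy
    exact ⟨k1.subset k3, g, h2 w g hg fun a b ha hb => k6 _ (key a ha) _ (key b hb),
      fun z hz => k2 z (k3 hz)⟩
  · rintro ⟨k1, g, hg, k2⟩
    have hf := (hD' w).sup (finite_rs g⁻¹ (D w)).ran
    have ht := Tr.sup_rs k1 (h1 w g hg).1 k2 (D w ⊔ (rs g⁻¹ (D w)).ran)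
    refine ⟨_, ht, le_sup_left, fun x hx => ⟨_, Or.inr (mk_mem_rs g hf (Or.inl hx))⟩, fun x hx =>
      ⟨g⁻¹ • x, Or.inr ⟨hf, Or.inr ⟨x, hD' w, hx, rfl⟩, smul_inv_smul g x⟩⟩, ?_⟩
    have key : ∀ u ∈ p ⊔ rs g (D w ⊔ (rs g⁻¹ (D w)).ran), u = (u.1, g • u.1) := fun u hu =>
      Prod.ext rfl (hu.elim (k2 u) fun k => k.2.2).symm
    intro u hu v hv
    rw [key u hu, key v hv]
    exact (h1 w g hg).2 _ _

/-- Open subgroups with definable traces. -/
structure OS (G A : Type) [Group G] [MulAction G A] [Coded A] where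
  sub : Subgroup G
  opn : ∃ K : DSet A, K.Finite ∧ ∀ g : G, (∀ a ∈ K, g • a = a) → g ∈ sub
  defn : DefF (Tr sub : DSet (A × A) → Prop)

namespace OS

omit [GS G A] in
instance : SetLike (OS G A) G where
  coe U := U.sub
  coe_injective := fun ⟨_, _, _⟩ ⟨_, _, _⟩ h => by congr; exact SetLike.coe_injective h

omit [GS G A] in
instance : PartialOrder (OS G A) := .ofSetLike (OS G A) G

variable {U V : OS G A} {g h : G}

omit [GS G A] in
@[ext] theorem ext (h : ∀ g, g ∈ U ↔ g ∈ V) : U = V := SetLike.ext h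

omit [GS G A] in
theorem one_mem (U : OS G A) : (1 : G) ∈ U := U.sub.one_mem

omit [GS G A] in
theorem mul_mem (U : OS G A) (hg : g ∈ U) (hh : h ∈ U) : g * h ∈ U := U.sub.mul_mem hg hh

omit [GS G A] in
theorem inv_mem (U : OS G A) (hg : g ∈ U) : g⁻¹ ∈ U := U.sub.inv_mem hg

theorem mem_of_tr {K : DSet A} (hK : K.Finite) (h : ∀ g : G, (∀ a ∈ K, g • a = a) → g ∈ U)
    (hg : Tr U.sub (rs g K)) : g ∈ U := by
  obtain ⟨-, k, hk, e⟩ := hg
  have := U.mul_mem hk (h (k⁻¹ * g) fun a ha => by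
    rw [mul_smul, inv_smul_eq_iff]; exact (e (a, _) ⟨hK, ha, rfl⟩).symm)
  simpa using this

theorem tr_rs (hg : g ∈ U) (K : DSet A) : Tr U.sub (rs g K) :=
  ⟨finite_rs g K, g, hg, fun _ k => k.2.2⟩

/-- The set of traces. -/
def tr (U : OS G A) : DSet (DSet (A × A)) := ⟨Tr U.sub, U.defn⟩

theorem tr_inj : Function.Injective (tr : OS G A → _) := by
  have key : ∀ U V : OS G A, U.tr = V.tr → ∀ g ∈ U, g ∈ V := fun U V e g hg => by
    obtain ⟨K, hK, h⟩ := V.opn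
    exact mem_of_tr hK h ((SetLike.ext_iff.1 e _).1 (tr_rs hg K))
  exact fun U V e => ext fun g => ⟨key U V e g, key V U e.symm g⟩

instance : Coded (OS G A) :=
  Coded.ofInj tr tr_inj <| by
    have t1 : ∀ {W : Type} [Coded W],
        DefF fun z : W × DSet (A × A) => Tr (⊤ : Subgroup G) z.2 := GS.top.comp DefF.snd
    have d1 : DefF fun z : (DSet (DSet (A × A)) × DSet A) × DSet (A × A) =>
        ∃ g ∈ (⊤ : Subgroup G), (fun q => q.restr z.1.2 ∈ z.1.1 ∧ z.2 ≤ q)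
          (rs g (z.1.2 ⊔ z.2.dom)) :=
      DefF.exG (W := (DSet (DSet (A × A)) × DSet A) × DSet (A × A)) (H := fun _ => ⊤) t1
        (K := fun z => z.1.2 ⊔ z.2.dom) (by fun_prop)
        (Ψ := fun z q => q.restr z.1.2 ∈ z.1.1 ∧ z.2 ≤ q) (by fun_prop)
    have d2 : DefF fun z : (DSet (DSet (A × A)) × DSet A) × DSet (A × A) =>
        ∃ g ∈ (⊤ : Subgroup G), (fun q => q.restr z.1.2 ∈ z.1.1 ∧ z.2.comp q ∈ z.1.1)
          (rs g (z.1.2 ⊔ z.2.ran)) :=
      DefF.exG (W := (DSet (DSet (A × A)) × DSet A) × DSet (A × A)) (H := fun _ => ⊤) t1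
        (K := fun z => z.1.2 ⊔ z.2.ran) (by fun_prop)
        (Ψ := fun z q => q.restr z.1.2 ∈ z.1.1 ∧ z.2.comp q ∈ z.1.1) (by fun_prop)
    have d3 : DefF fun z : DSet (DSet (A × A)) × DSet A => ∃ k ∈ (⊤ : Subgroup G),
        (fun r => (∃ g ∈ (⊤ : Subgroup G), (fun q => q.restr z.2 ∈ z.1 ∧ r.comp q ∈ z.1)
          (rs g (z.2 ⊔ r.ran))) ∧ ¬ r ∈ z.1) (rs k z.2) :=
      DefF.exG (W := DSet (DSet (A × A)) × DSet A) (H := fun _ => ⊤) t1 (K := fun z => z.2) (by fun_prop)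
        (Ψ := fun z r => (∃ g ∈ (⊤ : Subgroup G), (fun q => q.restr z.2 ∈ z.1 ∧ r.comp q ∈ z.1)
          (rs g (z.2 ⊔ r.ran))) ∧ ¬ r ∈ z.1) (d2.and (by fun_prop))
    have d4 : DefF fun F : DSet (DSet (A × A)) => ∃ K : DSet A, (K.Finite ∧ K.idm ∈ F) ∧
        (¬ ∃ k ∈ (⊤ : Subgroup G), (fun r => (∃ g ∈ (⊤ : Subgroup G),
          (fun q => q.restr K ∈ F ∧ r.comp q ∈ F) (rs g (K ⊔ r.ran))) ∧ ¬ r ∈ F) (rs k K)) ∧
        All fun p => p ∈ F ↔ p.Finite ∧ ∃ g ∈ (⊤ : Subgroup G),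
          (fun q => q.restr K ∈ F ∧ p ≤ q) (rs g (K ⊔ p.dom)) :=
      DefF.exists (DefF.and (by fun_prop) (d3.not.and (DefF.all (DefF.iff (by fun_prop)
        (DefF.and (by fun_prop) d1)))))
    have e1 : ∀ (g : G) {K L : DSet A}, K.Finite → L.Finite → (rs g (K ⊔ L)).restr K = rs g K :=
      fun g K L hK hL => DSet.ext fun z => ⟨fun h => ⟨hK, h.2, h.1.2.2⟩,
        fun h => ⟨⟨hK.sup hL, Or.inl h.2.1, h.2.2⟩, h.2.1⟩⟩
    have e2 : ∀ (g k : G) {K : DSet A}, K.Finite →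
        (rs k K).comp (rs g (K ⊔ (rs k K).ran)) = rs (g * k) K := fun g k K hK =>
      DSet.ext fun z => ⟨fun ⟨y, h, h'⟩ => ⟨hK, h.2.1, by rw [mul_smul, h.2.2]; exact h'.2.2⟩,
        fun h => ⟨k • z.1, mk_mem_rs k hK h.2.1, hK.sup (finite_rs k K).ran,
          Or.inr ⟨_, mk_mem_rs k hK h.2.1⟩,
          (mul_smul g k z.1).symm.trans h.2.2⟩⟩
    have e3 : ∀ {K : DSet A} {g : G}, K.Finite → (∀ a ∈ K, g • a = a) → rs g K = K.idm :=
      fun {K g} hK h => DSet.ext fun z => ⟨fun k => ⟨k.2.1, (h _ k.2.1).symm.trans k.2.2⟩,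
        fun k => ⟨hK, k.1, (h _ k.1).trans k.2⟩⟩
    have e4 : ∀ {K : DSet A} {g : G} {p : DSet (A × A)}, K.Finite → p.Finite →
        (p ≤ rs g (K ⊔ p.dom) ↔ ∀ z ∈ p, g • z.1 = z.2) := fun hK hp =>
      ⟨fun h z hz => (h hz).2.2, fun h z hz => ⟨hK.sup hp.dom, Or.inr ⟨_, hz⟩, h z hz⟩⟩
    beta_reduce at d4
    refine d4.congr_iff fun F => ⟨?_, ?_⟩
    · rintro ⟨K, ⟨hK, k1⟩, k2, k3⟩
      have k4 : ∀ g k : G, rs g K ∈ F → rs (g * k) K ∈ F → rs k K ∈ F := fun g k h h' =>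
        by_contra fun h0 => k2 ⟨k, trivial, ⟨g, trivial, by
          rw [e1 g hK (finite_rs k K).ran, e2 g k hK]; exact ⟨h, h'⟩⟩, h0⟩
      have k5 : rs (1 : G) K ∈ F := by rwa [e3 hK fun a _ => one_smul G a]
      have k6 : ∀ g : G, rs g K ∈ F → rs g⁻¹ K ∈ F := fun g h => k4 g _ h (by rwa [mul_inv_cancel])
      let H : Subgroup G :=
        { carrier := {g | rs g K ∈ F}
          one_mem' := k5
          mul_mem' := fun {g h} hg hh => k4 g⁻¹ _ (k6 g hg) (by rwa [inv_mul_cancel_left])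
          inv_mem' := fun {g} => k6 g }
      have k7 : ∀ p, p ∈ F ↔ Tr H p := fun p => (k3 p).trans (and_congr_right fun hp =>
        exists_congr fun g => by
          rw [e1 g hK hp.dom, e4 hK hp]
          exact and_iff_right trivial)
      exact ⟨⟨H, ⟨K, hK, fun g hg => show rs g K ∈ F by rwa [e3 hK hg]⟩,
        F.defF_mem.congr_iff k7⟩, DSet.ext fun p => (k7 p).symm⟩
    · rintro ⟨U, rfl⟩
      obtain ⟨K, hK, h⟩ := U.opn
      have k0 : ∀ g, rs g K ∈ U.tr ↔ g ∈ U := fun g => ⟨mem_of_tr hK h, fun hg => tr_rs hg K⟩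
      refine ⟨K, ⟨hK, hK.idm, 1, U.one_mem, fun z hz => (one_smul G _).trans hz.2⟩, ?_,
        fun p => and_congr_right fun hp => exists_congr fun g => ?_⟩
      · rintro ⟨k, -, ⟨g, -, k1⟩, k2⟩
        rw [e1 g hK (finite_rs k K).ran, e2 g k hK, k0, k0] at k1
        exact k2 ((k0 k).2 (by simpa using U.mul_mem (U.inv_mem k1.1) k1.2))
      · rw [e1 g hK hp.dom, e4 hK hp, k0]
        exact (and_iff_right trivial).symm

theorem defF_tr : DefF (tr : OS G A → _) := defF_of_cd_eq fun _ => rfl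

end OS

theorem DefF.tr {U : W → OS G A} (hU : DefF U) :
    DefF fun z : W × DSet (A × A) => Tr (U z.1).sub z.2 :=
  DefF.mem (S := fun z : W × DSet (A × A) => (U z.1).tr) (OS.defF_tr.comp (hU.comp DefF.fst))
    DefF.snd

theorem DefF.of_tr {U : W → OS G A} (h : DefF fun z : W × DSet (A × A) => Tr (U z.1).sub z.2) :
    DefF U := DefF.of_inj OS.tr_inj OS.defF_tr (DefF.of_mem h)

/-- One-off version of `defF_tr_of`. -/
theorem OS.defF_tr_of (U : OS G A) {H : Subgroup G} {D : DSet A} (hD : D.Finite)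
    {R : A × A → A × A → Prop} (hR : DefF fun z : (A × A) × A × A => R z.1 z.2)
    (h1 : ∀ g ∈ H, g ∈ U ∧ ∀ a b, R (a, g • a) (b, g • b))
    (h2 : ∀ g ∈ U, (∀ a b, (a ∈ D ∨ g • a ∈ D) → (b ∈ D ∨ g • b ∈ D) →
      R (a, g • a) (b, g • b)) → g ∈ H) : DefF (Tr H : DSet (A × A) → Prop) :=
  (Z.defF_tr_of (W := Prop) (H := fun _ => H) (DefF.const U).tr (DefF.const D) (fun _ => hD)
    (R := fun _ => R) (hR.comp DefF.snd) (fun _ => h1) fun _ => h2).comp
    (f := fun p => (True, p)) (by fun_prop)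

section
variable {U : W → OS G A} {a b : W → A}

/-- Quantification over the images of a finite set. -/
theorem DefF.exS (hU : DefF U) {K : W → DSet A} (hK : DefF K) {Ψ : W → DSet (A × A) → Prop}
    (hΨ : DefF fun z : W × DSet (A × A) => Ψ z.1 z.2) :
    DefF (fun w => ∃ g ∈ U w, Ψ w (rs g (K w))) := DefF.exG hU.tr hK hΨ

/-- Quantification over the images of two points. -/
theorem DefF.ex2 (hU : DefF U) (ha : DefF a) (hb : DefF b) (R : W → A → A → Prop)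
    (hR : DefF fun z : W × A × A => R z.1 z.2.1 z.2.2) :
    DefF (fun w => ∃ g ∈ U w, R w (g • a w) (g • b w)) := by
  refine (hU.exS (K := fun w => insert (a w) {b w}) (by fun_prop)
    (Ψ := fun w q => ∃ x y, (a w, x) ∈ q ∧ (b w, y) ∈ q ∧ R w x y) (by fun_prop)).congr_iff
    fun w => exists_congr fun g => and_congr_right fun _ => ?_
  have hf := (finite_singleton (b w)).insert (a w)
  exact ⟨fun ⟨_, _, h1, h2, h⟩ => h1.2.2 ▸ h2.2.2 ▸ h,
    fun h => ⟨_, _, ⟨hf, Or.inl rfl, rfl⟩, ⟨hf, Or.inr rfl, rfl⟩, h⟩⟩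

/-- Quantification over the images of a point. -/
theorem DefF.ex1 (hU : DefF U) (ha : DefF a) (R : W → A → Prop)
    (hR : DefF fun z : W × A => R z.1 z.2) : DefF (fun w => ∃ g ∈ U w, R w (g • a w)) :=
  hU.ex2 ha ha (fun w x _ => R w x) (by fun_prop)

theorem DefF.all2 (hU : DefF U) (ha : DefF a) (hb : DefF b) (R : W → A → A → Prop)
    (hR : DefF fun z : W × A × A => R z.1 z.2.1 z.2.2) :
    DefF (fun w => ∀ g ∈ U w, R w (g • a w) (g • b w)) :=
  (hU.ex2 ha hb (fun w x y => ¬ R w x y) hR.not).not.congr_iff fun _ => by simp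

theorem DefF.all1 (hU : DefF U) (ha : DefF a) (R : W → A → Prop)
    (hR : DefF fun z : W × A => R z.1 z.2) : DefF (fun w => ∀ g ∈ U w, R w (g • a w)) :=
  hU.all2 ha ha (fun w x _ => R w x) (by fun_prop)

end

namespace OS

instance : Top (OS G A) := ⟨⟨⊤, ⟨⊥, finite_bot, fun _ _ => trivial⟩, GS.top⟩⟩

theorem tr_inf (U V : OS G A) (p : DSet (A × A)) : Tr (U.sub ⊓ V.sub) p ↔
    ∀ K : DSet A, K.Finite → ∃ q, Tr U.sub q ∧ Tr V.sub q ∧ p ≤ q ∧ K ≤ q.dom := by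
  refine ⟨fun ⟨h1, g, hg, h2⟩ K hK => ⟨_, Tr.sup_rs h1 hg.1 h2 K, Tr.sup_rs h1 hg.2 h2 K,
    le_sup_left, fun x hx => ⟨_, Or.inr (mk_mem_rs g hK hx)⟩⟩, fun h => ?_⟩
  obtain ⟨K, hK, hK'⟩ := V.opn
  obtain ⟨q, ⟨k1, g, hg, k2⟩, ⟨-, g', hg', k3⟩, k4, k5⟩ := h K hK
  refine ⟨k1.subset k4, g, ⟨hg, mem_of_tr hK hK' ⟨finite_rs g K, g', hg', fun z hz => ?_⟩⟩,
    fun z hz => k2 z (k4 hz)⟩
  obtain ⟨y, hy⟩ := k5 hz.2.1
  exact (k3 _ hy).trans ((k2 _ hy).symm.trans hz.2.2)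

instance : Min (OS G A) := ⟨fun U V => ⟨U.sub ⊓ V.sub, by
    obtain ⟨K, h1, h2⟩ := U.opn
    obtain ⟨K', k1, k2⟩ := V.opn
    exact ⟨K ⊔ K', h1.sup k1, fun g hg =>
      ⟨h2 g fun a ha => hg a (Or.inl ha), k2 g fun a ha => hg a (Or.inr ha)⟩⟩, by
    have h1 := U.defn
    have h2 := V.defn
    refine DefF.congr_iff ?_ fun p => (tr_inf U V p).symm
    simp only [all_eq, imp_eq]
    fun_prop⟩⟩

instance : SemilatticeInf (OS G A) where
  inf := min
  inf_le_left _ _ _ h := h.1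
  inf_le_right _ _ _ h := h.2
  le_inf _ _ _ h h' _ k := ⟨h k, h' k⟩

instance : OrderTop (OS G A) where
  le_top _ _ _ := trivial

@[simp] theorem mem_inf {U V : OS G A} {g : G} : g ∈ U ⊓ V ↔ g ∈ U ∧ g ∈ V := Iff.rfl

@[simp] theorem mem_top (g : G) : g ∈ (⊤ : OS G A) := trivial

end OS

@[fun_prop] theorem DefF.osInf {U V : W → OS G A} (hU : DefF U) (hV : DefF V) :
    DefF (fun w => U w ⊓ V w) := by
  have h1 := hU.tr
  have h2 := hV.tr
  refine DefF.of_tr (DefF.congr_iff ?_ fun z => (OS.tr_inf _ _ _).symm)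
  simp only [all_eq, imp_eq]
  refine DefF.all (DefF.imp (by fun_prop) (DefF.exists (DefF.and ?_ (DefF.and ?_ (by fun_prop)))))
  · exact h1.comp (f := fun z : ((W × DSet (A × A)) × DSet A) × DSet (A × A) => (z.1.1.1, z.2))
      (by fun_prop)
  · exact h2.comp (f := fun z : ((W × DSet (A × A)) × DSet A) × DSet (A × A) => (z.1.1.1, z.2))
      (by fun_prop)

/-- The pointwise stabiliser as a subgroup. -/
def pwSub (G : Type) [Group G] [MulAction G A] (K : DSet A) : Subgroup G where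
  carrier := {g | K.Finite → ∀ a ∈ K, g • a = a}
  one_mem' := fun _ a _ => one_smul G a
  mul_mem' := fun {g h} hg hh k a ha => by rw [mul_smul, hh k a ha, hg k a ha]
  inv_mem' := fun {g} hg k a ha => by rw [inv_smul_eq_iff, hg k a ha]

theorem defF_tr_pw {K : W → DSet A} (hK : DefF K) :
    DefF fun z : W × DSet (A × A) => Tr (pwSub G (K z.1)) z.2 := by
  classical
  refine defF_tr_of (U := fun _ => ⊤) (H := fun w => pwSub G (K w)) (GS.top.comp DefF.snd)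
    (D := fun w => if (K w).Finite then K w else ⊥) (by fun_prop) (fun w => ?_)
    (R := fun w z _ => Imp (K w).Finite (Imp (z.1 ∈ K w) (z.2 = z.1))) (by fun_prop)
    (fun w g hg => ⟨trivial, fun a _ k => hg k a⟩) fun w g _ h k a ha =>
      h a a (Or.inl (by rwa [if_pos k])) (Or.inl (by rwa [if_pos k])) k ha
  split_ifs with h
  exacts [h, finite_bot]

/-- The pointwise stabiliser of a finite set (the whole group for infinite sets). -/
def pw (G : Type) [Group G] [MulAction G A] [GS G A] (K : DSet A) : OS G A where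
  sub := pwSub G K
  opn := by
    by_cases h : K.Finite
    exacts [⟨K, h, fun _ hg _ => hg⟩, ⟨⊥, finite_bot, fun _ _ k => (h k).elim⟩]
  defn := (defF_tr_pw (W := Prop) (DefF.const K)).comp (f := fun p => (True, p)) (by fun_prop)

@[fun_prop] theorem DefF.pw {K : W → DSet A} (hK : DefF K) : DefF (fun w => pw G (K w)) :=
  DefF.of_tr (defF_tr_pw hK)

theorem mem_pw {K : DSet A} (h : K.Finite) {g : G} : g ∈ pw G K ↔ ∀ a ∈ K, g • a = a :=
  ⟨fun k => k h, fun k _ => k⟩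

theorem mem_pw_of {K : DSet A} {g : G} (h : ∀ a ∈ K, g • a = a) : g ∈ pw G K := fun _ => h

theorem mem_pw_one {a : A} {g : G} : g ∈ pw G ({a} : DSet A) ↔ g • a = a := by
  simp [mem_pw (finite_singleton a)]

theorem OS.exists_pw (U : OS G A) : ∃ K : DSet A, K.Finite ∧ pw G K ≤ U :=
  U.opn.imp fun _ h => ⟨h.1, fun g hg => h.2 g (hg h.1)⟩

/-- The orbit of a point. -/
def orb (U : OS G A) (a : A) : DSet A :=
  ⟨fun b => ∃ g ∈ U, g • a = b, (DefF.const U).ex1 (DefF.const a) (fun b x => x = b) (by fun_prop)⟩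

theorem mem_orb {U : OS G A} {a b : A} : b ∈ orb U a ↔ ∃ g ∈ U, g • a = b := Iff.rfl

@[fun_prop] theorem DefF.orb {U : W → OS G A} {a : W → A} (hU : DefF U) (ha : DefF a) :
    DefF (fun w => orb (U w) (a w)) :=
  DefF.of_mem ((hU.comp DefF.fst).ex1 (ha.comp DefF.fst) (fun z x => x = z.2) (by fun_prop))

end Pool.Agent.P.MP_e517ea_lc.Z
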