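import Pool.Agent.P.MP_e517ea_lc.Z.Card

/-!
Function spaces, products and sums over finite sets of the model.
-/

set_option synthInstance.maxSize 16384

namespace Pool.Agent.P.MP_e517ea_lc.Z

variable [ZU]
variable {X Y W : Type} [Coded X] [Coded Y] [Coded W]

namespace DSet

/-- Definable functions with `f x ∈ T x` on `S`, equal to `d` outside `S`. -/
def pi (S : DSet X) (T : X → DSet Y) (hT : DefF T) (d : DFun X Y) : DSet (DFun X Y) :=
  ⟨fun f => (∀ x ∈ S, f x ∈ T x) ∧ ∀ x, x ∉ S → f x = d x, by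
    simp only [all_eq, imp_eq]; fun_prop⟩

theorem mem_pi {S : DSet X} {T : X → DSet Y} {hT : DefF T} {d f : DFun X Y} :
    f ∈ S.pi T hT d ↔ (∀ x ∈ S, f x ∈ T x) ∧ ∀ x, x ∉ S → f x = d x := Iff.rfl

/-- The product of `f` over `S`. -/
noncomputable def prod (S : DSet X) (f : X → Nn) : Nn :=
  (ofP fun g : DFun X Nn => (∀ x ∈ S, g x < f x) ∧ ∀ x, x ∉ S → g x = 0).card

/-- The sum of `f` over `S`. -/
noncomputable def sum (S : DSet X) (f : X → Nn) : Nn :=
  (ofP fun z : X × Nn => z.1 ∈ S ∧ z.2 < f z.1).card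

end DSet

@[fun_prop] theorem DefF.dsetPi {S : W → DSet X} {T : W → X → DSet Y} {d : W → DFun X Y}
    (h0 : ∀ w, DefF (T w)) (hS : DefF S) (hT : DefF (fun z : W × X => T z.1 z.2)) (hd : DefF d) :
    DefF (fun w => (S w).pi (T w) (h0 w) (d w)) :=
  DefF.of_mem (by simp only [DSet.mem_pi, all_eq, imp_eq]; fun_prop)

@[fun_prop] theorem DefF.dsetProd {S : W → DSet X} {f : W → X → Nn} (hS : DefF S)
    (hf : DefF (fun z : W × X => f z.1 z.2)) : DefF (fun w => (S w).prod (f w)) := by
  simp only [DSet.prod, all_eq, imp_eq]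
  fun_prop

@[fun_prop] theorem DefF.dsetSum {S : W → DSet X} {f : W → X → Nn} (hS : DefF S)
    (hf : DefF (fun z : W × X => f z.1 z.2)) : DefF (fun w => (S w).sum (f w)) := by
  simp only [DSet.sum]
  fun_prop

namespace DSet

variable {S T : DSet X} {a : X} {f g : X → Nn} {n : Nn}

theorem pi_bot {T : X → DSet Y} {hT : DefF T} {d : DFun X Y} : (⊥ : DSet X).pi T hT d = {d} :=
  ext fun f => ⟨fun h => DFun.ext (funext fun x => h.2 x (notMem_bot x)),
    fun (h : f = d) => ⟨fun _ h => h.elim, fun _ _ => by rw [h]⟩⟩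

theorem pi_insert {T : X → DSet Y} {hT : DefF T} {d : DFun X Y} (ha : a ∉ S)
    (h1 : (T a).Finite) (h2 : (S.pi T hT d).Finite) : ((insert a S).pi T hT d).Finite ∧
      ((insert a S).pi T hT d).card = (T a).card * (S.pi T hT d).card := by
  classical
  let F : DFun X Y → Y × DFun X Y := fun f =>
    (f a, ⟨fun x => if x = a then d a else f x, by fun_prop⟩)
  have hF : DefF F := by fun_prop
  have k1 : ∀ f ∈ (insert a S).pi T hT d, F f ∈ (T a).times (S.pi T hT d) := fun f hf =>
    ⟨hf.1 a (mem_insert a S), fun x hx => by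
      have : x ≠ a := fun e => ha (e ▸ hx)
      simpa [F, this] using hf.1 x (Or.inr hx), fun x hx => by
      by_cases e : x = a
      · simp [F, e]
      · simpa [F, e] using hf.2 x fun h => h.elim e hx⟩
  have k2 : Set.InjOn F ((insert a S).pi T hT d) := fun f _ f' _ e => by
    ext x
    by_cases h : x = a
    · exact h ▸ (Prod.ext_iff.1 e).1
    · simpa [F, h] using congrArg (fun z : Y × DFun X Y => z.2 x) e
  refine ⟨(h1.times h2).of_injOn hF k1 k2, ?_⟩
  rw [← card_times h1 h2]
  refine card_congr F hF k1 k2 fun z hz =>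
    ⟨⟨fun x => if x = a then z.1 else z.2 x, by fun_prop⟩, ⟨fun x hx => ?_, fun x hx => ?_⟩, ?_⟩
  · by_cases e : x = a
    · simpa [e] using hz.1
    · simpa [e] using hz.2.1 x (hx.resolve_left e)
  · have e : x ≠ a := fun e => hx (Or.inl e)
    simpa [e] using hz.2.2 x fun h => hx (Or.inr h)
  · refine Prod.ext (by simp [F]) (DFun.ext (funext fun x => ?_))
    by_cases e : x = a
    · simp [F, e, hz.2.2 a ha]
    · simp [F, e]

theorem finite_pi {T : X → DSet Y} {hT : DefF T} {d : DFun X Y} (hS : S.Finite)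
    (h : ∀ x ∈ S, (T x).Finite) : (S.pi T hT d).Finite :=
  hS.induction_on_le (p := fun S => (S.pi T hT d).Finite) (by fun_prop)
    (by rw [pi_bot]; exact finite_singleton d) fun a _ ha _ _ ha' ih => (pi_insert ha' (h a ha) ih).1

theorem prod_eq (hf : DefF f) : S.prod f =
    (S.pi (fun x => range (f x)) (by fun_prop) ⟨fun _ => 0, by fun_prop⟩).card :=
  congrArg card (ext fun _ => mem_ofP (by simp only [all_eq, imp_eq]; fun_prop))

theorem prod_congr (h : ∀ x ∈ S, f x = g x) : S.prod f = S.prod g := by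
  unfold prod
  congr 2
  funext F
  exact propext (and_congr_left' (forall₂_congr fun x hx => by rw [h x hx]))

@[simp] theorem prod_bot : (⊥ : DSet X).prod f = 1 := by
  rw [prod_congr (S := ⊥) (g := fun _ => 0) fun _ h => h.elim, prod_eq (by fun_prop), pi_bot, card_singleton]

theorem prod_insert (hf : DefF f) (hS : S.Finite) (ha : a ∉ S) :
    (insert a S).prod f = f a * S.prod f := by
  rw [prod_eq hf, prod_eq hf, (pi_insert ha (finite_range _)
    (finite_pi hS fun _ _ => finite_range _)).2, card_range]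

theorem prod_singleton (hf : DefF f) (a : X) : ({a} : DSet X).prod f = f a := by
  rw [← insert_bot, prod_insert hf finite_bot (notMem_bot a), prod_bot, mul_one]

theorem card_pi {T : X → DSet Y} {hT : DefF T} {d : DFun X Y} (hS : S.Finite)
    (h : ∀ x ∈ S, (T x).Finite) : (S.pi T hT d).card = S.prod fun x => (T x).card :=
  hS.induction_on_le (p := fun S => (S.pi T hT d).card = S.prod fun x => (T x).card) (by fun_prop)
    (by rw [pi_bot]; simp) fun a R ha hR hR' ha' ih => by
      rw [(pi_insert ha' (h a ha) (finite_pi hR' fun x hx => h x (hR hx))).2, ih,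
        prod_insert (by fun_prop) hR' ha']

theorem prod_const (hS : S.Finite) (n : Nn) : (S.prod fun _ => n) = n ^ S.card :=
  hS.induction_on (p := fun S => (S.prod fun _ => n) = n ^ S.card) (by fun_prop) (by simp)
    fun a R hR ha ih => by
      rw [prod_insert (by fun_prop) hR ha, ih, card_insert_of_notMem ha hR, Nn.pow_succ, mul_comm]

theorem card_pi_const {T : DSet Y} {d : DFun X Y} (hS : S.Finite) (hT : T.Finite) :
    (S.pi (fun _ => T) (by fun_prop) d).card = T.card ^ S.card := by
  rw [card_pi hS fun _ _ => hT, prod_const hS]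

theorem prod_le_prod (hf : DefF f) (hg : DefF g) (hS : S.Finite) (h : ∀ x ∈ S, f x ≤ g x) :
    S.prod f ≤ S.prod g :=
  hS.induction_on_le (p := fun S => S.prod f ≤ S.prod g) (by fun_prop) (by simp)
    fun a R ha _ hR ha' ih => by
      rw [prod_insert hf hR ha', prod_insert hg hR ha']
      exact Nn.mul_le_mul (h a ha) ih

theorem prod_mul_distrib (hf : DefF f) (hg : DefF g) (hS : S.Finite) :
    (S.prod fun x => f x * g x) = S.prod f * S.prod g :=
  hS.induction_on (p := fun S => (S.prod fun x => f x * g x) = S.prod f * S.prod g) (by fun_prop)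
    (by simp) fun a R hR ha ih => by
      rw [prod_insert hf hR ha, prod_insert hg hR ha, prod_insert (by fun_prop) hR ha, ih]
      ring

theorem pow_card_le_prod (hf : DefF f) (hS : S.Finite) (h : ∀ x ∈ S, n ≤ f x) :
    n ^ S.card ≤ S.prod f := prod_const hS n ▸ prod_le_prod (by fun_prop) hf hS h

theorem prod_le_pow_card (hf : DefF f) (hS : S.Finite) (h : ∀ x ∈ S, f x ≤ n) :
    S.prod f ≤ n ^ S.card := prod_const hS n ▸ prod_le_prod hf (by fun_prop) hS h

theorem prod_pos (hf : DefF f) (hS : S.Finite) (h : ∀ x ∈ S, 0 < f x) : 0 < S.prod f := by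
  simpa [Nn.pos_iff_one_le] using
    pow_card_le_prod (n := 1) hf hS fun x hx => Nn.pos_iff_one_le.1 (h x hx)

theorem prod_sup (hf : DefF f) (h : Disjoint S T) (hS : S.Finite) (hT : T.Finite) :
    (S ⊔ T).prod f = S.prod f * T.prod f :=
  hS.induction_on_le (p := fun S => (S ⊔ T).prod f = S.prod f * T.prod f) (by fun_prop) (by simp)
    fun a R ha _ hR haR ih => by
      rw [insert_eq, sup_assoc, ← insert_eq, ← insert_eq, prod_insert hf hR haR,
        prod_insert (S := R ⊔ T) hf (hR.sup hT) (fun k => k.elim haR (disjoint_left.1 h ha)), ih,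
        mul_assoc]

theorem prod_sdiff (hf : DefF f) (h : S ≤ T) (hT : T.Finite) :
    (T \ S).prod f * S.prod f = T.prod f := by
  rw [← prod_sup hf disjoint_sdiff_self_left (hT.subset sdiff_le) (hT.subset h), sdiff_sup_cancel h]

theorem mul_prod_erase (hf : DefF f) (hS : S.Finite) (ha : a ∈ S) :
    f a * (S \ {a}).prod f = S.prod f := by
  rw [← prod_insert (S := S \ {a}) hf (hS.subset sdiff_le) (fun h => h.2 rfl),
    insert_sdiff_singleton ha]

theorem prod_sep_mul_prod_sep_not (hf : DefF f) (hS : S.Finite) {p : X → Prop} (hp : DefF p) :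
    (S.sep p hp).prod f * (S.sep (fun x => ¬ p x) hp.not).prod f = S.prod f := by
  rw [← prod_sup (S := S.sep p hp) (T := S.sep (fun x => ¬ p x) hp.not) hf
    (disjoint_left.2 fun _ h h' => h'.2 h.2) hS.sep hS.sep]
  congr 1
  ext x
  simp only [mem_sup, mem_sep]
  tauto

/-- The pairs counted by a sum. -/
def sigma (S : DSet X) (f : X → Nn) (hf : DefF f) : DSet (X × Nn) :=
  ⟨fun z => z.1 ∈ S ∧ z.2 < f z.1, by fun_prop⟩

theorem sum_eq (hf : DefF f) : S.sum f = (S.sigma f hf).card :=
  congrArg card (ext fun _ => mem_ofP (by fun_prop))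

theorem finite_sigma (hf : DefF f) (hS : S.Finite) : (S.sigma f hf).Finite :=
  (hS.biUnion (f := fun x => (range (f x)).image (fun y => (x, y)) (by fun_prop)) (by fun_prop)
    fun _ _ => (finite_range _).image _ _).subset fun z hz => ⟨z.1, hz.1, z.2, hz.2, rfl⟩

theorem sum_congr (h : ∀ x ∈ S, f x = g x) : S.sum f = S.sum g := by
  unfold sum
  congr 2
  funext z
  exact propext (and_congr_right fun hx => by rw [h _ hx])

@[simp] theorem sum_bot : (⊥ : DSet X).sum f = 0 := by
  rw [sum_congr (S := ⊥) (g := fun _ => 0) fun _ h => h.elim, sum_eq (by fun_prop),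
    eq_bot_iff_forall.2 fun z (h : z ∈ sigma ⊥ _ _) => h.1, card_bot]

theorem sum_insert (hf : DefF f) (hS : S.Finite) (ha : a ∉ S) :
    (insert a S).sum f = f a + S.sum f := by
  have e : (insert a S).sigma f hf =
      (range (f a)).image (fun y => (a, y)) (by fun_prop) ⊔ S.sigma f hf := by
    ext ⟨x, y⟩
    constructor
    · rintro ⟨(h : x = a) | h, h'⟩
      · exact Or.inl ⟨y, h ▸ h', by rw [h]⟩
      · exact Or.inr ⟨h, h'⟩
    · rintro (⟨_, k, e⟩ | h)
      · obtain ⟨rfl, rfl⟩ := Prod.ext_iff.1 e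
        exact ⟨Or.inl rfl, k⟩
      · exact ⟨Or.inr h.1, h.2⟩
  rw [sum_eq hf, sum_eq hf, e, card_sup_eq _ ((finite_range _).image _ _) (finite_sigma hf hS),
    card_image_of_injOn _ (fun _ _ _ _ h => (Prod.ext_iff.1 h).2), card_range]
  refine disjoint_left.2 ?_
  rintro _ ⟨y, -, rfl⟩ h
  exact ha h.1

theorem sum_const (hS : S.Finite) (n : Nn) : (S.sum fun _ => n) = S.card * n :=
  hS.induction_on (p := fun S => (S.sum fun _ => n) = S.card * n) (by fun_prop) (by simp)
    fun a R hR ha ih => by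
      rw [sum_insert (by fun_prop) hR ha, ih, card_insert_of_notMem ha hR]; ring

theorem sum_le_sum (hf : DefF f) (hg : DefF g) (hS : S.Finite) (h : ∀ x ∈ S, f x ≤ g x) :
    S.sum f ≤ S.sum g := by
  rw [sum_eq hf, sum_eq hg]
  exact card_le_card (fun z hz => ⟨hz.1, hz.2.trans_le (h _ hz.1)⟩) (finite_sigma hg hS)

theorem sum_add_distrib (hf : DefF f) (hg : DefF g) (hS : S.Finite) :
    (S.sum fun x => f x + g x) = S.sum f + S.sum g :=
  hS.induction_on (p := fun S => (S.sum fun x => f x + g x) = S.sum f + S.sum g) (by fun_prop)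
    (by simp) fun a R hR ha ih => by
      rw [sum_insert hf hR ha, sum_insert hg hR ha, sum_insert (by fun_prop) hR ha, ih]
      ring

theorem mul_sum (hf : DefF f) (hS : S.Finite) (n : Nn) :
    n * S.sum f = S.sum fun x => n * f x :=
  hS.induction_on (p := fun S => n * S.sum f = S.sum fun x => n * f x) (by fun_prop)
    (by simp) fun a R hR ha ih => by
      rw [sum_insert hf hR ha, sum_insert (by fun_prop) hR ha, ← ih, mul_add]

theorem prod_pow_eq_pow_sum (hf : DefF f) (hS : S.Finite) (n : Nn) :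
    (S.prod fun x => n ^ f x) = n ^ S.sum f :=
  hS.induction_on (p := fun S => (S.prod fun x => n ^ f x) = n ^ S.sum f) (by fun_prop)
    (by simp) fun a R hR ha ih => by
      rw [sum_insert hf hR ha, prod_insert (by fun_prop) hR ha, ih, Nn.pow_add]

theorem card_biUnion {F : X → DSet Y} (hF : DefF F) (hS : S.Finite) (h : ∀ x ∈ S, (F x).Finite)
    (hd : (S : Set X).PairwiseDisjoint F) : (S.biUnion F hF).card = S.sum fun x => (F x).card :=
  hS.induction_on_le (p := fun S => (S.biUnion F hF).card = S.sum fun x => (F x).card)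
    (by fun_prop) (by rw [biUnion_bot]; simp) fun a R ha hR hR' ha' ih => by
      rw [biUnion_insert, sum_insert (by fun_prop) hR' ha', ← ih, card_sup_eq
        (disjoint_biUnion_right.2 fun x hx => hd ha (hR hx) fun e => ha' (e ▸ hx)) (h a ha)
        (hR'.biUnion hF fun x hx => h x (hR hx))]

theorem prod_biUnion {F : X → DSet Y} (hF : DefF F) {f : Y → Nn} (hf : DefF f) (hS : S.Finite)
    (h : ∀ x ∈ S, (F x).Finite) (hd : (S : Set X).PairwiseDisjoint F) :
    (S.biUnion F hF).prod f = S.prod fun x => (F x).prod f :=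
  hS.induction_on_le (p := fun S => (S.biUnion F hF).prod f = S.prod fun x => (F x).prod f)
    (by fun_prop) (by rw [biUnion_bot]; simp) fun a R ha hR hR' ha' ih => by
      rw [biUnion_insert, prod_insert (by fun_prop) hR' ha', ← ih, prod_sup hf
        (disjoint_biUnion_right.2 fun x hx => hd ha (hR hx) fun e => ha' (e ▸ hx)) (h a ha)
        (hR'.biUnion hF fun x hx => h x (hR hx))]

theorem biUnion_fiber {T : DSet Y} {l : X → Y} (hl : DefF l) (h : ∀ x ∈ S, l x ∈ T) :
    T.biUnion (fun y => S.sep (fun x => l x = y) (by fun_prop)) (by fun_prop) = S :=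
  ext fun x => ⟨fun ⟨_, _, h⟩ => h.1, fun hx => ⟨l x, h x hx, hx, rfl⟩⟩

theorem card_eq_sum_card_fiberwise {T : DSet Y} {l : X → Y} (hl : DefF l) (hS : S.Finite)
    (hT : T.Finite) (h : ∀ x ∈ S, l x ∈ T) :
    S.card = T.sum fun y => (S.sep (fun x => l x = y) (by fun_prop)).card := by
  rw [← card_biUnion (by fun_prop) hT (fun _ _ => hS.sep) fun y _ y' _ hne =>
    disjoint_left.2 fun x h1 h2 => hne (h1.2.symm.trans h2.2), biUnion_fiber hl h]

theorem prod_fiberwise {T : DSet Y} {l : X → Y} (hl : DefF l) (hf : DefF f) (hS : S.Finite)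
    (hT : T.Finite) (h : ∀ x ∈ S, l x ∈ T) :
    (T.prod fun y => (S.sep (fun x => l x = y) (by fun_prop)).prod f) = S.prod f := by
  rw [← prod_biUnion (by fun_prop) hf hT (fun _ _ => hS.sep) fun y _ y' _ hne =>
    disjoint_left.2 fun x h1 h2 => hne (h1.2.symm.trans h2.2), biUnion_fiber hl h]

/-- The injective maps from the numbers below `m` to the numbers below `j`. -/
noncomputable def injs (m j : Nn) : DSet (DFun Nn Nn) :=
  ((range m).pi (fun _ => range j) (by fun_prop) ⟨fun _ => 0, by fun_prop⟩).sep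
    (fun f => Set.InjOn f (range m)) (by fun_prop)

theorem mem_injs {m j : Nn} {e : DFun Nn Nn} : e ∈ injs m j ↔
    ((∀ i, i < m → e i < j) ∧ ∀ i, ¬ i < m → e i = 0) ∧ Set.InjOn e (range m) := Iff.rfl

theorem finite_injs (m j : Nn) : (injs m j).Finite :=
  (finite_pi (finite_range m) fun _ _ => finite_range j).sep

theorem pow_le_card_injs {t m j : Nn} (h : t + m ≤ j + 1) : t ^ m ≤ (injs m j).card := by
  classical
  have hd : DefF fun m => injs m j := by unfold injs; fun_prop
  refine Nn.induction (p := fun m => Imp (t + m ≤ j + 1) (t ^ m ≤ (injs m j).card)) (by fun_prop)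
    (fun _ => ?_) (fun m ih h => ?_) m h
  · rw [Nn.pow_zero, ← Nn.pos_iff_one_le, card_pos (finite_injs 0 j)]
    exact ⟨⟨fun _ => 0, by fun_prop⟩, ⟨fun _ h => absurd (mem_range.1 h) not_lt_zero, fun _ _ => rfl⟩,
      fun _ h => absurd (mem_range.1 h) not_lt_zero⟩
  have h1 := ih (le_trans (by gcongr; exact le_self_add) h)
  have h2 : ∀ e ∈ injs m j, ∃ u : DFun Nn Nn, Set.InjOn u (range t) ∧
      ∀ i, i < t → u i ∈ range j \ (range m).image e e.defn := fun e he => by
    refine exists_inj ?_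
    have k1 := card_sdiff_add_card_of_le (S := (range m).image e e.defn) (T := range j)
      (fun _ ⟨i, hi, h⟩ => h ▸ he.1.1 i hi) (finite_range j)
    have k2 := card_image_le (finite_range m) e e.defn
    rw [card_range] at k1 k2
    zify at k1 k2 h ⊢
    grind
  have : _root_.Nonempty (DFun Nn Nn) := ⟨⟨fun _ => 0, by fun_prop⟩⟩
  obtain ⟨u, hu, hu'⟩ := (finite_injs m j).choice (by simp only [all_eq, imp_eq]; fun_prop) h2
  have h3 := card_le_card_of_injOn (S := (injs m j).times (range t)) (T := injs (m + 1) j)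
    (fun z => ⟨fun i => if i = m then u z.1 z.2 else z.1 i, by fun_prop⟩) (by fun_prop)
    (fun z hz => ⟨⟨fun i hi => ?_, fun i hi => ?_⟩, fun i hi k hk e => ?_⟩) (fun z hz z' hz' e => ?_)
    (finite_injs _ _)
  · rw [card_times (finite_injs _ _) (finite_range _), card_range] at h3
    rw [Nn.pow_succ]
    exact (Nn.mul_le_mul_right _ h1).trans h3
  · dsimp only
    split_ifs with e
    · exact ((hu' _ hz.1).2 _ hz.2).1
    · exact hz.1.1.1 i ((Nn.lt_succ_iff_lt_or_eq.1 hi).resolve_right e)
  · have : i ≠ m := fun e => hi (e ▸ lt_add_one i)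
    simpa [this] using hz.1.1.2 i fun h => hi (h.trans (lt_add_one m))
  · have k := ((hu' _ hz.1).2 _ hz.2).2
    dsimp only at e
    split_ifs at e with e1 e2 e2
    · exact e1.trans e2.symm
    · exact (k ⟨_, (Nn.lt_succ_iff_lt_or_eq.1 hk).resolve_right e2, e.symm⟩).elim
    · exact (k ⟨_, (Nn.lt_succ_iff_lt_or_eq.1 hi).resolve_right e1, e⟩).elim
    · exact hz.1.2 ((Nn.lt_succ_iff_lt_or_eq.1 hi).resolve_right e1)
        ((Nn.lt_succ_iff_lt_or_eq.1 hk).resolve_right e2) e
  · have k : ∀ i, (if i = m then u z.1 z.2 else z.1 i) = if i = m then u z'.1 z'.2 else z'.1 i :=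
      fun i => congrArg (fun F : DFun Nn Nn => F i) e
    have k1 : z.1 = z'.1 := DFun.ext (funext fun i => by
      by_cases h : i = m
      · have k0 : i ∉ range m := fun k => (mem_range.1 k).ne h
        rw [hz.1.1.2 i k0, hz'.1.1.2 i k0]
      · simpa [h] using k i)
    have k2 := k m
    rw [if_pos rfl, if_pos rfl, ← k1] at k2
    exact Prod.ext k1 ((hu' _ hz.1).1 hz.2 hz'.2 k2)

end DSet

end Pool.Agent.P.MP_e517ea_lc.Z
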