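import Pool.Agent.P.MP_e517ea_lc.Z.Budget

/-!
Two minimal classes: bounds for fixed points, and the bound for the number of new fixed points.
-/

set_option synthInstance.maxSize 16384
set_option linter.unusedSectionVars false

noncomputable section

namespace Pool.Agent.P.MP_e517ea_lc.Z

open DSet IEq

variable [ZU]
variable {G A : Type} [Group G] [MulAction G A] [Coded A] [GS G A]

/-- A base together with a bound `Y` for the number of new fixed points of minimal classes. -/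
structure Base2 (U : OS G A) (J w ka Y : Nn) : Prop extends Base U J w where
  hY : ∀ a : A, MinP U a → (F0 U a).card ≤ Y
  hYl : (ka + 4) * Y ≤ (Fix U).card
  big : 2 * w ^ 2 < Y
  hm : ∃ m k, 4 * w ^ Y < m ^ m ∧ 2 * (4 * m) ^ (4 * m) ≤ 2 ^ k ∧ 4 * Y ≤ k ∧ 3 * k ≤ ka * Y

variable {U U' V W : OS G A} {a b c d x : A} {g : G} {X S K : DSet A} {J w ka Y : Nn}

theorem inf_SS_le (h : V ≤ U) (e : cl V x = cl V a) : V ⊓ SS U a ≤ SS V x := fun _ hg =>
  SS_congr e ▸ ⟨hg.1, cl_eq_mono h hg.2.2⟩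

/-- The union of the classes of the points of `K`. -/
def UC (U : OS G A) (K : DSet A) : DSet A := K.biUnion (cls U) (by fun_prop)

/-- The union of the orbits of classes of the points of `K`. -/
def UX (U : OS G A) (K : DSet A) : DSet A := K.biUnion (XO U U) (by fun_prop)

theorem stab_UC (h : W ≤ U) (hK : K ≤ Fix W) : Stab W (UC U K) :=
  stab_biUnion fun a ha => stab_cls.mono fun g hg => ⟨h hg, by rw [hK ha g hg]⟩

theorem nn_UX_le (h : W ≤ U) (hf : FinG W) (hK : K ≤ Fix W) : nn U (UX U K) ≤ nn W (UC U K) :=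
  nn_le_of_cls h hf (stab_UC h hK) fun z ⟨a, ha, hz⟩ => by
    obtain ⟨g, hg, e⟩ := XO_symm le_rfl hz
    exact ⟨g, hg, cls_congr e ▸ le_biUnion (f := cls U) ha⟩

variable (B : Base2 U J w ka Y)
include B

theorem Base2.Yl : Y ≤ (Fix U).card :=
  (Nn.le_mul_of_pos_left Y (four_pos.trans_le le_add_self)).trans B.hYl

theorem Base2.Y_pos : 0 < Y := zero_le.trans_lt B.big

theorem Base2.lt (ha : a ∉ acl U) : nn U (XO U U a) ≤ (2 * Y * w) ^ Y := by
  have h1 := B.Y_pos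
  have h2 := B.w_pos
  by_cases h : MinP U a
  · have := B.hY a h
    refine (B.lt_min h (this.trans B.Yl)).trans ((Nn.pow_le_pow_left ?_ _).trans
      (Nn.pow_le_pow_right (by positivity) this))
    gcongr
  · obtain ⟨b, hb, hm⟩ := B.hyp.exists_min ha
    exact (B.lt_nonmin hm (B.hY b hm) B.Yl h hb).trans
      (Nn.pow_le_pow_left (Nn.le_mul_of_pos_left w (by positivity)) _)

theorem Base2.NN_le (hc : MinP U c) : NN (SS U c) ≤ w ^ Y * NN U :=
  B.bl SS_le (B.hY c hc) B.Yl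

theorem Base2.f1 (hc : MinP U c) (hX : Stab U X) (hs : CS U X) (h : X ≤ (acl U)ᶜ) :
    nn (SS U c) (X \ cl U c) ≤ w ^ Y * nn U X :=
  B.acl_SS c ▸ B.hyp.f1 SS_le (B.NN_le hc) hX hs h

theorem Base2.sym (hc : MinP U c) (hd : d ∉ cl U c) (hK : K ≤ cls U d)
    (hK' : K ≤ Fix (SS U c ⊓ SS U d)) : K.card < 4 * Y := by
  by_contra h
  have H := B.hyp
  have h1 := B.Y_pos
  have hKf := (H.clsf U d).subset hK
  have hd' : d ∉ acl U := fun h => hd (acl_subset_cl h)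
  have k1 := nn_lower (H.fin (SS U c ⊓ SS U d)) hKf (fun g hg a ha => hK' ha g hg)
    (a := Y) ((Nn.le_mul_of_pos_left Y four_pos).trans (not_lt.1 h))
  have k2 := nn_cls_le (X := XO U U d \ cl U c) SS_le (H.fin (SS U c)) hKf hK (stab_Fix hK')
    (((stab_XO le_rfl).mono SS_le).diff stab_cl) fun z hz => ⟨cls_subset_XO (hK hz), fun h =>
      hd (cl_subset le_rfl h (mem_cl_of_eq (hK hz).symm))⟩
  have k3 := B.f1 hc (stab_XO le_rfl) cs_XO (XO_subset_compl le_rfl hd')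
  have k4 := (Nn.pow_le_pow_right h1 (by zify at h ⊢; grind : 3 * Y ≤ K.card - Y)).trans
    (k1.trans (k2.trans (k3.trans (Nn.mul_le_mul_left _ (B.lt hd')))))
  rw [← Nn.mul_pow, Nn.pow_mul, Nn.pow_le_pow_iff_left h1.ne', Nn.pow_ofNat] at k4
  have k5 : Y * (Y * Y) ≤ Y * (2 * w ^ 2) := le_of_eq_of_le (by ring) (k4.trans_eq (by ring))
  exact absurd ((Nn.le_mul_of_pos_left Y h1).trans (Nn.le_of_mul_le_mul_left k5 h1))
    (not_le.2 B.big)

theorem Base2.lemF (hc : MinP U c) (hx : x ∉ cl U c) :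
    (Fix (SS (SS U c) x) ⊓ cls (SS U c) x).card ≤ ka * Y := by
  by_contra h
  have H := B.hyp
  obtain ⟨m, k, m1, m2, m3, m4⟩ := B.hm
  set V := SS U c with hV
  set W := SS V x with hW
  set F := Fix W ⊓ cls V x with hF
  have hD := H.clsf V x
  have hFf : F.Finite := hD.subset inf_le_right
  have hWU : W ≤ U := SS_le.trans SS_le
  have hn : ∀ a ∈ cls V x, a ∉ cl U c := fun a ha =>
    B.acl_SS c ▸ notMem_acl_of_eq le_rfl ha (B.acl_SS c ▸ hx)
  obtain ⟨K, ⟨k1, k2, k3⟩, k4⟩ := exists_min_image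
    ⟨fun K => K ≤ F ∧ (∀ a ∈ K, ∀ b ∈ F, cl U a = cl U b → b ∈ K) ∧ k ≤ K.card,
      by simp only [all_eq, imp_eq]; fun_prop⟩ card (by fun_prop)
    ⟨F, le_rfl, fun _ _ _ h _ => h, by zify at h m4 ⊢; grind⟩
  have hKf := hFf.subset k1
  obtain ⟨a, ha⟩ : K.Nonempty :=
    nonempty_of_card_pos (((mul_pos four_pos B.Y_pos).trans_le m3).trans_le k3)
  have k5 : (K ⊓ cls U a).card < 4 * Y := B.sym hc (hn a (k1 ha).2) inf_le_right
    fun z hz => Fix_anti (inf_SS_le SS_le (k1 ha).2) (k1 hz.1).1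
  have k6 : (K \ cls U a).card < k := by
    by_contra h'
    exact absurd (k4 (K \ cls U a) ⟨sdiff_le.trans k1, fun y hy z hz e =>
      ⟨k2 y hy.1 z hz e, fun h => hy.2 (h.trans e.symm)⟩, not_lt.1 h'⟩)
      (not_le.2 (card_lt_card ((lt_iff_exists sdiff_le).2
        ⟨a, ha, fun h => h.2 (mem_cls_self U a)⟩) hKf))
  have k7 := card_inf_add_card_sdiff K (cls U a) hKf
  have k8 := card_sdiff_add_card_of_le k1 hFf
  have hsub : ∀ K' ≤ F, UC U K' ≤ cls V x := fun K' h =>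
    biUnion_le fun a ha z hz => (h ha).2.trans (cl_eq_mono SS_le hz)
  have hfix : ∀ K' ≤ F, K' ≤ Fix W := fun K' h => h.trans inf_le_left
  have hself : ∀ K' : DSet A, K' ≤ UC U K' := fun K' a ha => ⟨a, ha, mem_cls_self U a⟩
  have hU : ∀ K' ≤ F, UX U K' ≤ (acl U)ᶜ := fun K' h =>
    biUnion_le fun a ha => XO_subset_compl le_rfl fun h' => hn a (h ha).2 (acl_subset_cl h')
  have k9 : F \ K ≤ F := sdiff_le
  have j1 := join (H.fin W) (hD.subset (hsub K k1)) (hD.subset (hsub _ k9))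
    (stab_UC hWU (hfix K k1)) (stab_UC hWU (hfix _ k9))
    (disjoint_left.2 fun z ⟨y, hy, h1⟩ ⟨y', hy', h2⟩ => hy'.2 (k2 y hy y' hy'.1 (h1.trans h2.symm)))
    (hself K) (hself _) (fun g hg a ha => hfix K k1 ha g hg) (fun g hg a ha => hfix _ k9 ha g hg)
    (m2.trans (Nn.pow_le_pow_right two_pos k3))
    (m2.trans (Nn.pow_le_pow_right two_pos (by zify at h m3 m4 k5 k6 k7 k8 ⊢; grind)))
  have hs1 : ∀ K' : DSet A, Stab U (UX U K') := fun K' => stab_biUnion fun _ _ => stab_XO le_rfl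
  have hs2 : ∀ K' : DSet A, CS U (UX U K') := fun K' => cs_biUnion fun _ _ => cs_XO
  have hs3 : ∀ K' : DSet A, UC U K' ≤ UX U K' := fun K' _ ⟨a, ha, h⟩ => ⟨a, ha, cls_subset_XO h⟩
  have hS := sup_le (hsub K k1) (hsub _ k9)
  have j2 := nn_cls_le (X := (UX U K ⊔ UX U (F \ K)) \ cl U c) le_rfl
    (H.fin V) (hD.subset hS) hS
    (((stab_UC hWU (hfix K k1)).union (stab_UC hWU (hfix _ k9))).mono inf_le_right)
    ((((hs1 _).union (hs1 _)).mono SS_le).diff stab_cl)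
    fun z hz => ⟨hz.imp (fun h => hs3 _ h) (fun h => hs3 _ h), hn z (hS hz)⟩
  rw [inf_eq_right.2 SS_le] at j2
  have j3 := B.f1 hc ((hs1 K).union (hs1 (F \ K))) ((hs2 _).union (hs2 _))
    (sup_le (hU K k1) (hU _ k9))
  have j4 := (nn_union_le (X' := UX U (F \ K)) (H.fin U) (hs1 K) (hs2 K).sat).trans
    (Nn.mul_le_mul (nn_UX_le hWU (H.fin W) (hfix K k1)) (nn_UX_le hWU (H.fin W) (hfix _ k9)))
  have j5 := j1.trans (Nn.mul_le_mul_left _ (j2.trans (j3.trans (Nn.mul_le_mul_left _ j4))))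
  rw [← mul_assoc 4] at j5
  exact absurd (Nn.le_of_mul_le_mul_right j5
    (mul_pos (nn_pos (H.fin W) _) (nn_pos (H.fin W) _))) (not_le.2 m1)

/-- A lowest fixed point of two minimal classes has a small budget. -/
theorem Base2.gl (hc : MinP U c) (hb : MinP U b) (hbc : b ∉ cl U c)
    (hx : x ∈ Fix (SS U c ⊓ SS U b)) (hx' : x ∉ cl U c) :
    ∃ y ∈ cl (SS U c) x, y ∉ cl U c ∧
      NN (SS (SS U c) y) ≤ w ^ ((ka + 4) * Y) * NN (SS U c) := by
  have H := B.hyp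
  set V := SS U c with hV
  obtain ⟨y, ⟨y1, y2, y3⟩, y4⟩ := exists_min_image
    ⟨fun y => y ∈ Fix (V ⊓ SS U b) ∧ y ∈ cl V x ∧ y ∉ cl U c, by fun_prop⟩
    (fun y => (cl V y).card) (by fun_prop) ⟨x, hx, mem_cl_self V x, hx'⟩
  refine ⟨y, y2, y3, (B.bl (SS_le.trans SS_le) ?_ B.hYl).trans
    (Nn.mul_le_mul_left _ (H.NN_mono SS_le))⟩
  have k1 : Fix (SS V y) ≤ Fix (V ⊓ SS U b) :=
    Fix_anti fun g hg => ⟨hg.1, by rw [y1 g hg]⟩
  have k2 : Fix (SS V y) \ Fix U ≤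
      (Fix (SS V y) ⊓ cls V y) ⊔ (cls U c ⊓ Fix (SS U b ⊓ SS U c)) := by
    intro z hz
    by_cases h : z ∈ cl U c
    · exact Or.inr ⟨hc.2 z h (B.closed ▸ hz.2), inf_comm V (SS U b) ▸ k1 hz.1⟩
    · have h1 : z ∈ cl V y := H.acl_SS V y ▸ Fix_subset_acl hz.1
      exact Or.inl ⟨hz.1, (eq_of_le_of_card_le (cl_subset le_rfl h1)
        (y4 z ⟨k1 hz.1, cl_subset le_rfl y2 h1, h⟩) (H.clf V y)).symm⟩
  have k3 : (Fix (SS V y) ⊓ cls V y).card ≤ ka * Y := B.lemF hc y3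
  have k4 := B.sym (K := cls U c ⊓ Fix (SS U b ⊓ SS U c)) hb
    (fun h => hbc (hb.2 c h hc.1 ▸ mem_cl_self U b)) inf_le_left inf_le_right
  have k5 := (card_le_card k2 (((H.clsf V y).subset inf_le_right).sup
    ((H.clsf U c).subset inf_le_left))).trans (card_sup_le _ _)
  rw [add_mul]
  exact k5.trans (add_le_add k3 k4.le)

/-- The classes strictly above such a point. -/
theorem Base2.gl' (hc : MinP U c) (hb : MinP U b) (hbc : b ∉ cl U c)
    (hx : x ∈ Fix (SS U c ⊓ SS U b)) (hx' : x ∉ cl U c) {ι : Type} [Coded ι] {s : DSet ι}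
    (hs : s.Finite) (e : ι → A) (de : DefF e)
    (h1 : ∀ i ∈ s, x ∈ cl (SS U c) (e i)) (h2 : ∀ i ∈ s, e i ∉ cl (SS U c) x)
    (hd : (s : Set ι).PairwiseDisjoint fun i => XO (SS U c) (SS U c) (e i)) :
    s.prod (fun i => nn (SS U c) (XO (SS U c) (SS U c) (e i))) ≤ w ^ ((ka + 4) * Y) := by
  have H := B.hyp
  obtain ⟨y, y1, y2, y3⟩ := B.gl hc hb hbc hx hx'
  have e1 := H.acl_SS (SS U c) y
  have := (H.sp SS_le hs e de (fun i hi h => h2 i hi (cl_subset le_rfl y1 (e1 ▸ h)))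
    (fun i hi => ⟨y, cl_subset le_rfl (h1 i hi) y1, e1 ▸ mem_cl_self _ y, B.acl_SS c ▸ y2⟩)
    hd).trans y3
  rw [mul_comm] at this
  exact Nn.le_of_mul_le_mul_right this (H.NN_pos _)

end Pool.Agent.P.MP_e517ea_lc.Z
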