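import Pool.Agent.P.MP_e517ea_lc.Z.Prod

/-!
Finite sequences of the model, relations, Dedekind infinite types.
-/

set_option synthInstance.maxSize 16384

noncomputable section

namespace Pool.Agent.P.MP_e517ea_lc.Z

variable [ZU]
variable {X Y W : Type} [Coded X] [Coded Y] [Coded W]

/-- Finite sequences of the model. -/
structure ISeq (X : Type) [Coded X] where
  gr : DSet (Nn × X)
  len : Nn
  dom : ∀ i, i < len ↔ ∃ x, (i, x) ∈ gr
  uniq : ∀ i x y, (i, x) ∈ gr → (i, y) ∈ gr → x = y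

namespace ISeq

/-- The entry number `i` of `s` is `x`. -/
def At (s : ISeq X) (i : Nn) (x : X) : Prop := (i, x) ∈ s.gr

theorem gr_inj : Function.Injective (gr : ISeq X → _) := by
  rintro ⟨g, n, h, _⟩ ⟨g', n', h', _⟩ (rfl : g = g')
  obtain rfl : n = n' := eq_of_forall_lt_iff fun i => (h i).trans (h' i).symm
  rfl

noncomputable instance : Coded (ISeq X) :=
  Coded.ofInj gr gr_inj <| by
    have h : DefF (fun S : DSet (Nn × X) => ∃ n, (∀ i, i < n ↔ ∃ x, (i, x) ∈ S) ∧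
        ∀ i x y, (i, x) ∈ S → (i, y) ∈ S → x = y) := by
      simp only [all_eq, imp_eq]
      fun_prop
    exact h.congr_iff fun S => ⟨fun ⟨n, h1, h2⟩ => ⟨⟨S, n, h1, h2⟩, rfl⟩,
      fun ⟨s, e⟩ => e ▸ ⟨s.len, s.dom, s.uniq⟩⟩

theorem cd_eq (s : ISeq X) : cd s = cd s.gr := rfl

@[fun_prop] theorem defF_gr : DefF (gr : ISeq X → _) := defF_of_cd_eq fun _ => rfl

variable {s t : ISeq X} {i j : Nn} {x y : X}

theorem lt_len_iff : i < s.len ↔ ∃ x, s.At i x := s.dom i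

theorem At.lt (h : s.At i x) : i < s.len := lt_len_iff.2 ⟨x, h⟩

theorem At.unique (h : s.At i x) (h' : s.At i y) : x = y := s.uniq i x y h h'

theorem ext (h : ∀ i x, s.At i x ↔ t.At i x) : s = t := gr_inj (DSet.ext fun z => h z.1 z.2)

theorem ext' (hl : s.len = t.len) (h : ∀ i x, s.At i x → t.At i x) : s = t :=
  ext fun i x => ⟨h i x, fun k => by
    obtain ⟨y, hy⟩ := lt_len_iff.1 (hl ▸ k.lt)
    rwa [k.unique (h i y hy)]⟩

end ISeq

@[fun_prop] theorem DefF.seqAt {s : W → ISeq X} {i : W → Nn} {x : W → X} (hs : DefF s)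
    (hi : DefF i) (hx : DefF x) : DefF (fun w => (s w).At (i w) (x w)) := by
  unfold ISeq.At; fun_prop

@[fun_prop] theorem DefF.seqLen : DefF (ISeq.len : ISeq X → Nn) :=
  DefF.of_rel (fun s n => ∀ i, i < n ↔ ∃ x, s.At i x) (by simp only [all_eq]; fun_prop)
    fun _ _ => ⟨fun e _ => e ▸ ISeq.lt_len_iff,
      fun h => eq_of_forall_lt_iff fun i => ISeq.lt_len_iff.trans (h i).symm⟩

theorem DefF.of_at {s : W → ISeq X} (h : DefF (fun z : W × Nn × X => (s z.1).At z.2.1 z.2.2)) :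
    DefF s := DefF.of_inj ISeq.gr_inj ISeq.defF_gr (DefF.of_mem h)

namespace ISeq

variable {s t : ISeq X} {i j n : Nn} {x y : X} {S T : DSet X}

/-- No repetition. -/
def Nodup (s : ISeq X) : Prop := ∀ i j x, s.At i x → s.At j x → i = j

/-- The set of entries. -/
def rng (s : ISeq X) : DSet X := ⟨fun x => ∃ i, s.At i x, by fun_prop⟩

@[simp] theorem mem_rng : x ∈ s.rng ↔ ∃ i, s.At i x := Iff.rfl

theorem At.mem (h : s.At i x) : x ∈ s.rng := ⟨i, h⟩

theorem finite_rng (s : ISeq X) : s.rng.Finite :=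
  (DSet.card_le_of_rel (S := s.rng) (T := DSet.range s.len) (fun x i => s.At i x) (by fun_prop)
    (fun _ ⟨i, h⟩ => ⟨i, h.lt, h⟩) (fun _ _ _ _ _ _ h h' => h.unique h') (DSet.finite_range _)).1

/-- The empty sequence. -/
def nil : ISeq X :=
  ⟨⊥, 0, fun _ => iff_of_false not_lt_zero fun ⟨_, h⟩ => h, fun _ _ _ h => h.elim⟩

@[simp] theorem not_at_nil : ¬ (nil : ISeq X).At i x := fun h => h

@[simp] theorem len_nil : (nil : ISeq X).len = 0 := rfl

theorem eq_nil (h : s.len = 0) : s = nil :=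
  ext' h fun _ _ k => absurd (h ▸ k.lt) not_lt_zero

/-- Append an entry. -/
def snoc (s : ISeq X) (a : X) : ISeq X where
  gr := insert (s.len, a) s.gr
  len := s.len + 1
  dom i := by
    rw [Nn.lt_succ_iff_lt_or_eq, s.dom]
    refine ⟨?_, ?_⟩
    · rintro (⟨x, h⟩ | rfl)
      exacts [⟨x, Or.inr h⟩, ⟨a, Or.inl rfl⟩]
    · rintro ⟨x, h | h⟩
      exacts [Or.inr (Prod.ext_iff.1 h).1, Or.inl ⟨x, h⟩]
  uniq i x y := by
    rintro (h | h) (h' | h')
    · exact (Prod.ext_iff.1 (h.trans h'.symm)).2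
    · exact absurd (Prod.ext_iff.1 h).1 (At.lt h').ne
    · exact absurd (Prod.ext_iff.1 h').1 (At.lt h).ne
    · exact s.uniq i x y h h'

theorem at_snoc {a : X} : (s.snoc a).At i x ↔ (i = s.len ∧ x = a) ∨ s.At i x :=
  or_congr_left Prod.ext_iff

@[simp] theorem len_snoc (a : X) : (s.snoc a).len = s.len + 1 := rfl

theorem snoc_inj {a b : X} (h : s.snoc a = t.snoc b) : s = t ∧ a = b := by
  have hl : s.len = t.len := Nn.succ_inj.1 (congrArg len h)
  refine ⟨ext' hl fun i x k => ?_, ?_⟩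
  · have : (t.snoc b).At i x := h ▸ at_snoc.2 (Or.inr k)
    exact (at_snoc.1 this).resolve_left fun e => k.lt.ne (e.1.trans hl.symm)
  · have : (t.snoc b).At s.len a := h ▸ at_snoc.2 (Or.inl ⟨rfl, rfl⟩)
    exact ((at_snoc.1 this).resolve_right fun k => k.lt.ne hl).2

theorem exists_snoc (h : s.len = n + 1) : ∃ (t : ISeq X) (a : X), t.len = n ∧ s = t.snoc a := by
  obtain ⟨a, ha⟩ := (lt_len_iff (s := s)).1 (h ▸ lt_add_one n)
  refine ⟨⟨s.gr.sep (fun z => z.1 < n) (by fun_prop), n, fun i => ⟨fun hi => ?_, fun ⟨_, k⟩ => k.2⟩,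
    fun i x y k k' => s.uniq i x y k.1 k'.1⟩, a, rfl, ext' h fun i x k => at_snoc.2 ?_⟩
  · obtain ⟨x, hx⟩ := (lt_len_iff (s := s)).1 (h ▸ hi.trans (lt_add_one n))
    exact ⟨x, hx, hi⟩
  · rcases Nn.lt_succ_iff_lt_or_eq.1 (h ▸ k.lt) with e | rfl
    exacts [Or.inr ⟨k, e⟩, Or.inl ⟨rfl, k.unique ha⟩]

theorem rng_snoc (a : X) : (s.snoc a).rng = insert a s.rng :=
  DSet.ext fun _ => ⟨fun ⟨i, h⟩ => (at_snoc.1 h).imp (·.2) fun k => ⟨i, k⟩,
    fun h => h.elim (fun e => ⟨_, at_snoc.2 (Or.inl ⟨rfl, e⟩)⟩) fun ⟨i, k⟩ => ⟨i, at_snoc.2 (Or.inr k)⟩⟩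

theorem nodup_snoc {a : X} : (s.snoc a).Nodup ↔ s.Nodup ∧ a ∉ s.rng := by
  refine ⟨fun h => ⟨fun i j x k k' => h i j x (at_snoc.2 (Or.inr k)) (at_snoc.2 (Or.inr k')),
    fun ⟨i, k⟩ => k.lt.ne (h _ _ a (at_snoc.2 (Or.inr k)) (at_snoc.2 (Or.inl ⟨rfl, rfl⟩)))⟩,
    fun h i j x k k' => ?_⟩
  rcases at_snoc.1 k with k | k <;> rcases at_snoc.1 k' with k' | k'
  exacts [k.1.trans k'.1.symm, (h.2 ⟨j, k.2 ▸ k'⟩).elim, (h.2 ⟨i, k'.2 ▸ k⟩).elim, h.1 i j x k k']

/-- The image of a sequence. -/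
def map (f : X → Y) (hf : DefF f) (s : ISeq X) : ISeq Y where
  gr := ⟨fun z => ∃ x, s.At z.1 x ∧ f x = z.2, by fun_prop⟩
  len := s.len
  dom i := ⟨fun k => (lt_len_iff.1 k).elim fun x h => ⟨f x, x, h, rfl⟩, fun h => h.elim fun _ h => At.lt h.choose_spec.1⟩
  uniq := by
    rintro i _ _ ⟨x, h, rfl⟩ ⟨x', h', rfl⟩
    exact congrArg f (h.unique h')

theorem at_map {f : X → Y} {hf : DefF f} {y : Y} : (s.map f hf).At i y ↔ ∃ x, s.At i x ∧ f x = y :=
  Iff.rfl

@[simp] theorem len_map {f : X → Y} {hf : DefF f} : (s.map f hf).len = s.len := rfl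

theorem At.map {f : X → Y} {hf : DefF f} (h : s.At i x) : (s.map f hf).At i (f x) := ⟨x, h, rfl⟩

theorem Nodup.map {f : X → Y} {hf : DefF f} (h : s.Nodup) (hi : Set.InjOn f s.rng) :
    (s.map f hf).Nodup := by
  rintro i j _ ⟨x, k, rfl⟩ ⟨x', k', e⟩
  exact h i j x k (hi k'.mem k.mem e ▸ k')

theorem Nodup.of_map {f : X → Y} {hf : DefF f} (h : (s.map f hf).Nodup) : s.Nodup :=
  fun i j _ k k' => h i j _ k.map k'.map

theorem map_injective {f : X → Y} {hf : DefF f} (hi : Function.Injective f) :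
    Function.Injective (map f hf) := fun s t e =>
  ext' (congrArg len e :) fun i x k => by
    obtain ⟨x', k', e'⟩ : (t.map f hf).At i (f x) := e ▸ k.map
    exact hi e' ▸ k'

/-- `t` is the image of `s` under the relation `p`. -/
def Rel (p : DSet (X × Y)) (s : ISeq X) (t : ISeq Y) : Prop :=
  s.len = t.len ∧ ∀ i x y, s.At i x → t.At i y → (x, y) ∈ p

theorem Rel.fwd {p : DSet (X × Y)} {t : ISeq Y} (h : Rel p s t) (k : s.At i x) :
    ∃ y, t.At i y ∧ (x, y) ∈ p := by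
  obtain ⟨y, hy⟩ := (lt_len_iff (s := t)).1 (h.1 ▸ k.lt)
  exact ⟨y, hy, h.2 i x y k hy⟩

theorem Rel.bwd {p : DSet (X × Y)} {t : ISeq Y} {y : Y} (h : Rel p s t) (k : t.At i y) :
    ∃ x, s.At i x ∧ (x, y) ∈ p := by
  obtain ⟨x, hx⟩ := (lt_len_iff (s := s)).1 (h.1 ▸ k.lt)
  exact ⟨x, hx, h.2 i x y hx k⟩

theorem Rel.mono {p q : DSet (X × Y)} {t : ISeq Y} (h : Rel p s t) (k : p ≤ q) : Rel q s t :=
  ⟨h.1, fun i x y a b => k (h.2 i x y a b)⟩

/-- A sequence has an image under a relation that is total on its entries. -/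
theorem exists_rel (p : DSet (X × Y)) (h : ∀ x ∈ s.rng, ∃ y, (x, y) ∈ p) : ∃ t, Rel p s t := by
  rcases s.rng.eq_bot_or_nonempty with h0 | ⟨x0, h0⟩
  · refine ⟨nil, not_ne_iff.1 fun k => ?_, fun _ _ _ _ k => k.elim⟩
    obtain ⟨x, hx⟩ := (lt_len_iff (s := s)).1 (pos_iff_ne_zero.2 k)
    exact (h0 ▸ hx.mem :)
  have : Nonempty Y := ⟨(h x0 h0).choose⟩
  obtain ⟨f, hf, hf'⟩ := s.finite_rng.choice (r := fun x y => (x, y) ∈ p) (by fun_prop) h
  exact ⟨s.map f hf, rfl, fun i x y k ⟨x', k', (e : f x' = y)⟩ => e ▸ k.unique k' ▸ hf' x k.mem⟩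

/-- The injective sequences with entries in `S`. -/
def NL (S : DSet X) : DSet (ISeq X) := ⟨fun s => s.Nodup ∧ s.rng ≤ S, by
  simp only [Nodup, DSet.le_def, mem_rng, all_eq, imp_eq]; fun_prop⟩

theorem mem_NL : s ∈ NL S ↔ s.Nodup ∧ s.rng ≤ S := Iff.rfl

end ISeq

@[fun_prop] theorem DefF.seqNodup {s : W → ISeq X} (hs : DefF s) : DefF (fun w => (s w).Nodup) := by
  simp only [ISeq.Nodup, all_eq, imp_eq]; fun_prop

@[fun_prop] theorem DefF.seqRng {s : W → ISeq X} (hs : DefF s) : DefF (fun w => (s w).rng) :=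
  DefF.of_mem (by simp only [ISeq.mem_rng]; fun_prop)

@[fun_prop] theorem DefF.seqSnoc {s : W → ISeq X} {a : W → X} (hs : DefF s) (ha : DefF a) :
    DefF (fun w => (s w).snoc (a w)) :=
  DefF.of_at (by simp only [ISeq.at_snoc]; fun_prop)

@[fun_prop] theorem DefF.seqMap {s : W → ISeq X} {f : W → X → Y} (h0 : ∀ w, DefF (f w))
    (hs : DefF s) (hf : DefF (fun z : W × X => f z.1 z.2)) :
    DefF (fun w => (s w).map (f w) (h0 w)) :=
  DefF.of_at (by simp only [ISeq.at_map]; fun_prop)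

@[fun_prop] theorem DefF.seqRel {p : W → DSet (X × Y)} {s : W → ISeq X} {t : W → ISeq Y}
    (hp : DefF p) (hs : DefF s) (ht : DefF t) : DefF (fun w => ISeq.Rel (p w) (s w) (t w)) := by
  simp only [ISeq.Rel, all_eq, imp_eq]; fun_prop

@[fun_prop] theorem DefF.seqNL {S : W → DSet X} (hS : DefF S) : DefF (fun w => ISeq.NL (S w)) :=
  DefF.of_mem (by simp only [ISeq.mem_NL]; fun_prop)

namespace ISeq

open DSet

theorem NL_eq (S : DSet X) : NL S = insert nil (S.biUnion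
    (fun a => (NL (S \ {a})).image (fun t => t.snoc a) (by fun_prop)) (by fun_prop)) := by
  ext s
  constructor
  · intro h
    rcases s.len.eq_zero_or_succ with h0 | ⟨n, hn⟩
    · exact Or.inl (eq_nil h0)
    obtain ⟨t, a, -, rfl⟩ := exists_snoc hn
    have h1 := nodup_snoc.1 h.1
    have h2 := insert_le_iff.1 (rng_snoc (s := t) a ▸ h.2)
    exact Or.inr ⟨a, h2.1, t, ⟨h1.1, fun x hx => ⟨h2.2 hx, fun (e : x = a) => h1.2 (e ▸ hx)⟩⟩, rfl⟩
  · rintro (rfl | ⟨a, ha, t, ht, rfl⟩)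
    · exact ⟨fun _ _ _ h => h.elim, fun _ ⟨_, h⟩ => h.elim⟩
    · exact ⟨nodup_snoc.2 ⟨ht.1, fun h => (ht.2 h).2 rfl⟩,
        rng_snoc (s := t) a ▸ insert_le_iff.2 ⟨ha, ht.2.trans sdiff_le⟩⟩

theorem card_NL {S : DSet X} (hS : S.Finite) : (NL S).Finite ∧ (NL S).card = nseq S.card := by
  refine Nn.induction (p := fun n => ∀ S : DSet X, S.Finite → S.card = n →
    (NL S).Finite ∧ (NL S).card = nseq n) (by simp only [all_eq, imp_eq]; fun_prop)
    (fun S hS h => ?_) (fun n ih S hS h => ?_) _ S hS rfl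
  · rw [NL_eq, (card_eq_zero hS).1 h, biUnion_bot, insert_bot]
    exact ⟨finite_singleton _, by simp⟩
  · have h1 : ∀ a ∈ S, (NL (S \ {a})).Finite ∧ (NL (S \ {a})).card = nseq n := fun a ha =>
      ih _ (hS.subset sdiff_le) (Nn.succ_inj.1 ((card_sdiff_singleton_add_one ha hS).trans h))
    have h2 := hS.biUnion (f := fun a => (NL (S \ {a})).image (fun t => t.snoc a) (by fun_prop))
      (by fun_prop) fun a ha => (h1 a ha).1.image _ (by fun_prop)
    rw [NL_eq]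
    refine ⟨h2.insert _, ?_⟩
    rw [card_insert_of_notMem _ h2, card_biUnion _ hS (fun a ha => (h1 a ha).1.image _ _),
      sum_congr (g := fun _ => nseq n), sum_const hS, h, nseq_succ]
    · exact fun a ha => (card_image_of_injOn (by fun_prop) fun _ _ _ _ e => (snoc_inj e).1).trans (h1 a ha).2
    · refine fun a _ b _ hne => disjoint_left.2 ?_
      rintro _ ⟨t, -, rfl⟩ ⟨t', -, e⟩
      exact hne (snoc_inj e).2.symm
    · rintro ⟨a, -, t, -, e⟩
      exact Nn.succ_ne_zero _ (congrArg len e)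

end ISeq

/-- An infinite set with a definable injection into the numbers gives an injective sequence. -/
theorem exists_inj_of_idx {T : DSet X} (hT : ¬ T.Finite) {r : X → Nn} (hr : DefF r)
    (hi : Set.InjOn r T) : ∃ ι : Nn → X, DefF ι ∧ Function.Injective ι := by
  obtain ⟨x0, -⟩ := (T.eq_bot_or_nonempty).resolve_left fun e => hT (e ▸ DSet.finite_bot)
  let ch : DSet X → X := fun S => uq x0 fun x => x ∈ T \ S ∧ ∀ y ∈ T \ S, r x ≤ r y
  have dch : DefF ch := by simp only [ch, all_eq, imp_eq]; fun_prop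
  have h1 : ∀ S : DSet X, S.Finite → ch S ∉ S := fun S hS => by
    obtain ⟨x, hx, h⟩ := (T \ S).exists_min_image r hr ((T \ S).eq_bot_or_nonempty.resolve_left
      fun e => hT (hS.subset (sdiff_eq_bot_iff.1 e)))
    rw [show ch S = x from uq_eq ⟨hx, h⟩ fun y hy => hi hy.1.1 hx.1 ((hy.2 x hx).antisymm (h y hy.1))]
    exact hx.2
  let S : Nn → DSet X := recN ⊥ fun _ S => insert (ch S) S
  have dS : DefF S := by simp only [S]; fun_prop
  have S1 : ∀ n, S (n + 1) = insert (ch (S n)) (S n) := recN_succ _ (by fun_prop)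
  have h2 : ∀ n, (S n).Finite := Nn.induction (by fun_prop)
    (by rw [show S 0 = ⊥ from recN_zero _ (by fun_prop)]; exact DSet.finite_bot) fun n h => S1 n ▸ h.insert _
  have h3 : ∀ m n, m < n → ch (S m) ≠ ch (S n) := fun m n h e => h1 _ (h2 n) (e ▸ Nn.le_induction
    (p := fun n => ch (S m) ∈ S n) (by fun_prop) (S1 m ▸ DSet.mem_insert _ _)
    (fun n _ h => S1 n ▸ Or.inr h) n (Nn.lt_iff_add_one_le.1 h))
  exact ⟨fun n => ch (S n), by fun_prop, fun m n e => (lt_trichotomy m n).elim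
    (fun h => (h3 m n h e).elim) fun h => h.elim id fun h => (h3 n m h e.symm).elim⟩

/-- A pairing function. -/
noncomputable def Nn.pair (a b : Nn) : Nn := (a + b) * (a + b) + a

@[fun_prop] theorem DefF.nnPair {a b : W → Nn} (ha : DefF a) (hb : DefF b) :
    DefF (fun w => Nn.pair (a w) (b w)) := by
  unfold Nn.pair; fun_prop

@[simp] theorem Nn.pair_eq_pair {a b c d : Nn} : Nn.pair a b = Nn.pair c d ↔ a = c ∧ b = d := by
  refine ⟨fun h => ?_, fun h => by rw [h.1, h.2]⟩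
  have key : ∀ {a b c d : Nn}, Nn.pair a b = Nn.pair c d → ¬ a + b < c + d := fun {a b c d} h k => by
    have k1 := Nn.mul_le_mul (Nn.lt_iff_add_one_le.1 k) (Nn.lt_iff_add_one_le.1 k)
    have k2 : (a + b + 1) * (a + b + 1) = (a + b) * (a + b) + a + (a + b + b + 1) := by ring
    unfold Nn.pair at h
    rw [k2, h] at k1
    generalize (c + d) * (c + d) = u at k1
    zify at k1
    grind
  have e : a + b = c + d := le_antisymm (not_lt.1 (key h.symm)) (not_lt.1 (key h))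
  unfold Nn.pair at h
  rw [e] at h
  obtain rfl := add_left_cancel h
  exact ⟨rfl, add_left_cancel e⟩

namespace DSet

variable {Z : Type} [Coded Z] {p q : DSet (X × Y)} {K : DSet X} {x : X} {y : Y}

/-- The domain of a relation. -/
def dom (p : DSet (X × Y)) : DSet X := ⟨fun x => ∃ y, (x, y) ∈ p, by fun_prop⟩

/-- The range of a relation. -/
def ran (p : DSet (X × Y)) : DSet Y := ⟨fun y => ∃ x, (x, y) ∈ p, by fun_prop⟩

/-- The inverse of a relation. -/
def inv (p : DSet (X × Y)) : DSet (Y × X) := ⟨fun z => (z.2, z.1) ∈ p, by fun_prop⟩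

/-- First `p`, then `q`. -/
def comp (p : DSet (X × Y)) (q : DSet (Y × Z)) : DSet (X × Z) :=
  ⟨fun z => ∃ y, (z.1, y) ∈ p ∧ (y, z.2) ∈ q, by fun_prop⟩

/-- The identity on `K`. -/
def idm (K : DSet X) : DSet (X × X) := ⟨fun z => z.1 ∈ K ∧ z.1 = z.2, by fun_prop⟩

/-- The restriction of a relation. -/
def restr (p : DSet (X × Y)) (K : DSet X) : DSet (X × Y) := ⟨fun z => z ∈ p ∧ z.1 ∈ K, by fun_prop⟩

@[simp] theorem mem_dom : x ∈ p.dom ↔ ∃ y, (x, y) ∈ p := Iff.rfl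
@[simp] theorem mem_ran : y ∈ p.ran ↔ ∃ x, (x, y) ∈ p := Iff.rfl
@[simp] theorem mem_inv {z : Y × X} : z ∈ p.inv ↔ (z.2, z.1) ∈ p := Iff.rfl
@[simp] theorem mem_comp {q : DSet (Y × Z)} {z : X × Z} :
    z ∈ p.comp q ↔ ∃ y, (z.1, y) ∈ p ∧ (y, z.2) ∈ q := Iff.rfl
@[simp] theorem mem_idm {z : X × X} : z ∈ K.idm ↔ z.1 ∈ K ∧ z.1 = z.2 := Iff.rfl
@[simp] theorem mem_restr {z : X × Y} : z ∈ p.restr K ↔ z ∈ p ∧ z.1 ∈ K := Iff.rfl

theorem inv_inv (p : DSet (X × Y)) : p.inv.inv = p := rfl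
theorem dom_inv (p : DSet (X × Y)) : p.inv.dom = p.ran := rfl
theorem ran_inv (p : DSet (X × Y)) : p.inv.ran = p.dom := rfl
theorem restr_le : p.restr K ≤ p := fun _ h => h.1
theorem dom_mono (h : p ≤ q) : p.dom ≤ q.dom := fun _ ⟨y, k⟩ => ⟨y, h k⟩
theorem ran_mono (h : p ≤ q) : p.ran ≤ q.ran := fun _ ⟨y, k⟩ => ⟨y, h k⟩
theorem inv_mono (h : p ≤ q) : p.inv ≤ q.inv := fun _ k => h k
theorem dom_idm (K : DSet X) : K.idm.dom = K := ext fun x => ⟨fun ⟨_, h⟩ => h.1, fun h => ⟨x, h, rfl⟩⟩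
theorem dom_restr (h : K ≤ p.dom) : (p.restr K).dom = K :=
  ext fun _ => ⟨fun ⟨_, k⟩ => k.2, fun k => (h k).imp fun _ e => ⟨e, k⟩⟩
theorem inv_insert (p : DSet (X × Y)) (x : X) (y : Y) :
    (insert (x, y) p).inv = insert (y, x) p.inv := by
  ext z; simp [Prod.ext_iff, and_comm]
theorem inv_idm (K : DSet X) : K.idm.inv = K.idm :=
  ext fun z => by simp only [mem_inv, mem_idm]; grind

theorem Finite.dom (h : p.Finite) : p.dom.Finite :=
  (h.image Prod.fst DefF.fst).subset fun _ ⟨_, k⟩ => ⟨_, k, rfl⟩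
theorem Finite.ran (h : p.Finite) : p.ran.Finite :=
  (h.image Prod.snd DefF.snd).subset fun _ ⟨_, k⟩ => ⟨_, k, rfl⟩
theorem Finite.inv (h : p.Finite) : p.inv.Finite :=
  (h.image Prod.swap DefF.swap).subset fun _ k => ⟨_, k, rfl⟩
theorem Finite.comp {q : DSet (Y × Z)} (h : p.Finite) (h' : q.Finite) : (p.comp q).Finite :=
  (h.dom.times h'.ran).subset fun _ ⟨y, k, k'⟩ => ⟨⟨y, k⟩, y, k'⟩
theorem Finite.idm (h : K.Finite) : K.idm.Finite :=
  (h.times h).subset fun _ k => ⟨k.1, k.2 ▸ k.1⟩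

end DSet

section
variable {Z : Type} [Coded Z] {p : W → DSet (X × Y)} {K : W → DSet X}

@[fun_prop] theorem DefF.dsetDom (hp : DefF p) : DefF (fun w => (p w).dom) :=
  DefF.of_mem (by simp only [DSet.mem_dom]; fun_prop)
@[fun_prop] theorem DefF.dsetRan (hp : DefF p) : DefF (fun w => (p w).ran) :=
  DefF.of_mem (by simp only [DSet.mem_ran]; fun_prop)
@[fun_prop] theorem DefF.dsetInv (hp : DefF p) : DefF (fun w => (p w).inv) :=
  DefF.of_mem (by simp only [DSet.mem_inv]; fun_prop)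
@[fun_prop] theorem DefF.dsetComp {q : W → DSet (Y × Z)} (hp : DefF p) (hq : DefF q) :
    DefF (fun w => (p w).comp (q w)) :=
  DefF.of_mem (by simp only [DSet.mem_comp]; fun_prop)
@[fun_prop] theorem DefF.dsetIdm (hK : DefF K) : DefF (fun w => (K w).idm) :=
  DefF.of_mem (by simp only [DSet.mem_idm]; fun_prop)
@[fun_prop] theorem DefF.dsetRestr (hp : DefF p) (hK : DefF K) :
    DefF (fun w => (p w).restr (K w)) :=
  DefF.of_mem (by simp only [DSet.mem_restr]; fun_prop)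

end

end Pool.Agent.P.MP_e517ea_lc.Z
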