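import Pool.Agent.P.MP_e517ea_lc.Z.LemA

/-!
Orbits whose number of invariant partitions less than doubles after fixing a minimal class.
-/

set_option synthInstance.maxSize 16384
set_option linter.unusedSectionVars false

noncomputable section

namespace Pool.Agent.P.MP_e517ea_lc.Z

open DSet IEq

variable [ZU]
variable {G A Ω : Type} [Group G] [MulAction G A] [Coded A] [Coded Ω] [GS G A]

/-- Stable orbits. -/
def Stb (U : OS G A) (c : A) (O : DSet A) : Prop :=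
  O ∈ Orb U ∧ nn (SS U c) (O \ cl U c) < 2 * nn U O

/-- Big minimal points. -/
def BigP (U : OS G A) (a : A) : Prop := MinP U a ∧ 65 < (F0 U a).card

/-- Big minimal orbits. -/
def Big (U : OS G A) (O : DSet A) : Prop := ∃ a, a ∈ O ∧ BigP U a

/-- Good orbits. -/
def Good (U : OS G A) (c : A) (T : Nn) (O : DSet A) : Prop :=
  Stb U c O ∧ (nn U O ≤ T ∨ Big U O)

/-- The orbit of classes of the smaller group that contains a stable orbit. -/
def lab (U : OS G A) (c : A) (O : DSet A) : DSet A :=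
  (O \ cl U c).biUnion (XO (SS U c) (SS U c)) (by fun_prop)

variable {U U' V W : OS G A} {a b c d d' e x : A} {g : G} {X S R K O O' : DSet A}
  {J w ka Y T : Nn}

@[fun_prop] theorem DefF.stb {O : Ω → DSet A} (hO : DefF O) : DefF (fun z => Stb U c (O z)) := by
  unfold Stb; fun_prop

@[fun_prop] theorem DefF.bigP {a : Ω → A} (ha : DefF a) : DefF (fun z => BigP U (a z)) := by
  unfold BigP; fun_prop

@[fun_prop] theorem DefF.big {O : Ω → DSet A} (hO : DefF O) : DefF (fun z => Big U (O z)) := by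
  unfold Big; fun_prop

@[fun_prop] theorem DefF.good {O : Ω → DSet A} (hO : DefF O) :
    DefF (fun z => Good U c T (O z)) := by
  unfold Good; fun_prop

@[fun_prop] theorem DefF.lab {O : Ω → DSet A} (hO : DefF O) : DefF (fun z => lab U c (O z)) := by
  unfold Z.lab; fun_prop

theorem BigP.of_XO (h : BigP U a) (hb : b ∈ XO U U a) : BigP U b :=
  ⟨h.1.of_XO hb, card_F0_XO hb ▸ h.2⟩

theorem Big.pt (h : Big U O) (hO : O ∈ Orb U) (hd : d ∈ O) : BigP U d := by
  obtain ⟨a, ha, h⟩ := h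
  exact h.of_XO (Orb.eq hO ha ▸ hd)

theorem BigP.nonempty (h : BigP U a) : (F0 U a).Nonempty :=
  nonempty_of_card_pos (zero_le.trans_lt h.2)

theorem subset_lab : O \ cl U c ≤ lab U c O := fun d hd => ⟨d, hd, mem_XO_self⟩

theorem XO_subset_XO (h : V ≤ U) : XO U V d ≤ XO V V d := fun _ ⟨g, hg, e⟩ =>
  ⟨g, hg, cl_eq_mono h e⟩

theorem stab_SO (hO : O ∈ Orb U) : Stab (SS U c) (O \ cl U c) :=
  ((Orb.stab hO).mono SS_le).diff stab_cl

theorem exists_mem_cls (hS : Stab V S) (h : S ≤ XO V V e) (hx : x ∈ S) :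
    (S ⊓ cls V e).Nonempty := by
  obtain ⟨g, hg, h1⟩ := XO_symm le_rfl (h hx)
  exact ⟨g • x, hS g hg x hx, h1.symm⟩

theorem Hyp.loc_le (H : Hyp G A) (hS : Stab V S) (h : S ≤ XO V V e) :
    nn V S ≤ nn (SS V e) (S ⊓ cls V e) := by
  refine Detects.le (fun P hP a b hab hne => ?_) SS_le (H.fin _)
    ((hS.mono SS_le).inter stab_cls)
  obtain ⟨h1, h2⟩ := (hP.2.2 a b hab).resolve_left hne
  obtain ⟨g, hg, h3⟩ := XO_symm le_rfl (h h1)
  exact ⟨g, hg, ⟨hS g hg a h1, h3.symm⟩, hS g hg b h2,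
    h3.symm.trans (cl_smul_eq hg (Inv.cl_eq hP hab))⟩

theorem Hyp.loc_ge (H : Hyp G A) (hS : Stab V S) : nn (SS V e) (S ⊓ cls V e) ≤ nn V S := by
  have := nn_cls_le (a := e) le_rfl (H.fin V) ((H.clsf V e).subset inf_le_right)
    inf_le_right (((hS.mono SS_le).inter stab_cls).mono inf_le_right) hS inf_le_left
  rwa [inf_eq_right.2 SS_le] at this

theorem Hyp.gain_loc (H : Hyp G A) (hS : Stab V S) (hR : Stab V R)
    (hd : Disjoint S R) : nn (SS V e) (S ⊓ cls V e) * nn (SS V e) (R ⊓ cls V e) +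
      mm (SS V e) (S ⊓ cls V e) * mm (SS V e) (R ⊓ cls V e) ≤ nn V (S ⊔ R) := by
  have hD := H.clsf V e
  refine (gain (H.fin _) (hD.subset inf_le_right) (hD.subset inf_le_right)
    (hd.mono inf_le_left inf_le_left)).trans ?_
  rw [← inf_sup_right]
  exact H.loc_ge (hS.union hR)

theorem Hyp.mm_loc (H : Hyp G A) (hS : Stab V S) (h : S ≤ XO V V e) (hx : x ∈ S) :
    1 ≤ mm (SS V e) (S ⊓ cls V e) :=
  mm_pos (H.fin _) ((H.clsf V e).subset inf_le_right)
    ((hS.mono SS_le).inter stab_cls) (exists_mem_cls hS h hx)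

variable (B : Base U J w)
include B

theorem Base.det (hO : O ∈ Orb U) : nn U O ≤ nn (SS U c) (O \ cl U c) :=
  B.acl_SS c ▸ B.hyp.det SS_le (Orb.stab hO) (Orb.cs hO) (Orb.subset hO)

theorem Base.exists_gen (hO : O ∈ Orb U) (c : A) :
    ∃ d ∈ O \ cl U c, d ∈ Gen U (SS U c) := by
  obtain ⟨a, ha, rfl, -⟩ := hO
  obtain ⟨g, hg, h⟩ := B.hyp.exists_gen (SS U c) ha
  exact ⟨_, ⟨smul_mem_XO hg, B.acl_SS c ▸ gen_subset h⟩, h⟩

theorem Base.tr (h : Stb U c O) (hd : d ∈ O \ cl U c) (hd' : d' ∈ O \ cl U c) :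
    d' ∈ XO U (SS U c) d := by
  by_contra h0
  have e := Orb.eq h.1 hd.1
  have := nn_split (a := d) SS_le (B.hyp.fin (SS U c)) mem_XO_self (e ▸ hd'.1)
    (B.acl_SS c ▸ hd.2) (B.acl_SS c ▸ hd'.2) h0
  rw [e, B.acl_SS] at this
  exact absurd ((Nn.mul_le_mul_right _ (Orb.two_le h.1)).trans this) (not_le.2 h.2)

theorem Base.gen (h : Stb U c O) (hd : d ∈ O \ cl U c) : d ∈ Gen U (SS U c) := by
  obtain ⟨y, h1, h2⟩ := B.exists_gen h.1 c
  exact XO_subset (stab_gen SS_le) cs_gen h2 (B.tr h h1 hd)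

theorem Base.SO_eq (h : Stb U c O) (hd : d ∈ O \ cl U c) : XO U (SS U c) d = O \ cl U c :=
  (XO_subset (stab_SO h.1) ((Orb.cs h.1).diff (B.acl_SS c ▸ cs_acl SS_le)) hd).antisymm
    fun _ hx => B.tr h hd hx

theorem Base.lab_eq (h : Stb U c O) (hd : d ∈ O \ cl U c) :
    lab U c O = XO (SS U c) (SS U c) d :=
  (biUnion_le fun _ hy => (XO_eq le_rfl (XO_subset_XO SS_le (B.tr h hd hy))).le).antisymm
    (le_biUnion (f := XO (SS U c) (SS U c)) hd)

theorem Base.exists_lab (h : Stb U c O) :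
    ∃ d ∈ O \ cl U c, lab U c O = XO (SS U c) (SS U c) d := by
  obtain ⟨d, hd, -⟩ := B.exists_gen h.1 c
  exact ⟨d, hd, B.lab_eq h hd⟩

/-- A class of the smaller group contains at most one class of a stable big orbit. -/
theorem Base.st3 (h : Stb U c O) (hb : Big U O) (hd : d ∈ O \ cl U c) (hd' : d' ∈ O \ cl U c)
    (e : cl (SS U c) d = cl (SS U c) d') : cl U d = cl U d' := by
  by_contra h0
  have H := B.hyp
  have hp := hb.pt h.1 hd.1
  obtain ⟨x, hx⟩ := hp.nonempty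
  have ex : cl U d = cl U x := B.F0_cls hp.1 hx
  have hxO : x ∈ O \ cl U c := B.SO_eq h hd ▸ cls_subset_XO ex
  obtain ⟨v, hv, ev⟩ := B.tr h hxO hd'
  have hdet : Detects U O (O \ cl U c) := fun P hP a b hab hne => by
    obtain ⟨k1, k2⟩ := (hP.2.2 a b hab).resolve_left hne
    obtain ⟨g, hg, eg⟩ := XO_symm le_rfl (Orb.eq h.1 hd.1 ▸ k1 : a ∈ XO U U d)
    exact ⟨g, hg, B.SO_eq h hd ▸ cls_subset_XO eg.symm,
      B.SO_eq h hd ▸ cls_subset_XO (eg.symm.trans (cl_smul_eq hg (Inv.cl_eq hP hab)))⟩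
  have := pointed (σ := ker (cl U) (by fun_prop)) (H.fin (SS U c)) (H.tau_mem (SS U c))
    (stab_SO h.1) hxO
    (fun u hu u' hu' e => by
      have k1 : cl U ((u'⁻¹ * u) • x) = cl U x := by
        simpa only [inv_smul_smul, mul_smul] using cl_smul_eq (U.inv_mem hu'.1) e
      have k2 := hx.1 _ (mem_SS_of (U.mul_mem (U.inv_mem hu'.1) hu.1) ex (ex.trans k1.symm))
      rwa [mul_smul, inv_smul_eq_iff] at k2) hv
    ((cl_eq_mono SS_le ex).symm.trans (e.trans (cl_eq_mono SS_le ev).symm))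
    (fun k => h0 (ex.trans (k.trans ev)))
    (Ps := (Inv U O).image (fun P => P.res (O \ cl U c)) (by fun_prop))
    (by rintro _ ⟨P, hP, rfl⟩; exact res_mem (Inv_anti SS_le hP) (stab_SO h.1))
    (by rintro _ ⟨P, hP, rfl⟩ a b hab; exact Inv.cl_eq hP (res_le hab))
    (by rintro _ ⟨P, hP, rfl⟩ a b hab; exact cl_eq_mono SS_le (Inv.cl_eq hP (res_le hab)))
  rw [card_image_of_injOn _ hdet.injOn] at this
  exact absurd this (not_le.2 h.2)

/-- No new fixed points in the classes of a stable big orbit. -/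
theorem Base.st4 (h : Stb U c O) (hb : Big U O) (hd : d ∈ O \ cl U c) (hx : x ∈ cls U d)
    (hx' : x ∈ Fix (SS U c ⊓ SS U d)) : x ∈ Fix (SS U d) := by
  intro g hg
  by_contra h0
  have H := B.hyp
  have hf := H.fin (SS U c ⊓ SS U d)
  have hp := hb.pt h.1 hd.1
  have hD := H.clsf U d
  have hs : Stab (SS U c ⊓ SS U d) (cls U d) := stab_cls.mono inf_le_right
  have hs' : Stab (SS U c ⊓ SS U d) ({x} : DSet A) := stab_Fix (singleton_le_iff.2 hx')
  have k1 := nn_XO_le (a := d) le_rfl SS_le (H.fin (SS U d)) stab_cls le_rfl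
  have k2 := two_to_one hf inf_le_right stab_cls hx' hg h0
  have k3 := n1 hf (hD.subset sdiff_le) (hs.diff hs') (K := F0 U d)
    (fun z hz => ⟨B.F0_cls hp.1 hz, fun (e : z = x) => h0 (e ▸ hz.1 g hg)⟩)
    (fun k hk z hz => hz.1 k hk.2)
    (J := 4) (le_trans (by
      rw [show (4 : Nn) * 4 = 16 by norm_num, Nn.pow_ofNat, Nn.pow_ofNat]; norm_num)
      (Nn.pow_le_pow_right two_pos hp.2.le)) (finite_singleton True) (fun _ => {x}) (by fun_prop)
    (fun _ _ => ⟨finite_singleton x, singleton_nonempty x, hs', disjoint_sdiff_self_left⟩)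
    fun _ k _ k' hne => (hne (k.trans k'.symm)).elim
  have k4 := nn_cls_le SS_le (H.fin (SS U c)) hD le_rfl hs (stab_SO h.1)
    (B.SO_eq h hd ▸ cls_subset_XO)
  have k5 := k3.trans ((nn_mono hf (sup_le sdiff_le
    (biUnion_le fun _ _ => singleton_le_iff.2 hx))).trans k4)
  rw [Orb.eq h.1 hd.1] at k1
  have := h.2
  rw [card_singleton, Nn.pow_one] at k5
  zify at k1 k2 k5 this
  grind

/-- A stable big orbit has no new invariant partitions. -/
theorem Base.st5 (h : Stb U c O) (hb : Big U O) : nn (SS U c) (O \ cl U c) ≤ nn U O := by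
  have H := B.hyp
  obtain ⟨d, hd, -⟩ := B.exists_gen h.1 c
  have hp := hb.pt h.1 hd.1
  have hD := H.clsf U d
  have k1 : nn (SS U c) (O \ cl U c) ≤ nn (SS U c ⊓ SS U d) (cls U d) := by
    refine Detects.le (fun P hP a b hab hne => ?_) inf_le_left (H.fin _)
      (stab_cls.mono inf_le_right)
    obtain ⟨k1, k2⟩ := (hP.2.2 a b hab).resolve_left hne
    obtain ⟨g, hg, eg⟩ := B.tr h k1 hd
    exact ⟨g, hg, eg.symm, eg.symm.trans (cl_smul_eq hg.1 (B.st3 h hb k1 k2 (Inv.cl_eq hP hab)))⟩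
  have k2 : Inv (SS U c ⊓ SS U d) (cls U d) ≤ Inv (SS U d) (cls U d) := by
    intro P hP
    refine ⟨hP.1, fun g hg a b hab => ?_, hP.2.2⟩
    let Q0 : Subgroup G :=
      { carrier := {k | k ∈ SS U d ∧ ∀ a b, P (k • a) (k • b) ↔ P a b}
        one_mem' := ⟨(SS U d).one_mem, fun _ _ => by rw [one_smul, one_smul]⟩
        mul_mem' := fun {k l} hk hl => ⟨(SS U d).mul_mem hk.1 hl.1, fun a b => by
          rw [mul_smul, mul_smul, hk.2, hl.2]⟩
        inv_mem' := fun {k} hk => ⟨(SS U d).inv_mem hk.1, fun a b => by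
          rw [← hk.2, smul_inv_smul, smul_inv_smul]⟩ }
    have q1 : ∀ k ∈ SS U c ⊓ SS U d, k ∈ Q0 := fun k hk => ⟨hk.2, fun _ _ => Inv.iff hP hk⟩
    let Q : OS G A := ⟨Q0, (SS U c ⊓ SS U d).opn.imp fun K h => ⟨h.1, fun g hg => q1 g (h.2 g hg)⟩,
      (SS U d).defF_tr_of hD (R := fun z z' => P z.2 z'.2 ↔ P z.1 z'.1) (by fun_prop)
        (fun g hg => hg) fun g hg h => ⟨hg, fun a b => ⟨fun k => by
          rcases hP.2.2 _ _ k with e | ⟨k1, k2⟩
          · exact MulAction.injective g e ▸ P.refl a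
          · exact (h a b (Or.inr k1) (Or.inr k2)).1 k, fun k => by
          rcases hP.2.2 _ _ k with rfl | ⟨k1, k2⟩
          · exact P.refl _
          · exact (h a b (Or.inl k1) (Or.inl k2)).2 k⟩⟩⟩
    have hc := H.clf U d
    have q0 : P ∈ Inv (U ⊓ pw G (cl U d)) (cls U d) := ⟨hP.1, fun k hk a b hab => by
      rcases hP.2.2 a b hab with rfl | ⟨k1, k2⟩
      · exact P.refl _
      · rwa [hk.2 hc a (cls_subset_cl k1), hk.2 hc b (cls_subset_cl k2)], hP.2.2⟩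
    have q2 : U ⊓ pw G (cl U d) ≤ Q := fun k hk =>
      ⟨⟨hk.1, by rw [hk.2 hc d (mem_cl_self U d)]⟩, fun _ _ => Inv.iff q0 hk⟩
    have q3 : acl (U ⊓ pw G (cl U d)) ≤ cl U d := by
      have := acl_inf_pw hc (U := U ⊓ pw G {d}) le_rfl
      refine le_trans (acl_anti ?_) this.le
      exact inf_le_inf_right _ inf_le_left
    refine H.code (U := Q) (X := cls U d) ⟨hP.1, fun k hk a b => (hk.2 a b).2, hP.2.2⟩
      (fun z hz => ?_) hab
    by_cases hL : z ∈ Fix U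
    · exact hL g hg.1
    · exact B.st4 h hb hd (hp.1.2 z (q3 (Fix_subset_acl (Fix_anti q2 hz))) (B.closed ▸ hL))
        (Fix_anti (U := Q) q1 hz) g hg
  have k3 := nn_cls_le (X := O) le_rfl (H.fin U) hD le_rfl (stab_cls.mono inf_le_right)
    (Orb.stab h.1) (Orb.eq h.1 hd.1 ▸ cls_subset_XO)
  rw [inf_eq_right.2 SS_le] at k3
  exact k1.trans ((card_le_card k2 ((H.fin (SS U d)).fin _)).trans k3)

theorem Base.mm_good (h : Good U c T O) (hT : 0 < T) (he : lab U c O = XO (SS U c) (SS U c) e) :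
    nn (SS (SS U c) e) ((O \ cl U c) ⊓ cls (SS U c) e) ≤
      2 * T * mm (SS (SS U c) e) ((O \ cl U c) ⊓ cls (SS U c) e) := by
  have H := B.hyp
  obtain ⟨y, hy, -⟩ := B.exists_gen h.1.1 c
  have hs := stab_SO (c := c) h.1.1
  have hsub : O \ cl U c ≤ XO (SS U c) (SS U c) e := he ▸ subset_lab
  rcases h.2 with h2 | h2
  · exact (H.loc_ge (e := e) hs).trans (h.1.2.le.trans ((Nn.mul_le_mul_left _ h2).trans
      (Nn.le_mul_of_pos_right _ (Nn.pos_iff_one_le.2 (H.mm_loc hs hsub hy)))))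
  · obtain ⟨d, hd, hd'⟩ := exists_mem_cls hs hsub hy
    have hp := h2.pt h.1.1 hd.1
    obtain ⟨x, hx⟩ := hp.nonempty
    have ex : cl U d = cl U x := B.F0_cls hp.1 hx
    rw [mm_eq (V := SS (SS U c) e) (S := (O \ cl U c) ⊓ cls (SS U c) e) (a := x)
      ⟨B.SO_eq h.1 hd ▸ cls_subset_XO ex, hd'.trans (cl_eq_mono SS_le ex)⟩
      fun g hg => hx.1 g ⟨hg.1.1, B.st3 h.1 h2 hd (hs g hg.1 d hd)
        (hd'.symm.trans (stab_cls g hg d hd'))⟩]
    exact Nn.le_mul_of_pos_left _ (by positivity)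

theorem Base.gain1 (h : Good U c T O) (hT : 0 < T) (hR : Stab (SS U c) R) (hR' : R ≤ lab U c O)
    (hx : x ∈ R) (hd : Disjoint (O \ cl U c) R) :
    (4 * T ^ 2 + 1) * nn U O ≤ 4 * T ^ 2 * nn (SS U c) ((O \ cl U c) ⊔ R) := by
  have H := B.hyp
  obtain ⟨e, -, he⟩ := B.exists_lab h.1
  have k1 := H.gain_loc (e := e) (stab_SO h.1.1) hR hd
  have k2 := B.mm_good h hT he
  have k3 := (B.det h.1.1).trans (H.loc_le (stab_SO h.1.1) (he ▸ subset_lab))
  have k4 := Nn.pos_iff_one_le.2 (H.mm_loc hR (he ▸ hR') hx)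
  have k5 := nn_pos (H.fin (SS (SS U c) e)) (R ⊓ cls (SS U c) e)
  set n := nn (SS (SS U c) e) ((O \ cl U c) ⊓ cls (SS U c) e)
  set m := mm (SS (SS U c) e) ((O \ cl U c) ⊓ cls (SS U c) e)
  have k6 : n + m ≤ nn (SS U c) ((O \ cl U c) ⊔ R) :=
    le_trans (add_le_add (Nn.le_mul_of_pos_right _ k5) (Nn.le_mul_of_pos_right _ k4)) k1
  have k7 : n ≤ 4 * T ^ 2 * m := k2.trans (Nn.mul_le_mul_right _
    ((Nn.le_mul_of_pos_right _ (mul_pos two_pos hT)).trans_eq (by ring)))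
  calc _ ≤ (4 * T ^ 2 + 1) * n := Nn.mul_le_mul_left _ k3
    _ = 4 * T ^ 2 * n + n := by ring
    _ ≤ 4 * T ^ 2 * n + 4 * T ^ 2 * m := by gcongr
    _ = 4 * T ^ 2 * (n + m) := by ring
    _ ≤ _ := Nn.mul_le_mul_left _ k6

theorem Base.gain2 (h : Good U c T O) (h' : Good U c T O') (hT : 0 < T) (hne : O ≠ O')
    (hl : lab U c O = lab U c O') : (4 * T ^ 2 + 1) * (nn U O * nn U O') ≤
      4 * T ^ 2 * nn (SS U c) ((O \ cl U c) ⊔ (O' \ cl U c)) := by
  have H := B.hyp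
  obtain ⟨e, -, he⟩ := B.exists_lab h.1
  have he' := hl.symm.trans he
  have k1 := H.gain_loc (e := e) (stab_SO (c := c) h.1.1) (stab_SO (c := c) h'.1.1)
    ((Orb.disjoint h.1.1 h'.1.1 hne).mono sdiff_le sdiff_le)
  have k2 := Nn.mul_le_mul (B.mm_good h hT he) (B.mm_good h' hT he')
  have k3 := Nn.mul_le_mul ((B.det h.1.1).trans (H.loc_le (stab_SO h.1.1) (he ▸ subset_lab)))
    ((B.det h'.1.1).trans (H.loc_le (stab_SO h'.1.1) (he' ▸ subset_lab)))
  refine (Nn.mul_le_mul_left _ k3).trans (le_trans ?_ (Nn.mul_le_mul_left _ k1))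
  rw [add_mul, mul_add, one_mul]
  exact Nn.add_le_add_left (k2.trans_eq (by ring)) _

end Pool.Agent.P.MP_e517ea_lc.Z
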