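import Mathlib.Tactic
import Pool.Agent.P.MP_e517ea_lc.Z.Defs

/-!
A fixed model of Zermelo set theory as a class, definability with parameters organised for
instance search, and the basic set operations of the model.
-/

namespace Pool.Agent.P.MP_e517ea_lc.Z

universe u

@[simp] theorem cons_zero {M : Type u} (x : M) (e : ℕ → M) : cons x e 0 = x := rfl
@[simp] theorem cons_succ {M : Type u} (x : M) (e : ℕ → M) (n : ℕ) : cons x e (n + 1) = e n := rfl

/-- Lift a renaming under a binder. -/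
def up (f : ℕ → ℕ) : ℕ → ℕ
  | 0 => 0
  | n + 1 => f n + 1

/-- Renaming of variables. -/
def Fml.rename : Fml → (ℕ → ℕ) → Fml
  | .mem i j, f => .mem (f i) (f j)
  | .eq i j, f => .eq (f i) (f j)
  | .neg φ, f => .neg (φ.rename f)
  | .and φ ψ, f => .and (φ.rename f) (ψ.rename f)
  | .all φ, f => .all (φ.rename (up f))

theorem sat_rename {M : Type u} (E : M → M → Prop) (φ : Fml) : ∀ (f : ℕ → ℕ) (e : ℕ → M),
    Sat E (φ.rename f) e ↔ Sat E φ (fun i => e (f i)) := by
  induction φ with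
  | mem i j => intro f e; rfl
  | eq i j => intro f e; rfl
  | neg φ ih => intro f e; simp only [Fml.rename, Sat, ih]
  | and φ ψ ih1 ih2 => intro f e; simp only [Fml.rename, Sat, ih1, ih2]
  | all φ ih =>
    intro f e
    simp only [Fml.rename, Sat, ih]
    refine forall_congr' fun x => ?_
    have : (fun i => cons x e (up f i)) = cons x (fun i => e (f i)) := by
      funext i; cases i <;> rfl
    rw [this]

/-- A model of Zermelo set theory without Foundation. -/
class ZU : Type 1 where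
  M : Type
  E : M → M → Prop
  extensionality : ∀ x y, (∀ z, E z x ↔ E z y) → x = y
  pairing : ∀ x y, ∃ p, ∀ z, E z p ↔ z = x ∨ z = y
  union : ∀ x, ∃ u, ∀ z, E z u ↔ ∃ y, E y x ∧ E z y
  powerSet : ∀ x, ∃ p, ∀ z, E z p ↔ ∀ w, E w z → E w x
  infinity : ∃ I, IsInductive E I
  separation : ∀ (φ : Fml) (e : ℕ → M) (a : M), ∃ b, ∀ x, E x b ↔ E x a ∧ Sat E φ (cons x e)

variable [ZU]

/-- The sets of the model. -/
def UM : Type := ZU.M

instance : Membership UM UM := ⟨fun y x => ZU.E x y⟩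

/-- The membership relation. -/
def ME : UM → UM → Prop := fun x y => x ∈ y

theorem UM.ext {x y : UM} (h : ∀ z, z ∈ x ↔ z ∈ y) : x = y := ZU.extensionality x y h

/-- Assignments. -/
abbrev Env := ℕ → UM

/-- Interleave two assignments. -/
def mix (e p : Env) : Env := fun i => if i % 2 = 0 then e (i / 2) else p (i / 2)

theorem mix_even (e p : Env) (i : ℕ) : mix e p (2 * i) = e i := by
  simp [mix]

theorem mix_odd (e p : Env) (i : ℕ) : mix e p (2 * i + 1) = p i := by
  have h1 : (2 * i + 1) % 2 = 1 := by omega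
  have h2 : (2 * i + 1) / 2 = i := by omega
  simp [mix, h1, h2]

/-- Definability with parameters. -/
class Df (R : Env → Prop) : Prop where
  out : ∃ (φ : Fml) (p : Env), ∀ e : Env, R e ↔ Sat ME φ (mix e p)

/-- Definable operations. -/
class Tm (t : Env → UM) : Prop where
  df : Df (fun e => e 0 = t (fun i => e (i + 1)))

theorem Df.congr {R S : Env → Prop} (h : Df R) (hRS : ∀ e : Env, R e ↔ S e) : Df S := by
  obtain ⟨φ, p, h⟩ := h.out
  exact ⟨φ, p, fun e => (hRS e).symm.trans (h e)⟩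

theorem Df.rename {R : Env → Prop} (h : Df R) (f : ℕ → ℕ) :
    Df (fun e => R (fun i => e (f i))) := by
  obtain ⟨φ, p, h⟩ := h.out
  refine ⟨φ.rename (fun i => if i % 2 = 0 then 2 * f (i / 2) else i), p, fun e => ?_⟩
  rw [sat_rename, h]
  have : (fun i => mix e p (if i % 2 = 0 then 2 * f (i / 2) else i)) =
      mix (fun i => e (f i)) p := by
    funext i
    by_cases hi : i % 2 = 0
    · rw [if_pos hi, mix_even]; simp [mix, hi]
    · rw [if_neg hi]; simp [mix, hi]
  rw [this]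

instance : Nonempty UM := ⟨ZU.infinity.choose⟩

theorem Df.sat (φ : Fml) : Df (fun e => Sat ME φ e) := by
  refine ⟨φ.rename (fun i => 2 * i), fun _ => Classical.arbitrary _, fun e => ?_⟩
  rw [sat_rename]
  simp only [mix_even]

theorem Df.memVar (i j : ℕ) : Df (fun e => e i ∈ e j) := Df.sat (.mem i j)
theorem Df.eqVar (i j : ℕ) : Df (fun e => e i = e j) := Df.sat (.eq i j)

theorem Df.eqConst (c : UM) (i : ℕ) : Df (fun e => e i = c) := by
  refine ⟨.eq (2 * i) 1, fun _ => c, fun e => ?_⟩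
  simp [Sat, mix]

instance Df.not {R : Env → Prop} [h : Df R] : Df (fun e => ¬ R e) := by
  obtain ⟨φ, p, h⟩ := h.out
  exact ⟨.neg φ, p, fun e => not_congr (h e)⟩

instance Df.and {R S : Env → Prop} [h : Df R] [k : Df S] : Df (fun e => R e ∧ S e) := by
  obtain ⟨φ, p, h⟩ := h.out
  obtain ⟨ψ, q, k⟩ := k.out
  refine ⟨.and (φ.rename (fun i => if i % 2 = 0 then i else 2 * (2 * (i / 2)) + 1))
    (ψ.rename (fun i => if i % 2 = 0 then i else 2 * (2 * (i / 2) + 1) + 1)), mix p q,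
    fun e => ?_⟩
  simp only [Sat, sat_rename]
  have h1 : (fun i => mix e (mix p q) (if i % 2 = 0 then i else 2 * (2 * (i / 2)) + 1)) =
      mix e p := by
    funext i
    by_cases hi : i % 2 = 0
    · rw [if_pos hi]; simp [mix, hi]
    · rw [if_neg hi, mix_odd, mix_even]; simp [mix, hi]
  have h2 : (fun i => mix e (mix p q) (if i % 2 = 0 then i else 2 * (2 * (i / 2) + 1) + 1)) =
      mix e q := by
    funext i
    by_cases hi : i % 2 = 0
    · rw [if_pos hi]; simp [mix, hi]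
    · rw [if_neg hi, mix_odd, mix_odd]; simp [mix, hi]
  rw [h1, h2, h e, k e]

/-- Shift of the interleaved variables under a binder. -/
def lift1 (i : ℕ) : ℕ := if i % 2 = 0 then (if i = 0 then 0 else i - 1) else i + 1

theorem mix_cons (x : UM) (e p : Env) :
    (fun i => cons x (mix e p) (lift1 i)) = mix (cons x e) p := by
  funext i
  unfold lift1
  by_cases hi : i % 2 = 0
  · rw [if_pos hi]
    by_cases h0 : i = 0
    · subst h0; rfl
    · rw [if_neg h0]
      obtain ⟨k, rfl⟩ : ∃ k, i = 2 * (k + 1) := ⟨i / 2 - 1, by omega⟩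
      rw [mix_even, show 2 * (k + 1) - 1 = 2 * k + 1 by omega, cons_succ, cons_succ, mix_even]
  · rw [if_neg hi, cons_succ]; simp [mix, hi]

theorem Df.all' {R : Env → Prop} (h : Df R) : Df (fun e => ∀ x, R (cons x e)) := by
  obtain ⟨φ, p, h⟩ := h.out
  refine ⟨.all (φ.rename lift1), p, fun e => ?_⟩
  simp only [Sat, sat_rename]
  refine forall_congr' fun x => ?_
  rw [h, mix_cons]

instance Df.all {R : UM → Env → Prop}
    [h : Df (fun e => R (e 0) (fun i => e (i + 1)))] : Df (fun e => ∀ x, R x e) :=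
  h.all'

instance Df.imp {R S : Env → Prop} [Df R] [Df S] : Df (fun e => R e → S e) :=
  (inferInstance : Df (fun e => ¬ (R e ∧ ¬ S e))).congr fun _ => by tauto

instance Df.or {R S : Env → Prop} [Df R] [Df S] : Df (fun e => R e ∨ S e) :=
  (inferInstance : Df (fun e => ¬ R e → S e)).congr fun _ => by tauto

instance Df.iff {R S : Env → Prop} [Df R] [Df S] : Df (fun e => R e ↔ S e) :=
  (inferInstance : Df (fun e => (R e → S e) ∧ (S e → R e))).congr fun _ => by tauto

instance Df.ex {R : UM → Env → Prop}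
    [Df (fun e => R (e 0) (fun i => e (i + 1)))] : Df (fun e => ∃ x, R x e) :=
  (inferInstance : Df (fun e => ¬ ∀ x, ¬ R x e)).congr fun _ => by push Not; rfl

instance Tm.var (i : ℕ) : Tm (fun e => e i) := ⟨Df.eqVar 0 (i + 1)⟩

instance (priority := high) Tm.const {c : UM} : Tm (fun _ => c) := ⟨Df.eqConst c 0⟩

theorem Tm.rename {t : Env → UM} (h : Tm t) (f : ℕ → ℕ) : Tm (fun e => t (fun i => e (f i))) :=
  ⟨h.df.rename (up f)⟩

theorem Tm.shift {t : Env → UM} (h : Tm t) : Tm (fun e => t (fun i => e (i + 1))) :=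
  h.rename (· + 1)

theorem Df.consTm {R : Env → Prop} (h : Df R) {s : Env → UM} (hs : Tm s) :
    Df (fun e => R (cons (s e) e)) := by
  have h1 : Df (fun e => (e 0 = s (fun i => e (i + 1))) → R e) := @Df.imp _ _ _ hs.df h
  refine h1.all'.congr fun e => ?_
  constructor
  · intro H; exact H _ rfl
  · rintro H x (rfl : x = s e); exact H

theorem Df.subst1 {R : UM → Prop} (h : Df (fun e => R (e 0))) (s : Env → UM) [hs : Tm s] :
    Df (fun e => R (s e)) :=
  h.consTm hs

theorem Df.subst2 {R : UM → UM → Prop} (h : Df (fun e => R (e 0) (e 1)))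
    (s t : Env → UM) [hs : Tm s] [ht : Tm t] : Df (fun e => R (s e) (t e)) :=
  (h.consTm hs.shift).consTm ht

theorem Df.subst3 {R : UM → UM → UM → Prop} (h : Df (fun e => R (e 0) (e 1) (e 2)))
    (s t w : Env → UM) [hs : Tm s] [ht : Tm t] [hw : Tm w] : Df (fun e => R (s e) (t e) (w e)) :=
  ((h.consTm hs.shift.shift).consTm ht.shift).consTm hw

theorem Tm.comp1 {F : UM → UM} (h : Df (fun e => e 0 = F (e 1))) (s : Env → UM) [hs : Tm s] :
    Tm (fun e => F (s e)) :=
  ⟨@Df.subst2 _ (fun a b => a = F b) h (fun e => e 0) _ (Tm.var 0) hs.shift⟩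

theorem Tm.comp2 {F : UM → UM → UM} (h : Df (fun e => e 0 = F (e 1) (e 2))) (s t : Env → UM)
    [hs : Tm s] [ht : Tm t] : Tm (fun e => F (s e) (t e)) :=
  ⟨@Df.subst3 _ (fun a b c => a = F b c) h (fun e => e 0) _ _ (Tm.var 0) hs.shift ht.shift⟩

instance Df.mem {s t : Env → UM} [Tm s] [Tm t] : Df (fun e => s e ∈ t e) :=
  Df.subst2 (R := fun a b => a ∈ b) (Df.memVar 0 1) s t

instance Df.eq {s t : Env → UM} [Tm s] [Tm t] : Df (fun e => s e = t e) :=
  Df.subst2 (R := fun a b => a = b) (Df.eqVar 0 1) s t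

/-- Separation for definable predicates. -/
theorem exists_sep (R : UM → Prop) [h : Df (fun e => R (e 0))] (a : UM) :
    ∃ b : UM, ∀ x, x ∈ b ↔ x ∈ a ∧ R x := by
  obtain ⟨φ, p, h⟩ := h.out
  obtain ⟨b, hb⟩ := ZU.separation (φ.rename lift1) (mix (fun _ => a) p) a
  refine ⟨b, fun x => (hb x).trans (and_congr_right fun _ => ?_)⟩
  have := sat_rename ME φ lift1 (cons x (mix (fun _ => a) p))
  rw [mix_cons] at this
  exact this.trans (h (cons x fun _ => a)).symm

/-- The unordered pair. -/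
noncomputable def upair (x y : UM) : UM := (ZU.pairing x y).choose

@[simp] theorem mem_upair {x y z : UM} : z ∈ upair x y ↔ z = x ∨ z = y :=
  (ZU.pairing x y).choose_spec z

/-- The union of a set. -/
noncomputable def sUn (x : UM) : UM := (ZU.union x).choose

@[simp] theorem mem_sUn {x z : UM} : z ∈ sUn x ↔ ∃ y, y ∈ x ∧ z ∈ y := (ZU.union x).choose_spec z

/-- The power set. -/
noncomputable def pows (x : UM) : UM := (ZU.powerSet x).choose

@[simp] theorem mem_pows {x z : UM} : z ∈ pows x ↔ ∀ w, w ∈ z → w ∈ x :=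
  (ZU.powerSet x).choose_spec z

/-- The empty set. -/
noncomputable def emp : UM := ZU.infinity.choose_spec.1.choose

@[simp] theorem notMem_emp (z : UM) : z ∉ emp := ZU.infinity.choose_spec.1.choose_spec.2 z

/-- The ordered pair. -/
noncomputable def opair (x y : UM) : UM := upair (upair x x) (upair x y)

/-- The successor. -/
noncomputable def sucs (x : UM) : UM := sUn (upair x (upair x x))

@[simp] theorem mem_sucs {x z : UM} : z ∈ sucs x ↔ z ∈ x ∨ z = x := by
  simp [sucs, or_and_right, exists_or]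

theorem upair_inj {x y x' y' : UM} (h : upair x y = upair x' y') :
    (x = x' ∧ y = y') ∨ (x = y' ∧ y = x') := by
  have h1 : ∀ z, z = x ∨ z = y ↔ z = x' ∨ z = y' := fun z => by rw [← mem_upair, h, mem_upair]
  have a := (h1 x).1 (Or.inl rfl)
  have b := (h1 y).1 (Or.inr rfl)
  have c := (h1 x').2 (Or.inl rfl)
  have d := (h1 y').2 (Or.inr rfl)
  grind

@[simp] theorem opair_inj {x y x' y' : UM} : opair x y = opair x' y' ↔ x = x' ∧ y = y' := by
  refine ⟨fun h => ?_, fun h => by rw [h.1, h.2]⟩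
  rcases upair_inj h with ⟨h1, h2⟩ | ⟨h1, h2⟩
  · have := upair_inj h1
    have := upair_inj h2
    grind
  · have := upair_inj h1
    have := upair_inj h2
    grind

theorem isOPair_iff {p a b : UM} : IsOPair ME p a b ↔ p = opair a b := by
  have h1 : ∀ z x y : UM, (∀ w, ME w z ↔ w = x ∨ w = y) ↔ z = upair x y := fun z x y =>
    ⟨fun h => UM.ext fun w => (h w).trans mem_upair.symm, fun h w => h ▸ mem_upair⟩
  have h2 : ∀ z : UM, (∀ w, ME w z ↔ w = a) ↔ z = upair a a := fun z => by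
    rw [← h1]; simp only [or_self]
  unfold IsOPair
  simp only [h1, h2]
  rfl

instance Tm.upair {s t : Env → UM} [Tm s] [Tm t] : Tm (fun e => upair (s e) (t e)) :=
  Tm.comp2 (F := Z.upair) ((inferInstance : Df (fun e => ∀ z, z ∈ e 0 ↔ z = e 1 ∨ z = e 2)).congr
    fun _ => ⟨fun h => UM.ext fun z => (h z).trans mem_upair.symm, fun h _ => h ▸ mem_upair⟩) s t

instance Tm.opair {s t : Env → UM} [Tm s] [Tm t] : Tm (fun e => opair (s e) (t e)) :=
  (inferInstance : Tm (fun e => Z.upair (Z.upair (s e) (s e)) (Z.upair (s e) (t e))))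

theorem exists_prod (x y : UM) : ∃ c : UM, ∀ z, z ∈ c ↔ ∃ a, a ∈ x ∧ ∃ b, b ∈ y ∧ z = opair a b := by
  obtain ⟨c, hc⟩ := exists_sep (fun z => ∃ a, a ∈ x ∧ ∃ b, b ∈ y ∧ z = opair a b)
    (pows (pows (sUn (upair x y))))
  refine ⟨c, fun z => (hc z).trans (and_iff_right_of_imp ?_)⟩
  rintro ⟨a, ha, b, hb, rfl⟩
  simp only [opair, mem_pows, mem_upair, mem_sUn]
  rintro w (rfl | rfl) v hv <;> rcases mem_upair.1 hv with rfl | rfl
  exacts [⟨x, Or.inl rfl, ha⟩, ⟨x, Or.inl rfl, ha⟩, ⟨x, Or.inl rfl, ha⟩, ⟨y, Or.inr rfl, hb⟩]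

theorem isInductive_iff {I : UM} : IsInductive ME I ↔ emp ∈ I ∧ ∀ x, x ∈ I → sucs x ∈ I := by
  refine and_congr ⟨fun ⟨z, h1, h2⟩ => ?_, fun h => ⟨emp, h, notMem_emp⟩⟩
    (forall_congr' fun x => imp_congr Iff.rfl ⟨fun ⟨y, h1, h2⟩ => ?_,
      fun h => ⟨_, h, fun _ => mem_sucs⟩⟩)
  · rwa [show emp = z from UM.ext fun w => iff_of_false (notMem_emp w) (h2 w)]
  · rwa [show sucs x = y from UM.ext fun w => mem_sucs.trans (h2 w).symm]

instance Tm.sucs {s : Env → UM} [Tm s] : Tm (fun e => sucs (s e)) :=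
  Tm.comp1 (F := Z.sucs) ((inferInstance : Df (fun e => ∀ z, z ∈ e 0 ↔ z ∈ e 1 ∨ z = e 1)).congr
    fun _ => ⟨fun h => UM.ext fun z => (h z).trans mem_sucs.symm, fun h _ => h ▸ mem_sucs⟩) s

theorem exists_omega : ∃ o : UM, ∀ n, n ∈ o ↔ IsNat ME n := by
  obtain ⟨I, hI⟩ := ZU.infinity
  obtain ⟨o, ho⟩ := exists_sep (fun n => ∀ J : UM, (emp ∈ J ∧ ∀ x, x ∈ J → sucs x ∈ J) → n ∈ J) I
  refine ⟨o, fun n => (ho n).trans ?_⟩
  simp only [IsNat, isInductive_iff]
  exact and_iff_right_of_imp fun h => h I (isInductive_iff.1 hI)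

/-- The set of natural numbers of the model. -/
noncomputable def omg : UM := exists_omega.choose

theorem mem_omg {n : UM} : n ∈ omg ↔ IsNat ME n := exists_omega.choose_spec n

theorem emp_mem_omg : emp ∈ omg := mem_omg.2 fun _ h => (isInductive_iff.1 h).1

theorem sucs_mem_omg {n : UM} (h : n ∈ omg) : sucs n ∈ omg :=
  mem_omg.2 fun I hI => (isInductive_iff.1 hI).2 n (mem_omg.1 h I hI)

theorem omg_induction (R : UM → Prop) [Df (fun e => R (e 0))] (h0 : R emp)
    (hs : ∀ n, n ∈ omg → R n → R (sucs n)) : ∀ n, n ∈ omg → R n := by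
  obtain ⟨b, hb⟩ := exists_sep R omg
  intro n hn
  refine ((hb n).1 (mem_omg.1 hn b (isInductive_iff.2 ⟨(hb _).2 ⟨emp_mem_omg, h0⟩,
    fun x hx => ?_⟩))).2
  obtain ⟨h1, h2⟩ := (hb x).1 hx
  exact (hb _).2 ⟨sucs_mem_omg h1, hs x h1 h2⟩

theorem omg_trans : ∀ n, n ∈ omg → ∀ m, m ∈ n → m ∈ omg :=
  omg_induction (fun n => ∀ m, m ∈ n → m ∈ omg) (fun m h => (notMem_emp m h).elim)
    fun _ hn ih m hm => (mem_sucs.1 hm).elim (ih m) fun e => e ▸ hn

theorem omg_mem_trans : ∀ n, n ∈ omg → ∀ m, m ∈ n → ∀ k, k ∈ m → k ∈ n :=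
  omg_induction (fun n => ∀ m, m ∈ n → ∀ k, k ∈ m → k ∈ n) (fun m h => (notMem_emp m h).elim)
    fun _ _ ih m hm k hk => mem_sucs.2 (Or.inl ((mem_sucs.1 hm).elim (fun h => ih m h k hk)
      fun e => e ▸ hk))

theorem omg_irrefl : ∀ n, n ∈ omg → n ∉ n :=
  omg_induction (fun n => ¬ n ∈ n) (notMem_emp _) fun n hn ih h => by
    have h1 : n ∈ sucs n := mem_sucs.2 (Or.inr rfl)
    rcases mem_sucs.1 h with h2 | h2
    · exact ih (omg_mem_trans n hn _ h2 n h1)
    · rw [h2] at h1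
      exact ih h1

theorem sucs_inj {m n : UM} (hm : m ∈ omg) (h : sucs m = sucs n) : m = n := by
  by_contra hne
  have h1 : m ∈ n := (mem_sucs.1 (h ▸ mem_sucs.2 (Or.inr rfl) : m ∈ sucs n)).resolve_right hne
  have h2 : n ∈ m :=
    (mem_sucs.1 (h ▸ mem_sucs.2 (Or.inr rfl) : n ∈ sucs m)).resolve_right (Ne.symm hne)
  exact omg_irrefl n (omg_trans m hm n h2) (omg_mem_trans n (omg_trans m hm n h2) m h1 n h2)

end Pool.Agent.P.MP_e517ea_lc.Z
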