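import Pool.Agent.P.MP_e517ea_lc.Z.Seq

/-!
Well orderings in the sense of the model: recursion, lexicographic and colexicographic orders,
the theorem of Hartogs.
-/

set_option synthInstance.maxSize 16384

noncomputable section

namespace Pool.Agent.P.MP_e517ea_lc.Z

open DSet

variable [ZU] {T X Y W : Type} [Coded T] [Coded X] [Coded Y] [Coded W]

/-- Well orderings in the sense of the model. -/
structure WO (r : T → T → Prop) : Prop where
  defn : DefF fun z : T × T => r z.1 z.2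
  tri : ∀ a b, r a b ∨ a = b ∨ r b a
  trans : ∀ {a b c}, r a b → r b c → r a c
  min : ∀ S : DSet T, S.Nonempty → ∃ a ∈ S, ∀ b ∈ S, ¬ r b a

variable {r : T → T → Prop}

theorem WO.irrefl (h : WO r) (a : T) : ¬ r a a := by
  obtain ⟨_, rfl, k⟩ := h.min {a} ⟨a, rfl⟩
  exact k _ rfl

theorem WO.ind (h : WO r) {p : T → Prop} (hp : DefF p) (H : ∀ a, (∀ b, r b a → p b) → p a)
    (a : T) : p a := by
  by_contra h0
  obtain ⟨b, k1, k2⟩ := h.min ⟨fun a => ¬ p a, hp.not⟩ ⟨a, h0⟩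
  exact k1 (H b fun c k => by_contra fun k' => k2 c k' k)

theorem WO.max (h : WO r) {S : DSet T} (hS : S.Finite) (hne : S.Nonempty) :
    ∃ a ∈ S, ∀ b ∈ S, ¬ r a b := by
  have d := h.defn
  refine hS.induction_on (p := fun S => Imp S.Nonempty (∃ a ∈ S, ∀ b ∈ S, ¬ r a b))
    (by simp only [all_eq, imp_eq]; fun_prop) (fun ⟨_, k⟩ => k.elim) (fun a S _ _ ih _ => ?_) hne
  rcases S.eq_bot_or_nonempty with rfl | k
  · exact ⟨a, Or.inl rfl, fun b hb => hb.elim (fun e => e ▸ h.irrefl _) (·.elim)⟩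
  obtain ⟨c, k1, k2⟩ := ih k
  by_cases e : r c a
  · exact ⟨a, Or.inl rfl, fun b hb => hb.elim (fun e => e ▸ h.irrefl _)
      fun hb k => k2 b hb (h.trans e k)⟩
  · exact ⟨c, Or.inr k1, fun b hb => hb.elim (fun e' => e' ▸ e) (k2 b)⟩

/-- Recursion along a well ordering. -/
theorem WO.recur (h : WO r) (x₀ : X) (G : T → DFun T X → X)
    (dG : DefF fun z : T × DFun T X => G z.1 z.2) :
    ∃ f : T → X, DefF f ∧ ∀ t, ∃ F : DFun T X, (∀ u, r u t → F u = f u) ∧ f t = G t F := by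
  classical
  have d := h.defn
  let cut : T → DFun T X → DFun T X := fun t F => ⟨fun u => if r u t then F u else x₀, by fun_prop⟩
  have dc : DefF fun z : T × DFun T X => cut z.1 z.2 := by fun_prop
  let App : T → DFun T X → Prop := fun t F => ∀ u, F u = if r u t then G u (cut u F) else x₀
  have dA : DefF fun z : T × DFun T X => App z.1 z.2 := by
    simp only [App, all_eq]
    clear_value cut
    fun_prop
  have h1 : ∀ t F F', App t F → App t F' → F = F' := fun t F F' k k' =>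
    DFun.ext (funext (h.ind (p := fun u => F u = F' u) (by fun_prop) fun u ih => by
      rw [k u, k' u, show cut u F = cut u F' from DFun.ext (funext fun v => ite_congr rfl (ih v)
        fun _ => rfl)]))
  have h2 : ∀ t u F, App t F → r u t → App u (cut u F) := fun t u F k k' v => by
    by_cases e : r v u
    · simp only [cut, if_pos e]
      rw [k v, if_pos (h.trans e k')]
      exact congrArg (G v) (DFun.ext (funext fun w => ite_congr rfl
        (fun e' => (if_pos (h.trans e' e)).symm) fun _ => rfl))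
    · simp only [cut, if_neg e]
  let A : T → DFun T X := fun t => uq ⟨fun _ => x₀, by fun_prop⟩ (App t)
  have dA' : DefF A := DefF.uq (by fun_prop) dA
  have h3 : ∀ t F, App t F → A t = F := fun t F k => uq_eq k fun F' k' => h1 t F' F k' k
  have h4 : ∀ t, App t (A t) := h.ind (dA.comp (f := fun t => (t, A t)) (by fun_prop)) fun t ih => by
    have k : App t ⟨fun u => if r u t then G u (A u) else x₀, by fun_prop⟩ := fun u =>
      ite_congr rfl (fun e => congrArg (G u) (DFun.ext (funext fun v => by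
        rw [ih u e v]
        exact ite_congr rfl (fun e' => by
          simp only [if_pos (h.trans e' e), h3 v _ (h2 u v _ (ih u e) e')]) fun _ => rfl)))
        fun _ => rfl
    rwa [h3 t _ k]
  exact ⟨fun t => G t (A t), by fun_prop, fun t => ⟨A t, fun u e => by
    rw [h4 t u, if_pos e, ← h3 u _ (h2 t u _ (h4 t) e)], rfl⟩⟩

theorem WO.lex (h : WO r) : WO (Prod.Lex r (· < · : Nn → Nn → Prop)) := by
  have d := h.defn
  refine ⟨by simp only [Prod.lex_def]; fun_prop, fun a b => ?_, fun {a b c} => ?_, fun S hS => ?_⟩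
  · simp only [Prod.lex_def, Prod.ext_iff]
    rcases h.tri a.1 b.1 with k | k | k
    · exact Or.inl (Or.inl k)
    · exact (lt_trichotomy a.2 b.2).imp (fun e => Or.inr ⟨k, e⟩)
        (Or.imp (fun e => ⟨k, e⟩) fun e => Or.inr ⟨k.symm, e⟩)
    · exact Or.inr (Or.inr (Or.inl k))
  · simp only [Prod.lex_def]
    rintro (k | k) (k' | k')
    exacts [Or.inl (h.trans k k'), Or.inl (k'.1 ▸ k), Or.inl (k.1 ▸ k'),
      Or.inr ⟨k.1.trans k'.1, k.2.trans k'.2⟩]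
  · obtain ⟨a, ha, k⟩ := h.min S.dom (hS.elim fun z k => ⟨z.1, z.2, k⟩)
    obtain ⟨n, k1, k2⟩ := Nn.exists_min (p := fun n => (a, n) ∈ S) (by fun_prop) ha
    refine ⟨_, k1, fun b hb e => (Prod.lex_def.1 e).elim (k _ ⟨_, hb⟩) fun e => ?_⟩
    exact absurd e.2 (not_lt.2 (k2 b.2 ((show b.1 = a from e.1) ▸ hb)))

variable (Y) in
/-- The finite subsets. -/
def FinS : DSet (DSet Y) := ⟨Finite, by fun_prop⟩

/-- The colexicographic order. -/
def Col (r : Y → Y → Prop) (A B : DSet Y) : Prop :=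
  ∃ a, a ∈ B ∧ a ∉ A ∧ ∀ b, b ∈ A → b ∉ B → r b a

theorem WO.col (h : WO r) : WO fun A B : FinS T => Col r A.1 B.1 := by
  have d := h.defn
  have dC : DefF fun z : DSet T × DSet T => Col r z.1 z.2 := by
    simp only [Col, all_eq, imp_eq]; fun_prop
  refine ⟨by fun_prop, fun A B => ?_, ?_, fun S hS => ?_⟩
  · rcases (A.1 \ B.1 ⊔ B.1 \ A.1).eq_bot_or_nonempty with e | e
    · exact Or.inr (Or.inl (Subtype.ext (symmDiff_eq_bot.1 e)))
    obtain ⟨a, k1 | k1, k2⟩ := h.max ((A.2.subset sdiff_le).sup (B.2.subset sdiff_le)) e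
    · exact Or.inr (Or.inr ⟨a, k1.1, k1.2, fun b k k' => ((h.tri b a).resolve_right fun e =>
        e.elim (fun e => k' (e ▸ k1.1)) (k2 b (Or.inr ⟨k, k'⟩)))⟩)
    · exact Or.inl ⟨a, k1.1, k1.2, fun b k k' => ((h.tri b a).resolve_right fun e =>
        e.elim (fun e => k' (e ▸ k1.1)) (k2 b (Or.inl ⟨k, k'⟩)))⟩
  · rintro A B C ⟨a, a1, a2, a3⟩ ⟨c, c1, c2, c3⟩
    rcases h.tri a c with e | rfl | e
    · exact ⟨c, c1, fun k => h.irrefl a (h.trans e (a3 c k c2)), fun b k k' =>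
        (em (b ∈ B.1)).elim (fun j => c3 b j k') fun j => h.trans (a3 b k j) e⟩
    · exact (c2 a1).elim
    · exact ⟨a, by_contra fun k => h.irrefl a (h.trans (c3 a a1 k) e), a2, fun b k k' =>
        (em (b ∈ B.1)).elim (fun j => h.trans (c3 b j k') e) (a3 b k)⟩
  let P : T → Prop := fun a => ∀ C : DSet (DSet T), C.Nonempty →
    (∀ A ∈ C, A.Finite ∧ ∀ b ∈ A, r b a) → ∃ A ∈ C, ∀ B ∈ C, ¬ Col r B A
  have step : ∀ C : DSet (DSet T), C.Nonempty → (∀ A ∈ C, A.Finite ∧ ∀ b ∈ A, P b) →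
      ∃ A ∈ C, ∀ B ∈ C, ¬ Col r B A := fun C ⟨A0, h0⟩ hC => by
    by_cases e : ⊥ ∈ C
    · exact ⟨⊥, e, fun _ _ ⟨_, k, _⟩ => k⟩
    have m : ∀ A ∈ C, ∃ a ∈ A, ∀ b ∈ A, ¬ r a b := fun A k =>
      h.max (hC A k).1 (A.eq_bot_or_nonempty.resolve_left fun e' => e (e' ▸ k))
    obtain ⟨b, ⟨A, k1, k2, k3⟩, k4⟩ := h.min ⟨fun a => ∃ A, A ∈ C ∧ a ∈ A ∧ ∀ b ∈ A, ¬ r a b, by
      simp only [all_eq, imp_eq]; fun_prop⟩ ((m A0 h0).imp fun _ k => ⟨A0, h0, k⟩)
    obtain ⟨_, ⟨A1, ⟨m1, m2, m3⟩, rfl⟩, m4⟩ := (hC A k1).2 b k2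
      ((C.sep (fun A => b ∈ A ∧ ∀ c ∈ A, ¬ r b c) (by simp only [all_eq, imp_eq]; fun_prop)).image
        (· \ {b}) (by fun_prop)) ⟨_, A, ⟨k1, k2, k3⟩, rfl⟩ (by
          rintro _ ⟨A, k, rfl⟩
          exact ⟨(hC A k.1).1.subset sdiff_le, fun c hc =>
            (h.tri c b).resolve_right fun e => e.elim hc.2 (k.2.2 c hc.1)⟩)
    refine ⟨A1, m1, fun B hB ⟨x, x1, x2, x3⟩ => ?_⟩
    have j1 : ∀ c ∈ B, ¬ r b c := fun c hc j =>
      (em (c ∈ A1)).elim (fun j' => m3 c j' j) fun j' => m3 x x1 (h.trans j (x3 c hc j'))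
    obtain ⟨a, j2, j3⟩ := m B hB
    obtain rfl : a = b := ((h.tri a b).resolve_left (k4 a ⟨B, hB, j2, j3⟩)).resolve_right (j1 a j2)
    exact m4 _ ⟨B, ⟨hB, j2, j3⟩, rfl⟩ ⟨x, ⟨x1, fun (e : x = a) => x2 (e ▸ j2)⟩, fun k => x2 k.1,
      fun c k k' => x3 c k.1 fun j => k' ⟨j, k.2⟩⟩
  have hP : ∀ a, P a := h.ind (by simp only [P, all_eq, imp_eq]; fun_prop) fun a ih C k k' =>
    step C k fun A j => ⟨(k' A j).1, fun b hb => ih b ((k' A j).2 b hb)⟩
  obtain ⟨_, ⟨A, k, rfl⟩, k'⟩ := step (S.image _ DefF.subtypeVal)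
    (hS.elim fun _ k => ⟨_, mem_image_of_mem k⟩) (by
      rintro _ ⟨A, -, rfl⟩
      exact ⟨A.2, fun b _ => hP b⟩)
  exact ⟨A, k, fun B hB => k' _ (mem_image_of_mem hB)⟩

/-- Well-founded relations in the sense of the model. -/
def WF (w : DSet (Y × Y)) : Prop :=
  ∀ S : DSet Y, (∀ a, (∀ b, (b, a) ∈ w → b ∈ S) → a ∈ S) → ∀ a, a ∈ S

/-- The rank of `p.2` in `p.1` is at most the rank of `q.2` in `q.1`. -/
def RLe (p q : DSet (Y × Y) × Y) : Prop := ∃ R : DSet (Y × Y), (p.2, q.2) ∈ R ∧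
  ∀ x y, (x, y) ∈ R → ∀ x', (x', x) ∈ p.1 → ∃ y', (y', y) ∈ q.1 ∧ (x', y') ∈ R

/-- The rank of `p.2` in `p.1` is less than the rank of `q.2` in `q.1`. -/
def RLt (p q : DSet (Y × Y) × Y) : Prop := ∃ y, (y, q.2) ∈ q.1 ∧ RLe p (q.1, y)

@[fun_prop] theorem DefF.wf {w : W → DSet (Y × Y)} (hw : DefF w) : DefF (fun z => WF (w z)) := by
  simp only [WF, all_eq, imp_eq]; fun_prop

@[fun_prop] theorem DefF.rle {p q : W → DSet (Y × Y) × Y} (hp : DefF p) (hq : DefF q) :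
    DefF (fun z => RLe (p z) (q z)) := by
  simp only [RLe, all_eq, imp_eq]; fun_prop

@[fun_prop] theorem DefF.rlt {p q : W → DSet (Y × Y) × Y} (hp : DefF p) (hq : DefF q) :
    DefF (fun z => RLt (p z) (q z)) := by
  unfold RLt; fun_prop

variable {p q o : DSet (Y × Y) × Y}

theorem RLe.refl (p : DSet (Y × Y) × Y) : RLe p p :=
  ⟨(⊤ : DSet Y).idm, ⟨trivial, rfl⟩, fun _ y k x' k' => ⟨x', (show _ = y from k.2) ▸ k', trivial, rfl⟩⟩

theorem RLe.trans (h : RLe p q) (h' : RLe q o) : RLe p o := by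
  obtain ⟨R, a1, a2⟩ := h
  obtain ⟨R', b1, b2⟩ := h'
  refine ⟨R.comp R', ⟨_, a1, b1⟩, fun x z ⟨y, k1, k2⟩ x' k => ?_⟩
  obtain ⟨y', k3, k4⟩ := a2 x y k1 x' k
  obtain ⟨z', k5, k6⟩ := b2 y z k2 y' k3
  exact ⟨z', k5, y', k4, k6⟩

theorem rle_iff : RLe p q ↔ ∀ x, (x, p.2) ∈ p.1 → RLt (p.1, x) q := by
  have key : ∀ {p q : DSet (Y × Y) × Y}, RLe p q → ∀ x, (x, p.2) ∈ p.1 → RLt (p.1, x) q :=
    fun ⟨R, k1, k2⟩ x k => (k2 _ _ k1 x k).imp fun _ k => ⟨k.1, R, k.2, k2⟩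
  refine ⟨key, fun h => ⟨insert (p.2, q.2) ⟨fun z => RLe (p.1, z.1) (q.1, z.2), by fun_prop⟩,
    Or.inl rfl, ?_⟩⟩
  rintro x y (e | e) x' k
  · cases e
    exact (h x' k).imp fun _ k => ⟨k.1, Or.inr k.2⟩
  · exact (key e x' k).imp fun _ k => ⟨k.1, Or.inr k.2⟩

theorem RLt.trans_le (h : RLt p q) (h' : RLe q o) : RLt p o :=
  h.elim fun y k => (rle_iff.1 h' y k.1).imp fun _ k' => ⟨k'.1, k.2.trans k'.2⟩

theorem RLt.ind {P : DSet (Y × Y) × Y → Prop} (hP : DefF P)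
    (H : ∀ p, (∀ q, RLt q p → P q) → P p) (hp : WF p.1) : P p :=
  hp ⟨fun x => ∀ q, RLe q (p.1, x) → P q, by simp only [all_eq, imp_eq]; fun_prop⟩
    (fun _ ih q k => H q fun o k' => (k'.trans_le k).elim fun y j => ih y j.1 o j.2) p.2 p
    (RLe.refl p)

theorem RLt.irrefl (hp : WF p.1) : ¬ RLt p p :=
  RLt.ind (P := fun p => ¬ RLt p p) (by fun_prop) (fun p ih k => ih p k k) hp

theorem rle_or_rlt (hp : WF p.1) (q : DSet (Y × Y) × Y) : RLe p q ∨ RLt q p := by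
  have step : ∀ p q : DSet (Y × Y) × Y, (∀ x, (x, p.2) ∈ p.1 → RLe q (p.1, x) ∨ RLt (p.1, x) q) →
      RLe p q ∨ RLt q p := fun p q h => or_iff_not_imp_right.2 fun k =>
    rle_iff.2 fun x hx => (h x hx).resolve_left fun k' => k ⟨x, hx, k'⟩
  exact hp ⟨fun x => ∀ q, RLe (p.1, x) q ∨ RLt q (p.1, x), by simp only [all_eq]; fun_prop⟩
    (fun x ih q => step _ _ fun x' k => step _ _ fun y _ => ih x' k _) p.2 q

theorem RLt.le (h : RLt p q) (hp : WF p.1) : RLe p q :=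
  (rle_or_rlt hp q).resolve_right fun ⟨y, k, k'⟩ => by
    have : RLt p p := ⟨y, k, (h.trans_le k').elim fun z j => j.2.trans ?_⟩
    · exact RLt.irrefl hp this
    exact hp ⟨fun y => ∀ z, (z, y) ∈ p.1 → RLe (p.1, z) (p.1, y), by
      simp only [all_eq, imp_eq]; fun_prop⟩ (fun y ih z k => rle_iff.2 fun x j => ⟨z, k, ih z k x j⟩)
      y z j.1

/-- The theorem of Hartogs. -/
theorem hartogs (x₀ : X) : ∃ (K : Type) (_ : Coded K) (r : K → K → Prop), WO r ∧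
    ∀ f : K → X, DefF f → ¬ Function.Injective f := by
  let dn : DSet ((X × Prop) × X × Prop) × X × Prop →
      DSet (DSet ((X × Prop) × X × Prop) × X × Prop) := fun p =>
    ⟨fun q => WF q.1 ∧ RLt q p, by fun_prop⟩
  have dd : DefF dn := by fun_prop
  let K := (⟨fun p => WF p.1, by fun_prop⟩ : DSet _).image dn dd
  have h1 : ∀ {p q}, RLe p q → dn p ≤ dn q := fun k _ k' => ⟨k'.1, k'.2.trans_le k⟩
  have h2 : ∀ {p q}, WF p.1 → RLt p q → dn p < dn q := fun {p q} hp k =>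
    (lt_iff_exists (h1 (k.le hp))).2 ⟨p, ⟨hp, k⟩, fun k => k.2.irrefl hp⟩
  have h3 : ∀ P : K → Prop, DefF P → (∀ C, (∀ D : K, D.1 < C.1 → P D) → P C) → ∀ C, P C := by
    rintro P hP H ⟨_, p, hp, rfl⟩
    refine RLt.ind (P := fun p => ∀ C : K, C.1 = dn p → P C)
      (by simp only [all_eq, imp_eq]; fun_prop) (fun p ih C e => H C ?_) hp _ rfl
    rintro ⟨_, q, hq, rfl⟩ k
    obtain ⟨o, k1, k2⟩ := exists_of_lt k
    rw [e] at k1
    exact ih q (k1.2.elim fun y j => ⟨y, j.1, ((rle_or_rlt hq o).resolve_right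
      fun k => k2 ⟨k1.1, k⟩).trans j.2⟩) _ rfl
  refine ⟨K, inferInstance, fun C D => C.1 < D.1, ⟨by fun_prop, ?_, lt_trans, fun S ⟨C, hC⟩ => ?_⟩,
    fun f df hf => ?_⟩
  · rintro ⟨_, p, hp, rfl⟩ ⟨_, q, hq, rfl⟩
    rcases rle_or_rlt hp q with k | k
    · exact (h1 k).lt_or_eq.imp_right fun e => Or.inl (Subtype.ext e)
    · exact Or.inr (Or.inr (h2 hq k))
  · by_contra h0
    exact h3 (fun C => C ∉ S) (by fun_prop) (fun C ih k => h0 ⟨C, k, fun D k' j => ih D j k'⟩) C hC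
  let w : DSet ((X × Prop) × X × Prop) := ⟨fun z => ∃ C, z.1 = (f C, False) ∧
    (z.2 = (x₀, True) ∨ ∃ D, z.2 = (f D, False) ∧ C.1 < D.1), by fun_prop⟩
  have hw : WF w := fun S hS => by
    have k : ∀ C, (f C, False) ∈ S := h3 _ (by fun_prop) fun C ih => hS _ (by
      rintro _ ⟨D, rfl, e | ⟨D', e, k⟩⟩
      · exact ((show False = True from (Prod.ext_iff.1 e).2).mpr trivial).elim
      · exact ih D (hf (Prod.ext_iff.1 e).1 ▸ k))
    exact fun a => hS a (by rintro _ ⟨D, rfl, -⟩; exact k D)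
  refine RLt.irrefl (p := (w, x₀, True)) hw ⟨(f ⟨_, (w, x₀, True), hw, rfl⟩, False),
    ⟨_, rfl, Or.inl rfl⟩, ⟨fun z => ∃ C : K, C.1 = dn (w, z.1) ∧ z.2 = (f C, False), by fun_prop⟩,
    ⟨_, rfl, rfl⟩, ?_⟩
  rintro x _ ⟨C, e, rfl⟩ x' k
  exact ⟨(f ⟨_, (w, x'), hw, rfl⟩, False), ⟨_, rfl, Or.inr ⟨C, rfl,
    e ▸ h2 hw ⟨x', k, RLe.refl _⟩⟩⟩, _, rfl, rfl⟩

end Pool.Agent.P.MP_e517ea_lc.Z
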